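import Pool.Agent.P.MP_c45a97_an.Good

/-! Averaging over rotations of the tree. -/

set_option linter.unusedSectionVars false

namespace Pool.Agent.P.MP_c45a97_an

open MeasureTheory

variable {κ : X → X → ℝ} {μ ν : Measure X} [IsFiniteMeasure μ] [IsFiniteMeasure ν] {C C' a : ℝ}
  {f g : X → ℝ}

lemma EE_shift (f : X → ℝ) (k m : ℕ) : EE μ (a + m * hh k) f k = EE μ a f k := by
  funext x
  have : box (a + m * hh k) k (idx (a + m * hh k) k x) = box a k (idx a k x) := by
    ext z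
    simp only [box, Set.mem_ofPred_eq, idx_shift_iff]
  simp only [EE, avg, this]

lemma DD_shift (f : X → ℝ) (k m : ℕ) : DD μ (a + m * hh k) f k = DD μ a f k := by
  funext x
  have e : a + m * hh k = a + ((m * MM : ℕ) : ℝ) * hh (k + 1) := by
    rw [hh_add k 1]
    push_cast
    ring
  have e1 : EE μ (a + m * hh k) f (k + 1) = EE μ a f (k + 1) := by rw [e, EE_shift]
  simp only [DD, EE_shift, e1]

open Classical in
noncomputable def bd (k j : ℕ) : ℝ := if good k j then 0 else 1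

lemma bd_sq (k j : ℕ) : bd k j ^ 2 = bd k j := by
  unfold bd
  split_ifs <;> norm_num

lemma bd_nonneg (k j : ℕ) : 0 ≤ bd k j := by
  unfold bd
  split_ifs <;> norm_num

lemma one_sub_bd_sq (k j : ℕ) : (1 - bd k j) ^ 2 ≤ 1 := by
  unfold bd
  split_ifs <;> norm_num

lemma sum_bd (k j : ℕ) :
    ∑ m ∈ Finset.range (MM ^ k), bd k ((j + m) % MM ^ k) ≤ (MM : ℝ) ^ k / 16 := by
  have h := sum_range_shift (F := fun m => bd k (m % MM ^ k)) (N := MM ^ k)
    (fun j => by simp only [Nat.add_mod_right]) j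
  simp only [add_comm j]
  rw [h, Finset.sum_congr rfl fun m hm => by rw [Nat.mod_eq_of_lt (Finset.mem_range.1 hm)]]
  exact count_bad k

noncomputable def DB (μ : Measure X) (a : ℝ) (f : X → ℝ) (k : ℕ) (x : X) : ℝ :=
  bd k (idx a k x) * DD μ a f k x

noncomputable def DG (μ : Measure X) (a : ℝ) (f : X → ℝ) (k : ℕ) (x : X) : ℝ :=
  (1 - bd k (idx a k x)) * DD μ a f k x

lemma DB_md (hf : Bdd f) (k : ℕ) : MD μ a k (DB μ a f k) :=
  (DD_md hf k).mul (Bdd.comp_idx (bd k) a k) (Cst.comp_idx (bd k) k)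

lemma DG_md (hf : Bdd f) (k : ℕ) : MD μ a k (DG μ a f k) :=
  (DD_md hf k).mul (Bdd.comp_idx (fun j => 1 - bd k j) a k) (Cst.comp_idx (fun j => 1 - bd k j) k)

lemma DG_good (k : ℕ) (x : X) (h : ¬ good k (idx a k x)) : DG μ a f k x = 0 := by
  simp [DG, bd, h]

lemma sum_DB (hf : Bdd f) {k n : ℕ} (hk : k ≤ n) :
    ∑ ω ∈ Finset.range (MM ^ n), nn μ (DB μ (a + ω * hh n) f k) ≤
      1 / 16 * ∑ ω ∈ Finset.range (MM ^ n), nn μ (DD μ (a + ω * hh n) f k) := by
  obtain ⟨s, rfl⟩ := Nat.exists_eq_add_of_le hk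
  set φ : ℕ → ℝ := fun ω => nn μ (DB μ (a + ω * hh (k + s)) f k) with hφ
  have e1 : ∀ ω m : ℕ, φ (ω + m * MM ^ s) = ∫ x, bd k ((idx (a + ω * hh (k + s)) k x + m) % MM ^ k) *
      DD μ (a + ω * hh (k + s)) f k x ^ 2 ∂μ := by
    intro ω m
    have e : a + ((ω + m * MM ^ s : ℕ) : ℝ) * hh (k + s) = a + ω * hh (k + s) + m * hh k := by
      rw [hh_add k s]
      push_cast
      ring
    simp only [hφ, nn, DB, e, DD_shift, idx_shift, mul_pow, bd_sq]
  have e2 : ∀ ω, φ (ω + MM ^ (k + s)) = φ ω := by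
    intro ω
    have h0 := e1 ω 0
    rw [zero_mul, add_zero] at h0
    rw [pow_add, e1, h0]
    simp only [Nat.add_mod_right, add_zero]
  have hM : (0 : ℝ) < (MM : ℝ) ^ k := pow_pos MMr_pos k
  refine le_of_mul_le_mul_left ?_ hM
  calc (MM : ℝ) ^ k * ∑ ω ∈ Finset.range (MM ^ (k + s)), φ ω
      = ∑ m ∈ Finset.range (MM ^ k), ∑ ω ∈ Finset.range (MM ^ (k + s)), φ (ω + m * MM ^ s) := by
        simp only [sum_range_shift e2, Finset.sum_const, Finset.card_range, nsmul_eq_mul]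
        push_cast
        rfl
    _ = ∑ ω ∈ Finset.range (MM ^ (k + s)), ∑ m ∈ Finset.range (MM ^ k), φ (ω + m * MM ^ s) :=
        Finset.sum_comm
    _ ≤ ∑ ω ∈ Finset.range (MM ^ (k + s)),
          (MM : ℝ) ^ k / 16 * nn μ (DD μ (a + ω * hh (k + s)) f k) := by
        refine Finset.sum_le_sum fun ω _ => ?_
        have hb : ∀ m ∈ Finset.range (MM ^ k), Bdd fun x =>
            bd k ((idx (a + ω * hh (k + s)) k x + m) % MM ^ k) *
              DD μ (a + ω * hh (k + s)) f k x ^ 2 := fun m _ =>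
          (Bdd.comp_idx (fun j => bd k ((j + m) % MM ^ k)) _ k).mul (DD_md hf k).bdd.sq
        simp only [e1]
        rw [← integral_finsetSum _ fun m hm => (hb m hm).integrable, nn, ← integral_const_mul]
        refine integral_mono (Bdd.sum hb).integrable
          ((DD_md hf k).bdd.sq.const_mul _).integrable fun x => ?_
        simp only
        rw [← Finset.sum_mul]
        exact mul_le_mul_of_nonneg_right (sum_bd k _) (sq_nonneg _)
    _ = _ := by
        rw [← Finset.mul_sum]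
        ring

lemma Cst.shift {n : ℕ} (h : Cst a n f) (m : ℕ) : Cst (a + m * hh n) n f :=
  fun x y hx hy e => h x y hx hy ((idx_shift_iff n m x y).1 e)

lemma Cst.unshift {n m : ℕ} (h : Cst (a + m * hh n) n f) : Cst a n f :=
  fun x y hx hy e => h x y hx hy ((idx_shift_iff n m x y).2 e)

noncomputable def gp (μ : Measure X) (a : ℝ) (f : X → ℝ) (n : ℕ) : X → ℝ :=
  ps (avg μ a f 0 0) (DG μ a f) n

noncomputable def bp (μ : Measure X) (a : ℝ) (f : X → ℝ) (n : ℕ) : X → ℝ :=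
  ps 0 (DB μ a f) n

lemma ps_DD_eq (hp : PosM μ) {n : ℕ} (hc : Cst a n f) :
    ps (avg μ a f 0 0) (DD μ a f) n = f := funext fun x => by rw [ps_DD, EE_of_cst hp hc]

lemma gp_add_bp (hp : PosM μ) {n : ℕ} (hc : Cst a n f) :
    f = fun x => gp μ a f n x + bp μ a f n x := by
  funext x
  conv_lhs => rw [← ps_DD_eq hp hc]
  simp only [gp, bp, ps, DG, DB, zero_add, add_assoc, ← Finset.sum_add_distrib]
  congr 1
  exact Finset.sum_congr rfl fun i _ => by ring

lemma nn_gp_le (hp : PosM μ) (hf : Bdd f) {n : ℕ} (hc : Cst a n f) :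
    nn μ (gp μ a f n) ≤ nn μ f := by
  conv_rhs => rw [← ps_DD_eq hp hc]
  rw [gp, nn_ps (DG_md hf), nn_ps (DD_md hf)]
  gcongr with k
  refine nn_mono (DD_md hf k).bdd fun x => ?_
  rw [DG, mul_pow]
  exact mul_le_of_le_one_left (sq_nonneg _) (one_sub_bd_sq _ _)

lemma sum_nn_bp (hp : PosM μ) (hf : Bdd f) {n : ℕ} (hc : Cst a n f) :
    ∑ ω ∈ Finset.range (MM ^ n), nn μ (bp μ (a + ω * hh n) f n) ≤
      (MM : ℝ) ^ n / 16 * nn μ f := by
  simp only [bp, nn_ps (DB_md hf), ne_eq, OfNat.ofNat_ne_zero, not_false_eq_true, zero_pow,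
    zero_mul, zero_add]
  rw [Finset.sum_comm]
  refine (Finset.sum_le_sum fun k hk => sum_DB hf (Finset.mem_range.1 hk).le).trans ?_
  rw [← Finset.mul_sum, Finset.sum_comm]
  have : ∑ ω ∈ Finset.range (MM ^ n), ∑ k ∈ Finset.range n, nn μ (DD μ (a + ω * hh n) f k) ≤
      ∑ ω ∈ Finset.range (MM ^ n), nn μ f := by
    refine Finset.sum_le_sum fun ω _ => ?_
    conv_rhs => rw [← ps_DD_eq hp (hc.shift ω)]
    exact sum_nn_le (DD_md hf) _ n
  rw [Finset.sum_const, Finset.card_range, nsmul_eq_mul] at this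
  push_cast at this
  linarith

/-- A bound of the form on functions constant on the boxes of level `n`. -/
def Bnd (κ : X → X → ℝ) (μ ν : Measure X) (n : ℕ) (N : ℝ) : Prop :=
  ∀ f g : X → ℝ, Bdd f → Bdd g → Cst 0 n f → Cst 0 n g → |BB κ μ ν f g| ≤ N * (nn μ f + nn ν g)

lemma Bnd.scale {n : ℕ} {N : ℝ} (h : Bnd κ μ ν n N) (hf : Bdd f) (hg : Bdd g) (hc : Cst 0 n f)
    (hd : Cst 0 n g) {t : ℝ} (ht' : t ≠ 0) :
    |BB κ μ ν f g| ≤ N * (t ^ 2 * nn μ f + t⁻¹ ^ 2 * nn ν g) := by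
  have := h _ _ (hf.const_mul t) (hg.const_mul t⁻¹) ((Cst.const n t).mul hc)
    ((Cst.const n t⁻¹).mul hd)
  rwa [BB_const_mul_left, BB_const_mul_right, ← mul_assoc, mul_inv_cancel₀ ht', one_mul,
    nn_const_mul, nn_const_mul] at this

lemma Hyp.bound (H : Hyp κ μ ν C) (H' : Hyp (fun ζ z => κ z ζ) ν μ C') :
    ∃ K : ℝ, 0 ≤ K ∧ ∀ n, Bnd κ μ ν n K := by
  obtain ⟨K, hK, hgood⟩ := H.good_bound H'
  refine ⟨2 * K, by positivity, fun n => ?_⟩
  have step : ∀ N, 0 ≤ N → Bnd κ μ ν n N → Bnd κ μ ν n (K + N / 2) := by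
    intro N hN h f g hf hg hc hd
    have n1 := nn_nonneg (μ := μ) f
    have n2 := nn_nonneg (μ := ν) g
    have key : ∀ ω ∈ Finset.range (MM ^ n), |BB κ μ ν f g| ≤
        (K + N / 4) * (nn μ f + nn ν g) + 4 * N * (nn μ (bp μ (0 + ω * hh n) f n)
          + nn ν (bp ν (0 + ω * hh n) g n)) := by
      intro ω _
      set a := (0 : ℝ) + ω * hh n with ha
      have hc' : Cst a n f := hc.shift ω
      have hd' : Cst a n g := hd.shift ω
      have b1 : Bdd (gp μ a f n) := ps_bdd (DG_md hf) _ n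
      have b2 : Bdd (bp μ a f n) := ps_bdd (DB_md hf) _ n
      have b3 : Bdd (gp ν a g n) := ps_bdd (DG_md hg) _ n
      have b4 : Bdd (bp ν a g n) := ps_bdd (DB_md hg) _ n
      have c1 : Cst 0 n (gp μ a f n) := Cst.unshift (m := ω) (ps_cst (DG_md hf) _ n)
      have c2 : Cst 0 n (bp μ a f n) := Cst.unshift (m := ω) (ps_cst (DB_md hf) _ n)
      have c4 : Cst 0 n (bp ν a g n) := Cst.unshift (m := ω) (ps_cst (DB_md hg) _ n)
      have e : BB κ μ ν f g = BB κ μ ν (gp μ a f n) (gp ν a g n)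
          + BB κ μ ν (gp μ a f n) (bp ν a g n) + BB κ μ ν (bp μ a f n) g := by
        rw [← H.toKer.BB_add_right b1 b3 b4, ← gp_add_bp H'.pos hd',
          ← H.toKer.BB_add_left b1 b2 hg, ← gp_add_bp H.pos hc']
      have m1 := nn_gp_le H.pos hf hc'
      have m2 := nn_gp_le H'.pos hg hd'
      have e1 : |BB κ μ ν (gp μ a f n) (gp ν a g n)| ≤ K * (nn μ f + nn ν g) :=
        (hgood a _ _ _ _ n (DG_md hf) (DG_md hg) DG_good DG_good).trans
          (mul_le_mul_of_nonneg_left (add_le_add m1 m2) hK)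
      have e2 := h.scale b1 b4 c1 c4 (t := 1 / 2) (by norm_num)
      have e3 := h.scale b2 hg c2 hd (t := 2) (by norm_num)
      rw [e]
      refine (abs_add_le _ _).trans ((add_le_add (abs_add_le _ _) le_rfl).trans ?_)
      nlinarith [mul_le_mul_of_nonneg_left m1 hN]
    have s := Finset.sum_le_sum key
    rw [Finset.sum_add_distrib, ← Finset.mul_sum _ _ (4 * N),
      Finset.sum_add_distrib (f := fun ω : ℕ => nn μ (bp μ (0 + ω * hh n) f n))] at s
    simp only [Finset.sum_const, Finset.card_range, nsmul_eq_mul] at s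
    push_cast at s
    have s1 := sum_nn_bp H.pos hf hc
    have s2 := sum_nn_bp H'.pos hg hd
    have hM : (0 : ℝ) < (MM : ℝ) ^ n := pow_pos MMr_pos n
    refine le_of_mul_le_mul_left ?_ hM
    nlinarith [mul_le_mul_of_nonneg_left (add_le_add s1 s2) hN]
  obtain ⟨N, hN, h0⟩ := H.root n
  have iter : ∀ t : ℕ, Bnd κ μ ν n (2 * K + N * (1 / 2) ^ t) := by
    intro t
    induction t with
    | zero =>
      intro f g hf hg hc _
      refine (h0 0 f g hf hg hc).trans (mul_le_mul_of_nonneg_right (by simpa using hK) ?_)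
      exact add_nonneg (nn_nonneg _) (nn_nonneg _)
    | succ t ih =>
      have := step _ (by positivity) ih
      convert this using 1
      ring
  intro f g hf hg hc hd
  have lim : Filter.Tendsto (fun t : ℕ => (2 * K + N * (1 / 2) ^ t) * (nn μ f + nn ν g))
      Filter.atTop (nhds ((2 * K + N * 0) * (nn μ f + nn ν g))) :=
    (((tendsto_pow_atTop_nhds_zero_of_lt_one (by norm_num) (by norm_num)).const_mul N).const_add
      _).mul_const _
  rw [mul_zero, add_zero] at lim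
  exact ge_of_tendsto' lim fun t => iter t f g hf hg hc hd

end Pool.Agent.P.MP_c45a97_an
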