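import Pool.Agent.P.MP_c45a97_an.Top

/-! Carleson-type estimates, absolute convergence of the form and the pivotal condition. -/

set_option linter.unusedSectionVars false

namespace Pool.Agent.P.MP_c45a97_an

open MeasureTheory
open scoped ENNReal

def TopC (μ ν : Measure X) (ε C : ℝ) : Prop :=
  0 ≤ C ∧ ∀ a ℓ : ℝ, 0 < ℓ → ℓ ≤ 1 → ∀ ζ₀ ∈ Sec a ℓ ℓ, ε * ℓ < ht ζ₀ →
      μ.real (Sec a ℓ ℓ ∩ {ζ | ε * ℓ < ht ζ}) * B4 ν ζ₀ ≤ C

noncomputable def lam (μ ν : Measure X) : Measure X :=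
  μ.withDensity (fun ζ => ENNReal.ofReal (ht ζ ^ 2 * B4 ν ζ))

noncomputable def AA (μ : Measure X) (K : Set X) (z : X) : ℝ :=
  ∫ ζ in K, ht ζ ^ 2 / dl z ζ ^ 4 ∂μ

variable {μ ν : Measure X} [IsFiniteMeasure μ] [IsFiniteMeasure ν] {T T' C : ℝ}

lemma measurable_dens : Measurable (fun ζ => ENNReal.ofReal (ht ζ ^ 2 * B4 ν ζ)) :=
  ((measurable_ht.pow_const 2).mul measurable_B4).ennreal_ofReal

omit [IsFiniteMeasure ν] in
lemma lam_top (h : TopC μ ν (1 / 2) C) {a ℓ : ℝ} (h0 : 0 < ℓ) (h1 : ℓ ≤ 1) :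
    lam μ ν (Sec a ℓ ℓ ∩ {ζ | 1 / 2 * ℓ < ht ζ}) ≤ ENNReal.ofReal (C * ℓ ^ 2) := by
  set U := Sec a ℓ ℓ ∩ {ζ | 1 / 2 * ℓ < ht ζ} with hUdef
  have hU : MeasurableSet U :=
    (measurableSet_Sec _ _ _).inter (measurableSet_lt measurable_const measurable_ht)
  unfold lam
  rw [withDensity_apply _ hU]
  by_cases hz : μ U = 0
  · rw [Measure.restrict_eq_zero.2 hz, lintegral_zero_measure]
    exact zero_le
  calc ∫⁻ ζ in U, ENNReal.ofReal (ht ζ ^ 2 * B4 ν ζ) ∂μ
      ≤ ∫⁻ _ζ in U, ENNReal.ofReal (C * ℓ ^ 2) / μ U ∂μ := by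
        refine setLIntegral_mono' hU fun ζ hζ => ?_
        rw [ENNReal.le_div_iff_mul_le (Or.inl hz) (Or.inl (measure_ne_top _ _)),
          ← ofReal_measureReal (measure_ne_top μ U),
          ← ENNReal.ofReal_mul (mul_nonneg (sq_nonneg _) (B4_nonneg ζ))]
        refine ENNReal.ofReal_le_ofReal ?_
        have e1 := h.2 a ℓ h0 h1 ζ hζ.1 hζ.2
        rw [← hUdef] at e1
        have e2 : ht ζ ^ 2 ≤ ℓ ^ 2 := pow_le_pow_left₀ (ht_pos ζ).le hζ.1.1 2
        have e3 : 0 ≤ μ.real U * B4 ν ζ := mul_nonneg measureReal_nonneg (B4_nonneg ζ)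
        calc ht ζ ^ 2 * B4 ν ζ * μ.real U = (μ.real U * B4 ν ζ) * ht ζ ^ 2 := by ring
          _ ≤ C * ℓ ^ 2 := mul_le_mul e1 e2 (sq_nonneg _) h.1
    _ ≤ _ := by
        rw [setLIntegral_const, ENNReal.div_mul_cancel hz (measure_ne_top _ _)]

lemma lam_box_aux (h : TopC μ ν (1 / 2) C) (m : ℕ) : ∀ a ℓ : ℝ, 0 < ℓ → ℓ ≤ 1 →
    lam μ ν (Sec a ℓ ℓ ∩ {ζ | ℓ / 2 ^ m < ht ζ}) ≤ ENNReal.ofReal (2 * C * ℓ ^ 2) := by
  have hC := h.1
  induction m with
  | zero =>
    intro a ℓ h0 h1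
    have : Sec a ℓ ℓ ∩ {ζ | ℓ / 2 ^ 0 < ht ζ} = ∅ := by
      refine Set.eq_empty_of_forall_notMem fun z hz => ?_
      have h2 := hz.1.1
      have h3 : ℓ / 2 ^ 0 < ht z := hz.2
      rw [pow_zero, div_one] at h3
      linarith
    rw [this, measure_empty]
    exact zero_le
  | succ m ih =>
    intro a ℓ h0 h1
    have hsub : Sec a ℓ ℓ ∩ {ζ | ℓ / 2 ^ (m + 1) < ht ζ} ⊆
        (Sec a ℓ ℓ ∩ {ζ | 1 / 2 * ℓ < ht ζ}) ∪
        ((Sec a (ℓ / 2) (ℓ / 2) ∩ {ζ | ℓ / 2 / 2 ^ m < ht ζ}) ∪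
          (Sec (a + ℓ / 2) (ℓ / 2) (ℓ / 2) ∩ {ζ | ℓ / 2 / 2 ^ m < ht ζ})) := by
      intro z hz
      by_cases hh : 1 / 2 * ℓ < ht z
      · exact Or.inl ⟨hz.1, hh⟩
      · right
        have h2 : ℓ / 2 / 2 ^ m < ht z := by
          have h3 : ℓ / 2 ^ (m + 1) < ht z := hz.2
          rwa [pow_succ', ← div_div] at h3
        have h4 : z ∈ Sec a (ℓ / 2 + ℓ / 2) (ℓ / 2) :=
          ⟨by linarith [not_lt.1 hh], by rw [add_halves]; exact hz.1.2⟩
        rw [Sec_union (by positivity) (by positivity) (by linarith)] at h4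
        rcases h4 with h4 | h4
        · exact Or.inl ⟨h4, h2⟩
        · exact Or.inr ⟨h4, h2⟩
    refine (measure_mono hsub).trans ((measure_union_le _ _).trans ?_)
    refine (add_le_add (lam_top h h0 h1) ((measure_union_le _ _).trans
      (add_le_add (ih a (ℓ / 2) (by positivity) (by linarith))
        (ih (a + ℓ / 2) (ℓ / 2) (by positivity) (by linarith))))).trans ?_
    rw [← ENNReal.ofReal_add (by positivity) (by positivity),
      ← ENNReal.ofReal_add (by positivity) (by positivity)]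
    exact ENNReal.ofReal_le_ofReal (le_of_eq (by ring))

lemma lam_box (h : TopC μ ν (1 / 2) C) {a ℓ : ℝ} (h0 : 0 < ℓ) (h1 : ℓ ≤ 1) :
    lam μ ν (Sec a ℓ ℓ) ≤ ENNReal.ofReal (2 * C * ℓ ^ 2) := by
  have e : Sec a ℓ ℓ = ⋃ m : ℕ, Sec a ℓ ℓ ∩ {ζ | ℓ / 2 ^ m < ht ζ} := by
    ext z
    simp only [Set.mem_iUnion, Set.mem_inter_iff, Set.mem_ofPred_eq]
    constructor
    · intro hz
      obtain ⟨m, hm⟩ := pow_unbounded_of_one_lt (ℓ / ht z) (by norm_num : (1 : ℝ) < 2)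
      refine ⟨m, hz, ?_⟩
      rw [div_lt_iff₀ (ht_pos z)] at hm
      rw [div_lt_iff₀ (by positivity)]
      linarith
    · rintro ⟨m, hz, -⟩
      exact hz
  rw [e, Monotone.measure_iUnion]
  · exact iSup_le fun m => lam_box_aux h m a ℓ h0 h1
  · intro m n hmn z hz
    have h2 : ℓ / 2 ^ m < ht z := hz.2
    have h3 : ℓ / 2 ^ n ≤ ℓ / 2 ^ m := by
      gcongr
      norm_num
    exact ⟨hz.1, lt_of_le_of_lt h3 h2⟩

lemma lam_univ (h : TopC μ ν (1 / 2) C) : lam μ ν Set.univ ≤ ENNReal.ofReal (2 * C) := by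
  have := lam_box h (a := 0) one_pos le_rfl
  rwa [Sec_univ, one_pow, mul_one] at this

lemma lam_ball (h : TopC μ ν (1 / 2) C) (ζ' : X) {R : ℝ} (hR : 0 < R) :
    lam μ ν {ζ | dl ζ ζ' < R} ≤ ENNReal.ofReal (8 * C * R ^ 2) := by
  have hC := h.1
  rcases le_total (2 * R) 1 with h1 | h1
  · refine le_trans (measure_mono fun z hz => ?_)
      ((lam_box h (a := ang ζ' - R) (ℓ := 2 * R) (by positivity) h1).trans
        (ENNReal.ofReal_le_ofReal (le_of_eq (by ring))))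
    exact Sec_mono le_rfl (by linarith) (mem_Sec_of_dl_lt hz)
  · refine (measure_mono (Set.subset_univ _)).trans ((lam_univ h).trans
      (ENNReal.ofReal_le_ofReal ?_))
    have : 1 ≤ 4 * R ^ 2 := by nlinarith
    nlinarith

lemma carleson (h : TopC μ ν (1 / 2) C) (ζ' : X) :
    ∫⁻ ζ, ENNReal.ofReal (1 / dl ζ ζ' ^ 4) ∂(lam μ ν) ≤ ENNReal.ofReal (64 * C / ht ζ' ^ 2) := by
  have hC := h.1
  have hh := ht_pos ζ'
  have hm : ∀ m : ℕ, MeasurableSet {ζ | dl ζ ζ' < 2 ^ (m + 1) * ht ζ'} := fun m =>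
    measurableSet_lt (measurable_dl_left ζ') measurable_const
  calc ∫⁻ ζ, ENNReal.ofReal (1 / dl ζ ζ' ^ 4) ∂(lam μ ν)
      ≤ ∫⁻ ζ, ∑' m : ℕ, {ζ | dl ζ ζ' < 2 ^ (m + 1) * ht ζ'}.indicator
          (fun _ => ENNReal.ofReal (1 / (2 ^ m * ht ζ') ^ 4)) ζ ∂(lam μ ν) := by
        refine lintegral_mono fun ζ => ?_
        obtain ⟨m, hm1, hm2⟩ := exists_nat_pow_near (x := dl ζ ζ' / ht ζ') (y := 2)
          (by rw [one_le_div hh]; exact ht_le_dl' ζ ζ') (by norm_num)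
        rw [le_div_iff₀ hh] at hm1
        rw [div_lt_iff₀ hh] at hm2
        refine le_trans ?_ (ENNReal.le_tsum m)
        rw [Set.indicator_of_mem (by exact hm2)]
        exact ENNReal.ofReal_le_ofReal (inv_pow_dl_le (by positivity) hm1 4)
    _ = ∑' m : ℕ, ENNReal.ofReal (1 / (2 ^ m * ht ζ') ^ 4) *
          lam μ ν {ζ | dl ζ ζ' < 2 ^ (m + 1) * ht ζ'} := by
        rw [lintegral_tsum fun m => (measurable_const.indicator (hm m)).aemeasurable]
        refine tsum_congr fun m => ?_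
        rw [lintegral_indicator (hm m), setLIntegral_const]
    _ ≤ ∑' m : ℕ, ENNReal.ofReal (32 * C / ht ζ' ^ 2 * (1 / 2) ^ m) := by
        refine ENNReal.tsum_le_tsum fun m => ?_
        refine (mul_le_mul_right (lam_ball h ζ' (by positivity)) _).trans ?_
        rw [← ENNReal.ofReal_mul (by positivity)]
        refine ENNReal.ofReal_le_ofReal ?_
        have e : 1 / (2 ^ m * ht ζ') ^ 4 * (8 * C * (2 ^ (m + 1) * ht ζ') ^ 2)
            = 32 * C / ht ζ' ^ 2 * ((1 / 2) ^ m * (1 / 2) ^ m) := by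
          rw [one_div_pow]
          field_simp
          ring
        rw [e]
        have : (1 / 2 : ℝ) ^ m ≤ 1 := pow_le_one₀ (by norm_num) (by norm_num)
        have : (0 : ℝ) < (1 / 2) ^ m := by positivity
        gcongr
        nlinarith
    _ = ENNReal.ofReal (64 * C / ht ζ' ^ 2) := by
        rw [← ENNReal.ofReal_tsum_of_nonneg (fun m => by positivity)
          (summable_geometric_two.mul_left _), tsum_mul_left, tsum_geometric_two]
        congr 1
        ring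

lemma measurable_AAker : Measurable (fun p : X × X => ht p.2 ^ 2 / dl p.1 p.2 ^ 4) :=
  ((measurable_ht.comp measurable_snd).pow_const 2).div (measurable_dl.pow_const 4)

lemma integrable_AAker (z : X) : Integrable (fun ζ => ht ζ ^ 2 / dl z ζ ^ 4) μ := by
  refine (integrable_inv_dl_right z 4).mono'
    ((measurable_ht.pow_const 2).div ((measurable_dl_right z).pow_const 4)).aestronglyMeasurable
    (Filter.Eventually.of_forall fun ζ => ?_)
  have h1 := dl_pos z ζ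
  have h2 := ht_pos ζ
  have h3 := ht_lt_one ζ
  rw [Real.norm_eq_abs, abs_of_nonneg (by positivity)]
  gcongr
  nlinarith

omit [IsFiniteMeasure μ] in
lemma AA_nonneg (K : Set X) (z : X) : 0 ≤ AA μ K z :=
  integral_nonneg fun ζ => by have := dl_pos z ζ; positivity

lemma measurable_AA (K : Set X) : Measurable (AA μ K) :=
  (MeasureTheory.StronglyMeasurable.integral_prod_right (ν := μ.restrict K)
    (f := fun z ζ => ht ζ ^ 2 / dl z ζ ^ 4) measurable_AAker.stronglyMeasurable).measurable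

lemma ofReal_AA (K : Set X) (z : X) :
    ENNReal.ofReal (AA μ K z) = ∫⁻ ζ in K, ENNReal.ofReal (ht ζ ^ 2 / dl z ζ ^ 4) ∂μ :=
  ofReal_integral_eq_lintegral_ofReal (integrable_AAker z).integrableOn
    (Filter.Eventually.of_forall fun ζ => by have := dl_pos z ζ; positivity)

lemma ofReal_B4 (ζ : X) :
    ENNReal.ofReal (B4 ν ζ) = ∫⁻ z, ENNReal.ofReal (1 / dl z ζ ^ 4) ∂ν :=
  ofReal_integral_eq_lintegral_ofReal (integrable_inv_dl_left ζ 4)
    (Filter.Eventually.of_forall fun z => by have := dl_pos z ζ; positivity)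

lemma three_point (z ζ ζ' : X) :
    ht ζ ^ 2 / dl z ζ ^ 4 * (ht ζ' ^ 2 / dl z ζ' ^ 4) ≤
      16 * (ht ζ ^ 2 * ht ζ' ^ 2 / dl ζ ζ' ^ 4) * (1 / dl z ζ ^ 4)
      + 16 * (ht ζ ^ 2 * ht ζ' ^ 2 / dl ζ ζ' ^ 4) * (1 / dl z ζ' ^ 4) := by
  have h1 := dl_pos z ζ
  have h2 := dl_pos z ζ'
  have h3 := dl_pos ζ ζ'
  have h4 := dl_triangle z ζ ζ'
  set a := dl z ζ
  set b := dl z ζ'
  set D := dl ζ ζ'
  have h5 : D ^ 4 ≤ 16 * (a ^ 4 + b ^ 4) := by
    rcases le_total a b with h | h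
    · have : D ^ 4 ≤ (2 * b) ^ 4 := pow_le_pow_left₀ h3.le (by linarith) 4
      nlinarith [pow_pos h1 4]
    · have : D ^ 4 ≤ (2 * a) ^ 4 := pow_le_pow_left₀ h3.le (by linarith) 4
      nlinarith [pow_pos h2 4]
  have e : 16 * (ht ζ ^ 2 * ht ζ' ^ 2 / D ^ 4) * (1 / a ^ 4)
      + 16 * (ht ζ ^ 2 * ht ζ' ^ 2 / D ^ 4) * (1 / b ^ 4)
      = ht ζ ^ 2 / a ^ 4 * (ht ζ' ^ 2 / b ^ 4) * (16 * (a ^ 4 + b ^ 4) / D ^ 4) := by
    field_simp
    ring
  rw [e]
  refine le_mul_of_one_le_right (by positivity) ?_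
  rwa [one_le_div (by positivity)]

lemma half_AA (h : TopC μ ν (1 / 2) C) (K : Set X) (ζ' : X) :
    ∫⁻ ζ in K, ENNReal.ofReal (16 * (ht ζ ^ 2 * ht ζ' ^ 2 / dl ζ ζ' ^ 4)) *
      ENNReal.ofReal (B4 ν ζ) ∂μ ≤ ENNReal.ofReal (1024 * C) := by
  have hC := h.1
  have hh := ht_pos ζ'
  have hmeas : Measurable fun ζ => ENNReal.ofReal (1 / dl ζ ζ' ^ 4) :=
    (((measurable_dl_left ζ').pow_const 4).const_div 1).ennreal_ofReal
  calc _ ≤ ∫⁻ ζ, ENNReal.ofReal (16 * (ht ζ ^ 2 * ht ζ' ^ 2 / dl ζ ζ' ^ 4)) *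
        ENNReal.ofReal (B4 ν ζ) ∂μ := setLIntegral_le_lintegral _ _
    _ = ∫⁻ ζ, ENNReal.ofReal (16 * ht ζ' ^ 2) * (ENNReal.ofReal (ht ζ ^ 2 * B4 ν ζ) *
        ENNReal.ofReal (1 / dl ζ ζ' ^ 4)) ∂μ := by
        refine lintegral_congr fun ζ => ?_
        have := dl_pos ζ ζ'
        have := B4_nonneg (ν := ν) ζ
        rw [← ENNReal.ofReal_mul (by positivity), ← ENNReal.ofReal_mul (by positivity),
          ← ENNReal.ofReal_mul (by positivity)]
        congr 1
        ring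
    _ = ENNReal.ofReal (16 * ht ζ' ^ 2) *
        ∫⁻ ζ, ENNReal.ofReal (1 / dl ζ ζ' ^ 4) ∂(lam μ ν) := by
        rw [lintegral_const_mul _ (by fun_prop), lam,
          lintegral_withDensity_eq_lintegral_mul _ measurable_dens hmeas]
        rfl
    _ ≤ ENNReal.ofReal (16 * ht ζ' ^ 2) * ENNReal.ofReal (64 * C / ht ζ' ^ 2) := by
        gcongr
        exact carleson h ζ'
    _ = _ := by
        rw [← ENNReal.ofReal_mul (by positivity)]
        congr 1
        field_simp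
        ring

lemma AA_sq (h : TopC μ ν (1 / 2) C) (K : Set X) :
    ∫⁻ z, ENNReal.ofReal (AA μ K z ^ 2) ∂ν ≤ ENNReal.ofReal (2048 * C) * μ K := by
  have hC := h.1
  set κ : X → X → ℝ≥0∞ := fun ζ ζ' => ENNReal.ofReal (16 * (ht ζ ^ 2 * ht ζ' ^ 2 / dl ζ ζ' ^ 4))
    with hκ
  set β : X → X → ℝ≥0∞ := fun z ζ => ENNReal.ofReal (1 / dl z ζ ^ 4) with hβ
  have κsymm : ∀ ζ ζ', κ ζ ζ' = κ ζ' ζ := fun ζ ζ' => by
    simp only [hκ]
    rw [dl_comm, mul_comm (ht ζ ^ 2)]
  set μK := μ.restrict K with hμK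
  have m1 : Measurable (fun q : X × (X × X) =>
      κ q.2.1 q.2.2 * β q.1 q.2.1 + κ q.2.1 q.2.2 * β q.1 q.2.2) := by
    simp only [hκ, hβ]
    fun_prop
  have m2 : Measurable (fun p : X × X => κ p.1 p.2 * ENNReal.ofReal (B4 ν p.1)) := by
    simp only [hκ]
    fun_prop
  have m3 : Measurable (fun p : X × X => κ p.1 p.2 * ENNReal.ofReal (B4 ν p.2)) := by
    simp only [hκ]
    fun_prop
  calc ∫⁻ z, ENNReal.ofReal (AA μ K z ^ 2) ∂ν
      ≤ ∫⁻ z, ∫⁻ p : X × X, (κ p.1 p.2 * β z p.1 + κ p.1 p.2 * β z p.2) ∂(μK.prod μK) ∂ν := by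
        refine lintegral_mono fun z => ?_
        have mz : Measurable fun ζ => ENNReal.ofReal (ht ζ ^ 2 / dl z ζ ^ 4) :=
          ((measurable_ht.pow_const 2).div ((measurable_dl_right z).pow_const 4)).ennreal_ofReal
        rw [sq, ENNReal.ofReal_mul (AA_nonneg K z), ofReal_AA, ← hμK,
          ← lintegral_prod_mul mz.aemeasurable mz.aemeasurable]
        refine lintegral_mono fun p => ?_
        have := dl_pos z p.1
        have := dl_pos z p.2
        have := dl_pos p.1 p.2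
        simp only [hκ, hβ]
        rw [← ENNReal.ofReal_mul (by positivity), ← ENNReal.ofReal_mul (by positivity),
          ← ENNReal.ofReal_mul (by positivity), ← ENNReal.ofReal_add (by positivity) (by positivity)]
        exact ENNReal.ofReal_le_ofReal (three_point z p.1 p.2)
    _ = ∫⁻ p : X × X, ∫⁻ z, (κ p.1 p.2 * β z p.1 + κ p.1 p.2 * β z p.2) ∂ν ∂(μK.prod μK) :=
        lintegral_lintegral_swap m1.aemeasurable
    _ = ∫⁻ p : X × X, (κ p.1 p.2 * ENNReal.ofReal (B4 ν p.1)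
          + κ p.1 p.2 * ENNReal.ofReal (B4 ν p.2)) ∂(μK.prod μK) := by
        refine lintegral_congr fun p => ?_
        have mz : ∀ ζ, Measurable fun z => β z ζ := fun ζ =>
          (((measurable_dl_left ζ).pow_const 4).const_div 1).ennreal_ofReal
        rw [lintegral_add_left ((mz p.1).const_mul _), lintegral_const_mul _ (mz p.1),
          lintegral_const_mul _ (mz p.2), ofReal_B4, ofReal_B4]
    _ = ∫⁻ ζ', ∫⁻ ζ, κ ζ ζ' * ENNReal.ofReal (B4 ν ζ) ∂μK ∂μK
          + ∫⁻ ζ, ∫⁻ ζ', κ ζ' ζ * ENNReal.ofReal (B4 ν ζ') ∂μK ∂μK := by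
        rw [lintegral_add_left m2, lintegral_prod_symm _ m2.aemeasurable,
          lintegral_prod _ m3.aemeasurable]
        congr 1
        refine lintegral_congr fun ζ => lintegral_congr fun ζ' => ?_
        rw [κsymm ζ' ζ]
    _ ≤ ∫⁻ _ζ', ENNReal.ofReal (1024 * C) ∂μK + ∫⁻ _ζ, ENNReal.ofReal (1024 * C) ∂μK :=
        add_le_add (lintegral_mono fun ζ' => half_AA h K ζ')
          (lintegral_mono fun ζ' => half_AA h K ζ')
    _ = _ := by
        rw [lintegral_const, hμK, Measure.restrict_apply_univ, ← add_mul,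
          ← ENNReal.ofReal_add (by positivity) (by positivity)]
        congr 2
        ring

lemma integrable_AA_sq (h : TopC μ ν (1 / 2) C) (K : Set X) :
    Integrable (fun z => AA μ K z ^ 2) ν := by
  refine ⟨((measurable_AA K).pow_const 2).aestronglyMeasurable, ?_⟩
  rw [hasFiniteIntegral_iff_ofReal (Filter.Eventually.of_forall fun z => sq_nonneg _)]
  exact (AA_sq h K).trans_lt (ENNReal.mul_lt_top ENNReal.ofReal_lt_top (measure_lt_top _ _))

lemma integral_AA_sq (h : TopC μ ν (1 / 2) C) (K : Set X) :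
    ∫ z, AA μ K z ^ 2 ∂ν ≤ 2048 * C * μ.real K := by
  have hC := h.1
  rw [← ENNReal.ofReal_le_ofReal_iff (by positivity), ofReal_integral_eq_lintegral_ofReal
    (integrable_AA_sq h K) (Filter.Eventually.of_forall fun z => sq_nonneg _),
    ENNReal.ofReal_mul (by positivity), ofReal_measureReal (measure_ne_top _ _)]
  exact AA_sq h K

lemma star_int {S : Set X} (hS : MeasurableSet S) (z : X) :
    ∫ ζ in S, 1 / dl z ζ ^ 2 ∂μ ≤ ‖PS μ S z‖ + μ.real S
      + ∫ ζ in S, 8 * ht z ^ 2 / dl z ζ ^ 4 ∂μ + 8 * AA μ S z := by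
  have i1 : Integrable (fun ζ => -(ker z ζ).re) (μ.restrict S) :=
    (integrable_ker z).integrableOn.re.neg
  have i2 : Integrable (fun ζ => 8 * ht z ^ 2 / dl z ζ ^ 4) (μ.restrict S) := by
    have := ((integrable_inv_dl_right (μ := μ) z 4).const_mul (8 * ht z ^ 2)).integrableOn (s := S)
    simp only [mul_one_div] at this
    exact this
  have i3 : Integrable (fun ζ => 8 * (ht ζ ^ 2 / dl z ζ ^ 4)) (μ.restrict S) :=
    ((integrable_AAker z).const_mul 8).integrableOn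
  have i0 : Integrable (fun _ : X => (1 : ℝ)) (μ.restrict S) := integrable_const _
  calc ∫ ζ in S, 1 / dl z ζ ^ 2 ∂μ ≤ ∫ ζ in S, (-(ker z ζ).re + 1 + 8 * ht z ^ 2 / dl z ζ ^ 4
        + 8 * (ht ζ ^ 2 / dl z ζ ^ 4)) ∂μ := by
        refine setIntegral_mono_on (integrable_inv_dl_right z 2).integrableOn
          (((i1.add i0).add i2).add i3) hS fun ζ _ => ?_
        rw [← mul_div_assoc]
        exact star_ineq z ζ
    _ = -(PS μ S z).re + μ.real S + ∫ ζ in S, 8 * ht z ^ 2 / dl z ζ ^ 4 ∂μ + 8 * AA μ S z := by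
        rw [integral_add (f := fun ζ => -(ker z ζ).re + 1 + 8 * ht z ^ 2 / dl z ζ ^ 4)
          ((i1.add i0).add i2) i3, integral_add (f := fun ζ => -(ker z ζ).re + 1) (i1.add i0) i2,
          integral_add i1 i0, integral_neg, integral_const_mul]
        have : ∫ ζ in S, (ker z ζ).re ∂μ = (PS μ S z).re :=
          integral_re (integrable_ker (μ := μ) z).integrableOn
        rw [this]
        simp [AA]
    _ ≤ _ := by
        have := Complex.abs_re_le_norm (PS μ S z)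
        have := neg_abs_le (PS μ S z).re
        linarith

lemma integrable_prod_inv_dl (hT : Test μ ν T) (h : TopC μ ν (1 / 2) C) {C' : ℝ}
    (h' : TopC ν μ (1 / 2) C') :
    Integrable (fun p : X × X => 1 / dl p.1 p.2 ^ 2) (ν.prod μ) := by
  have m : Measurable (fun p : X × X => 1 / dl p.1 p.2 ^ 2) :=
    (measurable_dl.pow_const 2).const_div 1
  rw [integrable_prod_iff m.aestronglyMeasurable]
  refine ⟨Filter.Eventually.of_forall fun z => integrable_inv_dl_right z 2, ?_⟩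
  have i1 := (hT.2 0 1 one_pos le_rfl).1
  rw [Sec_univ] at i1
  have i2 := integrable_AA_sq h Set.univ
  have i3 : Integrable (fun z => ht z ^ 2 * B4 μ z) ν := by
    refine ⟨((measurable_ht.pow_const 2).mul measurable_B4).aestronglyMeasurable, ?_⟩
    rw [hasFiniteIntegral_iff_ofReal (Filter.Eventually.of_forall fun z =>
      mul_nonneg (sq_nonneg _) (B4_nonneg z))]
    have := lam_univ h'
    rw [lam, withDensity_apply _ MeasurableSet.univ, Measure.restrict_univ] at this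
    exact this.trans_lt ENNReal.ofReal_lt_top
  refine ((((i1.add (integrable_const (9 + μ.real Set.univ))).add (i3.const_mul 8)).add
    (i2.const_mul 8)).mono' m.norm.stronglyMeasurable.integral_prod_right'.aestronglyMeasurable
      (Filter.Eventually.of_forall fun z => ?_))
  have e1 : ∫ ζ, ‖1 / dl z ζ ^ 2‖ ∂μ = ∫ ζ in Set.univ, 1 / dl z ζ ^ 2 ∂μ := by
    rw [Measure.restrict_univ]
    refine integral_congr_ae (Filter.Eventually.of_forall fun ζ => ?_)
    have := dl_pos z ζ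
    exact abs_of_pos (by positivity)
  have e2 := star_int (μ := μ) MeasurableSet.univ z
  have e3 : ∫ ζ in Set.univ, 8 * ht z ^ 2 / dl z ζ ^ 4 ∂μ = 8 * (ht z ^ 2 * B4 μ z) := by
    rw [Measure.restrict_univ, B4, ← mul_assoc, ← integral_const_mul]
    refine integral_congr_ae (Filter.Eventually.of_forall fun ζ => ?_)
    simp only
    rw [dl_comm, mul_one_div]
  rw [Real.norm_eq_abs, abs_of_nonneg (integral_nonneg fun _ => norm_nonneg _), e1]
  simp only [Pi.add_apply]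
  nlinarith [sq_nonneg (‖PS μ Set.univ z‖ - 1), sq_nonneg (AA μ Set.univ z - 1),
    sq_nonneg (AA μ Set.univ z), sq_nonneg ‖PS μ Set.univ z‖]

/-- The positive operator applied to the indicator of a set. -/
noncomputable def pp (μ : Measure X) (S : Set X) (z : X) : ℝ := ∫ ζ in S, 1 / dl z ζ ^ 2 ∂μ

omit [IsFiniteMeasure μ] in
lemma pp_nonneg (S : Set X) (z : X) : 0 ≤ pp μ S z :=
  integral_nonneg fun ζ => by have := dl_pos z ζ; positivity

lemma measurable_pp (S : Set X) : Measurable (pp μ S) :=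
  (MeasureTheory.StronglyMeasurable.integral_prod_right (ν := μ.restrict S)
    (f := fun z ζ => 1 / dl z ζ ^ 2)
    ((measurable_dl.pow_const 2).const_div 1).stronglyMeasurable).measurable

lemma pp_sq_le {K Q : Set X} (hK : MeasurableSet K) (hQ : MeasurableSet Q) (hQK : Q ⊆ K) {z : X}
    (hz : ∀ ζ, ζ ∉ Q → 4 * ht z ≤ dl z ζ) :
    pp μ (K \ Q) z ^ 2 ≤ (16 * ‖PS μ K z‖ ^ 2 + 16 * μ.real K ^ 2 + 1024 * AA μ K z ^ 2)
      + 16 * ‖PS μ Q z‖ ^ 2 := by
  have e1 := star_int (μ := μ) (hK.diff hQ) z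
  have e2 : ∫ ζ in K \ Q, 8 * ht z ^ 2 / dl z ζ ^ 4 ∂μ ≤ 1 / 2 * pp μ (K \ Q) z := by
    rw [pp, ← integral_const_mul]
    have i2 : Integrable (fun ζ => 8 * ht z ^ 2 / dl z ζ ^ 4) (μ.restrict (K \ Q)) := by
      have := ((integrable_inv_dl_right (μ := μ) z 4).const_mul
        (8 * ht z ^ 2)).integrableOn (s := K \ Q)
      simp only [mul_one_div] at this
      exact this
    refine setIntegral_mono_on i2 ((integrable_inv_dl_right z 2).const_mul _).integrableOn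
      (hK.diff hQ) fun ζ hζ => ?_
    have h1 := hz ζ hζ.2
    have h2 := dl_pos z ζ
    have h3 := ht_pos z
    have h4 : (4 * ht z) ^ 2 ≤ dl z ζ ^ 2 := by gcongr
    rw [div_le_iff₀ (by positivity)]
    have : 1 / 2 * (1 / dl z ζ ^ 2) * dl z ζ ^ 4 = dl z ζ ^ 2 / 2 := by field_simp
    rw [this]
    nlinarith
  have e3 : ‖PS μ (K \ Q) z‖ ≤ ‖PS μ K z‖ + ‖PS μ Q z‖ := by
    have := PS_union (μ := μ) (S := K \ Q) (S' := Q) Set.disjoint_sdiff_left hQ z
    rw [Set.sdiff_union_of_subset hQK] at this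
    rw [show PS μ (K \ Q) z = PS μ K z - PS μ Q z by rw [this]; ring]
    exact norm_sub_le _ _
  have e4 : μ.real (K \ Q) ≤ μ.real K := measureReal_mono Set.sdiff_subset
  have e5 : AA μ (K \ Q) z ≤ AA μ K z :=
    setIntegral_mono_set (integrable_AAker z).integrableOn
      (Filter.Eventually.of_forall fun ζ => by have := dl_pos z ζ; positivity)
      Set.sdiff_subset.eventuallyLE
  have e6 : pp μ (K \ Q) z ≤ 2 * ‖PS μ K z‖ + 2 * ‖PS μ Q z‖ + 2 * μ.real K + 16 * AA μ K z := by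
    unfold pp at e2 ⊢
    linarith
  have e7 := pow_le_pow_left₀ (pp_nonneg (K \ Q) z) e6 2
  set a := ‖PS μ K z‖
  set b := ‖PS μ Q z‖
  set c := μ.real K
  set d := AA μ K z
  nlinarith [sq_nonneg (a - b), sq_nonneg (a - c), sq_nonneg (a - 8 * d), sq_nonneg (b - c),
    sq_nonneg (b - 8 * d), sq_nonneg (c - 8 * d)]

/-- The pivotal condition. -/
lemma pivotal (hT : Test μ ν T) (h : TopC μ ν (1 / 2) C) {ι : Type} (s : Finset ι) {a ℓ : ℝ}
    (h0 : 0 < ℓ) (h1 : ℓ ≤ 1) (b l : ι → ℝ) (hl : ∀ i ∈ s, 0 < l i ∧ l i ≤ 1)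
    (hsub : ∀ i ∈ s, Sec (b i) (l i) (l i) ⊆ Sec a ℓ ℓ)
    (hdis : (s : Set ι).PairwiseDisjoint fun i => Sec (b i) (l i) (l i))
    (Ω : ι → Set X) (hΩ : ∀ i, MeasurableSet (Ω i)) (hΩs : ∀ i ∈ s, Ω i ⊆ Sec (b i) (l i) (l i))
    (hsep : ∀ i ∈ s, ∀ z ∈ Ω i, ∀ ζ, ζ ∉ Sec (b i) (l i) (l i) → 4 * ht z ≤ dl z ζ) :
    ∑ i ∈ s, ∫ z in Ω i, pp μ (Sec a ℓ ℓ \ Sec (b i) (l i) (l i)) z ^ 2 ∂ν ≤
      (32 * T + 16 * (μ.real Set.univ * ν.real Set.univ) + 1024 * (2048 * C))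
        * μ.real (Sec a ℓ ℓ) := by
  have hT0 := hT.1
  obtain ⟨iK, bK⟩ := hT.2 a ℓ h0 h1
  set K := Sec a ℓ ℓ with hK
  set g : X → ℝ := fun z => 16 * ‖PS μ K z‖ ^ 2 + 16 * μ.real K ^ 2 + 1024 * AA μ K z ^ 2 with hg
  have ig : Integrable g ν :=
    ((iK.const_mul 16).add (integrable_const _)).add ((integrable_AA_sq h K).const_mul 1024)
  have e1 : ∀ i ∈ s, ∫ z in Ω i, pp μ (K \ Sec (b i) (l i) (l i)) z ^ 2 ∂ν ≤
      ∫ z in Ω i, g z ∂ν + 16 * (T * μ.real (Sec (b i) (l i) (l i))) := by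
    intro i hi
    obtain ⟨iQ, bQ⟩ := hT.2 (b i) (l i) (hl i hi).1 (hl i hi).2
    calc _ ≤ ∫ z in Ω i, (g z + 16 * ‖PS μ (Sec (b i) (l i) (l i)) z‖ ^ 2) ∂ν := by
          refine integral_mono_of_nonneg (Filter.Eventually.of_forall fun z => sq_nonneg _)
            (ig.add (iQ.const_mul 16)).integrableOn ?_
          refine (ae_restrict_iff' (hΩ i)).2 (Filter.Eventually.of_forall fun z hz => ?_)
          exact pp_sq_le (measurableSet_Sec _ _ _) (measurableSet_Sec _ _ _) (hsub i hi)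
            (hsep i hi z hz)
      _ = ∫ z in Ω i, g z ∂ν + 16 * ∫ z in Ω i, ‖PS μ (Sec (b i) (l i) (l i)) z‖ ^ 2 ∂ν := by
          rw [integral_add ig.integrableOn (iQ.const_mul 16).integrableOn, integral_const_mul]
      _ ≤ _ := by
          gcongr
          exact (setIntegral_le_integral iQ
            (Filter.Eventually.of_forall fun z => by positivity)).trans bQ
  have e2 : ∑ i ∈ s, ∫ z in Ω i, g z ∂ν ≤ ∫ z, g z ∂ν := by
    rw [← integral_biUnion_finset s (fun i _ => hΩ i)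
      (fun i hi j hj hij => (hdis hi hj hij).mono (hΩs i hi) (hΩs j hj))
      (fun i _ => ig.integrableOn)]
    exact setIntegral_le_integral ig (Filter.Eventually.of_forall fun z => by
      simp only [hg]; positivity)
  have e3 : ∑ i ∈ s, μ.real (Sec (b i) (l i) (l i)) ≤ μ.real K := by
    rw [← measureReal_biUnion_finset hdis (fun i _ => measurableSet_Sec _ _ _)]
    exact measureReal_mono (Set.iUnion₂_subset hsub)
  have e4 : ∫ z, g z ∂ν ≤ 16 * (T * μ.real K) + 16 * (μ.real K ^ 2 * ν.real Set.univ)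
      + 1024 * (2048 * C * μ.real K) := by
    simp only [hg]
    rw [integral_add (f := fun z => 16 * ‖PS μ K z‖ ^ 2 + 16 * μ.real K ^ 2)
      ((iK.const_mul 16).add (integrable_const _)) ((integrable_AA_sq h K).const_mul 1024),
      integral_add (iK.const_mul 16) (integrable_const _), integral_const_mul, integral_const_mul,
      integral_const_mul, integral_const, smul_eq_mul, mul_comm (ν.real Set.univ)]
    have := integral_AA_sq h K
    linarith
  have e5 : μ.real K ^ 2 * ν.real Set.univ ≤ μ.real Set.univ * ν.real Set.univ * μ.real K := by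
    have a1 : μ.real K ≤ μ.real Set.univ := measureReal_mono (Set.subset_univ _)
    have a2 : 0 ≤ μ.real K := measureReal_nonneg
    have a3 : 0 ≤ ν.real Set.univ := measureReal_nonneg
    calc μ.real K ^ 2 * ν.real Set.univ = μ.real K * ν.real Set.univ * μ.real K := by ring
      _ ≤ _ := by gcongr
  have e6 := Finset.sum_le_sum e1
  rw [Finset.sum_add_distrib, ← Finset.mul_sum, ← Finset.mul_sum] at e6
  have e7 : T * ∑ i ∈ s, μ.real (Sec (b i) (l i) (l i)) ≤ T * μ.real K := by gcongr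
  linarith

end Pool.Agent.P.MP_c45a97_an
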