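import Mathlib

/-! The Bergman projection, weights, Carleson boxes and the two conditions. -/

namespace Pool.Agent.P.MP_c45a97_an

open MeasureTheory
open scoped ComplexConjugate ENNReal NNReal Real

/-- Normalised area measure on the open unit disc. -/
noncomputable def area : Measure ℂ :=
  ENNReal.ofReal (1 / π) • (volume : Measure ℂ).restrict (Metric.ball 0 1)

/-- The Bergman projection. -/
noncomputable def bergman (f : ℂ → ℂ) (z : ℂ) : ℂ :=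
  ∫ ζ, f ζ / (1 - z * conj ζ) ^ 2 ∂area

/-- A weight: positive almost everywhere and locally integrable on the disc. -/
def IsWeight (w : ℂ → ℝ) : Prop :=
  (∀ᵐ z ∂area, 0 < w z) ∧ LocallyIntegrableOn w (Metric.ball 0 1) volume

/-- The measure `w dA`. -/
noncomputable def wt (w : ℂ → ℝ) : Measure ℂ :=
  area.withDensity fun z => ENNReal.ofReal (w z)

/-- The Carleson box over the arc of the points `exp (2 π i t)`, `t ∈ J`, of length `ℓ`. -/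
def cbox (J : Set ℝ) (ℓ : ℝ) : Set ℂ :=
  {z | ‖z‖ < 1 ∧ (∃ t ∈ J, z / (‖z‖ : ℂ) = Complex.exp (2 * π * t * Complex.I)) ∧ 1 - ‖z‖ ≤ ℓ}

/-- Condition (B). -/
def CondB (w σ : ℂ → ℝ) : Prop :=
  ∃ C : ℝ≥0, ∀ f : ℂ → ℂ, MemLp f 2 (wt σ) → Integrable (fun ζ => (σ ζ : ℂ) * f ζ) area ∧
    eLpNorm (bergman fun ζ => (σ ζ : ℂ) * f ζ) 2 (wt w) ≤ C * eLpNorm f 2 (wt σ)

/-- One testing inequality on the set `Q`. -/
def TestOn (C : ℝ≥0) (w σ : ℂ → ℝ) (Q : Set ℂ) : Prop :=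
  wt σ Q < ∞ ∧
    eLpNorm (bergman (Q.indicator fun ζ => (σ ζ : ℂ))) 2 (wt w) ≤ C * wt σ Q ^ (1 / 2 : ℝ)

/-- Condition (T), over all open, closed and half-open arcs. -/
def CondT (w σ : ℂ → ℝ) : Prop :=
  ∃ C : ℝ≥0, ∀ (a ℓ : ℝ) (J : Set ℝ), 0 < ℓ → ℓ ≤ 1 → Set.Ioo a (a + ℓ) ⊆ J →
    J ⊆ Set.Icc a (a + ℓ) → TestOn C w σ (cbox J ℓ) ∧ TestOn C σ w (cbox J ℓ)

end Pool.Agent.P.MP_c45a97_an
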