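import Pool.Agent.P.MP_c45a97_an.Main

/-! The equivalence on the punctured disc. -/

namespace Pool.Agent.P.MP_c45a97_an

open MeasureTheory Filter
open scoped ComplexConjugate ENNReal NNReal

variable {μ ν : Measure X}

def BX (μ ν : Measure X) : Prop :=
  ∃ C : ℝ≥0, ∀ f : X → ℂ, MemLp f 2 μ → Integrable f μ →
    eLpNorm (PX μ f) 2 ν ≤ C * eLpNorm f 2 μ

def TX (μ ν : Measure X) : Prop :=
  ∃ C : ℝ≥0, ∀ a ℓ : ℝ, 0 < ℓ → ℓ ≤ 1 → μ (Sec a ℓ ℓ) < ∞ ∧ ν (Sec a ℓ ℓ) < ∞ ∧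
    eLpNorm (PS μ (Sec a ℓ ℓ)) 2 ν ≤ C * μ (Sec a ℓ ℓ) ^ (1 / 2 : ℝ) ∧
    eLpNorm (PS ν (Sec a ℓ ℓ)) 2 μ ≤ C * ν (Sec a ℓ ℓ) ^ (1 / 2 : ℝ)

lemma eLp_sq (f : X → ℂ) : eLpNorm f 2 μ ^ 2 = ∫⁻ x, ENNReal.ofReal (‖f x‖ ^ 2) ∂μ := by
  have := eLpNorm_nnreal_pow_eq_lintegral (f := f) (μ := μ) (p := 2) (by norm_num)
  simp only [ENNReal.coe_ofNat, NNReal.coe_ofNat, ENNReal.rpow_ofNat] at this
  rw [this]
  congr 1
  funext x
  rw [ENNReal.ofReal_pow (norm_nonneg _), ofReal_norm]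

lemma eLp_le_iff (f : X → ℂ) (C : ℝ≥0) (b : ℝ≥0∞) : eLpNorm f 2 μ ≤ C * b ^ (1 / 2 : ℝ) ↔
    ∫⁻ x, ENNReal.ofReal (‖f x‖ ^ 2) ∂μ ≤ (C : ℝ≥0∞) ^ 2 * b := by
  rw [← eLp_sq, ← ENNReal.pow_le_pow_left_iff (n := 2) (by norm_num), mul_pow,
    ← ENNReal.rpow_ofNat (b ^ (1 / 2 : ℝ)), ← ENNReal.rpow_mul]
  norm_num

lemma test_of [IsFiniteMeasure μ] {C : ℝ≥0} (h : ∀ a ℓ : ℝ, 0 < ℓ → ℓ ≤ 1 →
    eLpNorm (PS μ (Sec a ℓ ℓ)) 2 ν ≤ C * μ (Sec a ℓ ℓ) ^ (1 / 2 : ℝ)) :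
    Test μ ν ((C : ℝ) ^ 2) := by
  refine ⟨by positivity, fun a ℓ h0 h1 => ?_⟩
  have h2 := (eLp_le_iff _ _ _).1 (h a ℓ h0 h1)
  have i : Integrable (fun z => ‖PS μ (Sec a ℓ ℓ) z‖ ^ 2) ν := by
    refine ⟨((measurable_PS _).norm.pow_const 2).aestronglyMeasurable, ?_⟩
    rw [hasFiniteIntegral_iff_ofReal (Eventually.of_forall fun z => sq_nonneg _)]
    exact h2.trans_lt (by finiteness)
  refine ⟨i, ?_⟩
  rw [← ofReal_integral_eq_lintegral_ofReal i (Eventually.of_forall fun z => sq_nonneg _),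
    ENNReal.ofReal_le_iff_le_toReal (by finiteness)] at h2
  simpa [Measure.real] using h2

theorem TX.bx (h : TX μ ν) (hp : ∀ a ℓ : ℝ, 0 < ℓ → ℓ ≤ 1 → 0 < μ (Sec a ℓ ℓ))
    (hp' : ∀ a ℓ : ℝ, 0 < ℓ → ℓ ≤ 1 → 0 < ν (Sec a ℓ ℓ)) : BX μ ν := by
  obtain ⟨C, h⟩ := h
  have h0 := h 0 1 one_pos le_rfl
  rw [Sec_univ] at h0
  have : IsFiniteMeasure μ := ⟨h0.1⟩
  have : IsFiniteMeasure ν := ⟨h0.2.1⟩
  obtain ⟨K, hK, hb⟩ := PX_bound (test_of fun a ℓ a0 a1 => (h a ℓ a0 a1).2.2.1)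
    (test_of fun a ℓ a0 a1 => (h a ℓ a0 a1).2.2.2)
    (fun a ℓ a0 a1 => ENNReal.toReal_pos (hp a ℓ a0 a1).ne' (measure_ne_top _ _))
    (fun a ℓ a0 a1 => ENNReal.toReal_pos (hp' a ℓ a0 a1).ne' (measure_ne_top _ _))
  refine ⟨NNReal.mk (√K) (Real.sqrt_nonneg K), fun f hf _ => ?_⟩
  rw [← ENNReal.pow_le_pow_left_iff (n := 2) (by norm_num), mul_pow, eLp_sq, eLp_sq]
  refine (hb f hf).trans (le_of_eq ?_)
  rw [ENNReal.ofReal_mul hK, ofReal_integral_eq_lintegral_ofReal hf.norm.integrable_sq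
    (Eventually.of_forall fun z => sq_nonneg _), ← ENNReal.ofReal_coe_nnreal,
    ← ENNReal.ofReal_pow (NNReal.coe_nonneg _), NNReal.coe_mk, Real.sq_sqrt hK]

lemma PX_indicator {S : Set X} (hS : MeasurableSet S) :
    PX μ (S.indicator fun _ => 1) = PS μ S := by
  funext z
  rw [PX, PS, ← integral_indicator hS]
  congr 1
  funext ζ
  by_cases h : ζ ∈ S
  · simp [Set.indicator_of_mem h]
  · simp [Set.indicator_of_notMem h]

lemma bx_test {C : ℝ≥0} (h : ∀ f : X → ℂ, MemLp f 2 μ → Integrable f μ →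
    eLpNorm (PX μ f) 2 ν ≤ C * eLpNorm f 2 μ) {S : Set X} (hS : MeasurableSet S)
    (hf : μ S < ∞) : eLpNorm (PS μ S) 2 ν ≤ C * μ S ^ (1 / 2 : ℝ) := by
  have := h (S.indicator fun _ => 1) (memLp_indicator_const 2 hS 1 (Or.inr hf.ne))
    ((integrable_indicator_iff hS).2 (integrableOn_const hf.ne))
  rw [PX_indicator hS, eLpNorm_indicator_const hS (by norm_num) (by norm_num)] at this
  simpa using this

lemma re_ker_ge {z ζ : X} (h : ‖z.1‖ * ‖ζ.1‖ ≤ 1 / 8) : ‖ker z ζ - 1‖ ≤ 1 / 2 := by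
  unfold ker
  set u := z.1 * conj ζ.1 with hu
  have h1 : ‖u‖ ≤ 1 / 8 := by rwa [hu, norm_mul, Complex.norm_conj]
  have h2 : 7 / 8 ≤ ‖1 - u‖ := by
    have := norm_sub_norm_le (1 : ℂ) u
    rw [norm_one] at this
    linarith
  have h3 : 1 - u ≠ 0 := by
    rw [← norm_pos_iff]
    linarith
  have e : 1 / (1 - u) ^ 2 - 1 = u * (2 - u) / (1 - u) ^ 2 := by
    field_simp
    ring
  have h4 : ‖2 - u‖ ≤ 17 / 8 := by
    have := norm_sub_le (2 : ℂ) u
    rw [Complex.norm_ofNat] at this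
    linarith
  rw [e, norm_div, norm_mul, norm_pow, div_le_iff₀ (by positivity)]
  nlinarith [norm_nonneg u, norm_nonneg (2 - u)]

lemma bx_lower {C : ℝ≥0} (h : ∀ f : X → ℂ, MemLp f 2 μ → Integrable f μ →
    eLpNorm (PX μ f) 2 ν ≤ C * eLpNorm f 2 μ) {S U : Set X} (hS : MeasurableSet S)
    (hU : MeasurableSet U) (hf : μ S < ∞) (hs : ∀ z ∈ U, ∀ ζ ∈ S, ‖z.1‖ * ‖ζ.1‖ ≤ 1 / 8) :
    μ S * ν U ≤ 4 * (C : ℝ≥0∞) ^ 2 := by
  have h1 := (eLp_le_iff _ _ _).1 (bx_test h hS hf)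
  have : IsFiniteMeasure (μ.restrict S) := isFiniteMeasure_restrict.2 hf.ne
  have h2 : ∀ z ∈ U, μ.real S / 2 ≤ ‖PS μ S z‖ := by
    intro z hz
    have e1 : PS μ S z - (μ.real S : ℂ) = ∫ ζ in S, (ker z ζ - 1) ∂μ := by
      rw [integral_sub (integrable_ker z) (integrable_const _), setIntegral_const]
      simp [PS]
    have e2 : ‖∫ ζ in S, (ker z ζ - 1) ∂μ‖ ≤ 1 / 2 * μ.real S :=
      norm_setIntegral_le_of_norm_le_const hf fun ζ hζ => re_ker_ge (hs z hz ζ hζ)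
    have e3 := norm_sub_norm_le (μ.real S : ℂ) (PS μ S z)
    rw [norm_sub_rev, e1, Complex.norm_real, Real.norm_eq_abs,
      abs_of_nonneg measureReal_nonneg] at e3
    linarith
  have h3 : ENNReal.ofReal ((μ.real S / 2) ^ 2) * ν U ≤ (C : ℝ≥0∞) ^ 2 * μ S := by
    refine le_trans ?_ h1
    rw [← setLIntegral_const]
    refine (setLIntegral_mono' hU fun z hz => ?_).trans (setLIntegral_le_lintegral _ _)
    exact ENNReal.ofReal_le_ofReal (pow_le_pow_left₀ (by positivity) (h2 z hz) 2)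
  rw [ENNReal.ofReal_pow (by positivity), ENNReal.ofReal_div_of_pos (by norm_num),
    ofReal_measureReal hf.ne, ENNReal.ofReal_ofNat] at h3
  by_cases h0 : μ S = 0
  · simp [h0]
  refine (ENNReal.mul_le_mul_iff_right h0 hf.ne).1 ?_
  calc μ S * (μ S * ν U) = 4 * ((μ S / 2) ^ 2 * ν U) := by
        have : (4 : ℝ≥0∞) = 2 * 2 := by norm_num
        have e : (2 : ℝ≥0∞) * (μ S / 2) = μ S := ENNReal.mul_div_cancel (by norm_num) (by norm_num)
        calc μ S * (μ S * ν U) = (2 * (μ S / 2)) * ((2 * (μ S / 2)) * ν U) := by rw [e]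
          _ = _ := by rw [this]; ring
    _ ≤ 4 * ((C : ℝ≥0∞) ^ 2 * μ S) := by gcongr
    _ = _ := by ring

lemma bx_dual [IsFiniteMeasure μ] [IsFiniteMeasure ν] {C : ℝ≥0}
    (h : ∀ f : X → ℂ, MemLp f 2 μ → Integrable f μ → eLpNorm (PX μ f) 2 ν ≤ C * eLpNorm f 2 μ)
    (Q : Set X) : eLpNorm (PS ν Q) 2 μ ≤ (C + 1 : ℝ≥0) * ν Q ^ (1 / 2 : ℝ) := by
  rw [eLp_le_iff]
  set U : ℕ → Set X := fun n => {z | hh n < ht z} with hU
  have hUm : ∀ n, MeasurableSet (U n) := fun n =>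
    measurableSet_lt measurable_const measurable_ht
  set g : ℕ → X → ℂ := fun n => (U n).indicator (PS ν Q) with hg
  have gm : ∀ n, Measurable (g n) := fun n => (measurable_PS Q).indicator (hUm n)
  have gb : ∀ n ζ, ‖g n ζ‖ ≤ ν.real Q / hh n ^ 2 := by
    intro n ζ
    by_cases hζ : ζ ∈ U n
    · simp only [hg, Set.indicator_of_mem hζ]
      exact norm_PS_le Q (hh_pos n) (le_of_lt hζ)
    · simp only [hg, Set.indicator_of_notMem hζ, norm_zero]
      positivity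
  have b1 : ∀ n, ∫⁻ ζ, ENNReal.ofReal (‖g n ζ‖ ^ 2) ∂μ ≤ ((C + 1 : ℝ≥0) : ℝ≥0∞) ^ 2 * ν Q := by
    intro n
    have l2 : MemLp (g n) 2 μ :=
      MemLp.of_bound (gm n).aestronglyMeasurable _ (Eventually.of_forall (gb n))
    have i2 : Integrable (fun ζ => ‖g n ζ‖ ^ 2) μ := l2.norm.integrable_sq
    set N := ∫ ζ, ‖g n ζ‖ ^ 2 ∂μ with hN
    have N0 : 0 ≤ N := integral_nonneg fun _ => sq_nonneg _
    have e0 : ∫⁻ ζ, ENNReal.ofReal (‖g n ζ‖ ^ 2) ∂μ = ENNReal.ofReal N :=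
      (ofReal_integral_eq_lintegral_ofReal i2 (Eventually.of_forall fun z => sq_nonneg _)).symm
    have e1 := h (g n) l2 (l2.integrable (by norm_num))
    rw [← ENNReal.pow_le_pow_left_iff (n := 2) (by norm_num), mul_pow, eLp_sq, eLp_sq, e0] at e1
    have i3 : Integrable (fun z => ‖PX μ (g n) z‖ ^ 2) ν := by
      refine ⟨((measurable_PX (gm n)).norm.pow_const 2).aestronglyMeasurable, ?_⟩
      rw [hasFiniteIntegral_iff_ofReal (Eventually.of_forall fun z => sq_nonneg _)]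
      exact e1.trans_lt (by finiteness)
    rw [← ofReal_integral_eq_lintegral_ofReal i3 (Eventually.of_forall fun z => sq_nonneg _),
      ENNReal.ofReal_le_iff_le_toReal (by finiteness)] at e1
    simp only [ENNReal.toReal_mul, ENNReal.toReal_pow, ENNReal.coe_toReal,
      ENNReal.toReal_ofReal N0] at e1
    have ip : Integrable (Function.uncurry fun ζ z => conj (g n ζ) * ker ζ z)
        (μ.prod (ν.restrict Q)) := by
      refine Integrable.of_bound (Measurable.aestronglyMeasurable ?_)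
        (ν.real Q / hh n ^ 2 * (1 / hh n ^ 2)) (Eventually.of_forall fun p => ?_)
      · exact (Complex.continuous_conj.measurable.comp ((gm n).comp measurable_fst)).mul
          measurable_ker
      · simp only [Function.uncurry, norm_mul, Complex.norm_conj, norm_ker]
        by_cases hζ : p.1 ∈ U n
        · have := dl_pos p.1 p.2
          exact mul_le_mul (gb n _) (inv_pow_dl_le (hh_pos n)
            ((le_of_lt hζ).trans (ht_le_dl _ _)) 2) (by positivity) (by positivity)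
        · simp only [hg, Set.indicator_of_notMem hζ, norm_zero, zero_mul]
          positivity
    have e2 : (N : ℂ) = ∫ z in Q, conj (PX μ (g n) z) ∂ν := by
      calc (N : ℂ) = ∫ ζ, ∫ z in Q, conj (g n ζ) * ker ζ z ∂ν ∂μ := by
            rw [hN, ← integral_complex_ofReal]
            congr 1
            funext ζ
            rw [integral_const_mul]
            by_cases hζ : ζ ∈ U n
            · simp only [hg, Set.indicator_of_mem hζ]
              rw [← PS, mul_comm, Complex.mul_conj, Complex.normSq_eq_norm_sq]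
            · simp [hg, Set.indicator_of_notMem hζ]
        _ = ∫ z in Q, ∫ ζ, conj (g n ζ) * ker ζ z ∂μ ∂ν := integral_integral_swap ip
        _ = _ := by
            congr 1
            funext z
            rw [PX, ← integral_conj]
            simp only [map_mul, ker_conj, mul_comm]
    set t : ℝ := (C : ℝ) ^ 2 + 1 with ht'
    have t0 : 0 < t := by positivity
    have e3 : N ≤ ∫ z in Q, (1 / (2 * t) * ‖PX μ (g n) z‖ ^ 2 + t / 2) ∂ν := by
      have e4 : N = ‖(N : ℂ)‖ := by rw [Complex.norm_real, Real.norm_eq_abs, abs_of_nonneg N0]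
      rw [e4, e2]
      refine norm_integral_le_of_norm_le ((i3.const_mul _).integrableOn.add (integrable_const _))
        (Eventually.of_forall fun z => ?_)
      rw [Complex.norm_conj]
      have e5 : 1 / (2 * t) * ‖PX μ (g n) z‖ ^ 2 + t / 2 - ‖PX μ (g n) z‖ =
          (‖PX μ (g n) z‖ - t) ^ 2 / (2 * t) := by
        field_simp
        ring
      have : 0 ≤ (‖PX μ (g n) z‖ - t) ^ 2 / (2 * t) := by positivity
      linarith
    rw [integral_add (i3.const_mul _).integrableOn (integrable_const _), integral_const_mul,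
      setIntegral_const, smul_eq_mul] at e3
    have e6 : ∫ z in Q, ‖PX μ (g n) z‖ ^ 2 ∂ν ≤ t * N :=
      (setIntegral_le_integral i3 (Eventually.of_forall fun z => sq_nonneg _)).trans
        (e1.trans (by rw [ht']; linarith))
    have e7 : 1 / (2 * t) * ∫ z in Q, ‖PX μ (g n) z‖ ^ 2 ∂ν ≤ N / 2 := by
      calc _ ≤ 1 / (2 * t) * (t * N) := by gcongr
        _ = _ := by field_simp
    have m0 : 0 ≤ ν.real Q := measureReal_nonneg
    have c0 : (0 : ℝ) ≤ C := NNReal.coe_nonneg _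
    rw [e0, ENNReal.ofReal_le_iff_le_toReal (by finiteness)]
    simp only [ENNReal.toReal_mul, ENNReal.toReal_pow, ENNReal.coe_toReal, NNReal.coe_add,
      NNReal.coe_one]
    change N ≤ ((C : ℝ) + 1) ^ 2 * ν.real Q
    nlinarith [mul_nonneg c0 m0]
  calc ∫⁻ z, ENNReal.ofReal (‖PS ν Q z‖ ^ 2) ∂μ
      = ∫⁻ z, liminf (fun n => ENNReal.ofReal (‖g n z‖ ^ 2)) atTop ∂μ := by
        congr 1
        funext z
        refine (Tendsto.liminf_eq (tendsto_const_nhds.congr' ?_)).symm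
        filter_upwards [eventually_hh z] with n h1
        simp only [hg, Set.indicator_of_mem (s := U n) h1]
    _ ≤ liminf (fun n => ∫⁻ z, ENNReal.ofReal (‖g n z‖ ^ 2) ∂μ) atTop :=
        lintegral_liminf_le fun n => ((gm n).norm.pow_const 2).ennreal_ofReal
    _ ≤ _ := liminf_le_of_frequently_le' (Frequently.of_forall b1)

theorem BX.tx (h : BX μ ν) (hl : ∀ τ : ℝ, 0 < τ → μ {z | τ ≤ ht z} < ∞)
    (hp : 0 < μ {z | 7 / 8 ≤ ht z}) (hp' : 0 < ν {z | 7 / 8 ≤ ht z}) : TX μ ν := by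
  obtain ⟨C, h⟩ := h
  have hm : ∀ τ : ℝ, MeasurableSet {z : X | τ ≤ ht z} := fun τ =>
    measurableSet_le measurable_const measurable_ht
  have hs : ∀ z : X, 7 / 8 ≤ ht z → ∀ ζ : X, ‖z.1‖ * ‖ζ.1‖ ≤ 1 / 8 := by
    intro z hz ζ
    unfold ht at hz
    nlinarith [z.2.1, ζ.2.1, ζ.2.2]
  have f4 : 4 * (C : ℝ≥0∞) ^ 2 < ∞ := by finiteness
  have : IsFiniteMeasure ν := by
    have := bx_lower h (hm _) MeasurableSet.univ (hl (7 / 8) (by norm_num))
      fun z _ ζ hζ => by rw [mul_comm]; exact hs ζ hζ z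
    exact ⟨ENNReal.lt_top_of_mul_ne_top_right (this.trans_lt f4).ne hp.ne'⟩
  have : IsFiniteMeasure μ := by
    have e : (Set.univ : Set X) = ⋃ n, {z | hh n ≤ ht z} := by
      refine (Set.eq_univ_of_forall fun z => ?_).symm
      obtain ⟨n, hn⟩ := (eventually_hh z).exists
      exact Set.mem_iUnion.2 ⟨n, hn.le⟩
    have mono : Monotone fun n => {z : X | hh n ≤ ht z} := fun i k hik z hz =>
      (hh_anti hik).trans hz
    have : μ Set.univ * ν {z | 7 / 8 ≤ ht z} ≤ 4 * (C : ℝ≥0∞) ^ 2 := by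
      rw [e, mono.measure_iUnion, ENNReal.iSup_mul]
      exact iSup_le fun n => bx_lower h (hm _) (hm _) (hl _ (hh_pos n)) fun z hz ζ _ => hs z hz ζ
    exact ⟨ENNReal.lt_top_of_mul_ne_top_left (this.trans_lt f4).ne hp'.ne'⟩
  refine ⟨C + 1, fun a ℓ _ _ => ⟨measure_lt_top _ _, measure_lt_top _ _, ?_, bx_dual h _⟩⟩
  refine (bx_test h (measurableSet_Sec _ _ _) (measure_lt_top _ _)).trans ?_
  gcongr
  exact le_self_add

end Pool.Agent.P.MP_c45a97_an
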