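import Pool.Agent.P.MP_c45a97_an.Form

/-! Off-diagonal and near-diagonal estimates. -/

set_option linter.unusedSectionVars false

namespace Pool.Agent.P.MP_c45a97_an

open MeasureTheory

variable {κ : X → X → ℝ} {μ ν : Measure X} [IsFiniteMeasure μ] [IsFiniteMeasure ν] {C a : ℝ}

lemma BB_null {S : Set X} (hS : MeasurableSet S) (h0 : ν.real S = 0) (h G : X → ℝ) :
    BB κ μ ν h (fun z => one S z * G z) = 0 := by
  unfold BB
  simp only [mul_assoc]
  rw [integral_one_mul hS, Measure.restrict_eq_zero.2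
      ((measureReal_eq_zero_iff (measure_ne_top _ _)).1 h0), integral_zero_measure]

lemma exists_last {P : ℕ → Prop} (h0 : P 0) {i : ℕ} (hi : ¬ P i) :
    ∃ l, l < i ∧ P l ∧ ¬ P (l + 1) := by
  induction i with
  | zero => exact absurd h0 hi
  | succ i ih =>
    by_cases h : P i
    · exact ⟨i, Nat.lt_succ_self i, h, hi⟩
    · obtain ⟨l, h1, h2⟩ := ih h
      exact ⟨l, h1.trans (Nat.lt_succ_self i), h2⟩

noncomputable def WW (a : ℝ) (i k j : ℕ) (ζ : X) : ℝ :=
  ∑ l ∈ Finset.range i, one (box a l (j / MM ^ (k - l))) ζ * (1 / (LL : ℝ) ^ 2) ^ (k - (l + 1))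

lemma WW_bdd (i k j : ℕ) : Bdd (WW a i k j) :=
  Bdd.sum fun _ _ => (Bdd.one (measurableSet_box _ _)).mul (Bdd.const _)

lemma WW_nonneg (i k j : ℕ) (ζ : X) : 0 ≤ WW a i k j ζ :=
  Finset.sum_nonneg fun _ _ => mul_nonneg (one_nonneg _ _) (by positivity)

lemma le_WW {i k j : ℕ} (hik : i < k) (hg : good k j) {z ζ : X} (hz : z ∈ box a k j)
    (hζ : ζ ∉ box a i (j / MM ^ (k - i))) : (hh k / dl z ζ) ^ 2 ≤ WW a i k j ζ := by
  obtain ⟨hz1, rfl⟩ := hz
  rw [idx_div' hik.le] at hζ
  obtain ⟨l, hl, h1, h2⟩ := exists_last (P := fun l => ζ ∈ box a l (idx a l z))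
    (by rw [idx_zero, box_zero]; trivial) hζ
  have h3 := sep (i := l + 1) (by omega) hg h2
  refine le_trans ?_ (Finset.single_le_sum (f := fun l => one (box a l (idx a k z / MM ^ (k - l))) ζ
    * (1 / (LL : ℝ) ^ 2) ^ (k - (l + 1)))
    (fun l _ => mul_nonneg (one_nonneg _ _) (by positivity)) (Finset.mem_range.2 hl))
  rw [idx_div' (by omega), one_of_mem h1, one_mul]
  have hL := LLr_pos
  have hd := dl_pos z ζ
  have h4 : hh k / dl z ζ ≤ 1 / (LL : ℝ) ^ (k - (l + 1)) := by
    rw [div_le_div_iff₀ hd (by positivity)]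
    linarith
  have h5 := hh_pos k
  calc (hh k / dl z ζ) ^ 2 ≤ (1 / (LL : ℝ) ^ (k - (l + 1))) ^ 2 := by gcongr
    _ = _ := by rw [one_div_pow, one_div_pow, ← pow_mul, ← pow_mul, mul_comm]

lemma sum_WW {i k : ℕ} (hik : i < k) (ζ : X) :
    ∑ j ∈ Finset.range (MM ^ k), WW a i k j ζ ≤ 2 * MM * (1 / 4) ^ (k - i) := by
  unfold WW
  rw [Finset.sum_comm]
  have hM := MMr_pos
  have h1 : ∀ l ∈ Finset.range i, ∑ j ∈ Finset.range (MM ^ k),
      one (box a l (j / MM ^ (k - l))) ζ * (1 / (LL : ℝ) ^ 2) ^ (k - (l + 1)) ≤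
      (MM : ℝ) * (1 / 4) ^ (k - i) * (1 / 2) ^ (i - 1 - l) := by
    intro l hl
    have hl' := Finset.mem_range.1 hl
    rw [← Finset.sum_mul]
    have e1 : ∑ j ∈ Finset.range (MM ^ k), one (box a l (j / MM ^ (k - l))) ζ ≤
        (MM : ℝ) ^ (k - l) := by
      calc _ ≤ ∑ j ∈ Finset.range (MM ^ k), (if j / MM ^ (k - l) = idx a l ζ then (1 : ℝ) else 0) := by
            refine Finset.sum_le_sum fun j _ => ?_
            split_ifs with h
            · by_cases h' : ζ ∈ box a l (j / MM ^ (k - l))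
              · rw [one_of_mem h']
              · rw [one_of_notMem h']; norm_num
            · rw [one_of_notMem fun h' => h h'.2.symm]
        _ ≤ _ := by
            rw [Finset.sum_boole]
            exact_mod_cast card_div_eq _ _ _ (MM_pow_pos _)
    obtain ⟨p, rfl⟩ : ∃ p, i = l + 1 + p := ⟨i - (l + 1), by omega⟩
    obtain ⟨q, rfl⟩ : ∃ q, k = l + 1 + p + q := ⟨k - (l + 1 + p), by omega⟩
    have a1 : l + 1 + p + q - l = (p + q) + 1 := by omega
    have a2 : l + 1 + p + q - (l + 1) = p + q := by omega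
    have a3 : l + 1 + p + q - (l + 1 + p) = q := by omega
    have a4 : l + 1 + p - 1 - l = p := by omega
    rw [a1] at e1 ⊢
    rw [a2, a3, a4]
    calc _ ≤ (MM : ℝ) ^ (p + q + 1) * (1 / (LL : ℝ) ^ 2) ^ (p + q) := by gcongr
      _ = MM * ((MM : ℝ) * (1 / (LL : ℝ) ^ 2)) ^ (p + q) := by rw [mul_pow]; ring
      _ = MM * (1 / 4) ^ q * (1 / 4) ^ p := by
          have : (MM : ℝ) * (1 / (LL : ℝ) ^ 2) = 1 / 4 := by rw [MM_real, LL_real]; norm_num
          rw [this, pow_add]
          ring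
      _ ≤ _ := by gcongr; norm_num
  refine (Finset.sum_le_sum h1).trans ?_
  rw [← Finset.mul_sum, Finset.sum_range_reflect (fun t => (1 / 2 : ℝ) ^ t)]
  calc _ ≤ (MM : ℝ) * (1 / 4) ^ (k - i) * 2 := by
        gcongr
        exact sum_geometric_two_le i
    _ = _ := by ring

lemma Hyp.alpha_one (H : Hyp κ μ ν C) {i k j : ℕ} (hik : i < k) (hj : j < MM ^ k) {G h : X → ℝ}
    (hG : MD0 ν a k G) (hgs : ∀ x, ¬ good k (idx a k x) → G x = 0) (hh' : Bdd h) {τ : ℝ}
    (hτ : 0 < τ) :
    |BB κ μ ν (fun ζ => one (box a i (j / MM ^ (k - i)))ᶜ ζ * h ζ)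
      (fun z => one (box a k j) z * G z)| ≤
      40 * (τ * C * ∫ z in box a k j, G z ^ 2 ∂ν + τ⁻¹ * ∫ ζ, h ζ ^ 2 * WW a i k j ζ ∂μ) := by
  have hC := H.C0
  set A := ∫ ζ, h ζ ^ 2 * WW a i k j ζ ∂μ with hA
  have hA0 : 0 ≤ A := integral_nonneg fun ζ => mul_nonneg (sq_nonneg _) (WW_nonneg _ _ _ _)
  have hG0 : 0 ≤ ∫ z in box a k j, G z ^ 2 ∂ν := integral_nonneg fun _ => sq_nonneg _
  by_cases hg : good k j
  swap
  · rw [BB_bad hg _ hgs, abs_zero]
    positivity
  set m := ν.real (box a k j) with hm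
  have hm0 : 0 ≤ m := measureReal_nonneg
  rcases hm0.eq_or_lt with h0 | h0
  · rw [BB_null (measurableSet_box k j) h0.symm, abs_zero]
    positivity
  have hb1 : Bdd (fun ζ => one (box a i (j / MM ^ (k - i)))ᶜ ζ * h ζ) :=
    (Bdd.one (measurableSet_box _ _).compl).mul hh'
  have key := H.toKer.mean_zero hik hg hG hb1
    (fun ζ hζ => by rw [one_of_notMem (Set.notMem_compl_iff.2 hζ), zero_mul])
    (φ := fun z => τ * C / 2 * G z ^ 2 + τ⁻¹ * A / (2 * m))
    (((hG.bdd.sq.const_mul _).add (Bdd.const _)).integrable.integrableOn) (by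
      intro z hz
      have hhole := H.hole (-a + j * hh k) (hh k) (hh_pos k) (hh_le_one k) z
        (box_eq_Sec hj ▸ hz)
      rw [← box_eq_Sec hj, ← hm] at hhole
      have hS : MeasurableSet {ζ | 160 * hh k ≤ dl ζ z} :=
        measurableSet_le measurable_const (measurable_dl_left z)
      have i1 := integrable_one_mul (μ := μ) hS (integrable_inv_dl_left z 4)
      have i2 : Integrable (fun ζ => h ζ ^ 2 * WW a i k j ζ) μ :=
        (hh'.sq.mul (WW_bdd i k j)).integrable
      calc |G z| * VV μ (fun ζ => one (box a i (j / MM ^ (k - i)))ᶜ ζ * h ζ) (hh k) z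
          = ∫ ζ, |G z| * (|one (box a i (j / MM ^ (k - i)))ᶜ ζ * h ζ| * (hh k / dl z ζ ^ 3)) ∂μ :=
            (integral_const_mul _ _).symm
        _ ≤ ∫ ζ, (τ * m * G z ^ 2 / 2 * (one {ζ | 160 * hh k ≤ dl ζ z} ζ * (1 / dl ζ z ^ 4))
              + τ⁻¹ / (2 * m) * (h ζ ^ 2 * WW a i k j ζ)) ∂μ := by
            refine integral_mono ((integrable_VV hb1 _ z).const_mul _)
              ((i1.const_mul _).add (i2.const_mul _)) fun ζ => ?_
            have hd := dl_pos z ζ
            have hW := WW_nonneg (a := a) i k j ζ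
            simp only
            by_cases hζ : ζ ∈ box a i (j / MM ^ (k - i))
            · rw [one_of_notMem (Set.notMem_compl_iff.2 hζ)]
              have := one_nonneg {ζ | 160 * hh k ≤ dl ζ z} ζ
              have := dl_pos ζ z
              simp only [zero_mul, abs_zero, mul_zero]
              positivity
            · have h1 : 256 * hh k ≤ dl z ζ :=
                sep' hik (hz.2 ▸ hg) (by rwa [← idx_div' hik.le, hz.2])
              have h2 := le_WW hik hg hz hζ
              rw [one_of_mem (Set.mem_compl hζ), one_mul, one_of_mem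
                (S := {ζ | 160 * hh k ≤ dl ζ z}) (by
                  show 160 * hh k ≤ dl ζ z
                  rw [dl_comm]
                  linarith [hh_pos k]), one_mul, dl_comm ζ z]
              have h3 : τ⁻¹ / (2 * m) * (h ζ ^ 2 * (hh k / dl z ζ) ^ 2) ≤
                  τ⁻¹ / (2 * m) * (h ζ ^ 2 * WW a i k j ζ) := by gcongr
              refine le_trans ?_ (add_le_add le_rfl h3)
              have e : τ * m * G z ^ 2 / 2 * (1 / dl z ζ ^ 4)
                  + τ⁻¹ / (2 * m) * (h ζ ^ 2 * (hh k / dl z ζ) ^ 2)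
                  - |G z| * (|h ζ| * (hh k / dl z ζ ^ 3)) =
                  (τ * m * |G z| / dl z ζ ^ 2 - |h ζ| * (hh k / dl z ζ)) ^ 2 / (2 * τ * m) := by
                rw [← sq_abs (G z), ← sq_abs (h ζ)]
                field_simp
                ring
              have : 0 ≤ (τ * m * |G z| / dl z ζ ^ 2 - |h ζ| * (hh k / dl z ζ)) ^ 2
                / (2 * τ * m) := by positivity
              linarith
        _ = τ * G z ^ 2 / 2 * (m * ∫ ζ in {ζ | 160 * hh k ≤ dl ζ z}, 1 / dl ζ z ^ 4 ∂μ)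
              + τ⁻¹ * A / (2 * m) := by
            rw [integral_add (i1.const_mul _) (i2.const_mul _), integral_const_mul,
              integral_const_mul, integral_one_mul hS, ← hA]
            ring
        _ ≤ τ * G z ^ 2 / 2 * C + τ⁻¹ * A / (2 * m) := by gcongr
        _ = _ := by ring)
  refine key.trans (le_of_eq ?_)
  rw [integral_add (hG.bdd.sq.const_mul _).integrable.integrableOn (integrable_const _),
    integral_const_mul, setIntegral_const, ← hm, smul_eq_mul]
  field_simp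
  ring

lemma Hyp.alpha (H : Hyp κ μ ν C) {i k : ℕ} (hik : i < k) {G h : X → ℝ}
    (hG : MD0 ν a k G) (hgs : ∀ x, ¬ good k (idx a k x) → G x = 0) (hh' : Bdd h) :
    |∫ z, G z * op κ μ (fun ζ => one (box a i (idx a i z))ᶜ ζ * h ζ) z ∂ν| ≤
      40 * (C + 2 * MM) * (1 / 2) ^ (k - i) * (nn μ h + nn ν G) := by
  have hC := H.C0
  have hM := MMr_pos
  simp_rw [← idx_div' hik.le]
  rw [H.toKer.integral_family k (h := fun j ζ => one (box a i (j / MM ^ (k - i)))ᶜ ζ * h ζ)
    (fun j => (Bdd.one (measurableSet_box _ _).compl).mul hh') hG.bdd hG.supp]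
  set τ : ℝ := (1 / 2) ^ (k - i) with hτ
  have hτ0 : 0 < τ := by positivity
  refine (Finset.abs_sum_le_sum_abs _ _).trans ((Finset.sum_le_sum fun j hj =>
    H.alpha_one hik (Finset.mem_range.1 hj) hG hgs hh' hτ0).trans ?_)
  rw [← Finset.mul_sum, Finset.sum_add_distrib, ← Finset.mul_sum, ← Finset.mul_sum,
    ← integral_finsetSum _ fun j _ => (hh'.sq.mul (WW_bdd i k j)).integrable]
  have e1 : ∑ j ∈ Finset.range (MM ^ k), ∫ z in box a k j, G z ^ 2 ∂ν ≤ nn ν G :=
    sum_box_le a k hG.bdd.sq.integrable fun _ => sq_nonneg _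
  have e2 : ∫ ζ, ∑ j ∈ Finset.range (MM ^ k), h ζ ^ 2 * WW a i k j ζ ∂μ ≤
      2 * MM * τ ^ 2 * nn μ h := by
    rw [nn, ← integral_const_mul]
    refine integral_mono (Bdd.sum fun j _ => hh'.sq.mul (WW_bdd i k j)).integrable
      (hh'.sq.const_mul _).integrable fun ζ => ?_
    simp only
    rw [← Finset.mul_sum, mul_comm]
    have := sum_WW (a := a) hik ζ
    have e : τ ^ 2 = (1 / 4) ^ (k - i) := by
      rw [hτ, ← pow_mul, mul_comm, pow_mul]
      norm_num
    rw [e]
    gcongr
  have n1 := nn_nonneg (μ := μ) h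
  have n2 := nn_nonneg (μ := ν) G
  calc _ ≤ 40 * (τ * C * nn ν G + τ⁻¹ * (2 * MM * τ ^ 2 * nn μ h)) := by gcongr
    _ = 40 * τ * (C * nn ν G + 2 * MM * nn μ h) := by field_simp
    _ ≤ 40 * τ * ((C + 2 * MM) * nn ν G + (C + 2 * MM) * nn μ h) := by
        gcongr <;> linarith
    _ = _ := by ring

def Om (a : ℝ) (n i j : ℕ) : Set X :=
  {z | z ∈ box a i j ∧ ∃ k, i < k ∧ k < n ∧ ht z ≤ hh k ∧ good k (idx a k z)}

lemma measurableSet_Om (n i j : ℕ) : MeasurableSet (Om a n i j) := by
  have : Om a n i j = box a i j ∩ ⋃ k, ⋃ (_ : i < k ∧ k < n),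
      ({z | ht z ≤ hh k} ∩ idx a k ⁻¹' {j | good k j}) := by
    ext z
    simp only [Om, Set.mem_ofPred_eq, Set.mem_inter_iff, Set.mem_iUnion, Set.mem_preimage,
      exists_prop, and_assoc]
  rw [this]
  exact (measurableSet_box i j).inter (MeasurableSet.iUnion fun k => MeasurableSet.iUnion fun _ =>
    (measurableSet_le measurable_ht measurable_const).inter (measurable_idx k trivial))

lemma Om_sep {n i j : ℕ} {z ζ : X} (hz : z ∈ Om a n i j) (hζ : ζ ∉ box a i j) :
    4 * ht z ≤ dl z ζ ∧ hh n ≤ dl z ζ := by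
  obtain ⟨⟨-, rfl⟩, k, h1, h2, h3, h4⟩ := hz
  have := sep' h1 h4 hζ
  have := hh_pos k
  have := hh_anti h2.le
  constructor <;> linarith

noncomputable def Phi (μ ν : Measure X) (a : ℝ) (n : ℕ) (K : Set X) (i j : ℕ) : ℝ :=
  ∫ z in Om a n i j, pp μ (K \ box a i j) z ^ 2 ∂ν

lemma Phi_nonneg (n : ℕ) (K : Set X) (i j : ℕ) : 0 ≤ Phi μ ν a n K i j :=
  integral_nonneg fun _ => sq_nonneg _

lemma bdd_Om_pp (n : ℕ) {K : Set X} (hK : MeasurableSet K) (i j : ℕ) :
    Bdd (fun z => one (Om a n i j) z * pp μ (K \ box a i j) z ^ 2) := by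
  refine ⟨(Bdd.one (measurableSet_Om n i j)).meas.mul ((measurable_pp _).pow_const 2),
    (μ.real Set.univ / hh n ^ 2) ^ 2, fun z => ?_⟩
  by_cases hz : z ∈ Om a n i j
  · rw [one_of_mem hz, one_mul, abs_of_nonneg (sq_nonneg _)]
    refine pow_le_pow_left₀ (pp_nonneg _ _) ?_ 2
    calc pp μ (K \ box a i j) z ≤ ∫ _ζ in K \ box a i j, 1 / hh n ^ 2 ∂μ :=
          setIntegral_mono_on (integrable_inv_dl_right z 2).integrableOn (integrable_const _)
            (hK.diff (measurableSet_box i j))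
            fun ζ hζ => inv_pow_dl_le (hh_pos n) (Om_sep hz hζ.2).2 2
      _ = μ.real (K \ box a i j) / hh n ^ 2 := by
          rw [setIntegral_const, smul_eq_mul]
          ring
      _ ≤ _ := by
          have : μ.real (K \ box a i j) ≤ μ.real Set.univ := measureReal_mono (Set.subset_univ _)
          gcongr
  · rw [one_of_notMem hz, zero_mul, abs_zero]
    positivity

lemma Hyp.beta (H : Hyp κ μ ν C) {n i k : ℕ} (hik : i < k) (hkn : k < n) {G : X → ℝ}
    (hG : MD0 ν a k G) (hgs : ∀ x, ¬ good k (idx a k x) → G x = 0) {K : ℕ → Set X}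
    (hK : ∀ j, MeasurableSet (K j)) (lm : ℕ → ℝ) :
    |∫ z, G z * op κ μ (fun ζ => lm (idx a i z) *
        one (K (idx a i z) \ box a i (idx a i z)) ζ) z ∂ν| ≤
      40 * (1 / 2) ^ (k - i) *
        (nn ν G + ∑ j ∈ Finset.range (MM ^ i), lm j ^ 2 * Phi μ ν a n (K j) i j) := by
  simp_rw [← idx_div' hik.le]
  have hb : ∀ p, Bdd (fun ζ => lm p * one (K p \ box a i p) ζ) := fun p =>
    (Bdd.one ((hK p).diff (measurableSet_box _ _))).const_mul _
  rw [H.toKer.integral_family k (h := fun j ζ => lm (j / MM ^ (k - i)) *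
    one (K (j / MM ^ (k - i)) \ box a i (j / MM ^ (k - i))) ζ) (fun j => hb _) hG.bdd hG.supp]
  set τ : ℝ := (1 / 2) ^ (k - i) with hτ
  have hτ0 : 0 < τ := by positivity
  set Ψ : X → ℝ := fun z => ∑ p ∈ Finset.range (MM ^ i),
    lm p ^ 2 * (one (Om a n i p) z * pp μ (K p \ box a i p) z ^ 2) with hΨ
  have hΨb : Bdd Ψ := Bdd.sum fun p _ => (bdd_Om_pp n (hK p) i p).const_mul _
  have hΨ0 : ∀ p z, 0 ≤ lm p ^ 2 * (one (Om a n i p) z * pp μ (K p \ box a i p) z ^ 2) :=
    fun p z => mul_nonneg (sq_nonneg _) (mul_nonneg (one_nonneg _ _) (sq_nonneg _))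
  set φ : X → ℝ := fun z => τ / 2 * (G z ^ 2 + Ψ z) with hφ
  have hφb : Bdd φ := (hG.bdd.sq.add hΨb).const_mul _
  have hφ0 : ∀ z, 0 ≤ φ z := fun z =>
    mul_nonneg (by positivity) (add_nonneg (sq_nonneg _) (Finset.sum_nonneg fun p _ => hΨ0 p z))
  have key : ∀ j ∈ Finset.range (MM ^ k), |BB κ μ ν (fun ζ => lm (j / MM ^ (k - i)) *
      one (K (j / MM ^ (k - i)) \ box a i (j / MM ^ (k - i))) ζ)
      (fun z => one (box a k j) z * G z)| ≤ 80 * ∫ z in box a k j, φ z ∂ν := by
    intro j _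
    by_cases hg : good k j
    swap
    · rw [BB_bad hg _ hgs, abs_zero]
      exact mul_nonneg (by norm_num) (integral_nonneg fun z => hφ0 z)
    refine H.toKer.mean_zero hik hg hG (hb _)
      (fun ζ hζ => by rw [one_of_notMem fun h => h.2 hζ, mul_zero])
      hφb.integrable.integrableOn fun z hz => ?_
    obtain ⟨hz1, rfl⟩ := hz
    rw [idx_div' hik.le]
    set p := idx a i z with hp
    have hS := (hK p).diff (measurableSet_box (a := a) i p)
    have hzO : z ∈ Om a n i p := ⟨mem_box_of_le hik.le hz1, k, hik, hkn, hz1, hg⟩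
    have e1 : VV μ (fun ζ => lm p * one (K p \ box a i p) ζ) (hh k) z ≤
        |lm p| * τ * pp μ (K p \ box a i p) z := by
      unfold VV pp
      rw [← integral_one_mul hS, ← integral_const_mul]
      refine integral_mono (integrable_VV (hb p) _ z)
        ((integrable_one_mul hS (integrable_inv_dl_right z 2)).const_mul _) fun ζ => ?_
      simp only
      by_cases hζ : ζ ∈ K p \ box a i p
      · rw [one_of_mem hζ, mul_one, one_mul, mul_assoc]
        gcongr
        have h1 := sep hik hg hζ.2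
        have hd := dl_pos z ζ
        have h2 : (2 : ℝ) ^ (k - i) ≤ (LL : ℝ) ^ (k - i) :=
          pow_le_pow_left₀ (by norm_num) (by rw [LL_real]; norm_num) _
        have h3 : (2 : ℝ) ^ (k - i) * hh k ≤ dl z ζ :=
          le_trans (mul_le_mul_of_nonneg_right h2 (hh_pos k).le) h1
        rw [hτ, one_div_pow, div_mul_div_comm, div_le_div_iff₀ (by positivity) (by positivity)]
        nlinarith [pow_pos hd 2]
      · rw [one_of_notMem hζ]
        simp
    have e2 : lm p ^ 2 * pp μ (K p \ box a i p) z ^ 2 ≤ Ψ z := by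
      refine le_trans ?_ (Finset.single_le_sum (f := fun p => lm p ^ 2 *
        (one (Om a n i p) z * pp μ (K p \ box a i p) z ^ 2)) (fun p _ => hΨ0 p z)
        (Finset.mem_range.2 (idx_lt (a := a) i z)))
      rw [← hp, one_of_mem hzO, one_mul]
    calc |G z| * VV μ (fun ζ => lm p * one (K p \ box a i p) ζ) (hh k) z
        ≤ |G z| * (|lm p| * τ * pp μ (K p \ box a i p) z) := by gcongr
      _ = τ * (|G z| * (|lm p| * pp μ (K p \ box a i p) z)) := by ring
      _ ≤ τ * ((G z ^ 2 + lm p ^ 2 * pp μ (K p \ box a i p) z ^ 2) / 2) := by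
          gcongr
          rw [← sq_abs (G z), ← sq_abs (lm p)]
          nlinarith [sq_nonneg (|G z| - |lm p| * pp μ (K p \ box a i p) z)]
      _ ≤ τ * ((G z ^ 2 + Ψ z) / 2) := by gcongr
      _ = φ z := by simp only [hφ]; ring
  refine (Finset.abs_sum_le_sum_abs _ _).trans ((Finset.sum_le_sum key).trans ?_)
  rw [← Finset.mul_sum]
  have e3 := sum_box_le (μ := ν) a k hφb.integrable hφ0
  have e4 : ∫ z, φ z ∂ν = τ / 2 *
      (nn ν G + ∑ j ∈ Finset.range (MM ^ i), lm j ^ 2 * Phi μ ν a n (K j) i j) := by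
    simp only [hφ]
    rw [integral_const_mul, integral_add hG.bdd.sq.integrable hΨb.integrable, nn]
    simp only [hΨ]
    rw [integral_finsetSum _ fun p _ => ((bdd_Om_pp n (hK p) i p).const_mul _).integrable]
    simp only [integral_const_mul, integral_one_mul (measurableSet_Om _ _ _), Phi]
  rw [e4] at e3
  linarith

lemma Hyp.near_top (H : Hyp κ μ ν C) {ε C' : ℝ} (hT : TopC μ ν ε C') {i j : ℕ}
    (hj : j < MM ^ i) {h g : X → ℝ} (hh' : Bdd h) (hg : Bdd g) :
    |BB κ μ ν (fun ζ => one (box a i j ∩ {ζ | ε * hh i < ht ζ}) ζ * h ζ) g| ≤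
      (C' * nn μ h + nn ν g) / 2 := by
  set U := box a i j ∩ {ζ | ε * hh i < ht ζ} with hU
  have hUm : MeasurableSet U :=
    (measurableSet_box i j).inter (measurableSet_lt measurable_const measurable_ht)
  have hC' := hT.1
  have n1 := nn_nonneg (μ := μ) h
  have n2 := nn_nonneg (μ := ν) g
  rw [H.toKer.BB_swap ((Bdd.one hUm).mul hh') hg]
  set m := μ.real U with hm
  have hm0 : 0 ≤ m := measureReal_nonneg
  rcases hm0.eq_or_lt with h0 | h0
  · rw [BB_null hUm h0.symm, abs_zero]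
    positivity
  unfold BB
  simp only [mul_assoc]
  rw [integral_one_mul hUm]
  refine abs_integral_le_integral_abs.trans ?_
  calc ∫ ζ in U, |h ζ * op (fun ζ z => κ z ζ) ν g ζ| ∂μ
      ≤ ∫ ζ in U, (C' / 2 * h ζ ^ 2 + nn ν g / (2 * m)) ∂μ := by
        refine integral_mono_of_nonneg (Filter.Eventually.of_forall fun _ => abs_nonneg _)
          ((hh'.sq.const_mul _).add (Bdd.const _)).integrable.integrableOn
          ((ae_restrict_iff' hUm).2 (Filter.Eventually.of_forall fun ζ hζ => ?_))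
        have e1 := hT.2 (-a + j * hh i) (hh i) (hh_pos i) (hh_le_one i) ζ
          (box_eq_Sec hj ▸ hζ.1) hζ.2
        rw [← box_eq_Sec hj, ← hU, ← hm] at e1
        simp only [op]
        rw [← integral_const_mul]
        refine abs_integral_le_integral_abs.trans ?_
        calc ∫ z, |h ζ * (κ z ζ * g z)| ∂ν
            ≤ ∫ z, (m * h ζ ^ 2 / 2 * (1 / dl z ζ ^ 4) + 1 / (2 * m) * g z ^ 2) ∂ν := by
              refine integral_mono_of_nonneg (Filter.Eventually.of_forall fun _ => abs_nonneg _)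
                (((integrable_inv_dl_left ζ 4).const_mul _).add (hg.sq.const_mul _).integrable)
                (Filter.Eventually.of_forall fun z => ?_)
              have hd := dl_pos z ζ
              have a1 := H.size z ζ
              simp only
              rw [abs_mul, abs_mul]
              have a2 : |h ζ| * (|κ z ζ| * |g z|) ≤ |h ζ| * (1 / dl z ζ ^ 2 * |g z|) := by gcongr
              refine a2.trans ?_
              have e : m * h ζ ^ 2 / 2 * (1 / dl z ζ ^ 4) + 1 / (2 * m) * g z ^ 2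
                  - |h ζ| * (1 / dl z ζ ^ 2 * |g z|)
                  = (m * |h ζ| / dl z ζ ^ 2 - |g z|) ^ 2 / (2 * m) := by
                rw [← sq_abs (g z), ← sq_abs (h ζ)]
                field_simp
                ring
              have : 0 ≤ (m * |h ζ| / dl z ζ ^ 2 - |g z|) ^ 2 / (2 * m) := by positivity
              linarith
          _ = h ζ ^ 2 / 2 * (m * B4 ν ζ) + nn ν g / (2 * m) := by
              rw [integral_add ((integrable_inv_dl_left ζ 4).const_mul _)
                (hg.sq.const_mul _).integrable, integral_const_mul, integral_const_mul, nn, B4]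
              ring
          _ ≤ h ζ ^ 2 / 2 * C' + nn ν g / (2 * m) := by gcongr
          _ = _ := by ring
    _ = C' / 2 * ∫ ζ in U, h ζ ^ 2 ∂μ + nn ν g / 2 := by
        rw [integral_add (hh'.sq.const_mul _).integrable.integrableOn (integrable_const _),
          integral_const_mul, setIntegral_const, ← hm, smul_eq_mul]
        field_simp
    _ ≤ C' / 2 * nn μ h + nn ν g / 2 := by
        gcongr
        exact setIntegral_le_integral hh'.sq.integrable
          (Filter.Eventually.of_forall fun _ => sq_nonneg _)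
    _ = _ := by ring

/-- The near-diagonal estimate. -/
lemma Hyp.near (H : Hyp κ μ ν C) (d : ℕ) : ∃ D : ℝ, 0 ≤ D ∧ ∀ (a : ℝ) (i j : ℕ), j < MM ^ i →
    ∀ h g : X → ℝ, Bdd h → Bdd g → (∀ ζ, ζ ∉ box a i j → h ζ = 0) → Cst a (i + d) h →
      |BB κ μ ν h g| ≤ D * (nn μ h + nn ν g) := by
  obtain ⟨C', hT⟩ := H.top (hh d) (hh_pos d)
  have hC := H.C0
  have hC' := hT.1
  have hM := MMr_pos
  refine ⟨(C' + C + 1 + (MM : ℝ) ^ d) / 2, by positivity, ?_⟩
  intro a i j hj h g hh' hg hs hc
  set U := box a i j ∩ {ζ | hh d * hh i < ht ζ} with hU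
  have hUm : MeasurableSet U :=
    (measurableSet_box i j).inter (measurableSet_lt measurable_const measurable_ht)
  set s := (Finset.range (MM ^ (i + d))).filter (fun p => p / MM ^ d = j) with hs'
  have e : h = fun ζ => one U ζ * h ζ +
      ∑ p ∈ s, avg μ a h (i + d) p * one (box a (i + d) p) ζ := by
    funext ζ
    by_cases h1 : ζ ∈ box a i j
    · by_cases h2 : ht ζ ≤ hh (i + d)
      · rw [one_of_notMem (S := U) (fun h3 => by
          have h4 : hh d * hh i < ht ζ := h3.2
          rw [← hh_add'] at h4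
          linarith), zero_mul, zero_add, Finset.sum_eq_single (idx a (i + d) ζ)]
        · rw [one_of_mem (S := box a (i + d) _) ⟨h2, rfl⟩, mul_one, avg_of_cst H.pos hc h2]
        · intro p _ hp
          rw [one_of_notMem (S := box a (i + d) p) fun hx => hp hx.2.symm, mul_zero]
        · intro hx
          refine absurd (Finset.mem_filter.2 ⟨Finset.mem_range.2 (idx_lt _ _), ?_⟩) hx
          rw [idx_div, h1.2]
      · rw [one_of_mem (S := U) ⟨h1, by
          show hh d * hh i < ht ζ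
          rw [← hh_add']
          exact not_le.1 h2⟩, one_mul, Finset.sum_eq_zero, add_zero]
        intro p _
        rw [one_of_notMem (S := box a (i + d) p) fun hx => h2 hx.1, mul_zero]
    · rw [hs ζ h1, mul_zero, zero_add, Finset.sum_eq_zero]
      intro p hp
      rw [one_of_notMem (S := box a (i + d) p), mul_zero]
      intro hx
      have := box_subset (Nat.le_add_right i d) p hx
      rw [Nat.add_sub_cancel_left, (Finset.mem_filter.1 hp).2] at this
      exact h1 this
  have hb : ∀ p ∈ s, Bdd (fun ζ => avg μ a h (i + d) p * one (box a (i + d) p) ζ) :=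
    fun p _ => (Bdd.one (measurableSet_box _ _)).const_mul _
  have e2 : BB κ μ ν h g = BB κ μ ν (fun ζ => one U ζ * h ζ) g +
      ∑ p ∈ s, avg μ a h (i + d) p * BB κ μ ν (one (box a (i + d) p)) g := by
    conv_lhs => rw [e]
    rw [H.toKer.BB_add_left ((Bdd.one hUm).mul hh') (Bdd.sum hb) hg, H.toKer.BB_sum_left hb hg]
    simp only [BB_const_mul_left]
  have e3 := H.near_top (a := a) hT hj hh' hg
  have e4 : ∀ p ∈ s, |avg μ a h (i + d) p * BB κ μ ν (one (box a (i + d) p)) g| ≤
      (C * ∫ ζ in box a (i + d) p, h ζ ^ 2 ∂μ + nn ν g) / 2 := by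
    intro p hp
    refine (H.test_box (Finset.mem_range.1 (Finset.mem_filter.1 hp).1) hg _).trans (le_of_eq ?_)
    rw [setIntegral_congr_fun (g := fun _ => avg μ a h (i + d) p ^ 2) (measurableSet_box _ _)
      (fun ζ hζ => by simp only [← hζ.2, avg_of_cst H.pos hc hζ.1]), setIntegral_const,
      smul_eq_mul]
    ring
  have e5 : ∑ p ∈ s, ∫ ζ in box a (i + d) p, h ζ ^ 2 ∂μ ≤ nn μ h :=
    (Finset.sum_le_sum_of_subset_of_nonneg (Finset.filter_subset _ _)
      fun p _ _ => integral_nonneg fun _ => sq_nonneg _).trans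
      (sum_box_le a (i + d) hh'.sq.integrable fun _ => sq_nonneg _)
  have e6 : (s.card : ℝ) ≤ (MM : ℝ) ^ d := by exact_mod_cast card_div_eq _ _ _ (MM_pow_pos d)
  have e7 := (Finset.abs_sum_le_sum_abs _ _).trans (Finset.sum_le_sum e4)
  rw [← Finset.sum_div, Finset.sum_add_distrib, ← Finset.mul_sum, Finset.sum_const,
    nsmul_eq_mul] at e7
  have n1 := nn_nonneg (μ := μ) h
  have n2 := nn_nonneg (μ := ν) g
  have e8 : C * ∑ p ∈ s, ∫ ζ in box a (i + d) p, h ζ ^ 2 ∂μ ≤ C * nn μ h := by gcongr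
  have e9 : (s.card : ℝ) * nn ν g ≤ (MM : ℝ) ^ d * nn ν g := by gcongr
  rw [e2]
  refine (abs_add_le _ _).trans ?_
  have : 0 ≤ (MM : ℝ) ^ d := by positivity
  nlinarith [mul_nonneg hC' n2, mul_nonneg hC.le n2, mul_nonneg this n1]

end Pool.Agent.P.MP_c45a97_an
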