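import Pool.Agent.P.MP_c45a97_an.Dual
import Pool.Agent.P.MP_c45a97_an.Defs

/-! Transfer to weights on the disc. -/

namespace Pool.Agent.P.MP_c45a97_an

open MeasureTheory Filter
open scoped ComplexConjugate ENNReal NNReal Real

lemma emb : MeasurableEmbedding (Subtype.val : X → ℂ) :=
  MeasurableEmbedding.subtype_coe (s := {z : ℂ | 0 < ‖z‖ ∧ ‖z‖ < 1})
    ((measurableSet_lt measurable_const measurable_norm).inter
      (measurableSet_lt measurable_norm measurable_const))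

noncomputable def mX (w : ℂ → ℝ) : Measure X := (wt w).comap Subtype.val

lemma area_ac : area ≪ (volume : Measure ℂ).restrict (Metric.ball 0 1) :=
  Measure.smul_absolutelyContinuous

lemma ac_area : (volume : Measure ℂ).restrict (Metric.ball 0 1) ≪ area :=
  Measure.absolutelyContinuous_smul (by
    rw [ne_eq, ENNReal.ofReal_eq_zero, not_le]
    positivity)

lemma wt_ac (w : ℂ → ℝ) : wt w ≪ (volume : Measure ℂ).restrict (Metric.ball 0 1) :=
  (withDensity_absolutelyContinuous _ _).trans area_ac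

lemma wt_ac' (w : ℂ → ℝ) : wt w ≪ (volume : Measure ℂ) :=
  (wt_ac w).trans Measure.absolutelyContinuous_restrict

lemma map_mX (w : ℂ → ℝ) : (mX w).map Subtype.val = wt w := by
  rw [mX, emb.map_comap]
  refine Measure.restrict_eq_self_of_ae_mem ?_
  have h1 : ∀ᵐ z ∂wt w, z ∈ Metric.ball (0 : ℂ) 1 :=
    (wt_ac w).ae_le (ae_restrict_mem measurableSet_ball)
  have h2 : ∀ᵐ z ∂wt w, z ≠ 0 := (wt_ac' w).ae_le (Measure.ae_ne volume 0)
  filter_upwards [h1, h2] with z a b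
  exact ⟨⟨z, norm_pos_iff.2 b, mem_ball_zero_iff.1 a⟩, rfl⟩

variable {w σ : ℂ → ℝ}

lemma IsWeight.aem (h : IsWeight w) : AEMeasurable (fun z => ENNReal.ofReal (w z)) area :=
  (h.2.aestronglyMeasurable.aemeasurable.mono_ac area_ac).ennreal_ofReal

lemma mX_preimage (w : ℂ → ℝ) (S : Set ℂ) : mX w (Subtype.val ⁻¹' S) = wt w S := by
  rw [← map_mX, emb.map_apply]

lemma IsWeight.pos_open (h : IsWeight w) {U : Set ℂ} (hU : IsOpen U) {z : ℂ} (hz : z ∈ U)
    (hz' : ‖z‖ < 1) {S : Set X} (hS : Subtype.val ⁻¹' U ⊆ S) : 0 < mX w S := by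
  refine lt_of_lt_of_le ?_ (measure_mono hS)
  rw [mX_preimage, pos_iff_ne_zero]
  intro h0
  have h1 : area ≪ wt w := withDensity_absolutelyContinuous' h.aem
    (h.1.mono fun z hz => (ENNReal.ofReal_pos.2 hz).ne')
  have h2 := ac_area (h1 h0)
  rw [Measure.restrict_apply hU.measurableSet] at h2
  exact (hU.inter Metric.isOpen_ball).measure_ne_zero volume ⟨z, hz, mem_ball_zero_iff.2 hz'⟩ h2

lemma ee_eq_iff (s t : ℝ) : ee s = ee t ↔ ∃ n : ℤ, s = t + n := by
  constructor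
  · intro h
    unfold ee at h
    obtain ⟨n, hn⟩ := Complex.exp_eq_exp_iff_exists_int.1 h
    refine ⟨n, ?_⟩
    have := congrArg Complex.im hn
    simp at this
    have hp := Real.pi_pos
    nlinarith
  · rintro ⟨n, rfl⟩
    exact ee_add_int t n

lemma IsWeight.pos_Sec (h : IsWeight w) (a ℓ : ℝ) (h0 : 0 < ℓ) (h1 : ℓ ≤ 1) :
    0 < mX w (Sec a ℓ ℓ) := by
  have hn : ‖((1 - ℓ / 8 : ℝ) : ℂ) * ee (a + ℓ / 2)‖ = 1 - ℓ / 8 := by
    rw [norm_mul, norm_ee, mul_one, Complex.norm_real, Real.norm_eq_abs, abs_of_pos (by linarith)]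
  set ζ : X := ⟨((1 - ℓ / 8 : ℝ) : ℂ) * ee (a + ℓ / 2), by rw [hn]; constructor <;> linarith⟩
    with hζ
  have e1 : ht ζ = ℓ / 8 := by
    unfold ht
    rw [hn]
    ring
  have e2 : ee (ang ζ) = ee (a + ℓ / 2) := by
    have := polar ζ
    rw [hn] at this
    refine (mul_left_cancel₀ ?_ this).symm
    rw [Complex.ofReal_ne_zero]
    linarith
  obtain ⟨n, hn'⟩ := (ee_eq_iff _ _).1 e2
  refine h.pos_open (U := {z | ‖1 - z * conj ζ.1‖ < ℓ / 2})
    (isOpen_lt (by fun_prop) continuous_const) (z := ζ.1) ?_ ζ.2.2 fun z hz => ?_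
  · have := dl_self ζ
    unfold dl at this
    change ‖1 - ζ.1 * conj ζ.1‖ < ℓ / 2
    linarith
  · have h2 : dl z ζ < ℓ / 2 := by
      unfold dl
      exact hz
    obtain ⟨h3, h4⟩ := mem_Sec_of_dl_lt h2
    refine ⟨by linarith, ?_⟩
    have e : ang z - (ang ζ - ℓ / 2) = ang z - a - n := by rw [hn']; ring
    rw [e, Int.fract_sub_intCast] at h4
    linarith

lemma IsWeight.pos_core (h : IsWeight w) : 0 < mX w {z | 7 / 8 ≤ ht z} := by
  refine h.pos_open (U := Metric.ball 0 (1 / 8)) Metric.isOpen_ball (z := 0) (by simp) (by simp)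
    fun z hz => ?_
  have := mem_ball_zero_iff.1 hz
  change 7 / 8 ≤ ht z
  unfold ht
  linarith

lemma IsWeight.fin (h : IsWeight w) (τ : ℝ) (hτ : 0 < τ) : mX w {z | τ ≤ ht z} < ∞ := by
  have h1 : {z : X | τ ≤ ht z} ⊆ Subtype.val ⁻¹' Metric.closedBall 0 (1 - τ) := by
    intro z hz
    have : τ ≤ ht z := hz
    unfold ht at this
    exact mem_closedBall_zero_iff.2 (by linarith)
  refine (measure_mono h1).trans_lt ?_
  rw [mX_preimage, wt, withDensity_apply _ measurableSet_closedBall]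
  have h2 : IntegrableOn w (Metric.closedBall 0 (1 - τ)) volume :=
    h.2.integrableOn_compact_subset (Metric.closedBall_subset_ball (by linarith))
      (isCompact_closedBall _ _)
  have h3 : IntegrableOn w (Metric.closedBall 0 (1 - τ)) area := by
    unfold area IntegrableOn
    rw [Measure.restrict_smul]
    exact Integrable.smul_measure (h2.mono_measure Measure.restrict_le_self)
      ENNReal.ofReal_ne_top
  exact h3.lintegral_lt_top

lemma IsWeight.smul_ae (h : IsWeight σ) (F : ℂ → ℂ) :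
    (fun ζ => (ENNReal.ofReal (σ ζ)).toReal • F ζ) =ᵐ[area] fun ζ => (σ ζ : ℂ) * F ζ :=
  h.1.mono fun ζ hζ => by simp only [ENNReal.toReal_ofReal hζ.le, Complex.real_smul]

lemma IsWeight.bergman_eq (h : IsWeight σ) (f : ℂ → ℂ) :
    (bergman fun ζ => (σ ζ : ℂ) * f ζ) ∘ Subtype.val = PX (mX σ) (f ∘ Subtype.val) := by
  funext z
  have e := integral_withDensity_eq_integral_toReal_smul₀ h.aem
    (Eventually.of_forall fun _ => ENNReal.ofReal_lt_top)
    (fun ζ => f ζ / (1 - z.1 * conj ζ) ^ 2)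
  rw [integral_congr_ae (h.smul_ae _), ← wt, ← map_mX, emb.integral_map] at e
  simp only [Function.comp, bergman, mul_div_assoc, ← e, PX]
  congr 1
  funext ζ
  unfold ker
  ring

lemma IsWeight.integrable_iff (h : IsWeight σ) (f : ℂ → ℂ) :
    Integrable (fun ζ => (σ ζ : ℂ) * f ζ) area ↔ Integrable (f ∘ Subtype.val) (mX σ) := by
  rw [← emb.integrable_map_iff, map_mX, wt, integrable_withDensity_iff_integrable_smul₀' h.aem
    (Eventually.of_forall fun _ => ENNReal.ofReal_lt_top), integrable_congr (h.smul_ae f)]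

lemma eLpNorm_wt (w : ℂ → ℝ) (f : ℂ → ℂ) :
    eLpNorm f 2 (wt w) = eLpNorm (f ∘ Subtype.val) 2 (mX w) := by
  rw [← map_mX, emb.eLpNorm_map_measure]

lemma memLp_wt (w : ℂ → ℝ) (f : ℂ → ℂ) :
    MemLp f 2 (wt w) ↔ MemLp (f ∘ Subtype.val) 2 (mX w) := by
  rw [← map_mX, emb.memLp_map_measure_iff]

lemma CondB.bx (H : CondB w σ) (h : IsWeight σ) : BX (mX σ) (mX w) := by
  obtain ⟨C, H⟩ := H
  simp only [memLp_wt, eLpNorm_wt, h.bergman_eq, h.integrable_iff] at H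
  refine ⟨C, fun f hf _ => ?_⟩
  have := H (Function.extend Subtype.val f 0)
  rw [Function.extend_comp Subtype.val_injective] at this
  exact (this hf).2

lemma BX.condB [IsFiniteMeasure (mX σ)] (H : BX (mX σ) (mX w)) (h : IsWeight σ) : CondB w σ := by
  obtain ⟨C, H⟩ := H
  refine ⟨C, ?_⟩
  simp only [memLp_wt, eLpNorm_wt, h.bergman_eq, h.integrable_iff]
  exact fun f hf => ⟨hf.integrable (by norm_num), H _ hf (hf.integrable (by norm_num))⟩

lemma line_null (w : ℂ → ℝ) (s : ℝ) : ∀ᵐ z ∂mX w, ee (ang z) ≠ ee s := by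
  have h1 : volume ((Submodule.span ℝ {ee s} : Submodule ℝ ℂ) : Set ℂ) = 0 := by
    refine Measure.addHaar_submodule volume _ fun h => ?_
    have h2 : ee s ≠ 0 := by
      rw [← norm_pos_iff, norm_ee]
      norm_num
    have := finrank_span_singleton (K := ℝ) h2
    rw [h, finrank_top, Complex.finrank_real_complex] at this
    norm_num at this
  have h2 := wt_ac' w h1
  rw [← mX_preimage] at h2
  refine measure_mono_null (fun z hz => ?_) h2
  have h3 : ee (ang z) = ee s := not_not.1 hz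
  refine Submodule.mem_span_singleton.2 ⟨‖z.1‖, ?_⟩
  rw [← h3, Complex.real_smul]
  exact (polar z).symm

lemma cbox_ae (w : ℂ → ℝ) {a ℓ : ℝ} {J : Set ℝ} (h1 : ℓ ≤ 1) (h2 : Set.Ioo a (a + ℓ) ⊆ J)
    (h3 : J ⊆ Set.Icc a (a + ℓ)) :
    ∀ᵐ z ∂mX w, z.1 ∈ cbox J ℓ ↔ z ∈ Sec a ℓ ℓ := by
  filter_upwards [line_null w a, line_null w (a + ℓ)] with z z1 z2
  have e1 : z.1 / (‖z.1‖ : ℂ) = ee (ang z) := by
    rw [div_eq_iff (Complex.ofReal_ne_zero.2 z.2.1.ne'), mul_comm]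
    exact polar z
  have e2 : ∀ t : ℝ, Complex.exp (2 * π * t * Complex.I) = ee t := fun t => by
    unfold ee
    congr 1
    push_cast
    ring
  simp only [cbox, Sec, Set.mem_ofPred_eq, e1, e2]
  unfold ht
  constructor
  · rintro ⟨-, ⟨t, tJ, e⟩, b⟩
    refine ⟨b, ?_⟩
    obtain ⟨t1, t2⟩ := h3 tJ
    have t3 : t < a + ℓ := lt_of_le_of_ne t2 fun h => z2 (h ▸ e)
    obtain ⟨n, hn⟩ := (ee_eq_iff _ _).1 e
    have : ang z - a = t - a + n := by rw [hn]; ring
    rw [this, Int.fract_add_intCast, Int.fract_eq_self.2 ⟨by linarith, by linarith⟩]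
    linarith
  · rintro ⟨b, c⟩
    have e : ee (ang z) = ee (a + Int.fract (ang z - a)) :=
      (ee_eq_iff _ _).2 ⟨⌊ang z - a⌋, by rw [Int.fract]; ring⟩
    refine ⟨z.2.2, ⟨a + Int.fract (ang z - a), h2 ⟨?_, by linarith⟩, e⟩, b⟩
    refine lt_of_le_of_ne (by linarith [Int.fract_nonneg (ang z - a)]) fun h => z1 ?_
    rw [e, ← h]

lemma testOn_iff (h : IsWeight σ) (C : ℝ≥0) {a ℓ : ℝ} {J : Set ℝ} (h1 : ℓ ≤ 1)
    (h2 : Set.Ioo a (a + ℓ) ⊆ J) (h3 : J ⊆ Set.Icc a (a + ℓ)) :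
    TestOn C w σ (cbox J ℓ) ↔ mX σ (Sec a ℓ ℓ) < ∞ ∧
      eLpNorm (PS (mX σ) (Sec a ℓ ℓ)) 2 (mX w) ≤ C * mX σ (Sec a ℓ ℓ) ^ (1 / 2 : ℝ) := by
  have ae := cbox_ae σ h1 h2 h3
  have e1 : wt σ (cbox J ℓ) = mX σ (Sec a ℓ ℓ) := by
    rw [← mX_preimage]
    exact measure_congr (ae.mono fun z hz => propext hz)
  have e2 : ((cbox J ℓ).indicator fun ζ => (σ ζ : ℂ)) =
      fun ζ => (σ ζ : ℂ) * (cbox J ℓ).indicator (fun _ => 1) ζ := by
    funext ζ
    by_cases hζ : ζ ∈ cbox J ℓ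
    · simp [Set.indicator_of_mem hζ]
    · simp [Set.indicator_of_notMem hζ]
  have e3 : PX (mX σ) ((cbox J ℓ).indicator (fun _ => 1) ∘ Subtype.val) =
      PS (mX σ) (Sec a ℓ ℓ) := by
    rw [← PX_indicator (measurableSet_Sec _ _ _)]
    funext z
    refine integral_congr_ae (ae.mono fun ζ hζ => ?_)
    by_cases hζ' : ζ ∈ Sec a ℓ ℓ
    · simp [Set.indicator_of_mem hζ', Set.indicator_of_mem (hζ.2 hζ')]
    · simp [Set.indicator_of_notMem hζ', Set.indicator_of_notMem (mt hζ.1 hζ')]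
  rw [TestOn, e1, e2, eLpNorm_wt, h.bergman_eq, e3]

lemma condT_iff (hw : IsWeight w) (h : IsWeight σ) : CondT w σ ↔ TX (mX σ) (mX w) := by
  refine exists_congr fun C => ⟨fun H a ℓ h0 h1 => ?_, fun H a ℓ J h0 h1 h2 h3 => ?_⟩
  · have := H a ℓ _ h0 h1 subset_rfl Set.Ioo_subset_Icc_self
    rw [testOn_iff h C h1 subset_rfl Set.Ioo_subset_Icc_self,
      testOn_iff hw C h1 subset_rfl Set.Ioo_subset_Icc_self] at this
    exact ⟨this.1.1, this.2.1, this.1.2, this.2.2⟩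
  · rw [testOn_iff h C h1 h2 h3, testOn_iff hw C h1 h2 h3]
    have := H a ℓ h0 h1
    exact ⟨⟨this.1, this.2.2.1⟩, this.2.1, this.2.2.2⟩

theorem condB_iff_condT (hw : IsWeight w) (h : IsWeight σ) : CondB w σ ↔ CondT w σ := by
  rw [condT_iff hw h]
  refine ⟨fun H => (H.bx h).tx h.fin h.pos_core hw.pos_core, fun H => ?_⟩
  have : IsFiniteMeasure (mX σ) := by
    obtain ⟨C, H⟩ := H
    have h0 := (H 0 1 one_pos le_rfl).1
    rw [Sec_univ] at h0
    exact ⟨h0⟩
  exact (H.bx h.pos_Sec hw.pos_Sec).condB h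

end Pool.Agent.P.MP_c45a97_an
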