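import Pool.Agent.P.MP_c45a97_an.Mart
import Pool.Agent.P.MP_c45a97_an.Car

/-! The bilinear form of a real kernel and its basic estimates. -/

set_option linter.unusedSectionVars false

namespace Pool.Agent.P.MP_c45a97_an

open MeasureTheory

noncomputable def op (κ : X → X → ℝ) (μ : Measure X) (f : X → ℝ) (z : X) : ℝ :=
  ∫ ζ, κ z ζ * f ζ ∂μ

noncomputable def BB (κ : X → X → ℝ) (μ ν : Measure X) (f g : X → ℝ) : ℝ :=
  ∫ z, g z * op κ μ f z ∂ν

structure Ker (κ : X → X → ℝ) (μ ν : Measure X) : Prop where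
  meas : Measurable (fun p : X × X => κ p.1 p.2)
  size : ∀ z ζ, |κ z ζ| ≤ 1 / dl z ζ ^ 2
  smooth : ∀ z z' ζ : X, ∀ r : ℝ, ‖z.1 - z'.1‖ ≤ r → 2 * r ≤ dl z ζ →
    |κ z ζ - κ z' ζ| ≤ 10 * r / dl z ζ ^ 3
  int : Integrable (fun p : X × X => 1 / dl p.1 p.2 ^ 2) (ν.prod μ)

structure Hyp (κ : X → X → ℝ) (μ ν : Measure X) (C : ℝ) : Prop extends Ker κ μ ν where
  C0 : 0 < C
  test : ∀ a ℓ : ℝ, 0 < ℓ → ℓ ≤ 1 → Integrable (fun z => op κ μ (one (Sec a ℓ ℓ)) z ^ 2) ν ∧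
    ∫ z, op κ μ (one (Sec a ℓ ℓ)) z ^ 2 ∂ν ≤ C * μ.real (Sec a ℓ ℓ)
  hole : ∀ a ℓ : ℝ, 0 < ℓ → ℓ ≤ 1 → ∀ z₀ ∈ Sec a ℓ ℓ,
    ν.real (Sec a ℓ ℓ) * ∫ ζ in {ζ | 160 * ℓ ≤ dl ζ z₀}, 1 / dl ζ z₀ ^ 4 ∂μ ≤ C
  top : ∀ ε : ℝ, 0 < ε → ∃ C', TopC μ ν ε C'
  piv : ∀ (s : Finset (ℕ × ℕ)) (a ℓ : ℝ), 0 < ℓ → ℓ ≤ 1 → ∀ b l : ℕ × ℕ → ℝ,
    (∀ i ∈ s, 0 < l i ∧ l i ≤ 1) → (∀ i ∈ s, Sec (b i) (l i) (l i) ⊆ Sec a ℓ ℓ) →
    ((s : Set (ℕ × ℕ)).PairwiseDisjoint fun i => Sec (b i) (l i) (l i)) →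
    ∀ Ω : ℕ × ℕ → Set X, (∀ i, MeasurableSet (Ω i)) → (∀ i ∈ s, Ω i ⊆ Sec (b i) (l i) (l i)) →
    (∀ i ∈ s, ∀ z ∈ Ω i, ∀ ζ, ζ ∉ Sec (b i) (l i) (l i) → 4 * ht z ≤ dl z ζ) →
    ∑ i ∈ s, ∫ z in Ω i, pp μ (Sec a ℓ ℓ \ Sec (b i) (l i) (l i)) z ^ 2 ∂ν ≤
      C * μ.real (Sec a ℓ ℓ)
  pos : PosM μ

variable {κ : X → X → ℝ} {μ ν : Measure X} [IsFiniteMeasure μ] [IsFiniteMeasure ν] {C a : ℝ}
  {f f' g g' : X → ℝ}

lemma Bdd.mul_integrable (hg : Bdd g) {φ : X → ℝ} (hφ : Integrable φ ν) :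
    Integrable (fun z => g z * φ z) ν := by
  obtain ⟨D, hD⟩ := hg.bdd
  exact hφ.bdd_mul hg.meas.aestronglyMeasurable (c := D) (Filter.Eventually.of_forall hD)

lemma Ker.integrable_left (hk : Ker κ μ ν) (z : X) : Integrable (fun ζ => κ z ζ) μ :=
  (integrable_inv_dl_right z 2).mono'
    (Measurable.of_uncurry_left (f := κ) hk.meas).aestronglyMeasurable
    (Filter.Eventually.of_forall fun ζ => hk.size z ζ)

lemma Ker.integrable_mul (hk : Ker κ μ ν) (hf : Bdd f) (z : X) :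
    Integrable (fun ζ => κ z ζ * f ζ) μ := by
  simpa only [mul_comm] using hf.mul_integrable (hk.integrable_left z)

lemma Ker.integrable_prod (hk : Ker κ μ ν) (hf : Bdd f) (hg : Bdd g) :
    Integrable (fun p : X × X => g p.1 * (κ p.1 p.2 * f p.2)) (ν.prod μ) := by
  obtain ⟨D, hD⟩ := hf.bdd
  obtain ⟨E, hE⟩ := hg.bdd
  refine (hk.int.const_mul (E * D)).mono' ((hg.meas.comp measurable_fst).mul
    (hk.meas.mul (hf.meas.comp measurable_snd))).aestronglyMeasurable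
    (Filter.Eventually.of_forall fun p => ?_)
  rw [Real.norm_eq_abs, abs_mul, abs_mul]
  have h1 := hk.size p.1 p.2
  have h2 := hD p.2
  have h3 := hE p.1
  have h4 : 0 ≤ E := (abs_nonneg _).trans h3
  calc |g p.1| * (|κ p.1 p.2| * |f p.2|) ≤ E * (1 / dl p.1 p.2 ^ 2 * D) := by gcongr
    _ = _ := by ring

lemma Ker.integrable_BB (hk : Ker κ μ ν) (hf : Bdd f) (hg : Bdd g) :
    Integrable (fun z => g z * op κ μ f z) ν := by
  have := (hk.integrable_prod hf hg).integral_prod_left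
  simpa only [integral_const_mul, op] using this

lemma Ker.op_add (hk : Ker κ μ ν) (hf : Bdd f) (hf' : Bdd f') (z : X) :
    op κ μ (fun ζ => f ζ + f' ζ) z = op κ μ f z + op κ μ f' z := by
  unfold op
  rw [← integral_add (hk.integrable_mul hf z) (hk.integrable_mul hf' z)]
  simp only [mul_add]

lemma op_const_mul (c : ℝ) (f : X → ℝ) (z : X) :
    op κ μ (fun ζ => c * f ζ) z = c * op κ μ f z := by
  unfold op
  rw [← integral_const_mul]
  simp only [mul_left_comm]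

lemma Ker.op_sum (hk : Ker κ μ ν) {ι : Type} {s : Finset ι} {F : ι → X → ℝ}
    (h : ∀ i ∈ s, Bdd (F i)) (z : X) :
    op κ μ (fun ζ => ∑ i ∈ s, F i ζ) z = ∑ i ∈ s, op κ μ (F i) z := by
  unfold op
  rw [← integral_finsetSum _ fun i hi => hk.integrable_mul (h i hi) z]
  simp only [Finset.mul_sum]

lemma Ker.BB_add_left (hk : Ker κ μ ν) (hf : Bdd f) (hf' : Bdd f') (hg : Bdd g) :
    BB κ μ ν (fun ζ => f ζ + f' ζ) g = BB κ μ ν f g + BB κ μ ν f' g := by
  unfold BB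
  rw [← integral_add (hk.integrable_BB hf hg) (hk.integrable_BB hf' hg)]
  simp only [hk.op_add hf hf', mul_add]

lemma Ker.BB_add_right (hk : Ker κ μ ν) (hf : Bdd f) (hg : Bdd g) (hg' : Bdd g') :
    BB κ μ ν f (fun z => g z + g' z) = BB κ μ ν f g + BB κ μ ν f g' := by
  unfold BB
  rw [← integral_add (hk.integrable_BB hf hg) (hk.integrable_BB hf hg')]
  simp only [add_mul]

lemma BB_const_mul_left (c : ℝ) (f g : X → ℝ) :
    BB κ μ ν (fun ζ => c * f ζ) g = c * BB κ μ ν f g := by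
  unfold BB
  rw [← integral_const_mul]
  simp only [op_const_mul, mul_left_comm]

lemma BB_const_mul_right (c : ℝ) (f g : X → ℝ) :
    BB κ μ ν f (fun z => c * g z) = c * BB κ μ ν f g := by
  unfold BB
  rw [← integral_const_mul]
  simp only [mul_assoc]

lemma Ker.BB_sum_left (hk : Ker κ μ ν) {ι : Type} {s : Finset ι} {F : ι → X → ℝ}
    (h : ∀ i ∈ s, Bdd (F i)) (hg : Bdd g) :
    BB κ μ ν (fun ζ => ∑ i ∈ s, F i ζ) g = ∑ i ∈ s, BB κ μ ν (F i) g := by
  unfold BB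
  rw [← integral_finsetSum _ fun i hi => hk.integrable_BB (h i hi) hg]
  simp only [hk.op_sum h, Finset.mul_sum]

lemma Ker.BB_sum_right (hk : Ker κ μ ν) {ι : Type} {s : Finset ι} {F : ι → X → ℝ}
    (hf : Bdd f) (h : ∀ i ∈ s, Bdd (F i)) :
    BB κ μ ν f (fun z => ∑ i ∈ s, F i z) = ∑ i ∈ s, BB κ μ ν f (F i) := by
  unfold BB
  rw [← integral_finsetSum _ fun i hi => hk.integrable_BB hf (h i hi)]
  simp only [Finset.sum_mul]

lemma Ker.BB_swap (hk : Ker κ μ ν) (hf : Bdd f) (hg : Bdd g) :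
    BB κ μ ν f g = BB (fun ζ z => κ z ζ) ν μ g f := by
  unfold BB op
  simp_rw [← integral_const_mul]
  rw [integral_integral_swap (hk.integrable_prod hf hg)]
  refine integral_congr_ae (Filter.Eventually.of_forall fun ζ => ?_)
  refine integral_congr_ae (Filter.Eventually.of_forall fun z => ?_)
  simp only
  ring

lemma Hyp.test_box (H : Hyp κ μ ν C) {k j : ℕ} (hj : j < MM ^ k) (hg : Bdd g) (c : ℝ) :
    |c * BB κ μ ν (one (box a k j)) g| ≤ (c ^ 2 * C * μ.real (box a k j) + nn ν g) / 2 := by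
  rw [box_eq_Sec hj]
  obtain ⟨h1, h2⟩ := H.test (-a + j * hh k) (hh k) (hh_pos k) (hh_le_one k)
  set Q := Sec (-a + j * hh k) (hh k) (hh k)
  unfold BB
  rw [← integral_const_mul]
  refine abs_integral_le_integral_abs.trans ?_
  calc ∫ z, |c * (g z * op κ μ (one Q) z)| ∂ν
      ≤ ∫ z, (c ^ 2 / 2 * op κ μ (one Q) z ^ 2 + 1 / 2 * g z ^ 2) ∂ν := by
        refine integral_mono_of_nonneg (Filter.Eventually.of_forall fun _ => abs_nonneg _)
          ((h1.const_mul _).add (hg.sq.integrable.const_mul _))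
          (Filter.Eventually.of_forall fun z => ?_)
        simp only
        rw [abs_le]
        constructor
        · nlinarith [sq_nonneg (c * op κ μ (one Q) z + g z)]
        · nlinarith [sq_nonneg (c * op κ μ (one Q) z - g z)]
    _ = c ^ 2 / 2 * ∫ z, op κ μ (one Q) z ^ 2 ∂ν + 1 / 2 * nn ν g := by
        rw [integral_add (h1.const_mul _) (hg.sq.integrable.const_mul _), integral_const_mul,
          integral_const_mul, nn]
    _ ≤ c ^ 2 / 2 * (C * μ.real Q) + 1 / 2 * nn ν g := by gcongr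
    _ = _ := by ring

lemma family_eq (k : ℕ) (h : ℕ → X → ℝ) {G : X → ℝ} (hs : ∀ x, hh k < ht x → G x = 0) (z : X) :
    G z * op κ μ (h (idx a k z)) z =
      ∑ j ∈ Finset.range (MM ^ k), (one (box a k j) z * G z) * op κ μ (h j) z := by
  by_cases hz : ht z ≤ hh k
  · rw [Finset.sum_eq_single (idx a k z)]
    · rw [one_of_mem (S := box a k (idx a k z)) ⟨hz, rfl⟩, one_mul]
    · intro j _ hj
      rw [one_of_notMem (S := box a k j) fun hx => hj hx.2.symm, zero_mul, zero_mul]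
    · intro hx
      exact absurd (Finset.mem_range.2 (idx_lt k z)) hx
  · simp [hs z (not_le.1 hz)]

lemma Ker.integrable_family (hk : Ker κ μ ν) (k : ℕ) {h : ℕ → X → ℝ} (hh' : ∀ j, Bdd (h j))
    {G : X → ℝ} (hG : Bdd G) (hs : ∀ x, hh k < ht x → G x = 0) :
    Integrable (fun z => G z * op κ μ (h (idx a k z)) z) ν := by
  simp_rw [family_eq k h hs]
  exact integrable_finsetSum _ fun j _ =>
    hk.integrable_BB (hh' j) ((Bdd.one (measurableSet_box k j)).mul hG)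

lemma Ker.integral_family (hk : Ker κ μ ν) (k : ℕ) {h : ℕ → X → ℝ} (hh' : ∀ j, Bdd (h j))
    {G : X → ℝ} (hG : Bdd G) (hs : ∀ x, hh k < ht x → G x = 0) :
    ∫ z, G z * op κ μ (h (idx a k z)) z ∂ν =
      ∑ j ∈ Finset.range (MM ^ k), BB κ μ ν (h j) (fun z => one (box a k j) z * G z) := by
  simp_rw [family_eq k h hs]
  exact integral_finsetSum _ fun j _ =>
    hk.integrable_BB (hh' j) ((Bdd.one (measurableSet_box k j)).mul hG)

noncomputable def VV (μ : Measure X) (h : X → ℝ) (r : ℝ) (z : X) : ℝ :=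
  ∫ ζ, |h ζ| * (r / dl z ζ ^ 3) ∂μ

lemma integrable_VV {h : X → ℝ} (hh' : Bdd h) (r : ℝ) (z : X) :
    Integrable (fun ζ => |h ζ| * (r / dl z ζ ^ 3)) μ := by
  have := hh'.abs.mul_integrable ((integrable_inv_dl_right (μ := μ) z 3).const_mul r)
  simpa only [mul_one_div] using this

/-- The estimate that uses the mean-zero property on a good box. -/
lemma Ker.mean_zero (hk : Ker κ μ ν) {i k j : ℕ} (hik : i < k) (hg : good k j) {G h φ : X → ℝ}
    (hG : MD0 ν a k G) (hh' : Bdd h) (hs : ∀ ζ ∈ box a i (j / MM ^ (k - i)), h ζ = 0)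
    (hφ : IntegrableOn φ (box a k j) ν)
    (hb : ∀ z ∈ box a k j, |G z| * VV μ h (hh k) z ≤ φ z) :
    |BB κ μ ν h (fun z => one (box a k j) z * G z)| ≤ 80 * ∫ z in box a k j, φ z ∂ν := by
  have hB := measurableSet_box (a := a) k j
  rcases (box a k j).eq_empty_or_nonempty with he | ⟨z₀, hz₀⟩
  · simp [he, BB, one]
  have e1 : BB κ μ ν h (fun z => one (box a k j) z * G z) =
      ∫ z in box a k j, G z * (op κ μ h z - op κ μ h z₀) ∂ν := by
    unfold BB
    simp only [mul_assoc, mul_sub]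
    rw [integral_one_mul hB, integral_sub (hk.integrable_BB hh' hG.bdd).integrableOn
      (hG.bdd.integrable.mul_const _).integrableOn, integral_mul_const, hG.mean, zero_mul, sub_zero]
  rw [e1, ← integral_const_mul]
  refine abs_integral_le_integral_abs.trans ?_
  refine integral_mono_of_nonneg (Filter.Eventually.of_forall fun _ => abs_nonneg _)
    (hφ.const_mul 80) ((ae_restrict_iff' hB).2 (Filter.Eventually.of_forall fun z hz => ?_))
  have e2 : |op κ μ h z - op κ μ h z₀| ≤ 80 * VV μ h (hh k) z := by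
    unfold op VV
    rw [← integral_sub (hk.integrable_mul hh' z) (hk.integrable_mul hh' z₀), ← integral_const_mul]
    refine abs_integral_le_integral_abs.trans ?_
    refine integral_mono_of_nonneg (Filter.Eventually.of_forall fun _ => abs_nonneg _)
      ((integrable_VV hh' _ z).const_mul 80) (Filter.Eventually.of_forall fun ζ => ?_)
    simp only
    by_cases hζ : ζ ∈ box a i (j / MM ^ (k - i))
    · simp [hs ζ hζ]
    · have h1 : 256 * hh k ≤ dl z ζ :=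
        sep' hik (hz.2 ▸ hg) (by rwa [← idx_div' hik.le, hz.2])
      have h2 := hk.smooth z z₀ ζ (8 * hh k) (norm_sub_le_of_mem_box hz hz₀)
        (by linarith [hh_pos k])
      rw [← sub_mul, abs_mul]
      calc |κ z ζ - κ z₀ ζ| * |h ζ| ≤ 10 * (8 * hh k) / dl z ζ ^ 3 * |h ζ| := by gcongr
        _ = _ := by ring
  simp only
  rw [abs_mul]
  calc |G z| * |op κ μ h z - op κ μ h z₀| ≤ |G z| * (80 * VV μ h (hh k) z) := by gcongr
    _ = 80 * (|G z| * VV μ h (hh k) z) := by ring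
    _ ≤ _ := by gcongr; exact hb z hz

lemma BB_bad {k j : ℕ} (hg : ¬ good k j) {G : X → ℝ} (h : X → ℝ)
    (hG : ∀ x, ¬ good k (idx a k x) → G x = 0) :
    BB κ μ ν h (fun z => one (box a k j) z * G z) = 0 := by
  have : (fun z => one (box a k j) z * G z) = fun _ => 0 := by
    funext z
    by_cases hz : z ∈ box a k j
    · rw [hG z (hz.2 ▸ hg), mul_zero]
    · rw [one_of_notMem hz, zero_mul]
  rw [this]
  simp [BB]

end Pool.Agent.P.MP_c45a97_an
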