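import Mathlib

/-! Geometry of the punctured disc: height, angle, the quasi-distance and the Bergman kernel. -/

namespace Pool.Agent.P.MP_c45a97_an

open Complex Real
open scoped ComplexConjugate

/-- The punctured unit disc. -/
abbrev X : Type := {z : ℂ // 0 < ‖z‖ ∧ ‖z‖ < 1}

noncomputable def ht (z : X) : ℝ := 1 - ‖z.1‖

noncomputable def ang (z : X) : ℝ := Complex.arg z.1 / (2 * π)

noncomputable def dl (z ζ : X) : ℝ := ‖1 - z.1 * conj ζ.1‖

noncomputable def ker (z ζ : X) : ℂ := 1 / (1 - z.1 * conj ζ.1) ^ 2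

/-- Sector of angular width `w` starting at the angle `u`, of height `h`. -/
def Sec (u w h : ℝ) : Set X := {z | ht z ≤ h ∧ Int.fract (ang z - u) < w}

noncomputable def ee (t : ℝ) : ℂ := Complex.exp (I * (2 * π * t : ℝ))

lemma norm_ee (t : ℝ) : ‖ee t‖ = 1 := by
  unfold ee
  rw [mul_comm]
  exact Complex.norm_exp_ofReal_mul_I _

lemma ee_add (s t : ℝ) : ee (s + t) = ee s * ee t := by
  unfold ee
  rw [← Complex.exp_add]
  congr 1
  push_cast
  ring

lemma ee_int (n : ℤ) : ee n = 1 := by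
  unfold ee
  have := Complex.exp_int_mul_two_pi_mul_I n
  rw [← this]
  congr 1
  push_cast
  ring

lemma ee_add_int (t : ℝ) (n : ℤ) : ee (t + n) = ee t := by
  rw [ee_add, ee_int, mul_one]

lemma conj_ee (t : ℝ) : conj (ee t) = ee (-t) := by
  unfold ee
  rw [← Complex.exp_conj]
  congr 1
  simp only [map_mul, Complex.conj_I, Complex.conj_ofReal]
  push_cast
  ring

lemma ee_re (t : ℝ) : (ee t).re = Real.cos (2 * π * t) := by
  unfold ee
  rw [mul_comm]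
  exact Complex.exp_ofReal_mul_I_re _

lemma norm_ee_sub (s t : ℝ) : ‖ee s - ee t‖ ≤ 7 * |s - t| := by
  have h1 : ee s - ee t = ee t * (ee (s - t) - 1) := by
    rw [mul_sub, ← ee_add]
    simp
  rw [h1, norm_mul, norm_ee, one_mul]
  have h2 := Real.norm_exp_I_mul_ofReal_sub_one_le (x := 2 * π * (s - t))
  refine h2.trans ?_
  rw [Real.norm_eq_abs, abs_mul, abs_of_pos (by positivity : (0 : ℝ) < 2 * π)]
  have := Real.pi_lt_d2
  have := abs_nonneg (s - t)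
  nlinarith

lemma polar (z : X) : z.1 = (‖z.1‖ : ℂ) * ee (ang z) := by
  unfold ee ang
  have h : (2 * π * (Complex.arg z.1 / (2 * π)) : ℝ) = Complex.arg z.1 := by
    field_simp
  rw [h, mul_comm I]
  exact (Complex.norm_mul_exp_arg_mul_I z.1).symm

lemma ht_pos (z : X) : 0 < ht z := sub_pos.2 z.2.2

lemma ht_lt_one (z : X) : ht z < 1 := by
  unfold ht
  linarith [z.2.1]

lemma measurable_ht : Measurable ht :=
  measurable_const.sub measurable_subtype_coe.norm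

lemma measurable_ang : Measurable ang :=
  (Complex.measurable_arg.comp measurable_subtype_coe).div_const _

lemma continuous_dl : Continuous (fun p : X × X => dl p.1 p.2) := by
  unfold dl
  fun_prop

lemma measurable_dl : Measurable (fun p : X × X => dl p.1 p.2) := continuous_dl.measurable

lemma measurable_ker : Measurable (fun p : X × X => ker p.1 p.2) := by
  unfold ker
  refine measurable_const.div (Measurable.pow_const ?_ 2)
  exact Continuous.measurable (by fun_prop)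

lemma measurableSet_Sec (u w h : ℝ) : MeasurableSet (Sec u w h) :=
  (measurableSet_le measurable_ht measurable_const).inter
    (measurableSet_lt (measurable_ang.sub_const u).fract measurable_const)

lemma dl_comm (z ζ : X) : dl z ζ = dl ζ z := by
  unfold dl
  rw [← Complex.norm_conj]
  congr 1
  simp [mul_comm]

lemma ht_le_dl (z ζ : X) : ht z ≤ dl z ζ := by
  unfold ht dl
  have h1 : ‖(1 : ℂ)‖ - ‖z.1 * conj ζ.1‖ ≤ ‖1 - z.1 * conj ζ.1‖ := norm_sub_norm_le _ _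
  rw [norm_one, norm_mul, Complex.norm_conj] at h1
  have := z.2.1
  have := ζ.2.2
  nlinarith

lemma ht_le_dl' (z ζ : X) : ht ζ ≤ dl z ζ := by
  rw [dl_comm]
  exact ht_le_dl ζ z

lemma dl_pos (z ζ : X) : 0 < dl z ζ := (ht_pos z).trans_le (ht_le_dl z ζ)

lemma dl_le_add (z z' ζ : X) : dl z ζ ≤ dl z' ζ + ‖z.1 - z'.1‖ := by
  unfold dl
  have h : 1 - z.1 * conj ζ.1 = (1 - z'.1 * conj ζ.1) - (z.1 - z'.1) * conj ζ.1 := by ring
  rw [h]
  refine (norm_sub_le _ _).trans ?_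
  rw [norm_mul, Complex.norm_conj]
  have := ζ.2.2
  have := norm_nonneg (z.1 - z'.1)
  nlinarith

lemma norm_sub_le_dl (z ζ : X) : ‖z.1 - ζ.1‖ ≤ dl z ζ := by
  unfold dl
  have h1 : ‖1 - z.1 * conj ζ.1‖ ^ 2 - ‖z.1 - ζ.1‖ ^ 2 = (1 - ‖z.1‖ ^ 2) * (1 - ‖ζ.1‖ ^ 2) := by
    simp only [Complex.sq_norm, Complex.normSq_apply]
    simp
    ring
  have h2 : 0 ≤ (1 - ‖z.1‖ ^ 2) * (1 - ‖ζ.1‖ ^ 2) := by
    have := z.2.1
    have := z.2.2
    have := ζ.2.1
    have := ζ.2.2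
    apply mul_nonneg <;> nlinarith
  exact abs_le_of_sq_le_sq' (by linarith) (norm_nonneg _) |>.2

lemma dl_triangle (z ζ ζ' : X) : dl ζ ζ' ≤ dl z ζ + dl z ζ' := by
  have h1 := dl_le_add ζ z ζ'
  have h2 := norm_sub_le_dl z ζ
  rw [norm_sub_rev] at h2
  linarith

lemma dl_self (z : X) : dl z z ≤ 2 * ht z := by
  unfold dl ht
  rw [Complex.mul_conj, Complex.normSq_eq_norm_sq]
  have h : (1 : ℂ) - ((‖z.1‖ ^ 2 : ℝ) : ℂ) = ((1 - ‖z.1‖ ^ 2 : ℝ) : ℂ) := by push_cast; ring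
  rw [h, Complex.norm_real, Real.norm_eq_abs]
  have := z.2.1
  have := z.2.2
  rw [abs_of_nonneg (by nlinarith)]
  nlinarith

lemma norm_sub_le_of_fract {z z' : X} {u w : ℝ} (hz : Int.fract (ang z - u) < w)
    (hz' : Int.fract (ang z' - u) < w) : ‖z.1 - z'.1‖ ≤ |ht z - ht z'| + 7 * w := by
  have e1 : ∀ y : X, ee (ang y) = ee (u + Int.fract (ang y - u)) := by
    intro y
    rw [← ee_add_int (u + Int.fract (ang y - u)) ⌊ang y - u⌋]
    congr 1
    rw [Int.fract]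
    ring
  have h : z.1 - z'.1 = ((‖z.1‖ - ‖z'.1‖ : ℝ) : ℂ) * ee (ang z)
      + (‖z'.1‖ : ℂ) * (ee (ang z) - ee (ang z')) := by
    conv_lhs => rw [polar z, polar z']
    push_cast
    ring
  rw [h]
  refine (norm_add_le _ _).trans ?_
  rw [norm_mul, norm_mul, norm_ee, mul_one, Complex.norm_real, Complex.norm_real, Real.norm_eq_abs,
    Real.norm_eq_abs, abs_norm]
  have h2 : ‖ee (ang z) - ee (ang z')‖ ≤ 7 * w := by
    rw [e1 z, e1 z']
    refine (norm_ee_sub _ _).trans ?_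
    have := Int.fract_nonneg (ang z - u)
    have := Int.fract_nonneg (ang z' - u)
    have : |u + Int.fract (ang z - u) - (u + Int.fract (ang z' - u))| ≤ w := by
      rw [abs_le]
      constructor <;> linarith
    linarith
  have h3 : |‖z.1‖ - ‖z'.1‖| = |ht z - ht z'| := by
    unfold ht
    rw [abs_sub_comm]
    congr 1
    ring
  have := z'.2.1
  have := z'.2.2
  have := norm_nonneg (ee (ang z) - ee (ang z'))
  rw [h3]
  nlinarith

lemma norm_sub_le_of_mem_Sec {z z' : X} {u w h : ℝ} (hz : z ∈ Sec u w h) (hz' : z' ∈ Sec u w h) :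
    ‖z.1 - z'.1‖ ≤ h + 7 * w := by
  have h1 := norm_sub_le_of_fract hz.2 hz'.2
  have h2 : |ht z - ht z'| ≤ h := by
    have := hz.1
    have := hz'.1
    have := ht_pos z
    have := ht_pos z'
    rw [abs_le]
    constructor <;> linarith
  linarith

lemma le_dl {z ζ : X} {d : ℝ} (n : ℤ) (h1 : d ≤ ang z - ang ζ + n)
    (h2 : ang z - ang ζ + n ≤ 1 - d) : d ≤ dl z ζ := by
  by_cases hd : d ≤ 0
  · exact hd.trans (dl_pos z ζ).le
  push Not at hd
  set τ := ang z - ang ζ + n with hτ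
  set ρ := ‖z.1‖ * ‖ζ.1‖ with hρ
  have hρ0 : 0 < ρ := mul_pos z.2.1 ζ.2.1
  have hρ1 : ρ < 1 := by
    have := z.2.1
    have := z.2.2
    have := ζ.2.1
    have := ζ.2.2
    nlinarith
  have e1 : z.1 * conj ζ.1 = (ρ : ℂ) * ee τ := by
    conv_lhs => rw [polar z, polar ζ]
    rw [hτ, ee_add_int, sub_eq_add_neg, ee_add, map_mul, conj_ee, Complex.conj_ofReal, hρ]
    push_cast
    ring
  have e2 : dl z ζ ^ 2 = 1 - 2 * ρ * Real.cos (2 * π * τ) + ρ ^ 2 := by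
    unfold dl
    rw [e1, Complex.sq_norm, Complex.normSq_sub, Complex.normSq_mul, Complex.normSq_ofReal,
      Complex.normSq_eq_norm_sq (ee τ), norm_ee, ← ee_re]
    simp
    ring
  have e3 : Real.cos (2 * π * τ) ≤ 1 - 8 * d ^ 2 := by
    have hpi := Real.pi_pos
    rcases le_total τ (1 / 2) with h | h
    · have := Real.cos_le_one_sub_mul_cos_sq (x := 2 * π * τ) (by
        rw [abs_of_nonneg (by nlinarith)]; nlinarith)
      have e : 2 / π ^ 2 * (2 * π * τ) ^ 2 = 8 * τ ^ 2 := by field_simp; ring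
      rw [e] at this
      nlinarith
    · have := Real.cos_le_one_sub_mul_cos_sq (x := 2 * π * (1 - τ)) (by
        rw [abs_of_nonneg (by nlinarith)]; nlinarith)
      have e : 2 / π ^ 2 * (2 * π * (1 - τ)) ^ 2 = 8 * (1 - τ) ^ 2 := by field_simp; ring
      have e' : Real.cos (2 * π * (1 - τ)) = Real.cos (2 * π * τ) := by
        rw [mul_sub, mul_one, Real.cos_two_pi_sub]
      rw [e, e'] at this
      nlinarith
  have hd2 : d ≤ 1 / 2 := by linarith
  have e4 : d ^ 2 ≤ dl z ζ ^ 2 := by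
    rw [e2]
    have : (1 - ρ) ^ 2 + 16 * ρ * d ^ 2 ≤ 1 - 2 * ρ * Real.cos (2 * π * τ) + ρ ^ 2 := by
      nlinarith
    rcases le_total ρ (1 / 16) with h | h
    · nlinarith
    · nlinarith
  exact (abs_le_of_sq_le_sq' e4 (dl_pos z ζ).le).2

lemma mem_Sec_of_dl_lt {z ζ : X} {R : ℝ} (h : dl z ζ < R) :
    z ∈ Sec (ang ζ - R) (2 * R) R := by
  refine ⟨((ht_le_dl z ζ).trans h.le), ?_⟩
  by_contra hc
  push Not at hc
  have h1 := Int.fract_lt_one (ang z - (ang ζ - R))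
  have h0 : 0 < R := (dl_pos z ζ).trans h
  have := le_dl (z := z) (ζ := ζ) (d := R) (-⌊ang z - (ang ζ - R)⌋)
    (by rw [Int.fract] at hc; push_cast; linarith) (by rw [Int.fract] at h1; push_cast; linarith)
  linarith

lemma norm_ker (z ζ : X) : ‖ker z ζ‖ = 1 / dl z ζ ^ 2 := by
  unfold ker dl
  rw [norm_div, norm_one, norm_pow]

lemma ker_conj (z ζ : X) : conj (ker z ζ) = ker ζ z := by
  unfold ker
  simp [mul_comm]

lemma norm_ker_sub {z z' ζ : X} {r : ℝ} (h1 : ‖z.1 - z'.1‖ ≤ r) (h2 : 2 * r ≤ dl z ζ) :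
    ‖ker z ζ - ker z' ζ‖ ≤ 10 * r / dl z ζ ^ 3 := by
  have hd := dl_pos z ζ
  have hd' := dl_pos z' ζ
  have h3 := dl_le_add z z' ζ
  have h4 := dl_le_add z' z ζ
  rw [norm_sub_rev] at h4
  have hr : 0 ≤ r := (norm_nonneg _).trans h1
  set u := 1 - z.1 * conj ζ.1 with hu
  set v := 1 - z'.1 * conj ζ.1 with hv
  have nu : ‖u‖ = dl z ζ := rfl
  have nv : ‖v‖ = dl z' ζ := rfl
  have hu0 : u ≠ 0 := by rw [← norm_pos_iff, nu]; exact hd
  have hv0 : v ≠ 0 := by rw [← norm_pos_iff, nv]; exact hd'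
  have e : ker z ζ - ker z' ζ = (v - u) * (v + u) / (u ^ 2 * v ^ 2) := by
    unfold ker
    rw [← hu, ← hv]
    field_simp
    ring
  have huv : ‖v - u‖ ≤ r := by
    have : v - u = (z.1 - z'.1) * conj ζ.1 := by rw [hu, hv]; ring
    rw [this, norm_mul, Complex.norm_conj]
    have := ζ.2.2
    have := norm_nonneg (z.1 - z'.1)
    nlinarith
  have huv' : ‖v + u‖ ≤ 5 / 2 * dl z ζ := by
    refine (norm_add_le _ _).trans ?_
    rw [nu, nv]
    linarith
  rw [e, norm_div, norm_mul, norm_mul, norm_pow, norm_pow, nu, nv,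
    div_le_div_iff₀ (by positivity) (by positivity)]
  have h5 : dl z ζ ≤ 2 * dl z' ζ := by linarith
  have h6 : dl z ζ ^ 2 ≤ 4 * dl z' ζ ^ 2 := by nlinarith
  calc ‖v - u‖ * ‖v + u‖ * dl z ζ ^ 3 ≤ r * (5 / 2 * dl z ζ) * dl z ζ ^ 3 := by gcongr
    _ = 5 / 2 * r * dl z ζ ^ 2 * dl z ζ ^ 2 := by ring
    _ ≤ 5 / 2 * r * dl z ζ ^ 2 * (4 * dl z' ζ ^ 2) := by gcongr
    _ = 10 * r * (dl z ζ ^ 2 * dl z' ζ ^ 2) := by ring

/-- The positivity inequality for the Bergman kernel. -/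
lemma star_ineq (z ζ : X) : 1 / dl z ζ ^ 2 ≤
    -(ker z ζ).re + 1 + 8 * ht z ^ 2 / dl z ζ ^ 4 + 8 * ht ζ ^ 2 / dl z ζ ^ 4 := by
  have hd := dl_pos z ζ
  set u := 1 - z.1 * conj ζ.1 with hu
  have nu : ‖u‖ = dl z ζ := rfl
  have hu0 : u ≠ 0 := by rw [← norm_pos_iff, nu]; exact hd
  have nu2 : dl z ζ ^ 2 = u.re ^ 2 + u.im ^ 2 := by
    rw [← nu, Complex.sq_norm, Complex.normSq_apply]; ring
  have e1 : (ker z ζ).re = (2 * u.re ^ 2 - dl z ζ ^ 2) / dl z ζ ^ 4 := by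
    unfold ker
    rw [← hu, one_div, Complex.inv_re, map_pow, Complex.normSq_eq_norm_sq, nu, nu2]
    congr 1
    · rw [sq, Complex.mul_re]; ring
    · rw [← nu2]; ring
  have e2 : 2 * u.re = dl z ζ ^ 2 + (1 - ‖z.1‖ ^ 2 * ‖ζ.1‖ ^ 2) := by
    rw [nu2, hu]
    simp only [Complex.sq_norm, Complex.normSq_apply]
    simp
    ring
  have e3 : 0 ≤ 1 - ‖z.1‖ ^ 2 * ‖ζ.1‖ ^ 2 ∧ 1 - ‖z.1‖ ^ 2 * ‖ζ.1‖ ^ 2 ≤ 2 * ht z + 2 * ht ζ := by
    unfold ht
    have a1 := z.2.1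
    have a2 := z.2.2
    have a3 := ζ.2.1
    have a4 := ζ.2.2
    have b1 : ‖z.1‖ ^ 2 ≤ 1 := by nlinarith
    have b2 : ‖ζ.1‖ ^ 2 ≤ 1 := by nlinarith
    have b3 : 0 ≤ (1 - ‖z.1‖ ^ 2) * (1 - ‖ζ.1‖ ^ 2) := mul_nonneg (by linarith) (by linarith)
    constructor
    · nlinarith [sq_nonneg ‖z.1‖, sq_nonneg ‖ζ.1‖]
    · nlinarith [sq_nonneg (1 - ‖z.1‖), sq_nonneg (1 - ‖ζ.1‖)]
  set q := 1 - ‖z.1‖ ^ 2 * ‖ζ.1‖ ^ 2 with hq
  have e4 : q ^ 2 ≤ 8 * ht z ^ 2 + 8 * ht ζ ^ 2 := by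
    have : q ^ 2 ≤ (2 * ht z + 2 * ht ζ) ^ 2 := by
      apply pow_le_pow_left₀ e3.1 e3.2
    nlinarith [sq_nonneg (ht z - ht ζ)]
  have e5 : 2 * u.re ^ 2 ≤ dl z ζ ^ 4 + q ^ 2 := by
    have : u.re = (dl z ζ ^ 2 + q) / 2 := by linarith
    rw [this]
    nlinarith [sq_nonneg (dl z ζ ^ 2 - q)]
  rw [e1]
  have e6 : 1 / dl z ζ ^ 2 = dl z ζ ^ 2 / dl z ζ ^ 4 := by field_simp
  have e7 : (1 : ℝ) = dl z ζ ^ 4 / dl z ζ ^ 4 := by field_simp
  rw [e6]
  nth_rewrite 1 [e7]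
  rw [← neg_div, ← add_div, ← add_div, ← add_div]
  gcongr
  linarith

/-! Elementary facts on sectors. -/

lemma Sec_mono {u w h w' h' : ℝ} (hw : w ≤ w') (hh : h ≤ h') : Sec u w h ⊆ Sec u w' h' :=
  fun _ hz => ⟨hz.1.trans hh, hz.2.trans_le hw⟩

lemma Sec_univ (u : ℝ) : Sec u 1 1 = Set.univ :=
  Set.eq_univ_of_forall fun z => ⟨(ht_lt_one z).le, Int.fract_lt_one _⟩

lemma fract_sub_of_le {x c : ℝ} (hc : 0 ≤ c) (h : c ≤ Int.fract x) :
    Int.fract (x - c) = Int.fract x - c := by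
  rw [Int.fract_eq_iff]
  refine ⟨by linarith, by linarith [Int.fract_lt_one x], ⌊x⌋, ?_⟩
  rw [Int.fract]
  ring

lemma fract_sub_of_lt {x c : ℝ} (hc : c ≤ 1) (h : Int.fract x < c) :
    Int.fract (x - c) = Int.fract x - c + 1 := by
  rw [Int.fract_eq_iff]
  refine ⟨by linarith [Int.fract_nonneg x], by linarith, ⌊x⌋ - 1, ?_⟩
  rw [Int.fract]
  push_cast
  ring

lemma mem_Sec_shift {u c w h : ℝ} (hc : 0 ≤ c) (hw : c + w ≤ 1) (hw0 : 0 ≤ w) (z : X) :
    z ∈ Sec (u + c) w h ↔ ht z ≤ h ∧ c ≤ Int.fract (ang z - u) ∧ Int.fract (ang z - u) < c + w := by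
  have e : ang z - (u + c) = (ang z - u) - c := by ring
  unfold Sec
  rw [Set.mem_ofPred_eq, e]
  rcases le_or_gt c (Int.fract (ang z - u)) with h1 | h1
  · rw [fract_sub_of_le hc h1]
    constructor
    · rintro ⟨a, b⟩
      exact ⟨a, h1, by linarith⟩
    · rintro ⟨a, -, b⟩
      exact ⟨a, by linarith⟩
  · rw [fract_sub_of_lt (by linarith) h1]
    constructor
    · rintro ⟨-, b⟩
      linarith [Int.fract_nonneg (ang z - u)]
    · rintro ⟨-, b, -⟩
      linarith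

attribute [irreducible] dl ker ht ang

@[fun_prop]
lemma measurable_dl' {α : Type} [MeasurableSpace α] {f g : α → X} (hf : Measurable f)
    (hg : Measurable g) : Measurable (fun a => dl (f a) (g a)) :=
  Measurable.comp (g := fun p : X × X => dl p.1 p.2) (f := fun a => (f a, g a)) measurable_dl
    (hf.prodMk hg)

@[fun_prop]
lemma measurable_ker' {α : Type} [MeasurableSpace α] {f g : α → X} (hf : Measurable f)
    (hg : Measurable g) : Measurable (fun a => ker (f a) (g a)) :=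
  Measurable.comp (g := fun p : X × X => ker p.1 p.2) (f := fun a => (f a, g a)) measurable_ker
    (hf.prodMk hg)

attribute [fun_prop] measurable_ht measurable_ang

end Pool.Agent.P.MP_c45a97_an
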