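import Pool.Agent.P.MP_c45a97_an.Lower

/-! The bound of the form on good functions. -/

set_option linter.unusedSectionVars false

namespace Pool.Agent.P.MP_c45a97_an

open MeasureTheory

variable {κ : X → X → ℝ} {μ ν : Measure X} [IsFiniteMeasure μ] [IsFiniteMeasure ν] {C C' : ℝ}

lemma Hyp.root (H : Hyp κ μ ν C) (d : ℕ) : ∃ D : ℝ, 0 ≤ D ∧ ∀ (a : ℝ) (h g : X → ℝ),
    Bdd h → Bdd g → Cst a d h → |BB κ μ ν h g| ≤ D * (nn μ h + nn ν g) := by
  obtain ⟨D, h0, hD⟩ := H.near d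
  refine ⟨D, h0, fun a h g hh' hg hc => hD a 0 0 (by simp) h g hh' hg (fun ζ hζ => ?_) ?_⟩
  · rw [box_zero] at hζ
    exact absurd (Set.mem_univ ζ) hζ
  · rwa [zero_add]

lemma Hyp.near_level (H : Hyp κ μ ν C) : ∃ D : ℝ, 0 ≤ D ∧ ∀ (a : ℝ) (m : ℕ) (h G : X → ℝ),
    Bdd h → Cst a (m + 2) h → MD0 ν a (m + 1) G →
    (∀ x, ¬ good (m + 1) (idx a (m + 1) x) → G x = 0) →
    |BB κ μ ν h G| ≤ D * (nn μ h + nn ν G) := by
  obtain ⟨D, h0, hD⟩ := H.near 2
  have hC := H.C0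
  have hM := MMr_pos
  refine ⟨D + 40 * (C + 2 * MM) * (1 / 2) ^ (1 : ℕ), by positivity, ?_⟩
  intro a m h G hh' hc hG hgs
  have hs : ∀ x, hh m < ht x → G x = 0 := fun x hx =>
    hG.supp x ((hh_anti (Nat.le_succ m)).trans_lt hx)
  have b1 : ∀ j, Bdd (fun ζ => one (box a m j) ζ * h ζ) := fun j =>
    (Bdd.one (measurableSet_box _ _)).mul hh'
  have b2 : ∀ j, Bdd (fun ζ => one (box a m j)ᶜ ζ * h ζ) := fun j =>
    (Bdd.one (measurableSet_box _ _).compl).mul hh'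
  have e : BB κ μ ν h G =
      ∫ z, G z * op κ μ (fun ζ => one (box a m (idx a m z)) ζ * h ζ) z ∂ν +
      ∫ z, G z * op κ μ (fun ζ => one (box a m (idx a m z))ᶜ ζ * h ζ) z ∂ν := by
    rw [← integral_add (H.toKer.integrable_family m b1 hG.bdd hs)
      (H.toKer.integrable_family m b2 hG.bdd hs)]
    unfold BB
    refine integral_congr_ae (Filter.Eventually.of_forall fun z => ?_)
    simp only
    rw [← mul_add, ← H.toKer.op_add (b1 _) (b2 _)]
    congr 2
    funext ζ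
    by_cases hζ : ζ ∈ box a m (idx a m z)
    · rw [one_of_mem hζ, one_of_notMem (Set.notMem_compl_iff.2 hζ)]
      ring
    · rw [one_of_notMem hζ, one_of_mem (Set.mem_compl hζ)]
      ring
  have e2 := H.alpha (Nat.lt_succ_self m) hG hgs hh'
  rw [Nat.succ_eq_add_one, Nat.add_sub_cancel_left] at e2
  have e1 : |∫ z, G z * op κ μ (fun ζ => one (box a m (idx a m z)) ζ * h ζ) z ∂ν| ≤
      D * (nn μ h + nn ν G) := by
    rw [H.toKer.integral_family m b1 hG.bdd hs]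
    calc _ ≤ ∑ j ∈ Finset.range (MM ^ m), D * (∫ x in box a m j, h x ^ 2 ∂μ +
          ∫ x in box a m j, G x ^ 2 ∂ν) := by
          refine (Finset.abs_sum_le_sum_abs _ _).trans (Finset.sum_le_sum fun j hj => ?_)
          rw [← nn_one_mul (measurableSet_box _ _), ← nn_one_mul (measurableSet_box _ _)]
          exact hD a m j (Finset.mem_range.1 hj) _ _ (b1 j)
            ((Bdd.one (measurableSet_box _ _)).mul hG.bdd)
            (fun ζ hζ => by rw [one_of_notMem hζ, zero_mul])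
            (((Cst.one_box m j).mono (by omega)).mul hc)
      _ ≤ _ := by
          rw [← Finset.mul_sum, Finset.sum_add_distrib]
          gcongr
          · exact sum_box_le a m hh'.sq.integrable fun _ => sq_nonneg _
          · exact sum_box_le a m hG.bdd.sq.integrable fun _ => sq_nonneg _
  rw [e, add_mul]
  exact (abs_add_le _ _).trans (add_le_add e1 e2)

lemma Hyp.low (H : Hyp κ μ ν C) : ∃ D : ℝ, 0 ≤ D ∧ ∀ (a : ℝ) (F G : ℕ → X → ℝ) (c : ℝ) (n : ℕ),
    (∀ k, MD μ a k (F k)) → (∀ k, MD ν a k (G k)) →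
    (∀ k x, ¬ good k (idx a k x) → G k x = 0) →
    |∑ k ∈ Finset.range n, BB κ μ ν (ps c F k) (G k)| ≤
      D * (nn μ (ps c F n) + ∑ k ∈ Finset.range n, nn ν (G k)) := by
  obtain ⟨D, h0, hD⟩ := H.root 0
  obtain ⟨E, e0, hE⟩ := H.near_level
  have hC := H.C0
  have hM := MMr_pos
  refine ⟨(4100 * C + 80 * MM + 41) + E + D, by positivity, ?_⟩
  intro a F G c n hF hG hgs
  rcases n with _ | n
  · simp only [Finset.range_zero, Finset.sum_empty, abs_zero, add_zero]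
    have := nn_nonneg (μ := μ) (ps c F 0)
    positivity
  have e : ∀ m, BB κ μ ν (ps c F (m + 1)) (G (m + 1)) =
      BB κ μ ν (ps c F m) (G (m + 1)) + BB κ μ ν (F m) (G (m + 1)) := by
    intro m
    rw [← H.toKer.BB_add_left (ps_bdd hF c m) (hF m).bdd (hG _).bdd]
    congr 1
    exact funext (ps_succ c F m)
  set Y := ∑ k ∈ Finset.range (n + 1), nn ν (G k) with hY
  have hY1 : ∑ m ∈ Finset.range n, nn ν (G (m + 1)) ≤ Y := by
    rw [hY, Finset.sum_range_succ']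
    linarith [nn_nonneg (μ := ν) (G 0)]
  have hY2 : nn ν (G 0) ≤ Y := Finset.single_le_sum (f := fun k => nn ν (G k))
    (fun _ _ => nn_nonneg _) (Finset.mem_range.2 (Nat.succ_pos n))
  have e1 := H.deep hF hG hgs c n
  have e2 : |∑ m ∈ Finset.range n, BB κ μ ν (F m) (G (m + 1))| ≤
      E * (nn μ (ps c F (n + 1)) + Y) := by
    calc _ ≤ ∑ m ∈ Finset.range n, E * (nn μ (F m) + nn ν (G (m + 1))) :=
          (Finset.abs_sum_le_sum_abs _ _).trans (Finset.sum_le_sum fun m _ =>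
            hE a m _ _ (hF m).bdd ((hF m).cst.mono (by omega)) (hG _).toMD0 (hgs _))
      _ ≤ _ := by
          rw [← Finset.mul_sum, Finset.sum_add_distrib]
          gcongr
          exact (sum_nn_le hF c n).trans (nn_ps_mono hF c (Nat.le_succ n))
  have e3 : |BB κ μ ν (ps c F 0) (G 0)| ≤ D * (nn μ (ps c F (n + 1)) + Y) := by
    refine (hD a _ _ (ps_bdd hF c 0) (hG 0).bdd (ps_cst hF c 0)).trans ?_
    gcongr
    exact nn_ps_mono hF c (Nat.zero_le _)
  rw [Finset.sum_range_succ']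
  simp only [e, Finset.sum_add_distrib]
  rw [add_mul, add_mul]
  exact (abs_add_le _ _).trans (add_le_add ((abs_add_le _ _).trans (add_le_add e1 e2)) e3)

lemma Hyp.diag (H : Hyp κ μ ν C) : ∃ D : ℝ, 0 ≤ D ∧ ∀ (a : ℝ) (F G : ℕ → X → ℝ) (n : ℕ),
    (∀ k, MD μ a k (F k)) → (∀ k, MD ν a k (G k)) →
    (∀ k x, ¬ good k (idx a k x) → G k x = 0) →
    |∑ k ∈ Finset.range n, BB κ μ ν (F k) (G k)| ≤
      D * (∑ k ∈ Finset.range n, nn μ (F k) + ∑ k ∈ Finset.range n, nn ν (G k)) := by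
  obtain ⟨D, h0, hD⟩ := H.root 1
  obtain ⟨E, e0, hE⟩ := H.near_level
  refine ⟨D + E, by positivity, ?_⟩
  intro a F G n hF hG hgs
  rw [← Finset.sum_add_distrib, Finset.mul_sum]
  refine (Finset.abs_sum_le_sum_abs _ _).trans (Finset.sum_le_sum fun k _ => ?_)
  have n1 := nn_nonneg (μ := μ) (F k)
  have n2 := nn_nonneg (μ := ν) (G k)
  rcases k with _ | k
  · refine (hD a _ _ (hF 0).bdd (hG 0).bdd (hF 0).cst).trans ?_
    gcongr
    linarith
  · refine (hE a k _ _ (hF _).bdd (hF _).cst (hG _).toMD0 (hgs _)).trans ?_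
    gcongr
    linarith

lemma Hyp.good_bound (H : Hyp κ μ ν C) (H' : Hyp (fun ζ z => κ z ζ) ν μ C') :
    ∃ K : ℝ, 0 ≤ K ∧ ∀ (a : ℝ) (F G : ℕ → X → ℝ) (c d : ℝ) (n : ℕ),
    (∀ k, MD μ a k (F k)) → (∀ k, MD ν a k (G k)) →
    (∀ k x, ¬ good k (idx a k x) → F k x = 0) → (∀ k x, ¬ good k (idx a k x) → G k x = 0) →
    |BB κ μ ν (ps c F n) (ps d G n)| ≤ K * (nn μ (ps c F n) + nn ν (ps d G n)) := by
  obtain ⟨D0, h0, hD0⟩ := H.root 0
  obtain ⟨D1, h1, hD1⟩ := H.low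
  obtain ⟨D2, h2, hD2⟩ := H.diag
  obtain ⟨D3, h3, hD3⟩ := H'.low
  refine ⟨D0 + D1 + D2 + D3, by positivity, ?_⟩
  intro a F G c d n hF hG hf hg
  have e : ∀ n, BB κ μ ν (ps c F n) (ps d G n) = BB κ μ ν (ps c F 0) (ps d G 0)
      + ∑ k ∈ Finset.range n, BB κ μ ν (ps c F k) (G k)
      + ∑ k ∈ Finset.range n, BB κ μ ν (F k) (G k)
      + ∑ k ∈ Finset.range n, BB (fun ζ z => κ z ζ) ν μ (ps d G k) (F k) := by
    intro n
    induction n with
    | zero => simp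
    | succ n ih =>
      have e1 : ps c F (n + 1) = fun x => ps c F n x + F n x := funext (ps_succ c F n)
      have e2 : ps d G (n + 1) = fun x => ps d G n x + G n x := funext (ps_succ d G n)
      rw [e1, e2, H.toKer.BB_add_left (ps_bdd hF c n) (hF n).bdd ((ps_bdd hG d n).add (hG n).bdd),
        H.toKer.BB_add_right (ps_bdd hF c n) (ps_bdd hG d n) (hG n).bdd,
        H.toKer.BB_add_right (hF n).bdd (ps_bdd hG d n) (hG n).bdd, ih,
        H.toKer.BB_swap (hF n).bdd (ps_bdd hG d n)]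
      simp only [Finset.sum_range_succ]
      ring
  have s1 := sum_nn_le hF c n
  have s2 := sum_nn_le hG d n
  have e0 : |BB κ μ ν (ps c F 0) (ps d G 0)| ≤ D0 * (nn μ (ps c F n) + nn ν (ps d G n)) := by
    refine (hD0 a _ _ (ps_bdd hF c 0) (ps_bdd hG d 0) (ps_cst hF c 0)).trans ?_
    gcongr
    · exact nn_ps_mono hF c (Nat.zero_le _)
    · exact nn_ps_mono hG d (Nat.zero_le _)
  have e1 : _ ≤ D1 * (nn μ (ps c F n) + nn ν (ps d G n)) :=
    (hD1 a F G c n hF hG hg).trans (by gcongr)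
  have e2 : _ ≤ D2 * (nn μ (ps c F n) + nn ν (ps d G n)) :=
    (hD2 a F G n hF hG hg).trans (by gcongr)
  have e3 : _ ≤ D3 * (nn μ (ps c F n) + nn ν (ps d G n)) :=
    (hD3 a G F d n hG hF hf).trans (by rw [add_comm]; gcongr)
  rw [e n, add_mul, add_mul, add_mul]
  exact (abs_add_le _ _).trans (add_le_add ((abs_add_le _ _).trans
    (add_le_add ((abs_add_le _ _).trans (add_le_add e0 e1)) e2)) e3)

end Pool.Agent.P.MP_c45a97_an
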