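import Pool.Agent.P.MP_c45a97_an.Stop

/-! The lower triangular part of the form on good functions. -/

set_option linter.unusedSectionVars false

namespace Pool.Agent.P.MP_c45a97_an

open MeasureTheory

variable {κ : X → X → ℝ} {μ ν : Measure X} [IsFiniteMeasure μ] [IsFiniteMeasure ν] {C a : ℝ}

lemma geom_one (m : ℕ) : ∑ i ∈ Finset.range m, (1 / 2 : ℝ) ^ (m - i) ≤ 1 := by
  induction m with
  | zero => simp
  | succ m ih =>
    rw [Finset.sum_range_succ, Nat.add_sub_cancel_left]
    have : ∑ i ∈ Finset.range m, (1 / 2 : ℝ) ^ (m + 1 - i) =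
        1 / 2 * ∑ i ∈ Finset.range m, (1 / 2 : ℝ) ^ (m - i) := by
      rw [Finset.mul_sum]
      refine Finset.sum_congr rfl fun i hi => ?_
      rw [Nat.sub_add_comm (Finset.mem_range.1 hi).le, pow_succ']
    linarith

lemma geom_two (x : ℕ → ℝ) (N : ℕ) :
    ∑ m ∈ Finset.range N, ∑ i ∈ Finset.range m, (1 / 2 : ℝ) ^ (m - i) * x i
      + 2 * ∑ i ∈ Finset.range N, (1 / 2 : ℝ) ^ (N - i) * x i
      = 2 * ∑ i ∈ Finset.range N, x i - ∑ i ∈ Finset.range N, x i := by
  induction N with
  | zero => simp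
  | succ N ih =>
    have : ∑ i ∈ Finset.range N, (1 / 2 : ℝ) ^ (N + 1 - i) * x i =
        1 / 2 * ∑ i ∈ Finset.range N, (1 / 2 : ℝ) ^ (N - i) * x i := by
      rw [Finset.mul_sum]
      refine Finset.sum_congr rfl fun i hi => ?_
      rw [Nat.sub_add_comm (Finset.mem_range.1 hi).le, pow_succ', mul_assoc]
    simp only [Finset.sum_range_succ, Nat.add_sub_cancel_left, this]
    linarith

lemma geom_double {x y : ℕ → ℝ} (hx : ∀ i, 0 ≤ x i) (hy : ∀ i, 0 ≤ y i) (N : ℕ) :
    ∑ m ∈ Finset.range N, ∑ i ∈ Finset.range m, (1 / 2 : ℝ) ^ (m - i) * (x i + y m) ≤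
      ∑ i ∈ Finset.range N, x i + ∑ m ∈ Finset.range N, y m := by
  simp only [mul_add, Finset.sum_add_distrib]
  refine add_le_add ?_ (Finset.sum_le_sum fun m _ => ?_)
  · have h1 := geom_two x N
    have h2 : 0 ≤ ∑ i ∈ Finset.range N, (1 / 2 : ℝ) ^ (N - i) * x i :=
      Finset.sum_nonneg fun i _ => mul_nonneg (by positivity) (hx i)
    linarith
  · rw [← Finset.sum_mul]
    exact mul_le_of_le_one_left (hy m) (geom_one m)

open Classical in
noncomputable def lmb (st : ℕ × ℕ → ℕ → ℕ → Prop) (av : ℕ → ℕ → ℝ) (i j : ℕ) : ℝ :=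
  if pr st (i + 1) j = (i + 1, j) then av i (j / MM) else -(av (i + 1) j - av i (j / MM))

noncomputable def bx (a : ℝ) (I : ℕ × ℕ) : Set X := box a I.1 I.2

lemma measurableSet_bx (I : ℕ × ℕ) : MeasurableSet (bx a I) := measurableSet_box _ _

variable {F G : ℕ → X → ℝ} {c : ℝ} {n : ℕ}

lemma MD_eq_on_box (hp : PosM μ) (hF : ∀ k, MD μ a k (F k)) {m : ℕ} (hm : m + 1 ≤ n) {j : ℕ}
    {ζ : X} (hζ : ζ ∈ box a (m + 1) j) :
    F m ζ = avg μ a (ps c F n) (m + 1) j - avg μ a (ps c F n) m (j / MM) := by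
  obtain ⟨h1, rfl⟩ := hζ
  rw [idx_succ_div, ← ps_eq_avg hp hF c hm h1,
    ← ps_eq_avg hp hF c (by omega : m ≤ n) (h1.trans (hh_anti (Nat.le_succ m))), ps_succ]
  ring

lemma ps_decomp (hp : PosM μ) (hF : ∀ k, MD μ a k (F k)) (st : ℕ × ℕ → ℕ → ℕ → Prop) (z ζ : X)
    {m : ℕ} (hm : m ≤ n) :
    ps c F m ζ = ∑ i ∈ Finset.range m, one (box a (i + 1) (idx a (i + 1) z))ᶜ ζ * F i ζ
      + ∑ i ∈ Finset.range m, lmb st (avg μ a (ps c F n)) i (idx a (i + 1) z) *
          one (bx a (pr st i (idx a (i + 1) z / MM)) \ box a (i + 1) (idx a (i + 1) z)) ζ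
      + avg μ a (ps c F n) m (idx a m z) * one (bx a (pr st m (idx a m z))) ζ := by
  induction m with
  | zero =>
    have h0 : ht ζ ≤ hh 0 := by rw [hh_zero]; exact (ht_lt_one ζ).le
    rw [ps_eq_avg hp hF c hm h0, idx_zero, idx_zero]
    simp [pr, bx, box_zero, one]
  | succ m ih =>
    rw [ps_succ, ih (by omega), Finset.sum_range_succ, Finset.sum_range_succ, ← idx_succ_div m z]
    set j := idx a (m + 1) z with hj
    set av := avg μ a (ps c F n) with hav
    have hsub : box a (m + 1) j ⊆ bx a (pr st m (j / MM)) :=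
      (box_succ_subset m j).trans (box_subset_pr a m _)
    have key : av m (j / MM) * one (bx a (pr st m (j / MM))) ζ + F m ζ =
        one (box a (m + 1) j)ᶜ ζ * F m ζ
        + lmb st av m j * one (bx a (pr st m (j / MM)) \ box a (m + 1) j) ζ
        + av (m + 1) j * one (bx a (pr st (m + 1) j)) ζ := by
      by_cases h1 : ζ ∈ box a (m + 1) j
      · have h2 : ζ ∈ bx a (pr st (m + 1) j) := box_subset_pr a (m + 1) j h1
        rw [one_of_mem (hsub h1), one_of_notMem (Set.notMem_compl_iff.2 h1),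
          one_of_notMem (S := bx a (pr st m (j / MM)) \ box a (m + 1) j) fun h => h.2 h1,
          one_of_mem h2, MD_eq_on_box (c := c) hp hF hm h1]
        ring
      · rw [one_of_mem (Set.mem_compl h1)]
        have h3 : one (bx a (pr st m (j / MM)) \ box a (m + 1) j) ζ =
            one (bx a (pr st m (j / MM))) ζ := by
          by_cases h4 : ζ ∈ bx a (pr st m (j / MM))
          · rw [one_of_mem h4, one_of_mem (S := bx a (pr st m (j / MM)) \ box a (m + 1) j) ⟨h4, h1⟩]
          · rw [one_of_notMem h4,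
              one_of_notMem (S := bx a (pr st m (j / MM)) \ box a (m + 1) j) fun h => h4 h.1]
        rw [h3]
        unfold lmb
        split_ifs with h5
        · rw [h5, one_of_notMem (S := bx a (m + 1, j)) h1]
          ring
        · rw [pr_succ_neg fun h => h5 (pr_succ_pos h)]
          ring
    linarith

lemma Hyp.sum_lmb (H : Hyp κ μ ν C) (hF : ∀ k, MD μ a k (F k)) (c : ℝ) (n : ℕ) :
    ∑ i ∈ Finset.range n, ∑ j ∈ Finset.range (MM ^ (i + 1)),
      lmb (stp μ ν C a (n + 1) (ps c F (n + 1))) (avg μ a (ps c F (n + 1))) i j ^ 2 *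
        Phi μ ν a (n + 1) (bx a (pr (stp μ ν C a (n + 1) (ps c F (n + 1))) i (j / MM))) (i + 1) j
      ≤ 100 * C * nn μ (ps c F (n + 1)) := by
  classical
  set φ := ps c F (n + 1) with hφ
  set st := stp μ ν C a (n + 1) φ with hst
  have hC := H.C0
  set g : ℕ × ℕ → ℝ := fun I => 16 * al μ a φ (par st I) ^ 2 *
    Phi μ ν a (n + 1) (bx a (par st I)) I.1 I.2 with hg
  have g0 : ∀ I, 0 ≤ g I := fun I => mul_nonneg (by positivity) (Phi_nonneg _ _ _ _)
  have h1 : ∀ i ∈ Finset.range n, ∀ j ∈ Finset.range (MM ^ (i + 1)),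
      lmb st (avg μ a φ) i j ^ 2 * Phi μ ν a (n + 1) (bx a (pr st i (j / MM))) (i + 1) j ≤
      4 * C * ∫ x in box a (i + 1) j, F i x ^ 2 ∂μ
        + (if (i + 1, j) ∈ SFp st (n + 1) then g (i + 1, j) else 0) := by
    intro i hi j hj
    have hi' := Finset.mem_range.1 hi
    have p0 := Phi_nonneg (μ := μ) (ν := ν) (a := a) (n + 1) (bx a (pr st i (j / MM))) (i + 1) j
    have q0 : 0 ≤ ∫ x in box a (i + 1) j, F i x ^ 2 ∂μ := integral_nonneg fun _ => sq_nonneg _
    unfold lmb
    by_cases h : pr st (i + 1) j = (i + 1, j)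
    · have hm : (i + 1, j) ∈ SFp st (n + 1) := by
        simp only [SFp, SF, Finset.mem_filter, mem_nodes]
        exact ⟨⟨⟨by omega, Finset.mem_range.1 hj⟩, h⟩, by omega⟩
      rw [if_pos h, if_pos hm]
      have e1 := abs_avg_le_pr (μ := μ) (ν := ν) (C := C) (a := a) (n := n + 1) (φ := φ) i (j / MM)
      have e2 : avg μ a φ i (j / MM) ^ 2 ≤ 16 * al μ a φ (pr st i (j / MM)) ^ 2 := by
        rw [← sq_abs]
        nlinarith [abs_nonneg (avg μ a φ i (j / MM))]
      have e3 : avg μ a φ i (j / MM) ^ 2 * Phi μ ν a (n + 1) (bx a (pr st i (j / MM))) (i + 1) j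
          ≤ g (i + 1, j) := mul_le_mul_of_nonneg_right e2 p0
      have : 0 ≤ 4 * C * ∫ x in box a (i + 1) j, F i x ^ 2 ∂μ := by positivity
      linarith
    · rw [if_neg h, neg_sq]
      have e1 : Phi μ ν a (n + 1) (bx a (pr st i (j / MM))) (i + 1) j ≤
          4 * C * μ.real (box a (i + 1) j) :=
        not_lt.1 fun h' => h (pr_succ_pos (Or.inl h'))
      have e2 : ∫ x in box a (i + 1) j, F i x ^ 2 ∂μ =
          (avg μ a φ (i + 1) j - avg μ a φ i (j / MM)) ^ 2 * μ.real (box a (i + 1) j) := by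
        rw [setIntegral_congr_fun (g := fun _ => (avg μ a φ (i + 1) j - avg μ a φ i (j / MM)) ^ 2)
          (measurableSet_box _ _) (fun x hx => by
            simp only [MD_eq_on_box (c := c) (n := n + 1) H.pos hF (by omega) hx, hφ]),
          setIntegral_const, smul_eq_mul, mul_comm]
      have e3 : 0 ≤ (if (i + 1, j) ∈ SFp st (n + 1) then g (i + 1, j) else 0) := by
        split_ifs
        exacts [g0 _, le_rfl]
      rw [e2]
      nlinarith [mul_le_mul_of_nonneg_left e1
        (sq_nonneg (avg μ a φ (i + 1) j - avg μ a φ i (j / MM)))]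
  refine (Finset.sum_le_sum fun i hi => Finset.sum_le_sum (h1 i hi)).trans ?_
  simp only [Finset.sum_add_distrib, ← Finset.mul_sum]
  have h2 : ∑ i ∈ Finset.range n, ∑ j ∈ Finset.range (MM ^ (i + 1)),
      ∫ x in box a (i + 1) j, F i x ^ 2 ∂μ ≤ nn μ φ := by
    calc _ ≤ ∑ i ∈ Finset.range n, nn μ (F i) := Finset.sum_le_sum fun i _ =>
          sum_box_le a (i + 1) (hF i).bdd.sq.integrable fun _ => sq_nonneg _
      _ ≤ _ := (sum_nn_le hF c n).trans (nn_ps_mono hF c (Nat.le_succ n))
  have h3 : ∑ i ∈ Finset.range n, ∑ j ∈ Finset.range (MM ^ (i + 1)),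
      (if (i + 1, j) ∈ SFp st (n + 1) then g (i + 1, j) else 0) ≤ ∑ I ∈ SFp st (n + 1), g I := by
    have e1 := sum_nodes (n + 1) (fun I => if I ∈ SFp st (n + 1) then g I else 0)
    have hsub : SFp st (n + 1) ⊆ nodes (n + 1) :=
      (Finset.filter_subset _ _).trans (Finset.filter_subset _ _)
    rw [Finset.sum_range_succ', ← Finset.sum_filter, Finset.filter_mem_eq_inter,
      Finset.inter_eq_right.2 hsub] at e1
    have e2 : 0 ≤ ∑ j ∈ Finset.range (MM ^ 0),
        (if (0, j) ∈ SFp st (n + 1) then g (0, j) else 0) := Finset.sum_nonneg fun j _ => by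
      split_ifs
      exacts [g0 _, le_rfl]
    linarith
  have h4 : ∑ I ∈ SFp st (n + 1), g I ≤ 16 * C * (6 * nn μ φ) := by
    rw [← sum_ch]
    calc _ ≤ ∑ P ∈ SF st (n + 1), 16 * C * (al μ a φ P ^ 2 * μ.real (box a P.1 P.2)) := by
          refine Finset.sum_le_sum fun P hP => ?_
          have e1 : ∑ I ∈ ch st (n + 1) P, g I = 16 * al μ a φ P ^ 2 *
              ∑ I ∈ ch st (n + 1) P, Phi μ ν a (n + 1) (box a P.1 P.2) I.1 I.2 := by
            rw [Finset.mul_sum]
            refine Finset.sum_congr rfl fun I hI => ?_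
            simp only [hg, (Finset.mem_filter.1 hI).2, bx]
          have e2 := H.sum_Phi (a := a) (n := n + 1) (st := st)
            (mem_nodes.1 (Finset.mem_filter.1 hP).1).2
          rw [e1]
          calc _ ≤ 16 * al μ a φ P ^ 2 * (C * μ.real (box a P.1 P.2)) := by gcongr
            _ = _ := by ring
      _ ≤ _ := by
          rw [← Finset.mul_sum]
          gcongr
          exact H.pack (ps_bdd hF c _)
  have h5 : 4 * C * ∑ i ∈ Finset.range n, ∑ j ∈ Finset.range (MM ^ (i + 1)),
      ∫ x in box a (i + 1) j, F i x ^ 2 ∂μ ≤ 4 * C * nn μ φ := by gcongr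
  linarith

lemma Hyp.para (H : Hyp κ μ ν C) {φ : X → ℝ} (hφ : Bdd φ) (hG : ∀ k, MD ν a k (G k)) (n : ℕ) :
    |∑ m ∈ Finset.range n, ∫ z, G (m + 1) z * op κ μ (fun ζ => avg μ a φ m (idx a m z) *
        one (bx a (pr (stp μ ν C a (n + 1) φ) m (idx a m z))) ζ) z ∂ν| ≤
      48 * C * nn μ φ + ∑ k ∈ Finset.range (n + 1), nn ν (G k) := by
  classical
  set st := stp μ ν C a (n + 1) φ with hst
  have hC := H.C0
  set e : ℕ × ℕ → ℕ → ℕ → ℝ := fun P m j =>
    if pr st m j = P then avg μ a φ m j / (4 * al μ a φ P) else 0 with he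
  set γ : ℕ × ℕ → ℕ → ℕ → ℝ := fun P k j => if k = 0 then 0 else e P (k - 1) (j / MM) with hγ
  set G' : ℕ × ℕ → ℕ → X → ℝ := fun P k z => γ P k (idx a k z) * G k z with hG'
  have hG'md : ∀ P k, MD ν a k (G' P k) := fun P k =>
    (hG k).mul (Bdd.comp_idx _ a k) (Cst.comp_idx _ k)
  have e1 : ∀ m j, avg μ a φ m j = 4 * al μ a φ (pr st m j) * e (pr st m j) m j := by
    intro m j
    simp only [he, if_true]
    by_cases h : al μ a φ (pr st m j) = 0
    · have := abs_avg_le_pr (μ := μ) (ν := ν) (C := C) (a := a) (n := n + 1) (φ := φ) m j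
      rw [← hst, h, mul_zero] at this
      rw [abs_nonpos_iff.1 this]
      simp
    · field_simp
  have e2 : ∀ m j, ∑ P ∈ SF st (n + 1), e P m j ^ 2 ≤ 1 := by
    intro m j
    have h1 : ∀ P ∈ SF st (n + 1), e P m j ^ 2 ≤ if pr st m j = P then 1 else 0 := by
      intro P _
      simp only [he]
      split_ifs with h
      · have h2 := abs_avg_le_pr (μ := μ) (ν := ν) (C := C) (a := a) (n := n + 1) (φ := φ) m j
        rw [← hst, h] at h2
        have h3 := al_nonneg (μ := μ) (a := a) φ P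
        rw [sq_le_one_iff_abs_le_one, abs_div, abs_of_nonneg (by positivity : 0 ≤ 4 * al μ a φ P)]
        exact div_le_one_of_le₀ h2 (by positivity)
      · simp
    refine (Finset.sum_le_sum h1).trans ?_
    rw [Finset.sum_ite_eq]
    split_ifs <;> norm_num
  have e3 : ∀ m ∈ Finset.range n, ∫ z, G (m + 1) z * op κ μ (fun ζ => avg μ a φ m (idx a m z) *
        one (bx a (pr st m (idx a m z))) ζ) z ∂ν =
      ∑ P ∈ SF st (n + 1), 4 * al μ a φ P * BB κ μ ν (one (bx a P)) (G' P (m + 1)) := by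
    intro m hm
    simp only [BB, ← integral_const_mul]
    rw [← integral_finsetSum _ fun P _ => (H.toKer.integrable_BB (Bdd.one (measurableSet_bx P))
      (hG'md P (m + 1)).bdd).const_mul _]
    refine integral_congr_ae (Filter.Eventually.of_forall fun z => ?_)
    simp only
    rw [Finset.sum_eq_single (pr st m (idx a m z)), op_const_mul]
    · simp only [hG', hγ, Nat.add_eq_zero_iff, one_ne_zero, and_false, if_false,
        Nat.add_sub_cancel, idx_succ_div]
      rw [e1 m (idx a m z)]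
      ring
    · intro P _ hP
      simp only [hG', hγ, Nat.add_eq_zero_iff, one_ne_zero, and_false, if_false,
        Nat.add_sub_cancel, idx_succ_div, he, if_neg (Ne.symm hP)]
      ring
    · intro h
      exact absurd (pr_mem_SF (by have := Finset.mem_range.1 hm; omega) (idx_lt m z)) h
  rw [Finset.sum_congr rfl e3, Finset.sum_comm]
  have e4 : ∀ P ∈ SF st (n + 1), |∑ m ∈ Finset.range n,
      4 * al μ a φ P * BB κ μ ν (one (bx a P)) (G' P (m + 1))| ≤
      8 * C * (al μ a φ P ^ 2 * μ.real (box a P.1 P.2))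
        + ∑ k ∈ Finset.range (n + 1), nn ν (G' P k) := by
    intro P hP
    rw [← Finset.mul_sum, ← H.toKer.BB_sum_right (Bdd.one (measurableSet_bx P))
      fun m _ => (hG'md P (m + 1)).bdd]
    have h1 : (fun z => ∑ m ∈ Finset.range n, G' P (m + 1) z) = ps 0 (G' P) (n + 1) := by
      funext z
      simp [ps, Finset.sum_range_succ', hG', hγ]
    rw [h1]
    refine (H.test_box (mem_nodes.1 (Finset.mem_filter.1 hP).1).2 (ps_bdd (hG'md P) 0 _) _).trans ?_
    rw [nn_ps (hG'md P)]
    have : 0 ≤ ∑ k ∈ Finset.range (n + 1), nn ν (G' P k) :=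
      Finset.sum_nonneg fun _ _ => nn_nonneg _
    nlinarith
  refine (Finset.abs_sum_le_sum_abs _ _).trans ((Finset.sum_le_sum e4).trans ?_)
  rw [Finset.sum_add_distrib, ← Finset.mul_sum, Finset.sum_comm]
  refine add_le_add ?_ (Finset.sum_le_sum fun k _ => ?_)
  · calc _ ≤ 8 * C * (6 * nn μ φ) := by
          gcongr
          exact H.pack hφ
      _ = _ := by ring
  · unfold nn
    rw [← integral_finsetSum _ fun P _ => (hG'md P k).bdd.sq.integrable]
    refine integral_mono (Bdd.sum fun P _ => (hG'md P k).bdd.sq).integrable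
      (hG k).bdd.sq.integrable fun z => ?_
    simp only [hG', mul_pow, ← Finset.sum_mul]
    refine mul_le_of_le_one_left (sq_nonneg _) ?_
    simp only [hγ]
    split_ifs
    · simp
    · exact e2 _ _

lemma Hyp.deep (H : Hyp κ μ ν C) (hF : ∀ k, MD μ a k (F k)) (hG : ∀ k, MD ν a k (G k))
    (hgs : ∀ k x, ¬ good k (idx a k x) → G k x = 0) (c : ℝ) (n : ℕ) :
    |∑ m ∈ Finset.range n, BB κ μ ν (ps c F m) (G (m + 1))| ≤
      (4100 * C + 80 * MM + 41) *
        (nn μ (ps c F (n + 1)) + ∑ k ∈ Finset.range (n + 1), nn ν (G k)) := by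
  set φ := ps c F (n + 1) with hφ
  set st := stp μ ν C a (n + 1) φ with hst
  set av := avg μ a φ with hav
  have hC := H.C0
  have hM := MMr_pos
  set A : ℕ → ℕ → ℝ := fun m i => ∫ z, G (m + 1) z *
    op κ μ (fun ζ => one (box a (i + 1) (idx a (i + 1) z))ᶜ ζ * F i ζ) z ∂ν with hA
  set B : ℕ → ℕ → ℝ := fun m i => ∫ z, G (m + 1) z *
    op κ μ (fun ζ => lmb st av i (idx a (i + 1) z) *
      one (bx a (pr st i (idx a (i + 1) z / MM)) \ box a (i + 1) (idx a (i + 1) z)) ζ) z ∂ν with hB
  set P : ℕ → ℝ := fun m => ∫ z, G (m + 1) z * op κ μ (fun ζ => av m (idx a m z) *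
    one (bx a (pr st m (idx a m z))) ζ) z ∂ν with hP
  have b1 : ∀ i j, Bdd (fun ζ => one (box a (i + 1) j)ᶜ ζ * F i ζ) := fun i j =>
    (Bdd.one (measurableSet_box _ _).compl).mul (hF i).bdd
  have b2 : ∀ i j, Bdd (fun ζ => lmb st av i j *
      one (bx a (pr st i (j / MM)) \ box a (i + 1) j) ζ) := fun i j =>
    (Bdd.one ((measurableSet_bx _).diff (measurableSet_box _ _))).const_mul _
  have b3 : ∀ m j, Bdd (fun ζ => av m j * one (bx a (pr st m j)) ζ) := fun m j =>
    (Bdd.one (measurableSet_bx _)).const_mul _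
  have e1 : ∀ m ∈ Finset.range n, BB κ μ ν (ps c F m) (G (m + 1)) =
      ∑ i ∈ Finset.range m, A m i + ∑ i ∈ Finset.range m, B m i + P m := by
    intro m hm
    have hm' := Finset.mem_range.1 hm
    have hs : ∀ i, i ≤ m + 1 → ∀ x, hh i < ht x → G (m + 1) x = 0 := fun i hi x hx =>
      (hG (m + 1)).supp x ((hh_anti hi).trans_lt hx)
    have i1 : ∀ i ∈ Finset.range m, Integrable (fun z => G (m + 1) z *
        op κ μ (fun ζ => one (box a (i + 1) (idx a (i + 1) z))ᶜ ζ * F i ζ) z) ν := fun i hi =>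
      H.toKer.integrable_family (i + 1) (b1 i) (hG (m + 1)).bdd
        (hs _ (by have := Finset.mem_range.1 hi; omega))
    have i2 : ∀ i ∈ Finset.range m, Integrable (fun z => G (m + 1) z *
        op κ μ (fun ζ => lmb st av i (idx a (i + 1) z) * one (bx a (pr st i (idx a (i + 1) z / MM))
          \ box a (i + 1) (idx a (i + 1) z)) ζ) z) ν := fun i hi =>
      H.toKer.integrable_family (i + 1) (b2 i) (hG (m + 1)).bdd
        (hs _ (by have := Finset.mem_range.1 hi; omega))
    have i3 : Integrable (fun z => G (m + 1) z * op κ μ (fun ζ => av m (idx a m z) *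
        one (bx a (pr st m (idx a m z))) ζ) z) ν :=
      H.toKer.integrable_family m (b3 m) (hG (m + 1)).bdd (hs _ (Nat.le_succ m))
    have i12 : Integrable (fun z => ∑ i ∈ Finset.range m, G (m + 1) z *
        op κ μ (fun ζ => one (box a (i + 1) (idx a (i + 1) z))ᶜ ζ * F i ζ) z +
        ∑ i ∈ Finset.range m, G (m + 1) z *
        op κ μ (fun ζ => lmb st av i (idx a (i + 1) z) * one (bx a (pr st i (idx a (i + 1) z / MM))
          \ box a (i + 1) (idx a (i + 1) z)) ζ) z) ν :=
      (integrable_finsetSum _ i1).add (integrable_finsetSum _ i2)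
    simp only [hA, hB, hP]
    rw [← integral_finsetSum _ i1, ← integral_finsetSum _ i2,
      ← integral_add (integrable_finsetSum _ i1) (integrable_finsetSum _ i2),
      ← integral_add i12 i3]
    unfold BB
    refine integral_congr_ae (Filter.Eventually.of_forall fun z => ?_)
    have e2 : ps c F m = fun ζ => _ :=
      funext fun ζ => ps_decomp (c := c) (n := n + 1) H.pos hF st z ζ (m := m) (by omega)
    simp only
    rw [e2, H.toKer.op_add ((Bdd.sum fun i _ => b1 i _).add (Bdd.sum fun i _ => b2 i _)) (b3 m _),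
      H.toKer.op_add (Bdd.sum fun i _ => b1 i _) (Bdd.sum fun i _ => b2 i _),
      H.toKer.op_sum fun i _ => b1 i _, H.toKer.op_sum fun i _ => b2 i _]
    simp only [mul_add, Finset.mul_sum]
  rw [Finset.sum_congr rfl e1, Finset.sum_add_distrib, Finset.sum_add_distrib]
  set Y := ∑ k ∈ Finset.range (n + 1), nn ν (G k) with hY
  have hY1 : ∑ m ∈ Finset.range n, nn ν (G (m + 1)) ≤ Y := by
    rw [hY, Finset.sum_range_succ']
    linarith [nn_nonneg (μ := ν) (G 0)]
  have hY0 : 0 ≤ Y := Finset.sum_nonneg fun _ _ => nn_nonneg _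
  have n0 := nn_nonneg (μ := μ) φ
  have eA : |∑ m ∈ Finset.range n, ∑ i ∈ Finset.range m, A m i| ≤
      40 * (C + 2 * MM) * (nn μ φ + Y) := by
    calc _ ≤ ∑ m ∈ Finset.range n, ∑ i ∈ Finset.range m,
          40 * (C + 2 * MM) * ((1 / 2) ^ (m - i) * (nn μ (F i) + nn ν (G (m + 1)))) := by
          refine (Finset.abs_sum_le_sum_abs _ _).trans (Finset.sum_le_sum fun m _ => ?_)
          refine (Finset.abs_sum_le_sum_abs _ _).trans (Finset.sum_le_sum fun i hi => ?_)
          have := H.alpha (i := i + 1) (k := m + 1) (by have := Finset.mem_range.1 hi; omega)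
            (hG (m + 1)).toMD0 (hgs (m + 1)) (hF i).bdd
          rw [Nat.add_sub_add_right, mul_assoc] at this
          exact this
      _ ≤ _ := by
          simp only [← Finset.mul_sum]
          gcongr
          refine (geom_double (fun _ => nn_nonneg _) (fun _ => nn_nonneg _) n).trans
            (add_le_add ?_ hY1)
          exact (sum_nn_le hF c n).trans (nn_ps_mono hF c (Nat.le_succ n))
  have eB : |∑ m ∈ Finset.range n, ∑ i ∈ Finset.range m, B m i| ≤
      40 * (100 * C * nn μ φ + Y) := by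
    set x : ℕ → ℝ := fun i => ∑ j ∈ Finset.range (MM ^ (i + 1)), lmb st av i j ^ 2 *
      Phi μ ν a (n + 1) (bx a (pr st i (j / MM))) (i + 1) j with hx
    calc _ ≤ ∑ m ∈ Finset.range n, ∑ i ∈ Finset.range m,
          40 * ((1 / 2) ^ (m - i) * (x i + nn ν (G (m + 1)))) := by
          refine (Finset.abs_sum_le_sum_abs _ _).trans (Finset.sum_le_sum fun m hm => ?_)
          refine (Finset.abs_sum_le_sum_abs _ _).trans (Finset.sum_le_sum fun i hi => ?_)
          have := H.beta (n := n + 1) (i := i + 1) (k := m + 1)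
            (by have := Finset.mem_range.1 hi; omega) (by have := Finset.mem_range.1 hm; omega)
            (hG (m + 1)).toMD0 (hgs (m + 1)) (K := fun j => bx a (pr st i (j / MM)))
            (fun j => measurableSet_bx _) (lmb st av i)
          rw [Nat.add_sub_add_right, mul_assoc, add_comm (nn ν _)] at this
          exact this
      _ ≤ _ := by
          simp only [← Finset.mul_sum]
          gcongr
          refine (geom_double (fun i => Finset.sum_nonneg fun j _ =>
            mul_nonneg (sq_nonneg _) (Phi_nonneg _ _ _ _)) (fun _ => nn_nonneg _) n).trans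
            (add_le_add (H.sum_lmb hF c n) hY1)
  have eP : |∑ m ∈ Finset.range n, P m| ≤ 48 * C * nn μ φ + Y := H.para (ps_bdd hF c _) hG n
  refine (abs_add_le _ _).trans ((add_le_add (abs_add_le _ _) le_rfl).trans ?_)
  nlinarith [mul_nonneg hC.le n0, mul_nonneg hC.le hY0, mul_nonneg hM.le n0, mul_nonneg hM.le hY0]

end Pool.Agent.P.MP_c45a97_an
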