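import Pool.Agent.P.MP_c45a97_an.Avg

/-! Testing implies boundedness, for finite measures on the punctured disc. -/

set_option linter.unusedSectionVars false

namespace Pool.Agent.P.MP_c45a97_an

open MeasureTheory Filter
open scoped ComplexConjugate ENNReal

variable {μ ν : Measure X} [IsFiniteMeasure μ] [IsFiniteMeasure ν] {T T' : ℝ}

noncomputable def kc (c : ℂ) (z ζ : X) : ℝ := (c * ker z ζ).re

lemma kc_swap (c : ℂ) : (fun ζ z => kc c z ζ) = kc (conj c) := by
  funext ζ z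
  unfold kc
  rw [← ker_conj z ζ, ← map_mul, Complex.conj_re]

lemma abs_re_mul_le {c : ℂ} (hc : ‖c‖ ≤ 1) (w : ℂ) : |(c * w).re| ≤ ‖w‖ := by
  refine (Complex.abs_re_le_norm _).trans ?_
  rw [norm_mul]
  exact mul_le_of_le_one_left (norm_nonneg _) hc

lemma integrable_ker_mul {f : X → ℂ} (hf : Integrable f μ) (z : X) :
    Integrable (fun ζ => ker z ζ * f ζ) μ := by
  refine hf.bdd_mul (measurable_ker_right z).aestronglyMeasurable (c := 1 / ht z ^ 2)
    (Eventually.of_forall fun ζ => ?_)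
  rw [norm_ker]
  exact inv_pow_dl_le (ht_pos z) (ht_le_dl z ζ) 2

lemma op_kc (c : ℂ) {u : X → ℝ} (hu : Integrable u μ) (z : X) :
    op (kc c) μ u z = (c * ∫ ζ, ker z ζ * (u ζ : ℂ) ∂μ).re := by
  have h1 : Integrable (fun ζ => c * (ker z ζ * (u ζ : ℂ))) μ :=
    (integrable_ker_mul hu.ofReal z).const_mul c
  rw [← integral_const_mul]
  have := integral_re h1
  simp only [RCLike.re_to_complex] at this
  rw [← this]
  unfold op kc
  congr 1
  funext ζ
  rw [← mul_assoc, Complex.re_mul_ofReal]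

lemma op_kc_one (c : ℂ) {S : Set X} (hS : MeasurableSet S) (z : X) :
    op (kc c) μ (one S) z = (c * PS μ S z).re := by
  rw [op_kc c (Bdd.one hS).integrable, PS, ← integral_indicator hS]
  congr 3
  funext ζ
  by_cases h : ζ ∈ S
  · simp [one_of_mem h, Set.indicator_of_mem h]
  · simp [one_of_notMem h, Set.indicator_of_notMem h]

lemma hyp_kc (hT : Test μ ν T) (hT' : Test ν μ T') (hp : PosM μ) {c : ℂ} (hc : ‖c‖ ≤ 1) :
    ∃ C, Hyp (kc c) μ ν C := by
  obtain ⟨C1, h1⟩ : ∃ C, TopC μ ν (1 / 2) C := top hT hT' (by norm_num)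
  obtain ⟨C2, h2⟩ : ∃ C, TopC ν μ (1 / 2) C := top hT' hT (by norm_num)
  have t0 := hT.1
  have t1 := hT'.1
  have t2 := h1.1
  have t3 : 0 ≤ μ.real Set.univ * ν.real Set.univ := by positivity
  refine ⟨T + 4 * T' + (32 * T + 16 * (μ.real Set.univ * ν.real Set.univ) + 1024 * (2048 * C1)) + 1,
    ⟨?_, fun z ζ => ?_, fun z z' ζ r a b => ?_, integrable_prod_inv_dl hT h1 h2⟩, by positivity,
    fun a ℓ a0 a1 => ?_, fun a ℓ a0 a1 z hz => ?_, fun ε hε => top hT hT' hε,
    fun s a ℓ a0 a1 b l e1 e2 e3 Ω e4 e5 e6 => ?_, hp⟩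
  · exact Complex.measurable_re.comp (measurable_ker.const_mul c)
  · rw [← norm_ker]
    exact abs_re_mul_le hc _
  · refine le_trans ?_ (norm_ker_sub a b)
    unfold kc
    rw [← Complex.sub_re, ← mul_sub]
    exact abs_re_mul_le hc _
  · obtain ⟨i1, i2⟩ := hT.2 a ℓ a0 a1
    simp only [op_kc_one c (measurableSet_Sec _ _ _)]
    have b : ∀ z, (c * PS μ (Sec a ℓ ℓ) z).re ^ 2 ≤ ‖PS μ (Sec a ℓ ℓ) z‖ ^ 2 := fun z => by
      rw [← sq_abs]
      exact pow_le_pow_left₀ (abs_nonneg _) (abs_re_mul_le hc _) 2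
    have i3 : Integrable (fun z => (c * PS μ (Sec a ℓ ℓ) z).re ^ 2) ν :=
      i1.mono' ((Complex.measurable_re.comp ((measurable_PS _).const_mul c)).pow_const
        2).aestronglyMeasurable (Eventually.of_forall fun z => by
          rw [Real.norm_eq_abs, abs_of_nonneg (sq_nonneg _)]
          exact b z)
    refine ⟨i3, (integral_mono i3 i1 b).trans (i2.trans ?_)⟩
    refine mul_le_mul_of_nonneg_right ?_ measureReal_nonneg
    linarith [mul_nonneg (by norm_num : (0 : ℝ) ≤ 1024) (mul_nonneg (by norm_num : (0 : ℝ) ≤ 2048) t2)]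
  · refine (hole hT' a0 a1 hz).trans ?_
    linarith [mul_nonneg (by norm_num : (0 : ℝ) ≤ 1024) (mul_nonneg (by norm_num : (0 : ℝ) ≤ 2048) t2)]
  · refine (pivotal hT h1 s a0 a1 b l e1 e2 e3 Ω e4 e5 e6).trans ?_
    refine mul_le_mul_of_nonneg_right ?_ measureReal_nonneg
    linarith

lemma tendsto_hh : Tendsto hh atTop (nhds 0) := by
  have : hh = fun k => (1 / (MM : ℝ)) ^ k := by
    funext k
    rw [hh, one_div_pow]
  rw [this]
  exact tendsto_pow_atTop_nhds_zero_of_lt_one (by rw [MM_real]; norm_num)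
    (by rw [MM_real]; norm_num)

lemma eventually_hh (z : X) : ∀ᶠ n in atTop, hh n < ht z :=
  tendsto_hh.eventually (gt_mem_nhds (ht_pos z))

lemma measurable_op {κ : X → X → ℝ} (hk : Measurable (fun p : X × X => κ p.1 p.2)) {u : X → ℝ}
    (hu : Measurable u) : Measurable (op κ μ u) :=
  (MeasureTheory.StronglyMeasurable.integral_prod_right (ν := μ)
    (f := fun z ζ => κ z ζ * u ζ) (hk.mul (hu.comp measurable_snd)).stronglyMeasurable).measurable

lemma Ker.trunc {κ : X → X → ℝ} (hk : Ker κ μ ν) {K : ℝ} (hK : 0 ≤ K) {n : ℕ}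
    (h : Bnd κ μ ν n K) {f : X → ℝ} (hf : Bdd f) (hs : ∀ x, ht x ≤ hh n → f x = 0) :
    Bdd (fun z => one {z | hh n < ht z} z * op κ μ f z) ∧
      nn ν (fun z => one {z | hh n < ht z} z * op κ μ f z) ≤ 4 * (K + 1) ^ 2 * nn μ f := by
  have hU : MeasurableSet {z : X | hh n < ht z} :=
    measurableSet_lt measurable_const measurable_ht
  set g := fun z => one {z | hh n < ht z} z * op κ μ f z with hg
  have gb : Bdd g := by
    refine ⟨(Bdd.one hU).meas.mul (measurable_op hk.meas hf.meas),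
      ∫ ζ, 1 / hh n ^ 2 * |f ζ| ∂μ, fun z => ?_⟩
    by_cases hz : hh n < ht z
    · simp only [hg]
      rw [one_of_mem (S := {z | hh n < ht z}) hz, one_mul]
      refine abs_integral_le_integral_abs.trans (integral_mono (hk.integrable_mul hf z).abs
        (hf.abs.integrable.const_mul _) fun ζ => ?_)
      simp only
      rw [abs_mul]
      exact mul_le_mul_of_nonneg_right ((hk.size z ζ).trans
        (inv_pow_dl_le (hh_pos n) (hz.le.trans (ht_le_dl z ζ)) 2)) (abs_nonneg _)
    · simp only [hg]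
      rw [one_of_notMem (S := {z | hh n < ht z}) hz, zero_mul, abs_zero]
      exact integral_nonneg fun ζ => by positivity
  refine ⟨gb, ?_⟩
  have c1 : Cst 0 n f := fun x y hx hy _ => by rw [hs x hx, hs y hy]
  have c2 : Cst 0 n g := fun x y hx hy _ => by
    simp only [hg]
    rw [one_of_notMem (S := {z | hh n < ht z}) (not_lt.2 hx),
      one_of_notMem (S := {z | hh n < ht z}) (not_lt.2 hy), zero_mul, zero_mul]
  have e : BB κ μ ν f g = nn ν g := by
    unfold BB nn
    congr 1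
    funext z
    simp only [hg, mul_pow, one_sq]
    ring
  have n1 := nn_nonneg (μ := μ) f
  have n2 := nn_nonneg (μ := ν) g
  have hs' : (0 : ℝ) < 2 * (K + 1) := by positivity
  have := h.scale hf gb c1 c2 (t := √(2 * (K + 1))) (Real.sqrt_pos.2 hs').ne'
  rw [e, inv_pow, Real.sq_sqrt hs'.le, abs_of_nonneg n2] at this
  have e2 : K * ((2 * (K + 1))⁻¹ * nn ν g) ≤ 1 / 2 * nn ν g := by
    rw [← mul_assoc]
    refine mul_le_mul_of_nonneg_right ?_ n2
    rw [← div_eq_mul_inv, div_le_iff₀ hs']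
    linarith
  nlinarith [mul_nonneg hK n1]

lemma Ker.real_bound {κ : X → X → ℝ} (hk : Ker κ μ ν) {K : ℝ} (hK : 0 ≤ K)
    (h : ∀ n, Bnd κ μ ν n K) {u : X → ℝ} (hu : Measurable u) (hu2 : MemLp u 2 μ) :
    ∫⁻ z, ENNReal.ofReal (op κ μ u z ^ 2) ∂ν ≤ ENNReal.ofReal (4 * (K + 1) ^ 2 * nn μ u) := by
  set S : ℕ → Set X := fun n => {x | hh n < ht x ∧ |u x| ≤ n} with hS
  have hSm : ∀ n, MeasurableSet (S n) := fun n =>
    (measurableSet_lt measurable_const measurable_ht).inter
      (measurableSet_le hu.abs measurable_const)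
  set f : ℕ → X → ℝ := fun n x => one (S n) x * u x with hf
  have fb : ∀ n, Bdd (f n) := fun n => by
    refine ⟨(Bdd.one (hSm n)).meas.mul hu, n, fun x => ?_⟩
    by_cases hx : x ∈ S n
    · simp only [hf]
      rw [one_of_mem hx, one_mul]
      exact hx.2
    · simp only [hf]
      rw [one_of_notMem hx, zero_mul, abs_zero]
      positivity
  have fs : ∀ n x, ht x ≤ hh n → f n x = 0 := fun n x hx => by
    simp only [hf]
    rw [one_of_notMem (S := S n) fun h => h.1.not_ge hx, zero_mul]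
  have fle : ∀ n x, |f n x| ≤ |u x| := fun n x => by
    simp only [hf]
    by_cases hx : x ∈ S n
    · rw [one_of_mem hx, one_mul]
    · rw [one_of_notMem hx, zero_mul, abs_zero]
      exact abs_nonneg _
  have u1 : Integrable u μ := hu2.integrable (by norm_num)
  have u2 : Integrable (fun x => u x ^ 2) μ := hu2.integrable_sq
  set g : ℕ → X → ℝ := fun n z => one {z | hh n < ht z} z * op κ μ (f n) z with hg
  have gb : ∀ n, Bdd (g n) := fun n => (hk.trunc hK (h n) (fb n) (fs n)).1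
  have b1 : ∀ n, ∫⁻ z, ENNReal.ofReal (g n z ^ 2) ∂ν ≤
      ENNReal.ofReal (4 * (K + 1) ^ 2 * nn μ u) := by
    intro n
    rw [← ofReal_integral_eq_lintegral_ofReal (gb n).sq.integrable
      (Eventually.of_forall fun _ => sq_nonneg _)]
    refine ENNReal.ofReal_le_ofReal ((hk.trunc hK (h n) (fb n) (fs n)).2.trans ?_)
    refine mul_le_mul_of_nonneg_left ?_ (by positivity)
    exact integral_mono (fb n).sq.integrable u2 fun x => sq_le_sq.2 (fle n x)
  have lim : ∀ z, Tendsto (fun n => g n z) atTop (nhds (op κ μ u z)) := by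
    intro z
    have l1 : Tendsto (fun n => op κ μ (f n) z) atTop (nhds (op κ μ u z)) := by
      refine tendsto_integral_of_dominated_convergence (fun ζ => 1 / ht z ^ 2 * |u ζ|)
        (fun n => (hk.integrable_mul (fb n) z).aestronglyMeasurable) (u1.abs.const_mul _)
        (fun n => Eventually.of_forall fun ζ => ?_) (Eventually.of_forall fun ζ => ?_)
      · rw [Real.norm_eq_abs, abs_mul]
        have := ht_pos z
        exact mul_le_mul ((hk.size z ζ).trans (inv_pow_dl_le (ht_pos z) (ht_le_dl z ζ) 2))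
          (fle n ζ) (abs_nonneg _) (by positivity)
      · refine tendsto_const_nhds.congr' ?_
        filter_upwards [eventually_hh ζ, tendsto_natCast_atTop_atTop.eventually_ge_atTop |u ζ|]
          with n h1 h2
        simp only [hf]
        rw [one_of_mem (S := S n) ⟨h1, h2⟩, one_mul]
    refine l1.congr' ?_
    filter_upwards [eventually_hh z] with n h1
    simp only [hg]
    rw [one_of_mem (S := {z | hh n < ht z}) h1, one_mul]
  calc ∫⁻ z, ENNReal.ofReal (op κ μ u z ^ 2) ∂ν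
      = ∫⁻ z, liminf (fun n => ENNReal.ofReal (g n z ^ 2)) atTop ∂ν := by
        congr 1
        funext z
        exact (ENNReal.tendsto_ofReal ((lim z).pow 2)).liminf_eq.symm
    _ ≤ liminf (fun n => ∫⁻ z, ENNReal.ofReal (g n z ^ 2) ∂ν) atTop :=
        lintegral_liminf_le fun n => ((gb n).meas.pow_const 2).ennreal_ofReal
    _ ≤ _ := liminf_le_of_frequently_le' (Frequently.of_forall b1)

/-- The Bergman kernel applied to a function against a measure. -/
noncomputable def PX (μ : Measure X) (f : X → ℂ) (z : X) : ℂ := ∫ ζ, ker z ζ * f ζ ∂μ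

lemma kc_bound (hT : Test μ ν T) (hT' : Test ν μ T') (hp : PosM μ) (hp' : PosM ν) {c : ℂ}
    (hc : ‖c‖ ≤ 1) : ∃ K : ℝ, 0 ≤ K ∧ ∀ u : X → ℝ, Measurable u → MemLp u 2 μ →
      ∫⁻ z, ENNReal.ofReal ((c * PX μ (fun ζ => (u ζ : ℂ)) z).re ^ 2) ∂ν ≤
        ENNReal.ofReal (K * nn μ u) := by
  obtain ⟨C, H⟩ := hyp_kc hT hT' hp hc
  obtain ⟨C', H'⟩ := hyp_kc hT' hT hp' (c := conj c) (by rwa [Complex.norm_conj])
  rw [← kc_swap] at H'
  obtain ⟨K, hK, h⟩ := H.bound H'
  refine ⟨4 * (K + 1) ^ 2, by positivity, fun u hu hu2 => ?_⟩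
  have := H.toKer.real_bound hK h hu hu2
  simpa only [op_kc c (hu2.integrable (by norm_num)), PX] using this

lemma measurable_PX {f : X → ℂ} (hf : Measurable f) : Measurable (PX μ f) :=
  (MeasureTheory.StronglyMeasurable.integral_prod_right (ν := μ)
    (f := fun z ζ => ker z ζ * f ζ)
    (measurable_ker.mul (hf.comp measurable_snd)).stronglyMeasurable).measurable

lemma real_PX_bound (hT : Test μ ν T) (hT' : Test ν μ T') (hp : PosM μ) (hp' : PosM ν) :
    ∃ K : ℝ, 0 ≤ K ∧ ∀ u : X → ℝ, Measurable u → MemLp u 2 μ →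
      ∫⁻ z, ENNReal.ofReal (‖PX μ (fun ζ => (u ζ : ℂ)) z‖ ^ 2) ∂ν ≤
        ENNReal.ofReal (K * nn μ u) := by
  obtain ⟨K1, k1, h1⟩ := kc_bound hT hT' hp hp' (c := 1) (by simp)
  obtain ⟨K2, k2, h2⟩ := kc_bound hT hT' hp hp' (c := -Complex.I) (by simp)
  refine ⟨K1 + K2, by positivity, fun u hu hu2 => ?_⟩
  have n0 := nn_nonneg (μ := μ) u
  rw [add_mul, ENNReal.ofReal_add (by positivity) (by positivity)]
  refine le_trans (le_of_eq ?_) (add_le_add (h1 u hu hu2) (h2 u hu hu2))
  have m0 : Measurable (PX μ (fun ζ => (u ζ : ℂ))) :=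
    measurable_PX (Complex.measurable_ofReal.comp hu)
  have m1 : Measurable fun z => ENNReal.ofReal ((1 * PX μ (fun ζ => (u ζ : ℂ)) z).re ^ 2) :=
    ((Complex.measurable_re.comp (m0.const_mul 1)).pow_const 2).ennreal_ofReal
  rw [← lintegral_add_left m1]
  congr 1
  funext z
  rw [← ENNReal.ofReal_add (sq_nonneg _) (sq_nonneg _), Complex.sq_norm, Complex.normSq_apply]
  simp [sq]

theorem PX_bound (hT : Test μ ν T) (hT' : Test ν μ T') (hp : PosM μ) (hp' : PosM ν) :
    ∃ K : ℝ, 0 ≤ K ∧ ∀ f : X → ℂ, MemLp f 2 μ →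
      ∫⁻ z, ENNReal.ofReal (‖PX μ f z‖ ^ 2) ∂ν ≤ ENNReal.ofReal (K * ∫ ζ, ‖f ζ‖ ^ 2 ∂μ) := by
  obtain ⟨K, k, h⟩ := real_PX_bound hT hT' hp hp'
  have main : ∀ f : X → ℂ, Measurable f → MemLp f 2 μ →
      ∫⁻ z, ENNReal.ofReal (‖PX μ f z‖ ^ 2) ∂ν ≤
        ENNReal.ofReal (2 * K * ∫ ζ, ‖f ζ‖ ^ 2 ∂μ) := by
    intro f hf hf2
    have m1 : Measurable fun ζ => (f ζ).re := Complex.measurable_re.comp hf
    have m2 : Measurable fun ζ => (f ζ).im := Complex.measurable_im.comp hf
    have l1 : MemLp (fun ζ => (f ζ).re) 2 μ := hf2.re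
    have l2 : MemLp (fun ζ => (f ζ).im) 2 μ := hf2.im
    have e : ∀ z, PX μ f z = PX μ (fun ζ => ((f ζ).re : ℂ)) z +
        Complex.I * PX μ (fun ζ => ((f ζ).im : ℂ)) z := by
      intro z
      have i1 : Integrable (fun ζ => ker z ζ * ((f ζ).re : ℂ)) μ :=
        integrable_ker_mul (l1.integrable (by norm_num)).ofReal z
      have i2 : Integrable (fun ζ => Complex.I * (ker z ζ * ((f ζ).im : ℂ))) μ :=
        (integrable_ker_mul (l2.integrable (by norm_num)).ofReal z).const_mul _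
      simp only [PX]
      rw [← integral_const_mul, ← integral_add i1 i2]
      congr 1
      funext ζ
      conv_lhs => rw [← Complex.re_add_im (f ζ)]
      ring
    have e2 : ∫ ζ, ‖f ζ‖ ^ 2 ∂μ = nn μ (fun ζ => (f ζ).re) + nn μ (fun ζ => (f ζ).im) := by
      unfold nn
      rw [← integral_add l1.integrable_sq l2.integrable_sq]
      congr 1
      funext ζ
      rw [Complex.sq_norm, Complex.normSq_apply]
      ring
    have n1 := nn_nonneg (μ := μ) (fun ζ => (f ζ).re)
    have n2 := nn_nonneg (μ := μ) (fun ζ => (f ζ).im)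
    calc _ ≤ ∫⁻ z, (2 * ENNReal.ofReal (‖PX μ (fun ζ => ((f ζ).re : ℂ)) z‖ ^ 2) +
          2 * ENNReal.ofReal (‖PX μ (fun ζ => ((f ζ).im : ℂ)) z‖ ^ 2)) ∂ν := by
          refine lintegral_mono fun z => ?_
          rw [← ENNReal.ofReal_ofNat 2, ← ENNReal.ofReal_mul (by norm_num),
            ← ENNReal.ofReal_mul (by norm_num),
            ← ENNReal.ofReal_add (by positivity) (by positivity)]
          refine ENNReal.ofReal_le_ofReal ?_
          rw [e]
          set A := PX μ (fun ζ => ((f ζ).re : ℂ)) z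
          set B := PX μ (fun ζ => ((f ζ).im : ℂ)) z
          have := norm_add_le A (Complex.I * B)
          rw [norm_mul, Complex.norm_I, one_mul] at this
          nlinarith [norm_nonneg (A + Complex.I * B), sq_nonneg (‖A‖ - ‖B‖), norm_nonneg A,
            norm_nonneg B]
      _ = 2 * ∫⁻ z, ENNReal.ofReal (‖PX μ (fun ζ => ((f ζ).re : ℂ)) z‖ ^ 2) ∂ν +
          2 * ∫⁻ z, ENNReal.ofReal (‖PX μ (fun ζ => ((f ζ).im : ℂ)) z‖ ^ 2) ∂ν := by
          have m0 : Measurable (PX μ (fun ζ => ((f ζ).re : ℂ))) :=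
            measurable_PX (Complex.measurable_ofReal.comp m1)
          rw [lintegral_add_left ((m0.norm.pow_const 2).ennreal_ofReal.const_mul 2),
            lintegral_const_mul' _ _ (by norm_num), lintegral_const_mul' _ _ (by norm_num)]
      _ ≤ 2 * ENNReal.ofReal (K * nn μ (fun ζ => (f ζ).re)) +
          2 * ENNReal.ofReal (K * nn μ (fun ζ => (f ζ).im)) := by
          gcongr
          · exact h _ m1 l1
          · exact h _ m2 l2
      _ = _ := by
          rw [← ENNReal.ofReal_ofNat 2, ← ENNReal.ofReal_mul (by norm_num),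
            ← ENNReal.ofReal_mul (by norm_num),
            ← ENNReal.ofReal_add (by positivity) (by positivity), e2]
          congr 1
          ring
  refine ⟨2 * K, by positivity, fun f hf => ?_⟩
  have ae := hf.1.ae_eq_mk
  have := main _ hf.1.measurable_mk (hf.ae_eq ae)
  have e1 : PX μ f = PX μ (hf.1.mk f) := funext fun z =>
    integral_congr_ae (ae.mono fun ζ hζ => by simp only [hζ])
  have e2 : ∫ ζ, ‖f ζ‖ ^ 2 ∂μ = ∫ ζ, ‖hf.1.mk f ζ‖ ^ 2 ∂μ :=
    integral_congr_ae (ae.mono fun ζ hζ => by simp only [hζ])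
  rw [e1, e2]
  exact this

end Pool.Agent.P.MP_c45a97_an
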