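import Pool.Agent.P.MP_c45a97_an.Tree

/-! Bounded functions and martingale differences on the tree of boxes. -/

set_option linter.unusedSectionVars false

namespace Pool.Agent.P.MP_c45a97_an

open MeasureTheory

structure Bdd (f : X → ℝ) : Prop where
  meas : Measurable f
  bdd : ∃ C : ℝ, ∀ x, |f x| ≤ C

variable {μ : Measure X} [IsFiniteMeasure μ] {a : ℝ} {f g : X → ℝ}

lemma Bdd.integrable (hf : Bdd f) : Integrable f μ := by
  obtain ⟨C, hC⟩ := hf.bdd
  exact Integrable.of_bound hf.meas.aestronglyMeasurable C (Filter.Eventually.of_forall hC)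

lemma Bdd.const (c : ℝ) : Bdd (fun _ => c) := ⟨measurable_const, |c|, fun _ => le_rfl⟩

lemma Bdd.add (hf : Bdd f) (hg : Bdd g) : Bdd (fun x => f x + g x) := by
  obtain ⟨C, hC⟩ := hf.bdd
  obtain ⟨D, hD⟩ := hg.bdd
  exact ⟨hf.meas.add hg.meas, C + D, fun x => (abs_add_le _ _).trans (add_le_add (hC x) (hD x))⟩

lemma Bdd.mul (hf : Bdd f) (hg : Bdd g) : Bdd (fun x => f x * g x) := by
  obtain ⟨C, hC⟩ := hf.bdd
  obtain ⟨D, hD⟩ := hg.bdd
  refine ⟨hf.meas.mul hg.meas, C * D, fun x => ?_⟩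
  rw [abs_mul]
  exact mul_le_mul (hC x) (hD x) (abs_nonneg _) ((abs_nonneg _).trans (hC x))

lemma Bdd.const_mul (hf : Bdd f) (c : ℝ) : Bdd (fun x => c * f x) := (Bdd.const c).mul hf

lemma Bdd.sub (hf : Bdd f) (hg : Bdd g) : Bdd (fun x => f x - g x) := by
  have := hf.add (hg.const_mul (-1))
  simpa [sub_eq_add_neg] using this

lemma Bdd.sq (hf : Bdd f) : Bdd (fun x => f x ^ 2) := by
  simpa [pow_two] using hf.mul hf

lemma Bdd.abs (hf : Bdd f) : Bdd (fun x => |f x|) := by
  obtain ⟨C, hC⟩ := hf.bdd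
  exact ⟨hf.meas.abs, C, fun x => by rw [abs_abs]; exact hC x⟩

lemma Bdd.indicator (hf : Bdd f) {S : Set X} (hS : MeasurableSet S) : Bdd (S.indicator f) := by
  obtain ⟨C, hC⟩ := hf.bdd
  refine ⟨hf.meas.indicator hS, C, fun x => ?_⟩
  by_cases h : x ∈ S
  · rw [Set.indicator_of_mem h]; exact hC x
  · rw [Set.indicator_of_notMem h, abs_zero]; exact (abs_nonneg _).trans (hC x)

lemma Bdd.sum {ι : Type} {s : Finset ι} {F : ι → X → ℝ} (h : ∀ i ∈ s, Bdd (F i)) :
    Bdd (fun x => ∑ i ∈ s, F i x) := by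
  classical
  induction s using Finset.induction_on with
  | empty => simpa using Bdd.const 0
  | insert i s hi ih =>
    simp only [Finset.sum_insert hi]
    exact (h i (Finset.mem_insert_self _ _)).add (ih fun j hj => h j (Finset.mem_insert_of_mem hj))

lemma Bdd.comp_idx (γ : ℕ → ℝ) (a : ℝ) (k : ℕ) : Bdd (fun x => γ (idx a k x)) := by
  refine ⟨(measurable_from_nat (f := γ)).comp (measurable_idx k),
    ∑ j ∈ Finset.range (MM ^ k), |γ j|, fun x => ?_⟩
  exact Finset.single_le_sum (f := fun j => |γ j|) (fun j _ => abs_nonneg _)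
    (Finset.mem_range.2 (idx_lt k x))

lemma Bdd.ite {p : X → Prop} [DecidablePred p] (hp : MeasurableSet {x | p x}) (hf : Bdd f)
    (hg : Bdd g) : Bdd (fun x => if p x then f x else g x) := by
  obtain ⟨C, hC⟩ := hf.bdd
  obtain ⟨D, hD⟩ := hg.bdd
  refine ⟨Measurable.ite hp hf.meas hg.meas, max C D, fun x => ?_⟩
  split_ifs
  · exact (hC x).trans (le_max_left _ _)
  · exact (hD x).trans (le_max_right _ _)

/-- The indicator function of a set. -/
noncomputable def one (S : Set X) : X → ℝ := S.indicator (fun _ => 1)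

lemma Bdd.one {S : Set X} (hS : MeasurableSet S) : Bdd (one S) := (Bdd.const 1).indicator hS

lemma one_of_mem {S : Set X} {x : X} (h : x ∈ S) : one S x = 1 := Set.indicator_of_mem h _

lemma one_of_notMem {S : Set X} {x : X} (h : x ∉ S) : one S x = 0 := Set.indicator_of_notMem h _

lemma one_nonneg (S : Set X) (x : X) : 0 ≤ one S x := by
  by_cases h : x ∈ S
  · rw [one_of_mem h]; norm_num
  · rw [one_of_notMem h]

lemma one_sq (S : Set X) (x : X) : one S x ^ 2 = one S x := by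
  by_cases h : x ∈ S
  · rw [one_of_mem h]; norm_num
  · rw [one_of_notMem h]; norm_num

lemma integral_one_mul {S : Set X} (hS : MeasurableSet S) (f : X → ℝ) :
    ∫ x, one S x * f x ∂μ = ∫ x in S, f x ∂μ := by
  rw [← integral_indicator hS]
  refine integral_congr_ae (Filter.Eventually.of_forall fun x => ?_)
  by_cases h : x ∈ S
  · simp [one_of_mem h, Set.indicator_of_mem h]
  · simp [one_of_notMem h, Set.indicator_of_notMem h]

/-- The squared norm. -/
noncomputable def nn (μ : Measure X) (f : X → ℝ) : ℝ := ∫ x, f x ^ 2 ∂μ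

lemma nn_nonneg (f : X → ℝ) : 0 ≤ nn μ f := integral_nonneg fun _ => sq_nonneg _

lemma nn_const_mul (c : ℝ) (f : X → ℝ) : nn μ (fun x => c * f x) = c ^ 2 * nn μ f := by
  unfold nn
  rw [← integral_const_mul]
  simp only [mul_pow]

lemma nn_mono (hg : Bdd g) (h : ∀ x, f x ^ 2 ≤ g x ^ 2) : nn μ f ≤ nn μ g :=
  integral_mono_of_nonneg (Filter.Eventually.of_forall fun _ => sq_nonneg _) hg.sq.integrable
    (Filter.Eventually.of_forall h)

lemma nn_one_mul {S : Set X} (hS : MeasurableSet S) (f : X → ℝ) :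
    nn μ (fun x => one S x * f x) = ∫ x in S, f x ^ 2 ∂μ := by
  unfold nn
  simp only [mul_pow, one_sq]
  exact integral_one_mul hS _

lemma sum_one_box (k : ℕ) (x : X) :
    ∑ j ∈ Finset.range (MM ^ k), one (box a k j) x = if ht x ≤ hh k then 1 else 0 := by
  split_ifs with h
  · rw [Finset.sum_eq_single (idx a k x)]
    · exact one_of_mem ⟨h, rfl⟩
    · intro j _ hj
      exact one_of_notMem fun hx => hj hx.2.symm
    · intro hx
      exact absurd (Finset.mem_range.2 (idx_lt k x)) hx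
  · exact Finset.sum_eq_zero fun j _ => one_of_notMem fun hx => h hx.1

lemma integrable_one_mul {S : Set X} (hS : MeasurableSet S) {φ : X → ℝ} (hφ : Integrable φ μ) :
    Integrable (fun x => one S x * φ x) μ := by
  refine (hφ.indicator hS).congr (Filter.Eventually.of_forall fun x => ?_)
  by_cases h : x ∈ S
  · simp [one_of_mem h, Set.indicator_of_mem h]
  · simp [one_of_notMem h, Set.indicator_of_notMem h]

lemma integral_eq_sum_box (a : ℝ) (k : ℕ) {φ : X → ℝ} (hφ : Integrable φ μ)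
    (hs : ∀ x, hh k < ht x → φ x = 0) :
    ∫ x, φ x ∂μ = ∑ j ∈ Finset.range (MM ^ k), ∫ x in box a k j, φ x ∂μ := by
  simp_rw [← integral_one_mul (measurableSet_box k _)]
  rw [← integral_finsetSum _ fun j _ => integrable_one_mul (measurableSet_box k j) hφ]
  refine integral_congr_ae (Filter.Eventually.of_forall fun x => ?_)
  simp only
  rw [← Finset.sum_mul, sum_one_box]
  split_ifs with h
  · rw [one_mul]
  · rw [hs x (not_le.1 h), mul_zero]

lemma sum_box_le (a : ℝ) (k : ℕ) {φ : X → ℝ} (hφ : Integrable φ μ) (hs : ∀ x, 0 ≤ φ x) :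
    ∑ j ∈ Finset.range (MM ^ k), ∫ x in box a k j, φ x ∂μ ≤ ∫ x, φ x ∂μ := by
  simp_rw [← integral_one_mul (measurableSet_box k _)]
  rw [← integral_finsetSum _ fun j _ => integrable_one_mul (measurableSet_box k j) hφ]
  refine integral_mono (integrable_finsetSum _ fun j _ =>
    integrable_one_mul (measurableSet_box k j) hφ) hφ fun x => ?_
  simp only
  rw [← Finset.sum_mul, sum_one_box]
  split_ifs with h
  · rw [one_mul]
  · rw [zero_mul]; exact hs x

/-- Constant on each box of level `k`. -/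
def Cst (a : ℝ) (k : ℕ) (f : X → ℝ) : Prop :=
  ∀ x y, ht x ≤ hh k → ht y ≤ hh k → idx a k x = idx a k y → f x = f y

lemma Cst.mono {k l : ℕ} (h : Cst a k f) (hkl : k ≤ l) : Cst a l f := fun x y hx hy e =>
  h x y (hx.trans (hh_anti hkl)) (hy.trans (hh_anti hkl)) (idx_eq_of_le hkl e)

lemma Cst.const (k : ℕ) (c : ℝ) : Cst a k (fun _ => c) := fun _ _ _ _ _ => rfl

lemma Cst.add {k : ℕ} (hf : Cst a k f) (hg : Cst a k g) : Cst a k (fun x => f x + g x) :=
  fun x y hx hy e => by simp only [hf x y hx hy e, hg x y hx hy e]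

lemma Cst.sub {k : ℕ} (hf : Cst a k f) (hg : Cst a k g) : Cst a k (fun x => f x - g x) :=
  fun x y hx hy e => by simp only [hf x y hx hy e, hg x y hx hy e]

lemma Cst.mul {k : ℕ} (hf : Cst a k f) (hg : Cst a k g) : Cst a k (fun x => f x * g x) :=
  fun x y hx hy e => by simp only [hf x y hx hy e, hg x y hx hy e]

lemma Cst.sum {k : ℕ} {ι : Type} {s : Finset ι} {F : ι → X → ℝ} (h : ∀ i ∈ s, Cst a k (F i)) :
    Cst a k (fun x => ∑ i ∈ s, F i x) :=
  fun x y hx hy e => Finset.sum_congr rfl fun i hi => h i hi x y hx hy e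

lemma Cst.comp_idx (γ : ℕ → ℝ) (k : ℕ) : Cst a k (fun x => γ (idx a k x)) :=
  fun x y _ _ e => by simp only [e]

lemma Cst.one_box (k j : ℕ) : Cst a k (one (box a k j)) := by
  intro x y hx hy e
  by_cases h : idx a k x = j
  · rw [one_of_mem (S := box a k j) ⟨hx, h⟩, one_of_mem (S := box a k j) ⟨hy, e ▸ h⟩]
  · rw [one_of_notMem (S := box a k j) fun hh => h hh.2,
      one_of_notMem (S := box a k j) fun hh => h (e ▸ hh.2)]

/-- Supported on the boxes of level `k`, with mean zero on each. -/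
structure MD0 (μ : Measure X) (a : ℝ) (k : ℕ) (G : X → ℝ) : Prop where
  bdd : Bdd G
  supp : ∀ x, hh k < ht x → G x = 0
  mean : ∀ j, ∫ x in box a k j, G x ∂μ = 0

/-- A martingale difference of level `k`. -/
structure MD (μ : Measure X) (a : ℝ) (k : ℕ) (G : X → ℝ) : Prop extends MD0 μ a k G where
  cst : Cst a (k + 1) G

lemma setIntegral_box_mul {k : ℕ} {u G : X → ℝ} (hc : Cst a k u) {x₀ : X} {j : ℕ}
    (hx : x₀ ∈ box a k j) : ∫ x in box a k j, u x * G x ∂μ = u x₀ * ∫ x in box a k j, G x ∂μ := by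
  rw [← integral_const_mul]
  refine setIntegral_congr_fun (measurableSet_box k j) fun x hx' => ?_
  rw [hc x x₀ hx'.1 hx.1 (hx'.2.trans hx.2.symm)]

lemma MD0.mul {k : ℕ} {u G : X → ℝ} (hG : MD0 μ a k G) (hu : Bdd u) (hc : Cst a k u) :
    MD0 μ a k (fun x => u x * G x) := by
  refine ⟨hu.mul hG.bdd, fun x hx => by rw [hG.supp x hx, mul_zero], fun j => ?_⟩
  rcases (box a k j).eq_empty_or_nonempty with h | ⟨x₀, hx₀⟩
  · rw [h, setIntegral_empty]
  · rw [setIntegral_box_mul hc hx₀, hG.mean, mul_zero]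

lemma MD0.integral_eq_zero {k : ℕ} {G : X → ℝ} (hG : MD0 μ a k G) : ∫ x, G x ∂μ = 0 := by
  rw [integral_eq_sum_box a k hG.bdd.integrable hG.supp]
  exact Finset.sum_eq_zero fun j _ => hG.mean j

lemma MD0.orth {k : ℕ} {u G : X → ℝ} (hG : MD0 μ a k G) (hu : Bdd u) (hc : Cst a k u) :
    ∫ x, u x * G x ∂μ = 0 := (hG.mul hu hc).integral_eq_zero

lemma MD.mul {k : ℕ} {u G : X → ℝ} (hG : MD μ a k G) (hu : Bdd u) (hc : Cst a k u) :
    MD μ a k (fun x => u x * G x) :=
  ⟨hG.toMD0.mul hu hc, (hc.mono (Nat.le_succ k)).mul hG.cst⟩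

/-- Partial sums of a martingale difference sequence. -/
noncomputable def ps (c : ℝ) (G : ℕ → X → ℝ) (k : ℕ) (x : X) : ℝ :=
  c + ∑ i ∈ Finset.range k, G i x

lemma ps_succ (c : ℝ) (G : ℕ → X → ℝ) (k : ℕ) (x : X) :
    ps c G (k + 1) x = ps c G k x + G k x := by
  unfold ps
  rw [Finset.sum_range_succ, add_assoc]

lemma ps_zero (c : ℝ) (G : ℕ → X → ℝ) (x : X) : ps c G 0 x = c := by simp [ps]

variable {G : ℕ → X → ℝ}

lemma ps_bdd (hG : ∀ k, MD μ a k (G k)) (c : ℝ) (k : ℕ) : Bdd (ps c G k) :=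
  (Bdd.const c).add (Bdd.sum fun i _ => (hG i).bdd)

lemma ps_cst (hG : ∀ k, MD μ a k (G k)) (c : ℝ) (k : ℕ) : Cst a k (ps c G k) :=
  (Cst.const k c).add (Cst.sum fun i hi => (hG i).cst.mono (Finset.mem_range.1 hi))

lemma nn_add (hf : Bdd f) (hg : Bdd g) :
    nn μ (fun x => f x + g x) = nn μ f + 2 * ∫ x, f x * g x ∂μ + nn μ g := by
  unfold nn
  rw [← integral_const_mul, ← integral_add hf.sq.integrable ((hf.mul hg).const_mul 2).integrable,
    ← integral_add (hf.sq.add ((hf.mul hg).const_mul 2)).integrable hg.sq.integrable]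
  refine integral_congr_ae (Filter.Eventually.of_forall fun x => ?_)
  simp only
  ring

lemma nn_ps (hG : ∀ k, MD μ a k (G k)) (c : ℝ) (n : ℕ) :
    nn μ (ps c G n) = c ^ 2 * μ.real Set.univ + ∑ k ∈ Finset.range n, nn μ (G k) := by
  induction n with
  | zero =>
    simp only [nn, ps_zero, integral_const, smul_eq_mul, Finset.range_zero, Finset.sum_empty]
    ring
  | succ n ih =>
    have : ps c G (n + 1) = fun x => ps c G n x + G n x := funext (ps_succ c G n)
    rw [this, nn_add (ps_bdd hG c n) (hG n).bdd, ih,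
      (hG n).toMD0.orth (ps_bdd hG c n) (ps_cst hG c n), Finset.sum_range_succ]
    ring

lemma sum_nn_le (hG : ∀ k, MD μ a k (G k)) (c : ℝ) (n : ℕ) :
    ∑ k ∈ Finset.range n, nn μ (G k) ≤ nn μ (ps c G n) := by
  rw [nn_ps hG]
  have : 0 ≤ c ^ 2 * μ.real Set.univ := by positivity
  linarith

lemma nn_ps_mono (hG : ∀ k, MD μ a k (G k)) (c : ℝ) {k n : ℕ} (h : k ≤ n) :
    nn μ (ps c G k) ≤ nn μ (ps c G n) := by
  rw [nn_ps hG, nn_ps hG]
  gcongr
  exact fun i _ _ => nn_nonneg _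

lemma setIntegral_ps (hG : ∀ k, MD μ a k (G k)) (c : ℝ) {k n : ℕ} (h : k ≤ n) (j : ℕ) :
    ∫ x in box a k j, ps c G n x ∂μ = ∫ x in box a k j, ps c G k x ∂μ := by
  induction n, h using Nat.le_induction with
  | base => rfl
  | succ n h ih =>
    simp only [ps_succ]
    rw [integral_add (ps_bdd hG c n).integrable.integrableOn (hG n).bdd.integrable.integrableOn,
      ih, ← integral_one_mul (measurableSet_box k j) (G n),
      (hG n).toMD0.orth (Bdd.one (measurableSet_box k j)) ((Cst.one_box k j).mono h), add_zero]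

/-- All boxes have positive measure. -/
def PosM (μ : Measure X) : Prop := ∀ a ℓ : ℝ, 0 < ℓ → ℓ ≤ 1 → 0 < μ.real (Sec a ℓ ℓ)

lemma PosM.box_pos (h : PosM μ) {k j : ℕ} (hj : j < MM ^ k) : 0 < μ.real (box a k j) := by
  rw [box_eq_Sec hj]
  exact h _ _ (hh_pos k) (hh_le_one k)

noncomputable def avg (μ : Measure X) (a : ℝ) (f : X → ℝ) (k j : ℕ) : ℝ :=
  (∫ x in box a k j, f x ∂μ) / μ.real (box a k j)

lemma avg_mul (f : X → ℝ) (k j : ℕ) :
    avg μ a f k j * μ.real (box a k j) = ∫ x in box a k j, f x ∂μ := by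
  unfold avg
  by_cases h : μ.real (box a k j) = 0
  · rw [h, mul_zero, Measure.restrict_eq_zero.2
      ((measureReal_eq_zero_iff (measure_ne_top _ _)).1 h), integral_zero_measure]
  · exact div_mul_cancel₀ _ h

lemma avg_of_cst (hp : PosM μ) {k : ℕ} (hc : Cst a k f) {x : X} (hx : ht x ≤ hh k) :
    avg μ a f k (idx a k x) = f x := by
  have h0 := hp.box_pos (a := a) (idx_lt (a := a) k x)
  have := setIntegral_box_mul (μ := μ) (G := fun _ => 1) hc (x₀ := x) ⟨hx, rfl⟩
  simp only [mul_one, integral_const, smul_eq_mul, measureReal_restrict_apply_univ] at this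
  unfold avg
  rw [this, mul_div_assoc, div_self h0.ne', mul_one]

lemma ps_eq_avg (hp : PosM μ) (hG : ∀ k, MD μ a k (G k)) (c : ℝ) {k n : ℕ} (h : k ≤ n) {x : X}
    (hx : ht x ≤ hh k) : ps c G k x = avg μ a (ps c G n) k (idx a k x) := by
  rw [← avg_of_cst hp (ps_cst hG c k) hx]
  unfold avg
  rw [setIntegral_ps hG c h]

noncomputable def EE (μ : Measure X) (a : ℝ) (f : X → ℝ) (k : ℕ) (x : X) : ℝ :=
  if ht x ≤ hh k then avg μ a f k (idx a k x) else f x

noncomputable def DD (μ : Measure X) (a : ℝ) (f : X → ℝ) (k : ℕ) (x : X) : ℝ :=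
  EE μ a f (k + 1) x - EE μ a f k x

lemma EE_bdd (hf : Bdd f) (k : ℕ) : Bdd (EE μ a f k) :=
  Bdd.ite (measurableSet_le measurable_ht measurable_const) (Bdd.comp_idx _ a k) hf

lemma EE_cst (k : ℕ) : Cst a k (EE μ a f k) := by
  intro x y hx hy e
  simp only [EE, if_pos hx, if_pos hy, e]

lemma EE_sub_md0 (hf : Bdd f) (k : ℕ) : MD0 μ a k (fun x => EE μ a f k x - f x) := by
  refine ⟨(EE_bdd hf k).sub hf, fun x hx => by simp [EE, not_le.2 hx], fun j => ?_⟩
  rw [integral_sub (EE_bdd hf k).integrable.integrableOn hf.integrable.integrableOn,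
    ← avg_mul f, setIntegral_congr_fun (g := fun _ => avg μ a f k j) (measurableSet_box k j)
      (fun x hx => by simp only [EE, if_pos hx.1, hx.2]), setIntegral_const, smul_eq_mul]
  ring

lemma DD_md (hf : Bdd f) (k : ℕ) : MD μ a k (DD μ a f k) := by
  refine ⟨⟨(EE_bdd hf (k + 1)).sub (EE_bdd hf k), fun x hx => ?_, fun j => ?_⟩,
    (EE_cst (k + 1)).sub ((EE_cst k).mono (Nat.le_succ k))⟩
  · have : ¬ ht x ≤ hh (k + 1) := not_le.2 ((hh_anti (Nat.le_succ k)).trans_lt hx)
    simp [DD, EE, not_le.2 hx, this]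
  · have e : ∀ x, DD μ a f k x = (EE μ a f (k + 1) x - f x) - (EE μ a f k x - f x) := by
      intro x
      simp only [DD]
      ring
    simp only [e]
    rw [integral_sub (EE_sub_md0 (μ := μ) (a := a) hf (k + 1)).bdd.integrable.integrableOn
      (EE_sub_md0 (μ := μ) (a := a) hf k).bdd.integrable.integrableOn, (EE_sub_md0 hf k).mean,
      ← integral_one_mul (measurableSet_box k j), (EE_sub_md0 hf (k + 1)).orth
        (Bdd.one (measurableSet_box k j)) ((Cst.one_box k j).mono (Nat.le_succ k)), sub_zero]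

lemma ps_DD (f : X → ℝ) (n : ℕ) (x : X) :
    ps (avg μ a f 0 0) (DD μ a f) n x = EE μ a f n x := by
  induction n with
  | zero =>
    rw [ps_zero, EE, if_pos (by rw [hh_zero]; exact (ht_lt_one x).le), idx_zero]
  | succ n ih =>
    rw [ps_succ, ih, DD]
    ring

lemma EE_of_cst (hp : PosM μ) {n : ℕ} (hc : Cst a n f) (x : X) : EE μ a f n x = f x := by
  unfold EE
  split_ifs with h
  · exact avg_of_cst hp hc h
  · rfl

end Pool.Agent.P.MP_c45a97_an
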