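import Pool.Agent.P.MP_c45a97_an.PlDefs

/-! A Hardy type inequality for weights with a subharmonic power below one. -/

namespace Pool.Agent.P.MP_c45a97_an.Pl

section

open MeasureTheory Metric Real Filter
open scoped ComplexConjugate Topology

/-- First and second derivatives of `ψ` along lines. -/
structure Jet (ψ : ℂ → ℝ) (α B : ℂ → ℂ) (Λ : ℂ → ℝ) : Prop where
  c0 : ContinuousOn ψ (ball 0 1)
  cB : ContinuousOn B (ball 0 1)
  cL : ContinuousOn Λ (ball 0 1)
  d1 : ∀ (z v : ℂ) (t : ℝ), z + t * v ∈ ball (0 : ℂ) 1 →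
    HasDerivAt (fun s : ℝ => ψ (z + s * v)) (α (z + t * v) * v).re t
  d2 : ∀ (z v : ℂ) (t : ℝ), z + t * v ∈ ball (0 : ℂ) 1 → ‖v‖ = 1 →
    HasDerivAt (fun s : ℝ => (α (z + s * v) * v).re)
      (2 * Λ (z + t * v) + (B (z + t * v) * v ^ 2).re) t

lemma taylor2 {g g1 g2 : ℝ → ℝ} {r ε : ℝ} (hr : 0 ≤ r)
    (h1 : ∀ t ∈ Set.Icc 0 r, HasDerivAt g (g1 t) t)
    (h2 : ∀ t ∈ Set.Icc 0 r, HasDerivAt g1 (g2 t) t) (h : ∀ t ∈ Set.Icc 0 r, |g2 t - g2 0| ≤ ε) :
    |g r - g 0 - r * g1 0 - r ^ 2 / 2 * g2 0| ≤ ε * r ^ 2 := by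
  have e0 : 0 ≤ ε := (abs_nonneg _).trans (h 0 ⟨le_rfl, hr⟩)
  have a1 := norm_image_sub_le_of_norm_deriv_le_segment' (f := fun t => g1 t - t * g2 0)
    (f' := fun t => g2 t - 1 * g2 0) (a := 0) (b := r) (C := ε)
    (fun t ht => ((h2 t ht).sub ((hasDerivAt_id t).mul_const _)).hasDerivWithinAt)
    (fun t ht => by simpa using h t (Set.Ico_subset_Icc_self ht))
  have a2 := norm_image_sub_le_of_norm_deriv_le_segment'
    (f := fun t => g t - t * g1 0 - t ^ 2 / 2 * g2 0)
    (f' := fun t => g1 t - 1 * g1 0 - t * g2 0) (a := 0) (b := r) (C := ε * r)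
    (fun t ht => (((h1 t ht).sub ((hasDerivAt_id t).mul_const _)).sub
      ((((hasDerivAt_pow 2 t).div_const 2).mul_const _).congr_deriv (by simp))).hasDerivWithinAt)
    (fun t ht => by
      have := a1 t (Set.Ico_subset_Icc_self ht)
      rw [show g1 t - 1 * g1 0 - t * g2 0 = g1 t - t * g2 0 - (g1 0 - 0 * g2 0) by ring]
      exact this.trans (mul_le_mul_of_nonneg_left (by linarith [ht.2]) e0)) r ⟨hr, le_rfl⟩
  rw [Real.norm_eq_abs] at a2
  convert a2 using 1
  · congr 1
    ring
  · ring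

lemma Jet.est {ψ : ℂ → ℝ} {α B : ℂ → ℂ} {Λ : ℂ → ℝ} (h : Jet ψ α B Λ) {ρ ε : ℝ} (hρ : ρ < 1)
    (hε : 0 < ε) : ∃ δ, 0 < δ ∧ ρ + δ < 1 ∧ ∀ r, 0 < r → r ≤ δ → ∀ z : ℂ, ‖z‖ ≤ ρ →
      circleAverage ψ z r ≤ ψ z + r ^ 2 * (Λ z + ε) := by
  have hK : closedBall (0 : ℂ) ((1 + ρ) / 2) ⊆ ball 0 1 := closedBall_subset_ball (by linarith)
  obtain ⟨δ1, a1, b1⟩ := Metric.uniformContinuousOn_iff.1
    ((isCompact_closedBall _ _).uniformContinuousOn_of_continuous (h.cL.mono hK)) (ε / 3)
    (by positivity)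
  obtain ⟨δ2, a2, b2⟩ := Metric.uniformContinuousOn_iff.1
    ((isCompact_closedBall _ _).uniformContinuousOn_of_continuous (h.cB.mono hK)) (ε / 3)
    (by positivity)
  refine ⟨min ((1 - ρ) / 2) (min δ1 δ2 / 2), lt_min (by linarith) (by positivity),
    by linarith [min_le_left ((1 - ρ) / 2) (min δ1 δ2 / 2)], fun r r0 hr z hz => ?_⟩
  have r1 : r ≤ (1 - ρ) / 2 := hr.trans (min_le_left _ _)
  have r2 : r < min δ1 δ2 := by linarith [hr.trans (min_le_right _ _), lt_min a1 a2]
  have hs : sphere z |r| ⊆ ball 0 1 := fun x hx => hK (by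
    rw [mem_sphere_iff_norm, abs_of_pos r0] at hx
    rw [mem_closedBall_zero_iff]
    linarith [norm_le_norm_add_norm_sub' x z])
  have hP : Differentiable ℂ fun x : ℂ => α z * (x - z) + B z * (x - z) ^ 2 / 2 := by fun_prop
  have e1 := Complex.reCLM.circleAverage_comp_comm
    (hP.continuous.continuousOn.circleIntegrable' (c := z) (R := r))
  rw [hP.diffContOnCl.circleAverage] at e1
  have c1 : CircleIntegrable (Complex.reCLM ∘ fun x : ℂ => α z * (x - z) + B z * (x - z) ^ 2 / 2)
      z r := (Complex.reCLM.continuous.comp hP.continuous).continuousOn.circleIntegrable'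
  have c2 : CircleIntegrable (fun _ : ℂ => ψ z + r ^ 2 * (Λ z + ε)) z r :=
    circleIntegrable_const _ _ _
  refine (circleAverage_mono (h.c0.mono hs).circleIntegrable' (c2.add c1) fun x hx => ?_).trans
    (le_of_eq (by rw [circleAverage_add c2 c1, e1, circleAverage_const]; simp))
  rw [mem_sphere_iff_norm, abs_of_pos r0] at hx
  obtain ⟨v, hv, rfl⟩ : ∃ v : ℂ, ‖v‖ = 1 ∧ x = z + r * v :=
    ⟨(x - z) / r, by rw [norm_div, hx, Complex.norm_real, Real.norm_of_nonneg r0.le, div_self r0.ne'],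
      by rw [mul_div_cancel₀ _ (Complex.ofReal_ne_zero.2 r0.ne')]; ring⟩
  have n1 : ∀ t ∈ Set.Icc 0 r, ‖(t : ℂ) * v‖ = t := fun t ht => by
    rw [norm_mul, hv, mul_one, Complex.norm_real, Real.norm_of_nonneg ht.1]
  have m1 : ∀ t ∈ Set.Icc 0 r, z + t * v ∈ closedBall (0 : ℂ) ((1 + ρ) / 2) := fun t ht => by
    rw [mem_closedBall_zero_iff]
    linarith [norm_add_le z (t * v), n1 t ht, ht.2]
  have m0 : z ∈ closedBall (0 : ℂ) ((1 + ρ) / 2) := mem_closedBall_zero_iff.2 (by linarith)
  have T := taylor2 (ε := ε) r0.le (fun t ht => h.d1 z v t (hK (m1 t ht)))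
    (fun t ht => h.d2 z v t (hK (m1 t ht)) hv) fun t ht => by
      have d : dist (z + t * v) z < min δ1 δ2 := by
        rw [dist_eq_norm, add_sub_cancel_left, n1 t ht]
        exact ht.2.trans_lt r2
      have p1 := b1 _ (m1 t ht) _ m0 (d.trans_le (min_le_left _ _))
      have p2 := b2 _ (m1 t ht) _ m0 (d.trans_le (min_le_right _ _))
      have p3 := Complex.abs_re_le_norm ((B (z + t * v) - B z) * v ^ 2)
      rw [norm_mul, norm_pow, hv, one_pow, mul_one, sub_mul, Complex.sub_re, ← dist_eq_norm] at p3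
      rw [Real.dist_eq] at p1
      simp only [Complex.ofReal_zero, zero_mul, add_zero]
      rw [abs_le] at p3 ⊢
      rw [abs_lt] at p1
      constructor <;> linarith [p1.1, p1.2, p3.1, p3.2]
  simp only [Complex.ofReal_zero, zero_mul, add_zero] at T
  have e : α z * (z + r * v - z) + B z * (z + r * v - z) ^ 2 / 2 =
      (r : ℝ) * (α z * v) + ((r ^ 2 / 2 : ℝ) : ℂ) * (B z * v ^ 2) := by push_cast; ring
  simp only [Pi.add_apply, Function.comp, Complex.reCLM_apply, e, Complex.add_re,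
    Complex.re_ofReal_mul]
  linarith [(abs_le.1 T).2]

lemma der_line (z v : ℂ) (t : ℝ) : HasDerivAt (fun s : ℝ => z + s * v) v t := by
  simpa using ((hasDerivAt_id t).ofReal_comp.mul_const v).const_add z

lemma der_re {f : ℝ → ℂ} {f' : ℂ} {t : ℝ} (h : HasDerivAt f f' t) :
    HasDerivAt (fun s => (f s).re) f'.re t := Complex.reCLM.hasFDerivAt.comp_hasDerivAt t h

lemma der_nsq {f : ℝ → ℂ} {f' : ℂ} {t : ℝ} (h : HasDerivAt f f' t) :
    HasDerivAt (fun s => Complex.normSq (f s)) (2 * (conj (f t) * f').re) t := by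
  have := der_re (h.mul h.star)
  simp only [Pi.mul_apply, Complex.star_def, Complex.mul_conj, Complex.ofReal_re] at this
  convert this using 1
  simp
  ring

/-- The function `∂∂̄ (φ(|z|²) |G|²)`. -/
noncomputable def lap (φ φ1 φ2 : ℝ → ℝ) (G G1 : ℂ → ℂ) (z : ℂ) : ℝ :=
  (φ1 (Complex.normSq z) + Complex.normSq z * φ2 (Complex.normSq z)) * Complex.normSq (G z) +
    2 * φ1 (Complex.normSq z) * (z * G1 z * conj (G z)).re +
    φ (Complex.normSq z) * Complex.normSq (G1 z)

lemma nsq_lt {z : ℂ} (h : z ∈ ball (0 : ℂ) 1) : Complex.normSq z < 1 := by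
  rw [Complex.normSq_eq_norm_sq]
  exact pow_lt_one₀ (norm_nonneg _) (mem_ball_zero_iff.1 h) two_ne_zero

lemma jet {φ φ1 φ2 : ℝ → ℝ} {G G1 : ℂ → ℂ} (h1 : ∀ t < 1, HasDerivAt φ (φ1 t) t)
    (h2 : ∀ t < 1, HasDerivAt φ1 (φ2 t) t) (h3 : ContinuousOn φ2 (Set.Iio 1))
    (hG : ∀ z ∈ ball (0 : ℂ) 1, HasDerivAt G (G1 z) z) : ∃ α B,
    Jet (fun z => φ (Complex.normSq z) * Complex.normSq (G z)) α B (lap φ φ1 φ2 G G1) := by
  have d0 : DifferentiableOn ℂ G (ball 0 1) := fun z hz =>
    (hG z hz).differentiableAt.differentiableWithinAt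
  have d1 : DifferentiableOn ℂ G1 (ball 0 1) :=
    (d0.deriv isOpen_ball).congr fun z hz => (hG z hz).deriv.symm
  have c0 := d0.continuousOn
  have c1 := d1.continuousOn
  have c2 := (d1.deriv isOpen_ball).continuousOn
  have cn : ∀ {f : ℝ → ℝ}, ContinuousOn f (Set.Iio 1) →
      ContinuousOn (fun z : ℂ => f (Complex.normSq z)) (ball 0 1) := fun h =>
    h.comp Complex.continuous_normSq.continuousOn fun z hz => nsq_lt hz
  have p0 := cn fun t ht => (h1 t ht).continuousAt.continuousWithinAt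
  have p1 := cn fun t ht => (h2 t ht).continuousAt.continuousWithinAt
  have p2 := cn h3
  have o : ∀ {f : ℂ → ℝ}, ContinuousOn f (ball 0 1) → ContinuousOn (fun z => 2 * (f z : ℂ)) (ball 0 1) :=
    fun h => continuousOn_const.mul (Complex.continuous_ofReal.comp_continuousOn h)
  have n : ∀ {f : ℂ → ℂ}, ContinuousOn f (ball 0 1) →
      ContinuousOn (fun z => Complex.normSq (f z)) (ball 0 1) :=
    fun h => Complex.continuous_normSq.comp_continuousOn h
  have cc : ContinuousOn (fun z => conj (G z)) (ball 0 1) :=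
    Complex.continuous_conj.comp_continuousOn c0
  have cz : ContinuousOn (fun z : ℂ => conj z) (ball 0 1) := Complex.continuous_conj.continuousOn
  refine ⟨fun z => 2 * (φ1 (Complex.normSq z) : ℂ) * conj z * (G z * conj (G z)) +
      2 * (φ (Complex.normSq z) : ℂ) * (G1 z * conj (G z)),
    fun z => 2 * (φ2 (Complex.normSq z) : ℂ) * conj z ^ 2 * (G z * conj (G z)) +
      2 * (2 * (φ1 (Complex.normSq z) : ℂ) * conj z * (G1 z * conj (G z))) +
      2 * (φ (Complex.normSq z) : ℂ) * (deriv G1 z * conj (G z)), p0.mul (n c0),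
    ((((o p2).mul (cz.pow 2)).mul (c0.mul cc)).add (continuousOn_const.mul (((o p1).mul cz).mul
      (c1.mul cc)))).add ((o p0).mul (c2.mul cc)),
    (((p1.add ((n continuousOn_id).mul p2)).mul (n c0)).add ((continuousOn_const.mul p1).mul
      (Complex.continuous_re.comp_continuousOn ((continuousOn_id.mul c1).mul cc)))).add
      (p0.mul (n c1)), fun z v t hz => ?_, fun z v t hz hv => ?_⟩
  · have a := ((h1 _ (nsq_lt hz)).comp t (der_nsq (der_line z v t))).mul
      (der_nsq ((hG _ hz).comp t (der_line z v t)))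
    refine a.congr_deriv ?_
    simp [Complex.normSq_apply]
    ring
  · have l := der_line z v t
    have g0 := (hG _ hz).comp t l
    have g1 := (d1.differentiableAt (isOpen_ball.mem_nhds hz)).hasDerivAt.comp t l
    have f0 := ((h1 _ (nsq_lt hz)).comp t (der_nsq l)).ofReal_comp
    have f1 := ((h2 _ (nsq_lt hz)).comp t (der_nsq l)).ofReal_comp
    have a := der_re (((((f1.const_mul 2).mul l.star).mul (g0.mul g0.star)).add
      ((f0.const_mul 2).mul (g1.mul g0.star))).mul_const v)
    refine a.congr_deriv ?_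
    have hv' : v.re ^ 2 + v.im ^ 2 = 1 := by
      have := Complex.normSq_eq_norm_sq v
      rw [hv, Complex.normSq_apply] at this
      linarith
    simp only [lap, Function.comp, Pi.mul_apply, Complex.star_def]
    generalize z + t * v = x
    generalize φ (Complex.normSq x) = a0
    generalize φ1 (Complex.normSq x) = a1
    generalize φ2 (Complex.normSq x) = a2
    simp [Complex.normSq_apply, sq]
    linear_combination (2 * ((a1 + (x.re ^ 2 + x.im ^ 2) * a2) * ((G x).re ^ 2 + (G x).im ^ 2) +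
      2 * a1 * ((x.re * (G1 x).re - x.im * (G1 x).im) * (G x).re +
        (x.re * (G1 x).im + x.im * (G1 x).re) * (G x).im) +
      a0 * ((G1 x).re ^ 2 + (G1 x).im ^ 2))) * hv'

end

section

open MeasureTheory Metric Real Filter
open scoped ComplexConjugate Topology

lemma swap_aux {f g : ℂ → ℝ} (mg : Measurable g) (i : Integrable f) {M : ℝ}
    (b : ∀ z, |g z| ≤ M) (r : ℝ) :
    Integrable (Function.uncurry fun (z : ℂ) (θ : ℝ) => f z * g (circleMap z r θ))
      (volume.prod (volume.restrict (Set.Ioc 0 (2 * π)))) :=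
  (i.comp_fst _).mul_bdd (c := M)
    (mg.comp (Continuous.measurable (by unfold circleMap; fun_prop))).aestronglyMeasurable
    (Eventually.of_forall fun _ => b _)

lemma avg_eq (f g : ℂ → ℝ) (r : ℝ) (z : ℂ) : f z * circleAverage g z r =
    (2 * π)⁻¹ * ∫ θ in Set.Ioc 0 (2 * π), f z * g (circleMap z r θ) := by
  rw [circleAverage_def, intervalIntegral.integral_of_le two_pi_pos.le, integral_const_mul,
    smul_eq_mul, mul_left_comm]

lemma swap_int {f g : ℂ → ℝ} (mg : Measurable g) (i : Integrable f) {M : ℝ}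
    (b : ∀ z, |g z| ≤ M) (r : ℝ) : Integrable fun z => f z * circleAverage g z r := by
  simp only [avg_eq]
  exact (swap_aux mg i b r).integral_prod_left.const_mul _

lemma swap {f g : ℂ → ℝ} (mf : Measurable f) (mg : Measurable g) (i : Integrable f)
    (j : Integrable g) {M N : ℝ} (a : ∀ z, |f z| ≤ M) (b : ∀ z, |g z| ≤ N) (r : ℝ) :
    ∫ z, f z * circleAverage g z r = ∫ z, g z * circleAverage f z r := by
  rw [show (fun z => g z * circleAverage f z r) = fun z => g z * circleAverage f z (-r) by simp]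
  simp only [avg_eq]
  rw [integral_const_mul, integral_const_mul, integral_integral_swap (swap_aux mg i b r),
    integral_integral_swap (swap_aux mf j a _)]
  congr 2
  funext θ
  rw [← integral_add_right_eq_self (fun z => g z * f (circleMap z (-r) θ))
    (r * Complex.exp (θ * Complex.I))]
  congr 1
  funext z
  simp [circleMap, mul_comm]

/-- The tangent line inequality for a concave power. -/
lemma tangent {p x a b c : ℝ} (p0 : 0 < p) (p1 : p < 1) (hx : 0 ≤ x) (ha : 0 < a) (hb : 0 < b)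
    (hc : 0 < c) : x ^ p ≤ a ^ (p - 1) / c ^ (p - 1) * p * (x * b ^ (p - 1)) +
      a ^ p / c ^ p * (1 - p) * b ^ p := by
  have l : 0 < a * b / c := by positivity
  have h := Real.geom_mean_le_arith_mean2_weighted p0.le (sub_pos.2 p1).le hx l.le (by ring)
  have e : x ^ p = x ^ p * (a * b / c) ^ (1 - p) * (a * b / c) ^ (p - 1) := by
    rw [mul_assoc, ← Real.rpow_add l]
    simp
  have e2 : (a * b / c) ^ p = (a * b / c) * (a * b / c) ^ (p - 1) := by
    rw [Real.rpow_sub_one l.ne']
    field_simp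
  have e3 : ∀ q : ℝ, (a * b / c) ^ q = a ^ q / c ^ q * b ^ q := fun q => by
    rw [Real.div_rpow (by positivity) hc.le, Real.mul_rpow ha.le hb.le]
    ring
  calc x ^ p ≤ (p * x + (1 - p) * (a * b / c)) * (a * b / c) ^ (p - 1) :=
        e.trans_le (mul_le_mul_of_nonneg_right h (by positivity))
    _ = p * x * (a * b / c) ^ (p - 1) + (1 - p) * (a * b / c) ^ p := by rw [e2]; ring
    _ = _ := by rw [e3, e3]; ring

/-- The boundary distance function. -/
def yy (z : ℂ) : ℝ := 1 - Complex.normSq z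

lemma yy_pos {z : ℂ} (h : z ∈ ball (0 : ℂ) 1) : 0 < yy z := sub_pos.2 (nsq_lt h)

lemma yy_cont : Continuous yy := continuous_const.sub Complex.continuous_normSq

lemma yy_rpow (q : ℝ) : ContinuousOn (fun z => yy z ^ q) (ball 0 1) :=
  yy_cont.continuousOn.rpow_const fun _ h => .inl (yy_pos h).ne'

lemma star {p R : ℝ} {w ψ Λ Λ' : ℂ → ℝ} {α B α' B' : ℂ → ℂ} (p0 : 0 < p) (p1 : p < 1)
    (R1 : R < 1) (mw : Measurable w) (w0 : ∀ z, 0 ≤ w z)
    (bw : ∀ ρ < 1, ∃ M, ∀ z ∈ closedBall (0 : ℂ) ρ, w z ≤ M) (hw : Subharmonic fun z => w z ^ p)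
    (J : Jet ψ α B Λ) (J' : Jet (fun z => yy z ^ p) α' B' Λ') (mψ : Measurable ψ)
    (ψ0 : ∀ z, 0 ≤ ψ z) (ψR : ∀ z, R ≤ ‖z‖ → ψ z = 0) :
    0 ≤ ∫ z in closedBall 0 ((1 + R) / 2),
      w z * yy z ^ (p - 1) * (p * Λ z + (1 - p) * (ψ z * Λ' z / yy z ^ p)) := by
  obtain ⟨ρ, hρ⟩ : ∃ ρ, ρ = (1 + R) / 2 := ⟨_, rfl⟩
  rw [← hρ]
  have ρ1 : ρ < 1 := by linarith
  have hK : closedBall (0 : ℂ) ρ ⊆ ball 0 1 := closedBall_subset_ball ρ1
  have cK := isCompact_closedBall (0 : ℂ) ρ
  obtain ⟨M, hM⟩ := bw ρ ρ1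
  obtain ⟨N, hN⟩ := cK.exists_bound_of_continuousOn ((yy_rpow (p - 1)).mono hK)
  obtain ⟨L, hL⟩ := cK.exists_bound_of_continuousOn (J.c0.mono hK)
  obtain ⟨W, hW⟩ : ∃ W, W = (closedBall (0 : ℂ) ρ).indicator fun z => w z * yy z ^ (p - 1) :=
    ⟨_, rfl⟩
  have Win : ∀ z ∈ closedBall (0 : ℂ) ρ, W z = w z * yy z ^ (p - 1) := fun z hz => by
    rw [hW, Set.indicator_of_mem hz]
  have Wout : ∀ z ∉ closedBall (0 : ℂ) ρ, W z = 0 := fun z hz => by
    rw [hW, Set.indicator_of_notMem hz]
  have mW : Measurable W :=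
    hW ▸ (mw.mul (yy_cont.measurable.pow_const _)).indicator measurableSet_closedBall
  have W0 : ∀ z, 0 ≤ W z := fun z => hW ▸ Set.indicator_nonneg
    (fun z hz => mul_nonneg (w0 z) (Real.rpow_nonneg (yy_pos (hK hz)).le _)) z
  have bW : ∀ z, |W z| ≤ |M * N| := fun z => by
    by_cases hz : z ∈ closedBall (0 : ℂ) ρ
    · rw [abs_of_nonneg (W0 z), Win z hz]
      exact (mul_le_mul (hM z hz) ((le_abs_self _).trans (hN z hz))
        (Real.rpow_nonneg (yy_pos (hK hz)).le _) ((w0 z).trans (hM z hz))).trans (le_abs_self _)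
    · rw [Wout z hz, abs_zero]
      exact abs_nonneg _
  have bψ : ∀ z, |ψ z| ≤ |L| := fun z => by
    by_cases hz : z ∈ closedBall (0 : ℂ) ρ
    · exact (hL z hz).trans (le_abs_self _)
    · rw [mem_closedBall_zero_iff, not_le] at hz
      simp [ψR z (by linarith)]
  have iψ : Integrable ψ := (integrableOn_iff_integrable_of_support_subset fun z hz => by
    by_contra h
    rw [mem_closedBall_zero_iff, not_le] at h
    exact hz (ψR z (by linarith))).1 ((J.c0.mono hK).integrableOn_compact cK)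
  have iWK : IntegrableOn W (closedBall 0 ρ) :=
    Measure.integrableOn_of_bounded cK.measure_lt_top.ne mW.aestronglyMeasurable
      (Eventually.of_forall bW)
  have iW : ∀ {g : ℂ → ℝ}, ContinuousOn g (ball 0 1) → Integrable fun z => W z * g z := fun h =>
    (integrableOn_iff_integrable_of_support_subset fun z hz => by
      by_contra h
      exact hz (by simp [Wout z h])).1 (iWK.mul_continuousOn (h.mono hK) cK)
  have iW1 : Integrable W := by simpa using iW (g := fun _ => 1) continuousOn_const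
  have cb := yy_rpow p
  have nb : ∀ z ∈ ball (0 : ℂ) 1, yy z ^ p ≠ 0 := fun z hz => (Real.rpow_pos_of_pos (yy_pos hz) _).ne'
  have i1 := iW ((J.cL.const_smul p).add (((J.c0.mul J'.cL).div cb nb).const_smul (1 - p)))
  have i2 := iW ((continuousOn_const (c := p)).add ((J.c0.div cb nb).const_smul (1 - p)))
  simp only [Pi.add_apply, Pi.smul_apply, smul_eq_mul, Pi.div_apply, Pi.mul_apply] at i1 i2
  rw [← setIntegral_congr_fun measurableSet_closedBall fun z hz => congrArg (· * _) (Win z hz),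
    setIntegral_eq_integral_of_forall_compl_eq_zero fun z hz => by simp [Wout z hz]]
  refine le_of_forall_pos_le_add fun η hη => ?_
  obtain ⟨ε, e0, he⟩ := exists_pos_mul_lt hη (∫ z, W z * (p + (1 - p) * (ψ z / yy z ^ p)))
  obtain ⟨δ, d0, d1, hδ⟩ := J.est ρ1 e0
  obtain ⟨δ', d0', -, hδ'⟩ := J'.est ρ1 e0
  obtain ⟨r, r0, r1, r2, r3⟩ : ∃ r, 0 < r ∧ r ≤ δ ∧ r ≤ δ' ∧ R + r ≤ ρ :=
    ⟨min δ (min δ' (ρ - R)), lt_min d0 (lt_min d0' (by linarith)), min_le_left _ _,
      (min_le_right _ _).trans (min_le_left _ _),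
      by linarith [(min_le_right δ _).trans (min_le_right δ' (ρ - R))]⟩
  have key : ∀ z, p * (W z * ψ z) ≤ p * (ψ z * circleAverage W z r) +
      r ^ 2 * (W z * ((1 - p) * (ψ z * (Λ' z + ε) / yy z ^ p))) := fun z => by
    rcases le_or_gt R ‖z‖ with hz | hz
    · simp [ψR z hz]
    have sub : closedBall z r ⊆ closedBall 0 ρ := closedBall_subset_closedBall' (by
      rw [dist_zero_right]
      linarith)
    have zK := sub (mem_closedBall_self r0.le)
    have y0 := yy_pos (hK zK)
    have A0 : 0 ≤ circleAverage W z r := circleAverage_nonneg_of_nonneg fun x _ => W0 x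
    have q0 := ψ0 z
    rcases (w0 z).eq_or_lt with e | e
    · rw [Win z zK, ← e]
      simpa using mul_nonneg p0.le (mul_nonneg q0 A0)
    have sp : sphere z |r| ⊆ closedBall 0 ρ := by
      rw [abs_of_pos r0]
      exact sphere_subset_closedBall.trans sub
    obtain ⟨c1, s1⟩ := hw.2 z r r0 (sub.trans hK)
    have c2 : CircleIntegrable W z r := (intervalIntegrable_iff_integrableOn_Ioc_of_le
      two_pi_pos.le).2 (Measure.integrableOn_of_bounded measure_Ioc_lt_top.ne
        (mW.comp (continuous_circleMap z r).measurable).aestronglyMeasurable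
        (Eventually.of_forall fun _ => bW _))
    have c3 : CircleIntegrable (fun x => yy x ^ p) z r := (cb.mono (sp.trans hK)).circleIntegrable'
    have s2 := s1.trans (circleAverage_mono c1 ((c2.const_smul
      (a := w z ^ (p - 1) / yy z ^ (p - 1) * p)).add (c3.const_smul
      (a := w z ^ p / yy z ^ p * (1 - p)))) fun x hx => by
        simpa only [Pi.add_apply, Pi.smul_apply, smul_eq_mul, Win x (sp hx)] using
          tangent p0 p1 (w0 x) e (yy_pos (hK (sp hx))) y0)
    rw [circleAverage_add c2.const_smul c3.const_smul, circleAverage_smul, circleAverage_smul,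
      smul_eq_mul, smul_eq_mul] at s2
    have s3 := hδ' r r0 r2 z (mem_closedBall_zero_iff.1 zK)
    have e1 : w z ^ p = w z * w z ^ (p - 1) := by
      rw [Real.rpow_sub_one e.ne']
      field_simp
    have u0 := Real.rpow_pos_of_pos e (p - 1)
    have u1 := Real.rpow_pos_of_pos y0 (p - 1)
    have u2 := Real.rpow_pos_of_pos y0 p
    have s4 := s2.trans (add_le_add le_rfl (mul_le_mul_of_nonneg_left s3
      (by have := sub_pos.2 p1; positivity)))
    rw [Win z zK]
    simp only [e1] at s4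
    generalize w z ^ (p - 1) = a at *
    generalize yy z ^ (p - 1) = b at *
    generalize yy z ^ p = c at *
    have s5 := mul_le_mul_of_nonneg_left s4 (show 0 ≤ ψ z * b / a by positivity)
    have e5 : ψ z * b / a * (w z * a) = ψ z * b * w z := by field_simp
    have e6 : ψ z * b / a * (a / b * p * circleAverage W z r +
        w z * a / c * (1 - p) * (c + r ^ 2 * (Λ' z + ε))) = p * (ψ z * circleAverage W z r) +
        ψ z * b * w z * (1 - p) + r ^ 2 * (w z * b * ((1 - p) * (ψ z * (Λ' z + ε) / c))) := by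
      field_simp
      ring
    linarith
  have i3 := iW (((J.c0.mul (J'.cL.add (continuousOn_const (c := ε)))).div cb nb).const_smul (1 - p))
  have i4 := iW (J.c0.add ((J.cL.add (continuousOn_const (c := ε))).const_smul (r ^ 2)))
  simp only [Pi.add_apply, Pi.smul_apply, smul_eq_mul, Pi.div_apply, Pi.mul_apply] at i3 i4
  have j1 := swap_int mW iψ bW r
  have k1 := integral_mono ((iW J.c0).const_mul p) ((j1.const_mul p).add (i3.const_mul (r ^ 2))) key
  have k2 : ∫ z, W z * circleAverage ψ z r ≤ ∫ z, W z * (ψ z + r ^ 2 * (Λ z + ε)) :=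
    integral_mono (swap_int mψ iW1 bψ r) i4 fun z => by
      by_cases hz : z ∈ closedBall (0 : ℂ) ρ
      · exact mul_le_mul_of_nonneg_left (hδ r r0 r1 z (mem_closedBall_zero_iff.1 hz)) (W0 z)
      · simp [Wout z hz]
  simp only [Pi.add_apply] at k1
  rw [integral_add (j1.const_mul p) (i3.const_mul _), integral_const_mul p fun z => ψ z * _,
    swap mψ mW iψ iW1 bψ bW] at k1
  have k3 := k1.trans (add_le_add (mul_le_mul_of_nonneg_left k2 p0.le) le_rfl)
  have i5 := (i4.const_mul p).add (i3.const_mul (r ^ 2))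
  rw [Pi.add_def] at i5
  rw [← integral_const_mul, ← integral_add (i4.const_mul p) (i3.const_mul _), ← sub_nonneg,
    ← integral_sub i5 ((iW J.c0).const_mul p)] at k3
  have k4 : 0 ≤ r ^ 2 * ((∫ z, W z * (p * Λ z + (1 - p) * (ψ z * Λ' z / yy z ^ p))) +
      (∫ z, W z * (p + (1 - p) * (ψ z / yy z ^ p))) * ε) := by
    rw [← integral_mul_const, ← integral_add i1 (i2.mul_const ε), ← integral_const_mul]
    refine k3.trans_eq (integral_congr_ae (Eventually.of_forall fun z => ?_))
    ring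
  linarith [(mul_nonneg_iff_of_pos_left (pow_pos r0 2)).1 k4]

end

section

open MeasureTheory Metric Real Filter
open scoped ComplexConjugate Topology

lemma der_max2 (x : ℝ) : HasDerivAt (fun x : ℝ => max x 0 ^ 2) (2 * max x 0) x := by
  rcases lt_trichotomy x 0 with h | rfl | h
  · rw [max_eq_right h.le, mul_zero]
    exact (hasDerivAt_const x (0 : ℝ)).congr_of_eventuallyEq
      ((gt_mem_nhds h).mono fun y hy => by simp [max_eq_right hy.le])
  · rw [hasDerivAt_iff_tendsto_slope_zero]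
    have : Tendsto (fun t : ℝ => max t 0) (𝓝[≠] 0) (𝓝 (2 * max 0 0)) := by
      simpa using ((continuous_id.max (continuous_const (y := (0 : ℝ)))).tendsto 0).mono_left
        (nhdsWithin_le_nhds (s := {0}ᶜ))
    refine this.congr' (eventually_nhdsWithin_of_forall fun t ht => ?_)
    rcases le_total t 0 with h | h
    · simp [h]
    · have : t ≠ 0 := ht
      simp only [zero_add, max_eq_left h, max_self, smul_eq_mul]
      field_simp
      ring
  · rw [max_eq_left h.le]
    exact ((hasDerivAt_pow 2 x).congr_deriv (by simp)).congr_of_eventuallyEq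
      ((lt_mem_nhds h).mono fun y hy => by simp [max_eq_left hy.le])

lemma der_max3 (x : ℝ) : HasDerivAt (fun x : ℝ => max x 0 ^ 3) (3 * max x 0 ^ 2) x := by
  have e : ∀ x : ℝ, x * max x 0 = max x 0 ^ 2 := fun x => by
    rcases le_total x 0 with h | h <;> simp [h, sq]
  refine (((hasDerivAt_id x).mul (der_max2 x)).congr_deriv ?_).congr_of_eventuallyEq
    (Eventually.of_forall fun y => ?_)
  · simp only [id]
    linear_combination 2 * e x
  · simp only [Pi.mul_apply, id]
    linear_combination (-max y 0) * e y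

lemma der_y (q : ℝ) {t : ℝ} (h : t < 1) :
    HasDerivAt (fun t : ℝ => (1 - t) ^ q) (-q * (1 - t) ^ (q - 1)) t :=
  (((hasDerivAt_id t).const_sub 1).rpow_const (.inl (sub_pos.2 h).ne')).congr_deriv (by simp)

lemma cont_y (q : ℝ) : ContinuousOn (fun t : ℝ => (1 - t) ^ q) (Set.Iio 1) :=
  fun _ h => (der_y q h).continuousAt.continuousWithinAt

/-- The quadratic form of the Hardy type inequality, with a cut-off parameter `τ`. -/
noncomputable def Phi (p τ : ℝ) (G G1 : ℂ → ℂ) (z : ℂ) : ℝ :=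
  τ * (6 * Complex.normSq z * Complex.normSq (G z)) +
  τ ^ 2 * (-(3 * yy z + 6 * p * Complex.normSq z) * Complex.normSq (G z) -
    6 * yy z * (z * G1 z * conj (G z)).re) +
  τ ^ 3 * ((p * yy z + p * (p + 1) * Complex.normSq z - (1 - p) * (yy z + (1 - p) *
    Complex.normSq z)) * Complex.normSq (G z) + 2 * p * yy z * (z * G1 z * conj (G z)).re +
    yy z ^ 2 * Complex.normSq (G1 z))

variable {p : ℝ} {w : ℂ → ℝ} {G G1 : ℂ → ℂ}

lemma pairR {R : ℝ} (p0 : 0 < p) (p1 : p < 1) (R0 : 0 < R) (R1 : R < 1) (mw : Measurable w)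
    (w0 : ∀ z, 0 ≤ w z) (bw : ∀ ρ < 1, ∃ M, ∀ z ∈ closedBall (0 : ℂ) ρ, w z ≤ M)
    (hw : Subharmonic fun z => w z ^ p) (mG : Measurable G)
    (hG : ∀ z ∈ ball (0 : ℂ) 1, HasDerivAt G (G1 z) z) :
    0 ≤ ∫ z in ball 0 1, w z * Phi p (max (R ^ 2 - Complex.normSq z) 0 / yy z) G G1 z := by
  have l : ∀ t : ℝ, HasDerivAt (fun t : ℝ => R ^ 2 - t) (-1) t := fun t =>
    (hasDerivAt_id t).const_sub _
  have cm : Continuous fun t : ℝ => max (R ^ 2 - t) 0 := by fun_prop
  obtain ⟨α, B, J⟩ := jet (φ := fun t => max (R ^ 2 - t) 0 ^ 3 * (1 - t) ^ (-p))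
    (φ1 := fun t => -3 * (max (R ^ 2 - t) 0 ^ 2 * (1 - t) ^ (-p)) +
      p * (max (R ^ 2 - t) 0 ^ 3 * (1 - t) ^ (-p - 1)))
    (φ2 := fun t => 6 * (max (R ^ 2 - t) 0 * (1 - t) ^ (-p)) -
      6 * p * (max (R ^ 2 - t) 0 ^ 2 * (1 - t) ^ (-p - 1)) +
      p * (p + 1) * (max (R ^ 2 - t) 0 ^ 3 * (1 - t) ^ (-p - 1 - 1)))
    (fun t ht => (((der_max3 _).comp t (l t)).mul (der_y (-p) ht)).congr_deriv (by simp; ring))
    (fun t ht => (((((der_max2 _).comp t (l t)).mul (der_y (-p) ht)).const_mul (-3)).add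
      ((((der_max3 _).comp t (l t)).mul (der_y (-p - 1) ht)).const_mul p)).congr_deriv
      (by simp; ring))
    ((((cm.continuousOn.mul (cont_y _)).const_smul (6 : ℝ)).sub
      (((cm.pow 2).continuousOn.mul (cont_y _)).const_smul (6 * p))).add
      (((cm.pow 3).continuousOn.mul (cont_y _)).const_smul (p * (p + 1)))) hG
  obtain ⟨α', B', J'⟩ := jet (φ := fun t => (1 - t) ^ p) (G := fun _ => 1) (G1 := fun _ => 0)
    (φ2 := fun t => -p * (-(p - 1) * (1 - t) ^ (p - 1 - 1))) (fun t ht => der_y p ht)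
    (fun t ht => (der_y (p - 1) ht).const_mul (-p))
    (continuousOn_const.mul (continuousOn_const.mul (cont_y _))) fun z _ => hasDerivAt_const z 1
  simp only [map_one, mul_one] at J'
  have z0 : ∀ z : ℂ, R ≤ ‖z‖ → max (R ^ 2 - Complex.normSq z) 0 = 0 := fun z hz =>
    max_eq_right (by
      rw [Complex.normSq_eq_norm_sq]
      exact sub_nonpos.2 (pow_le_pow_left₀ R0.le hz 2))
  have mn : Measurable Complex.normSq := Complex.continuous_normSq.measurable
  have := star p0 p1 R1 mw w0 bw hw J J'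
    ((((cm.measurable.comp mn).pow_const 3).mul (yy_cont.measurable.pow_const _)).mul (mn.comp mG))
    (fun z => by
      rcases le_or_gt R ‖z‖ with h | h
      · simp [z0 z h]
      · have := yy_pos (mem_ball_zero_iff.2 (h.trans R1))
        have := Complex.normSq_nonneg (G z)
        unfold yy at *
        positivity) fun z hz => by simp [z0 z hz]
  have hK : closedBall (0 : ℂ) ((1 + R) / 2) ⊆ ball 0 1 := closedBall_subset_ball (by linarith)
  rw [setIntegral_eq_of_subset_of_forall_sdiff_eq_zero measurableSet_ball hK fun z hz => by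
    have h := hz.2
    rw [mem_closedBall_zero_iff, not_le] at h
    simp [Phi, z0 z (by linarith)], ← mul_nonneg_iff_of_pos_left p0, ← integral_const_mul]
  refine this.trans_eq (setIntegral_congr_fun measurableSet_closedBall fun z hz => ?_)
  have y0 := yy_pos (hK hz)
  have u0 := Real.rpow_pos_of_pos y0 p
  unfold yy at y0 u0
  simp only [lap, Phi, yy, Real.rpow_sub_one y0.ne', Real.rpow_neg y0.le, map_one, map_zero,
    mul_zero, Complex.zero_re, zero_mul]
  field_simp
  ring

lemma pair (p0 : 0 < p) (p1 : p < 1) (mw : Measurable w)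
    (w0 : ∀ z, 0 ≤ w z) (bw : ∀ ρ < 1, ∃ M, ∀ z ∈ closedBall (0 : ℂ) ρ, w z ≤ M)
    (hw : Subharmonic fun z => w z ^ p) (iw : IntegrableOn w (ball 0 1)) (mG : Measurable G)
    (hG : ∀ z ∈ ball (0 : ℂ) 1, HasDerivAt G (G1 z) z) (c0 : ContinuousOn G (closedBall 0 1))
    (c1 : ContinuousOn G1 (closedBall 0 1)) : 0 ≤ ∫ z in ball 0 1, w z * Phi p 1 G G1 z := by
  obtain ⟨A1, A2, A3, a1, a2, a3, e⟩ : ∃ A1 A2 A3 : ℂ → ℝ, ContinuousOn A1 (closedBall 0 1) ∧
      ContinuousOn A2 (closedBall 0 1) ∧ ContinuousOn A3 (closedBall 0 1) ∧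
      ∀ τ z, Phi p τ G G1 z = τ * A1 z + τ ^ 2 * A2 z + τ ^ 3 * A3 z := by
    have n0 : ContinuousOn (fun z => Complex.normSq (G z)) (closedBall 0 1) :=
      Complex.continuous_normSq.comp_continuousOn c0
    have n1 : ContinuousOn (fun z => Complex.normSq (G1 z)) (closedBall 0 1) :=
      Complex.continuous_normSq.comp_continuousOn c1
    have n2 : ContinuousOn (fun z => (z * G1 z * conj (G z)).re) (closedBall 0 1) :=
      Complex.continuous_re.comp_continuousOn ((continuousOn_id.mul c1).mul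
        (Complex.continuous_conj.comp_continuousOn c0))
    have y := yy_cont
    have n := Complex.continuous_normSq
    exact ⟨_, _, _, (Continuous.continuousOn (by fun_prop)).mul n0,
      ((Continuous.continuousOn (by fun_prop)).mul n0).sub
        ((Continuous.continuousOn (by fun_prop)).mul n2),
      (((Continuous.continuousOn (by fun_prop)).mul n0).add
        ((Continuous.continuousOn (by fun_prop)).mul n2)).add
        ((Continuous.continuousOn (by fun_prop)).mul n1), fun _ _ => rfl⟩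
  have i : ∀ {A : ℂ → ℝ}, ContinuousOn A (closedBall 0 1) →
      IntegrableOn (fun z => w z * A z) (ball 0 1) := fun h =>
    iw.mul_continuousOn_of_subset h measurableSet_ball (isCompact_closedBall _ _)
      ball_subset_closedBall
  have m : ∀ {A : ℂ → ℝ}, ContinuousOn A (closedBall 0 1) →
      AEStronglyMeasurable A (volume.restrict (ball 0 1)) := fun h =>
    (h.mono ball_subset_closedBall).aestronglyMeasurable measurableSet_ball
  have ev : ∀ᶠ R : ℝ in 𝓝[<] 1, R ∈ Set.Ioo 0 1 := Ioo_mem_nhdsLT one_pos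
  refine ge_of_tendsto (tendsto_integral_filter_of_dominated_convergence (l := 𝓝[<] (1 : ℝ))
    (F := fun R z => w z * Phi p (max (R ^ 2 - Complex.normSq z) 0 / yy z) G G1 z)
    (fun z => w z * (|A1 z| + |A2 z| + |A3 z|)) (Eventually.of_forall fun R => ?_)
    (ev.mono fun R hR => ?_) (i ((a1.abs.add a2.abs).add a3.abs)) ?_)
    (ev.mono fun R hR => pairR p0 p1 hR.1 hR.2 mw w0 bw hw mG hG)
  · have mτ : AEStronglyMeasurable (fun z => max (R ^ 2 - Complex.normSq z) 0 / yy z)
        (volume.restrict (ball 0 1)) := (((measurable_const.sub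
          Complex.continuous_normSq.measurable).max measurable_const).div
          yy_cont.measurable).aestronglyMeasurable
    simp only [e]
    exact mw.aestronglyMeasurable.mul (((mτ.mul (m a1)).add ((mτ.pow 2).mul (m a2))).add
      ((mτ.pow 3).mul (m a3)))
  · refine (ae_restrict_mem measurableSet_ball).mono fun z hz => ?_
    have y0 := yy_pos hz
    have t0 : 0 ≤ max (R ^ 2 - Complex.normSq z) 0 / yy z := by positivity
    have t1 : max (R ^ 2 - Complex.normSq z) 0 / yy z ≤ 1 := (div_le_one y0).2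
      (max_le (sub_le_sub_right (pow_le_one₀ hR.1.le hR.2.le) _) y0.le)
    have b : ∀ (n : ℕ) (a : ℝ), |(max (R ^ 2 - Complex.normSq z) 0 / yy z) ^ n * a| ≤ |a| :=
      fun n a => by
        rw [abs_mul, abs_of_nonneg (pow_nonneg t0 n)]
        exact mul_le_of_le_one_left (abs_nonneg _) (pow_le_one₀ t0 t1)
    rw [e, Real.norm_eq_abs, abs_mul, abs_of_nonneg (w0 z)]
    refine mul_le_mul_of_nonneg_left ((abs_add_three _ _ _).trans ?_) (w0 z)
    exact add_le_add_three (by simpa only [pow_one] using b 1 _) (b 2 _) (b 3 _)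
  · refine (ae_restrict_mem measurableSet_ball).mono fun z hz => ?_
    have y0 := yy_pos hz
    have c : Continuous fun R : ℝ => w z * Phi p (max (R ^ 2 - Complex.normSq z) 0 / yy z) G G1 z := by
      simp only [e]
      fun_prop
    have := (c.tendsto 1).mono_left (nhdsWithin_le_nhds (s := Set.Iio 1))
    rwa [one_pow, max_eq_left (show 0 ≤ 1 - Complex.normSq z from y0.le),
      show (1 - Complex.normSq z) / yy z = 1 from div_self y0.ne'] at this

end

end Pool.Agent.P.MP_c45a97_an.Pl
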