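import Pool.Agent.P.MP_c45a97_an.PlA
import Pool.Agent.P.MP_c45a97_an.Final

/-! From the Hardy type inequality to the bound for the maximal projection. -/

namespace Pool.Agent.P.MP_c45a97_an.Pl

section

open MeasureTheory Metric Real Filter
open scoped ComplexConjugate Topology

/-- The Cauchy kernel. -/
noncomputable def ka (z ζ : ℂ) : ℂ := (1 - z * conj ζ)⁻¹

/-- The kernel of the maximal projection. -/
noncomputable def aa (z ζ : X) : ℝ := 1 / dl z ζ ^ 2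

/-- The derivative of the kernel, times the boundary distance. -/
noncomputable def dd (z ζ : X) : ℂ := yy z.1 * (conj ζ.1 * ka z.1 ζ.1 ^ 2 * conj (ka z.1 ζ.1))

/-- The kernel that multiplies the maximal projection in the quadratic form. -/
noncomputable def UU (p : ℝ) (z ζ : X) : ℝ :=
  ((5 - 3 * p) * Complex.normSq z.1 - (4 - 2 * p) * yy z.1) / 2 * aa z ζ +
    -(2 * (3 - p)) * (z.1 * dd z ζ).re + yy z.1 ^ 2 * (Complex.normSq ζ.1 / dl z ζ ^ 4)

/-- The quadratic form on a pair of kernels. -/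
noncomputable def QQ (p : ℝ) (z ζ η : X) : ℝ :=
  UU p z ζ * aa z η + aa z ζ * UU p z η + 2 * ((dd z ζ).re * (dd z η).re) +
    2 * ((dd z ζ).im * (dd z η).im)

variable (z ζ : X)

lemma norm_ka : ‖ka z.1 ζ.1‖ = 1 / dl z ζ := by rw [ka, norm_inv, one_div, dl]

lemma nsq_ka : Complex.normSq (ka z.1 ζ.1) = 1 / dl z ζ ^ 2 := by
  rw [Complex.normSq_eq_norm_sq, norm_ka, div_pow, one_pow]

lemma ka_mul : ka z.1 ζ.1 * (1 - z.1 * conj ζ.1) = 1 :=
  inv_mul_cancel₀ (norm_pos_iff.1 (by rw [← dl]; exact dl_pos z ζ))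

lemma dl_le_two : dl z ζ ≤ 2 := by
  have := norm_sub_le (1 : ℂ) (z.1 * conj ζ.1)
  rw [norm_one, norm_mul, Complex.norm_conj] at this
  unfold dl
  nlinarith [z.2.1, z.2.2, ζ.2.1, ζ.2.2]

lemma yy_mem : 0 < yy z.1 ∧ yy z.1 ≤ 1 ∧ yy z.1 ≤ 2 * ht z := by
  refine ⟨yy_pos (mem_ball_zero_iff.2 z.2.2), sub_le_self _ (Complex.normSq_nonneg _), ?_⟩
  rw [yy, ht, Complex.normSq_eq_norm_sq]
  nlinarith [sq_nonneg (1 - ‖z.1‖)]

lemma norm_dd : ‖dd z ζ‖ ≤ 2 * aa z ζ := by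
  obtain ⟨a, -, b⟩ := yy_mem z
  have c := ht_le_dl z ζ
  have d := dl_pos z ζ
  rw [dd, norm_mul, norm_mul, norm_mul, norm_pow, Complex.norm_conj, Complex.norm_conj, norm_ka,
    Complex.norm_real, Real.norm_of_nonneg a.le, aa]
  calc _ ≤ 2 * dl z ζ * (1 * (1 / dl z ζ) ^ 2 * (1 / dl z ζ)) := by
        gcongr
        · linarith
        · exact ζ.2.2.le
    _ = _ := by field_simp

lemma err {ε : ℝ} (e0 : 0 < ε) : ‖z.1 * dd z ζ - (Complex.normSq z.1 * aa z ζ : ℝ) - ker z ζ‖ ≤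
    4 * ε * aa z ζ + (1 + 3 * (ht ζ ^ 2 / dl z ζ ^ 4)) / ε ∧
    yy z.1 * aa z ζ ≤ 2 * (4 * ε * aa z ζ + (1 + 3 * (ht ζ ^ 2 / dl z ζ ^ 4)) / ε) := by
  have hk := ka_mul z ζ
  have hk' := congrArg conj hk
  simp only [map_mul, map_sub, map_one, Complex.conj_conj] at hk'
  have e : z.1 * dd z ζ - (Complex.normSq z.1 * aa z ζ : ℝ) - ker z ζ = -ka z.1 ζ.1 -
      (Complex.normSq z.1 * yy ζ.1 : ℝ) * (ka z.1 ζ.1 * conj (ka z.1 ζ.1) *
        (1 + z.1 * conj ζ.1 * ka z.1 ζ.1)) := by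
    have : ker z ζ = ka z.1 ζ.1 ^ 2 := by rw [ker, ka, one_div, inv_pow]
    rw [this, dd, aa, ← nsq_ka, yy, yy]
    push_cast
    simp only [← Complex.mul_conj]
    linear_combination (z.1 * conj ζ.1 * (conj z.1 * ζ.1) * ka z.1 ζ.1 * conj (ka z.1 ζ.1) -
      ka z.1 ζ.1) * hk + z.1 * conj ζ.1 * ka z.1 ζ.1 ^ 2 * hk'
  have e2 : 1 + z.1 * conj ζ.1 * ka z.1 ζ.1 = ka z.1 ζ.1 := by linear_combination -hk
  obtain ⟨a, a1, b⟩ := yy_mem z
  obtain ⟨a', -, b'⟩ := yy_mem ζ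
  have t0 := Complex.normSq_nonneg z.1
  have t1 : Complex.normSq z.1 ≤ 1 := sub_nonneg.1 a.le
  have c := ht_le_dl z ζ
  have d := dl_pos z ζ
  have h0 := ht_pos ζ
  obtain ⟨N, hN⟩ : ∃ N, N = 1 / dl z ζ := ⟨_, rfl⟩
  have N0 : 0 < N := by rw [hN]; positivity
  have n1 : yy z.1 * N ≤ 2 := by
    rw [hN, mul_one_div, div_le_iff₀ d]
    linarith
  have n2 : N ≤ ε * N ^ 2 + 1 / ε := by
    rw [← sub_nonneg, show ε * N ^ 2 + 1 / ε - N = ((ε * N - 1) ^ 2 + ε * N) / ε by field_simp; ring]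
    positivity
  have n3 : 2 * ht ζ * N ^ 3 ≤ ε * N ^ 2 + ht ζ ^ 2 * N ^ 4 / ε := by
    rw [← sub_nonneg, show ε * N ^ 2 + ht ζ ^ 2 * N ^ 4 / ε - 2 * ht ζ * N ^ 3 =
      (ε * N - ht ζ * N ^ 2) ^ 2 / ε by field_simp; ring]
    positivity
  have n4 : Complex.normSq z.1 * yy ζ.1 * (N * N * N) ≤ 2 * ht ζ * N ^ 3 := by
    rw [show N * N * N = N ^ 3 by ring]
    exact mul_le_mul_of_nonneg_right (by nlinarith) (by positivity)
  have n5 : 0 ≤ ht ζ ^ 2 * N ^ 4 / ε := by positivity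
  have n6 : 0 ≤ ε * N ^ 2 := by positivity
  rw [e, e2, aa, show 1 / dl z ζ ^ 2 = N ^ 2 by rw [hN, div_pow, one_pow],
    show (1 + 3 * (ht ζ ^ 2 / dl z ζ ^ 4)) / ε = 1 / ε + 3 * (ht ζ ^ 2 * N ^ 4 / ε) by
      rw [hN]; ring]
  refine ⟨(norm_sub_le _ _).trans ?_, by nlinarith⟩
  rw [norm_neg, norm_mul, norm_mul, norm_mul, Complex.norm_conj, norm_ka, ← hN, Complex.norm_real,
    Real.norm_of_nonneg (by positivity)]
  linarith

lemma UU_le {p : ℝ} (p1 : p < 1) : UU p z ζ ≤ ((5 - 3 * p) / 2 * Complex.normSq z.1 + yy z.1) *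
    aa z ζ - (4 - 2 * p) * (z.1 * dd z ζ).re := by
  have hk := ka_mul z ζ
  have hk' := congrArg conj hk
  simp only [map_mul, map_sub, map_one, Complex.conj_conj] at hk'
  obtain ⟨a, a1, -⟩ := yy_mem z
  obtain ⟨a', a1', -⟩ := yy_mem ζ
  have d := dl_pos z ζ
  have e : ((yy z.1 * (1 - Complex.normSq z.1 * Complex.normSq ζ.1) * aa z ζ ^ 2 : ℝ) : ℂ) =
      (yy z.1 * aa z ζ : ℝ) + (z.1 * dd z ζ + conj (z.1 * dd z ζ)) := by
    rw [dd, aa, ← nsq_ka]
    push_cast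
    simp only [← Complex.mul_conj, map_mul, map_pow, Complex.conj_conj, Complex.conj_ofReal]
    linear_combination (yy z.1 * ka z.1 ζ.1 * conj (ka z.1 ζ.1)) *
      (conj (ka z.1 ζ.1) * hk + (1 + z.1 * conj ζ.1 * ka z.1 ζ.1) * hk')
  rw [Complex.add_conj, ← Complex.ofReal_add, Complex.ofReal_inj] at e
  have a0 : 0 < aa z ζ := by unfold aa; positivity
  have t0 := Complex.normSq_nonneg z.1
  have s0 := Complex.normSq_nonneg ζ.1
  have b : yy z.1 * Complex.normSq ζ.1 ≤ 1 - Complex.normSq z.1 * Complex.normSq ζ.1 := by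
    unfold yy at *
    nlinarith
  have c := mul_le_mul_of_nonneg_right (mul_le_mul_of_nonneg_left b a.le) (sq_nonneg (aa z ζ))
  have f : 0 ≤ (2 - p) * (yy z.1 * aa z ζ) := mul_nonneg (by linarith) (by positivity)
  rw [UU, show Complex.normSq ζ.1 / dl z ζ ^ 4 = Complex.normSq ζ.1 * aa z ζ ^ 2 by
    rw [aa]; ring]
  linarith

/-- The final scalar inequality. -/
lemma scalar {q t y h U Q E : ℝ} {V F D : ℂ} (q0 : 0 < q) (q1 : q < 1) (y0 : 0 < y)
    (ty : t + y = 1) (t0 : 0 ≤ t) (h0 : 0 ≤ h) (hV : ‖V - (t * h : ℝ) - F‖ ≤ Q)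
    (hy : y * h ≤ 2 * Q) (hQ : ‖F‖ + Q = q / 100 * h + E) (E0 : 0 ≤ E)
    (hU : U ≤ ((2 + 3 * q) / 2 * t + y) * h - (2 + 2 * q) * V.re) (hD : ‖D‖ ≤ 2 * h)
    (hVD : ‖V‖ ^ 2 = t * ‖D‖ ^ 2) :
    U * h + h * U + 2 * (D.re * D.re) + 2 * (D.im * D.im) ≤ 4000 / q * E ^ 2 - q / 2 * h ^ 2 := by
  obtain ⟨S, hS⟩ : ∃ S, S = ‖F‖ + Q := ⟨_, rfl⟩
  have F0 := norm_nonneg F
  have Q0 := (norm_nonneg _).trans hV
  have t1 : t ≤ 1 := by linarith
  have a1 : ‖V - (t * h : ℝ)‖ ≤ S := by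
    have := norm_add_le (V - (t * h : ℝ) - F) F
    rw [sub_add_cancel] at this
    linarith
  have a2 : t * h - S ≤ V.re := by
    have := (abs_le.1 ((Complex.abs_re_le_norm _).trans a1)).1
    rw [Complex.sub_re, Complex.ofReal_re] at this
    linarith
  have a3 : ‖V‖ ≤ t * h + S := by
    have := norm_add_le (V - (t * h : ℝ)) (t * h : ℝ)
    rw [sub_add_cancel, Complex.norm_real, Real.norm_of_nonneg (by positivity)] at this
    linarith
  have a4 : D.re * D.re + D.im * D.im = ‖V‖ ^ 2 + y * ‖D‖ ^ 2 := by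
    rw [hVD, ← add_mul, ty, one_mul, ← Complex.normSq_eq_norm_sq, Complex.normSq_apply]
  have a5 := pow_le_pow_left₀ (norm_nonneg _) a3 2
  have a6 := mul_le_mul_of_nonneg_left (pow_le_pow_left₀ (norm_nonneg _) hD 2) y0.le
  have S0 : 0 ≤ S := by linarith
  have a7 : U ≤ (-(2 + q) / 2 * t + y) * h + 4 * S := by nlinarith
  have a8 := mul_le_mul_of_nonneg_left a7 h0
  have a9 : y * h * h ≤ 2 * S * h := mul_le_mul_of_nonneg_right (by linarith) h0
  have b1 : t * t * h ^ 2 ≤ t * h ^ 2 := by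
    have : 0 ≤ t * y * h ^ 2 := by positivity
    rw [show y = 1 - t by linarith] at this
    linarith
  have b2 : t * (h * S) ≤ h * S := mul_le_of_le_one_left (by positivity) t1
  have b3 : q * (y * h * h) ≤ y * h * h := mul_le_of_le_one_left (by positivity) q1.le
  have b4 : h * U + (D.re * D.re + D.im * D.im) ≤ -(q / 2) * h ^ 2 + 18 * (h * S) + S ^ 2 := by
    have : q * t * h ^ 2 = q * h ^ 2 - q * (y * h * h) := by rw [show t = 1 - y by linarith]; ring
    nlinarith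
  have b5 : 19 * (h * E) ≤ q / 20 * h ^ 2 + 1805 / q * E ^ 2 := by
    rw [← sub_nonneg, show q / 20 * h ^ 2 + 1805 / q * E ^ 2 - 19 * (h * E) =
      (q * h - 190 * E) ^ 2 / (20 * q) by field_simp; ring]
    positivity
  have b6 : E ^ 2 ≤ 1 / q * E ^ 2 := le_mul_of_one_le_left (sq_nonneg _) (one_le_one_div q0 q1.le)
  have b7 : q * (q * h ^ 2) ≤ q * h ^ 2 := mul_le_of_le_one_left (by positivity) q1.le
  have b8 : q * (h * E) ≤ h * E := mul_le_of_le_one_left (by positivity) q1.le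
  have b9 : 0 ≤ q * h ^ 2 := by positivity
  have c1 : 0 ≤ 1 / q * E ^ 2 := by positivity
  have c2 : 0 ≤ h * E := by positivity
  rw [hS, hQ] at b4
  rw [show 1805 / q * E ^ 2 = 1805 * (1 / q * E ^ 2) by ring] at b5
  rw [show 4000 / q * E ^ 2 = 4000 * (1 / q * E ^ 2) by ring]
  nlinarith

end

section

open MeasureTheory Metric Real Filter
open scoped ComplexConjugate Topology ENNReal NNReal

/-- Kernels of order at most four. -/
structure KK (K : X → X → ℝ) : Prop where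
  meas : Measurable fun q : X × X => K q.1 q.2
  bd : ∃ C, 0 ≤ C ∧ ∀ z ζ, |K z ζ| ≤ C * (1 / dl z ζ ^ 4)

lemma aa_pos (z ζ : X) : 0 < aa z ζ := one_div_pos.2 (pow_pos (dl_pos z ζ) 2)

lemma aa_le (z ζ : X) : aa z ζ ≤ 4 * (1 / dl z ζ ^ 4) := by
  have a := dl_pos z ζ
  have b := pow_le_pow_left₀ a.le (dl_le_two z ζ) 2
  rw [aa, mul_one_div, div_le_div_iff₀ (by positivity) (by positivity)]
  nlinarith [pow_pos a 2]

lemma meas_aa : Measurable fun q : X × X => aa q.1 q.2 := (measurable_dl.pow_const 2).const_div 1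

lemma meas_dd : Measurable fun q : X × X => dd q.1 q.2 := by
  have c : Measurable (conj : ℂ → ℂ) := Complex.continuous_conj.measurable
  have k : Measurable fun q : X × X => ka q.1.1 q.2.1 :=
    (Continuous.measurable (by fun_prop)).inv
  exact (Complex.measurable_ofReal.comp (yy_cont.measurable.comp (by fun_prop))).mul
    (((c.comp (by fun_prop)).mul (k.pow_const 2)).mul (c.comp k))

lemma kk_aa : KK aa := ⟨meas_aa, 4, by norm_num, fun z ζ => by
  rw [abs_of_pos (aa_pos z ζ)]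
  exact aa_le z ζ⟩

lemma kk_re : KK fun z ζ => (dd z ζ).re := ⟨Complex.measurable_re.comp meas_dd, 8, by norm_num,
  fun z ζ => by linarith [Complex.abs_re_le_norm (dd z ζ), norm_dd z ζ, aa_le z ζ]⟩

lemma kk_im : KK fun z ζ => (dd z ζ).im := ⟨Complex.measurable_im.comp meas_dd, 8, by norm_num,
  fun z ζ => by linarith [Complex.abs_im_le_norm (dd z ζ), norm_dd z ζ, aa_le z ζ]⟩

lemma kk_UU {p : ℝ} (p0 : 0 < p) (p1 : p < 1) : KK (UU p) := by
  have n : Measurable Complex.normSq := Complex.continuous_normSq.measurable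
  have y := yy_cont.measurable
  have v1 : Measurable fun q : X × X => q.1.1 := by fun_prop
  have v2 : Measurable fun q : X × X => q.2.1 := by fun_prop
  refine ⟨(((((n.comp v1).const_mul _).sub ((y.comp v1).const_mul _)).div_const 2).mul meas_aa).add
    ((Complex.measurable_re.comp (v1.mul meas_dd)).const_mul _) |>.add
    (((y.comp v1).pow_const 2).mul ((n.comp v2).div (measurable_dl.pow_const 4))), 69, by norm_num,
    fun z ζ => ?_⟩
  obtain ⟨a, a1, -⟩ := yy_mem z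
  obtain ⟨b, -, -⟩ := yy_mem ζ
  have t0 := Complex.normSq_nonneg z.1
  have t1 : Complex.normSq z.1 ≤ 1 := sub_nonneg.1 a.le
  have s0 := Complex.normSq_nonneg ζ.1
  have s1 : Complex.normSq ζ.1 ≤ 1 := sub_nonneg.1 b.le
  have d := dl_pos z ζ
  have a0 := aa_pos z ζ
  have h1 : |((5 - 3 * p) * Complex.normSq z.1 - (4 - 2 * p) * yy z.1) / 2 * aa z ζ| ≤
      5 * aa z ζ := by
    rw [abs_mul, abs_of_pos a0]
    exact mul_le_mul_of_nonneg_right (abs_le.2 ⟨by nlinarith, by nlinarith⟩) a0.le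
  have h2 : |-(2 * (3 - p)) * (z.1 * dd z ζ).re| ≤ 6 * (2 * aa z ζ) := by
    rw [abs_mul]
    exact mul_le_mul (abs_le.2 ⟨by linarith, by linarith⟩)
      ((abs_re_mul_le z.2.2.le _).trans (norm_dd z ζ)) (abs_nonneg _) (by norm_num)
  have h3 : |yy z.1 ^ 2 * (Complex.normSq ζ.1 / dl z ζ ^ 4)| ≤ 1 * (1 / dl z ζ ^ 4) := by
    rw [abs_of_nonneg (by positivity)]
    gcongr
    exact pow_le_one₀ a.le a1
  refine (abs_add_three _ _ _).trans ?_
  linarith [aa_le z ζ]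

lemma iadd {α E : Type} [MeasurableSpace α] [NormedAddCommGroup E] {μ : Measure α} {f g : α → E}
    (hf : Integrable f μ) (hg : Integrable g μ) : Integrable (fun x => f x + g x) μ := hf.add hg

lemma isub {α E : Type} [MeasurableSpace α] [NormedAddCommGroup E] {μ : Measure α} {f g : α → E}
    (hf : Integrable f μ) (hg : Integrable g μ) : Integrable (fun x => f x - g x) μ := hf.sub hg

variable {μ ν : Measure X} [IsFiniteMeasure μ] [IsFiniteMeasure ν] {K L : X → X → ℝ} {p δ : ℝ}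

lemma KK.int (h : KK K) (z : X) : Integrable (K z) μ := by
  obtain ⟨C, -, b⟩ := h.bd
  exact ((integrable_inv_dl_right z 4).const_mul C).mono'
    (Measurable.of_uncurry_left (f := K) h.meas).aestronglyMeasurable (Eventually.of_forall (b z))

lemma KK.fub (h : KK K) (h' : KK L) (δ0 : 0 < δ) (hμ : ∀ᵐ ζ ∂μ, δ ≤ ht ζ) :
    Integrable (Function.uncurry fun (z : X) (q : X × X) => K z q.1 * L z q.2)
      (ν.prod (μ.prod μ)) := by
  obtain ⟨C, c0, b⟩ := h.bd
  obtain ⟨D, d0, b'⟩ := h'.bd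
  refine Integrable.of_bound ((h.meas.comp (f := fun q : X × X × X => (q.1, q.2.1))
    (by fun_prop)).mul (h'.meas.comp (f := fun q : X × X × X => (q.1, q.2.2))
    (by fun_prop))).aestronglyMeasurable (C * (1 / δ ^ 4) * (D * (1 / δ ^ 4))) ?_
  filter_upwards [Measure.quasiMeasurePreserving_snd.ae
    ((Measure.quasiMeasurePreserving_fst.ae hμ).and (Measure.quasiMeasurePreserving_snd.ae hμ))]
    with q hq
  rw [Real.norm_eq_abs, Function.uncurry, abs_mul]
  exact mul_le_mul ((b _ _).trans (mul_le_mul_of_nonneg_left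
    (inv_pow_dl_le δ0 (hq.1.trans (ht_le_dl' _ _)) 4) c0)) ((b' _ _).trans
    (mul_le_mul_of_nonneg_left (inv_pow_dl_le δ0 (hq.2.trans (ht_le_dl' _ _)) 4) d0))
    (abs_nonneg _) (by positivity)

lemma int_dd (z : X) : Integrable (dd z) μ :=
  ((kk_aa.int z).const_mul 2).mono' (Measurable.of_uncurry_left (f := dd)
    meas_dd).aestronglyMeasurable (Eventually.of_forall (norm_dd z))

lemma point (p0 : 0 < p) (p1 : p < 1) (z : X) : ∫ q, QQ p z q.1 q.2 ∂(μ.prod μ) ≤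
    4000 / (1 - p) * (‖∫ ζ, ker z ζ ∂μ‖ + (μ.real Set.univ + 3 * ∫ ζ, ht ζ ^ 2 / dl z ζ ^ 4 ∂μ) /
      ((1 - p) / 400)) ^ 2 - (1 - p) / 2 * (∫ ζ, aa z ζ ∂μ) ^ 2 := by
  have q0 := sub_pos.2 p1
  have e0 : 0 < (1 - p) / 400 := by positivity
  have ia := kk_aa.int (μ := μ) z
  have iU := (kk_UU p0 p1).int (μ := μ) z
  have ir := kk_re.int (μ := μ) z
  have ii := kk_im.int (μ := μ) z
  have id := int_dd (μ := μ) z
  have iA := integrable_AAker (μ := μ) z
  have j1 := iU.mul_prod ia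
  have j2 := ia.mul_prod iU
  have j3 := (ir.mul_prod ir).const_mul 2
  have j4 := (ii.mul_prod ii).const_mul 2
  have r : ∫ ζ, (dd z ζ).re ∂μ = (∫ ζ, dd z ζ ∂μ).re := integral_re id
  have i : ∫ ζ, (dd z ζ).im ∂μ = (∫ ζ, dd z ζ ∂μ).im := integral_im id
  have ib : Integrable (fun ζ => 4 * ((1 - p) / 400) * aa z ζ +
      (1 + 3 * (ht ζ ^ 2 / dl z ζ ^ 4)) / ((1 - p) / 400)) μ :=
    (ia.const_mul _).add (((integrable_const _).add (iA.const_mul 3)).div_const _)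
  have eb : ∫ ζ, 4 * ((1 - p) / 400) * aa z ζ + (1 + 3 * (ht ζ ^ 2 / dl z ζ ^ 4)) /
      ((1 - p) / 400) ∂μ = 4 * ((1 - p) / 400) * ∫ ζ, aa z ζ ∂μ +
      (μ.real Set.univ + 3 * ∫ ζ, ht ζ ^ 2 / dl z ζ ^ 4 ∂μ) / ((1 - p) / 400) := by
    rw [integral_add (ia.const_mul _) ((iadd (integrable_const _) (iA.const_mul 3)).div_const _),
      integral_const_mul, integral_div, integral_add (integrable_const _) (iA.const_mul 3),
      integral_const_mul, integral_const, smul_eq_mul, mul_one]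
  unfold QQ
  rw [integral_add (iadd (iadd j1 j2) j3) j4, integral_add (iadd j1 j2) j3, integral_add j1 j2,
    integral_const_mul, integral_const_mul, integral_prod_mul (UU p z), integral_prod_mul (aa z),
    integral_prod_mul (fun ζ => (dd z ζ).re) fun ζ => (dd z ζ).re,
    integral_prod_mul (fun ζ => (dd z ζ).im) fun ζ => (dd z ζ).im, r, i]
  have A0 : 0 ≤ ∫ ζ, ht ζ ^ 2 / dl z ζ ^ 4 ∂μ := integral_nonneg fun ζ => by positivity
  refine scalar (t := Complex.normSq z.1) (y := yy z.1) (V := z.1 * ∫ ζ, dd z ζ ∂μ)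
    (F := ∫ ζ, ker z ζ ∂μ) (Q := 4 * ((1 - p) / 400) * ∫ ζ, aa z ζ ∂μ +
      (μ.real Set.univ + 3 * ∫ ζ, ht ζ ^ 2 / dl z ζ ^ 4 ∂μ) / ((1 - p) / 400)) q0 (by linarith)
    (yy_mem z).1 (by rw [yy]; ring) (Complex.normSq_nonneg _)
    (integral_nonneg fun ζ => (aa_pos z ζ).le) ?_ ?_ (by ring) (by positivity) ?_ ?_
    (by rw [norm_mul, mul_pow, Complex.normSq_eq_norm_sq])
  · have io : Integrable (fun ζ => ((Complex.normSq z.1 * aa z ζ : ℝ) : ℂ)) μ :=
      (ia.const_mul _).ofReal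
    rw [← eb, ← integral_const_mul, ← integral_const_mul, ← integral_complex_ofReal,
      ← integral_sub (id.const_mul _) io,
      ← integral_sub (isub (id.const_mul _) io) (integrable_ker z)]
    exact norm_integral_le_of_norm_le ib (Eventually.of_forall fun ζ => (err z ζ e0).1)
  · rw [← eb, ← integral_const_mul, ← integral_const_mul]
    exact integral_mono (ia.const_mul _) (ib.const_mul 2) fun ζ => (err z ζ e0).2
  · have r2 : ∫ ζ, (z.1 * dd z ζ).re ∂μ = (∫ ζ, z.1 * dd z ζ ∂μ).re :=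
      integral_re (id.const_mul _)
    have i2 : Integrable (fun ζ => (z.1 * dd z ζ).re) μ := (id.const_mul _).re
    rw [← integral_const_mul, ← integral_const_mul, ← r2, ← integral_const_mul,
      ← integral_sub (ia.const_mul _) (i2.const_mul _)]
    refine integral_mono iU ((ia.const_mul _).sub (i2.const_mul _)) fun ζ => ?_
    have := UU_le z ζ p1
    beta_reduce
    linarith
  · rw [← integral_const_mul]
    exact norm_integral_le_of_norm_le (ia.const_mul 2) (Eventually.of_forall (norm_dd z))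

/-- The constant of the Hardy type inequality. -/
noncomputable def CC (p : ℝ) : ℝ := 8000 / (1 - p) ^ 2 * (27 / ((1 - p) / 400) ^ 2)

lemma dia (p0 : 0 < p) (p1 : p < 1) (hν : ∀ ζ η, 0 ≤ ∫ z, QQ p z ζ η ∂ν) {S : Set X}
    (hS : MeasurableSet S) (δ0 : 0 < δ) (hδ : ∀ ζ ∈ S, δ ≤ ht ζ)
    (i1 : Integrable (fun z => ‖PS μ S z‖ ^ 2) ν) (i2 : Integrable (fun z => AA μ S z ^ 2) ν) :
    Integrable (fun z => pp μ S z ^ 2) ν ∧ ∫ z, pp μ S z ^ 2 ∂ν ≤ CC p *
      (∫ z, ‖PS μ S z‖ ^ 2 ∂ν + μ.real S ^ 2 * ν.real Set.univ + ∫ z, AA μ S z ^ 2 ∂ν) := by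
  have hμ : ∀ᵐ ζ ∂μ.restrict S, δ ≤ ht ζ := (ae_restrict_mem hS).mono hδ
  have q0 := sub_pos.2 p1
  have k := kk_UU p0 p1
  have i0 : Integrable (fun z => pp μ S z ^ 2) ν := by
    have := (kk_aa.fub (ν := ν) kk_aa δ0 hμ).integral_prod_left
    simp only [Function.uncurry, integral_prod_mul (aa _), ← sq] at this
    exact this
  have iQ : Integrable (Function.uncurry fun (z : X) (q : X × X) => QQ p z q.1 q.2)
      (ν.prod ((μ.restrict S).prod (μ.restrict S))) :=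
    (((k.fub kk_aa δ0 hμ).add (kk_aa.fub k δ0 hμ)).add
      ((kk_re.fub kk_re δ0 hμ).const_mul 2)).add ((kk_im.fub kk_im δ0 hμ).const_mul 2)
  have h0 : 0 ≤ ∫ z, ∫ q, QQ p z q.1 q.2 ∂(μ.restrict S).prod (μ.restrict S) ∂ν := by
    rw [integral_integral_swap iQ]
    exact integral_nonneg fun q => hν q.1 q.2
  have i3 : Integrable (fun z => ‖PS μ S z‖ ^ 2 + μ.real S ^ 2 + AA μ S z ^ 2) ν :=
    (i1.add (integrable_const _)).add i2
  have h1 := h0.trans (integral_mono iQ.integral_prod_left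
    ((i3.const_mul ((1 - p) / 2 * CC p)).sub (i0.const_mul ((1 - p) / 2))) fun z => by
      refine (point p0 p1 z).trans (sub_le_sub ?_ le_rfl)
      rw [measureReal_restrict_apply_univ, ← PS, ← AA]
      beta_reduce
      generalize ‖PS μ S z‖ = a
      generalize μ.real S = b
      generalize AA μ S z = c
      obtain ⟨u, hu⟩ : ∃ u, u = 1 / ((1 - p) / 400) := ⟨_, rfl⟩
      have u1 : 1 ≤ u := hu ▸ one_le_one_div (by positivity) (by linarith)
      have e : (1 - p) / 2 * CC p = 4000 / (1 - p) * (27 * u ^ 2) := by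
        rw [CC, hu]
        field_simp
        ring
      rw [e, mul_assoc, div_eq_mul_one_div (b + 3 * c), ← hu]
      refine mul_le_mul_of_nonneg_left ?_ (by positivity)
      have u2 : a ^ 2 ≤ u ^ 2 * a ^ 2 := le_mul_of_one_le_left (sq_nonneg _) (one_le_pow₀ u1)
      nlinarith [sq_nonneg (a - b * u), sq_nonneg (a - 3 * c * u), sq_nonneg (b * u - 3 * c * u),
        sq_nonneg (b * u), sq_nonneg a])
  rw [integral_sub' (i3.const_mul _) (i0.const_mul _), integral_const_mul, integral_const_mul,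
    mul_assoc, ← mul_sub, mul_nonneg_iff_of_pos_left (by positivity), sub_nonneg,
    integral_add (iadd i1 (integrable_const _)) i2, integral_add i1 (integrable_const _),
    integral_const, smul_eq_mul, mul_comm (ν.real _)] at h1
  exact ⟨i0, h1⟩

end

section

open MeasureTheory Metric Real Filter
open scoped ComplexConjugate Topology ENNReal NNReal

variable {μ ν : Measure X} [IsFiniteMeasure μ] [IsFiniteMeasure ν] {p C : ℝ} {T T' : ℝ≥0}

/-- The quadratic form is nonnegative on pairs of kernels. -/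
def PairX (p : ℝ) (ν : Measure X) : Prop := ∀ ζ η, 0 ≤ ∫ z, QQ p z ζ η ∂ν

/-- Testing on all measurable sets. -/
def TestA (μ ν : Measure X) (T : ℝ≥0) : Prop :=
  ∀ S, MeasurableSet S → eLpNorm (PS μ S) 2 ν ≤ T * μ S ^ (1 / 2 : ℝ)

lemma of_lint {α : Type} [MeasurableSpace α] {m : Measure α} {f : α → ℝ} {B : ℝ}
    (hf : Measurable f) (B0 : 0 ≤ B) (h : ∫⁻ z, ENNReal.ofReal (f z ^ 2) ∂m ≤ ENNReal.ofReal B) :
    Integrable (fun z => f z ^ 2) m ∧ ∫ z, f z ^ 2 ∂m ≤ B := by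
  have i : Integrable (fun z => f z ^ 2) m := ⟨(hf.pow_const 2).aestronglyMeasurable, by
    rw [hasFiniteIntegral_iff_ofReal (Eventually.of_forall fun z => sq_nonneg _)]
    exact h.trans_lt ENNReal.ofReal_lt_top⟩
  rw [← ofReal_integral_eq_lintegral_ofReal i (Eventually.of_forall fun z => sq_nonneg _),
    ENNReal.ofReal_le_ofReal_iff B0] at h
  exact ⟨i, h⟩

omit [IsFiniteMeasure ν] in
lemma TestA.real (h : TestA μ ν T) {S : Set X} (hS : MeasurableSet S) :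
    Integrable (fun z => ‖PS μ S z‖ ^ 2) ν ∧ ∫ z, ‖PS μ S z‖ ^ 2 ∂ν ≤ T ^ 2 * μ.real S := by
  refine of_lint (measurable_PS S).norm (by positivity) (((eLp_le_iff _ _ _).1 (h S hS)).trans_eq ?_)
  rw [ENNReal.ofReal_mul (by positivity), ofReal_measureReal, ENNReal.ofReal_pow T.coe_nonneg,
    ENNReal.ofReal_coe_nnreal]

omit [IsFiniteMeasure ν] in
lemma TestA.test (h : TestA μ ν T) : Test μ ν (T ^ 2) :=
  ⟨by positivity, fun _ _ _ _ => h.real (measurableSet_Sec _ _ _)⟩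

lemma test_plus (p0 : 0 < p) (p1 : p < 1) (hν : PairX p ν) (h : TestA μ ν T)
    (h1 : TopC μ ν (1 / 2) C) : ∃ K, 0 ≤ K ∧ ∀ S, MeasurableSet S →
      Integrable (fun z => pp μ S z ^ 2) ν ∧ ∫ z, pp μ S z ^ 2 ∂ν ≤ K * μ.real S := by
  have c0 : 0 ≤ CC p := by unfold CC; positivity
  have c1 := h1.1
  obtain ⟨K, hK⟩ : ∃ K, K = CC p * (T ^ 2 + μ.real Set.univ * ν.real Set.univ + 2048 * C) :=
    ⟨_, rfl⟩
  have K0 : 0 ≤ K := by rw [hK]; positivity
  refine ⟨K, K0, fun S hS => of_lint (measurable_pp S) (by positivity) ?_⟩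
  have m : ∀ n, MeasurableSet (S ∩ {ζ | hh n ≤ ht ζ}) := fun n =>
    hS.inter (measurableSet_le measurable_const measurable_ht)
  have e : ⋃ n, S ∩ {ζ | hh n ≤ ht ζ} = S := by
    rw [← Set.inter_iUnion, Set.inter_eq_left]
    exact fun ζ _ => Set.mem_iUnion.2 ((eventually_hh ζ).exists.imp fun n hn => hn.le)
  have l : ∀ z, Tendsto (fun n => pp μ (S ∩ {ζ | hh n ≤ ht ζ}) z) atTop (𝓝 (pp μ S z)) := fun z => by
    have := tendsto_setIntegral_of_monotone (μ := μ) m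
      (fun i k hik ζ hζ => ⟨hζ.1, (hh_anti hik).trans hζ.2⟩)
      (integrable_inv_dl_right z 2).integrableOn
    rwa [e] at this
  calc _ = ∫⁻ z, liminf (fun n => ENNReal.ofReal (pp μ (S ∩ {ζ | hh n ≤ ht ζ}) z ^ 2)) atTop ∂ν :=
        lintegral_congr fun z => (ENNReal.tendsto_ofReal ((l z).pow 2)).liminf_eq.symm
    _ ≤ _ := lintegral_liminf_le fun n => ((measurable_pp _).pow_const 2).ennreal_ofReal
    _ ≤ _ := liminf_le_of_frequently_le' (Frequently.of_forall fun n => ?_)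
  obtain ⟨i1, b1⟩ := h.real (m n)
  obtain ⟨i, b⟩ := dia p0 p1 hν (m n) (hh_pos n) (fun _ h => h.2) i1 (integrable_AA_sq h1 _)
  rw [← ofReal_integral_eq_lintegral_ofReal i (Eventually.of_forall fun z => sq_nonneg _)]
  refine ENNReal.ofReal_le_ofReal (b.trans ?_)
  have b2 := integral_AA_sq h1 (S ∩ {ζ | hh n ≤ ht ζ})
  have b3 : μ.real (S ∩ {ζ | hh n ≤ ht ζ}) ≤ μ.real S := measureReal_mono Set.inter_subset_left
  have b4 : μ.real (S ∩ {ζ | hh n ≤ ht ζ}) ≤ μ.real Set.univ := measureReal_mono (Set.subset_univ _)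
  have b5 := mul_le_mul_of_nonneg_right (mul_le_mul b4 b3 measureReal_nonneg measureReal_nonneg)
    (measureReal_nonneg (μ := ν) (s := Set.univ))
  rw [hK, mul_assoc]
  refine mul_le_mul_of_nonneg_left ?_ c0
  nlinarith [mul_le_mul_of_nonneg_left b3 c1, mul_le_mul_of_nonneg_left b3 (sq_nonneg (T : ℝ))]

omit [IsFiniteMeasure μ] in
lemma op_one {S : Set X} (hS : MeasurableSet S) (z : X) : op aa μ (one S) z = pp μ S z := by
  rw [pp, ← integral_indicator hS]
  refine integral_congr_ae (Eventually.of_forall fun ζ => ?_)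
  by_cases h : ζ ∈ S
  · simp [one_of_mem h, Set.indicator_of_mem h, aa]
  · simp [one_of_notMem h, Set.indicator_of_notMem h]

lemma hyp_plus (p0 : 0 < p) (p1 : p < 1) (hν : PairX p ν) (h : TestA μ ν T) (h' : TestA ν μ T')
    (hp : PosM μ) : ∃ C, Hyp aa μ ν C := by
  obtain ⟨C, H⟩ := hyp_kc h.test h'.test hp (c := 1) (by simp)
  obtain ⟨C1, h1⟩ := H.top (1 / 2) (by norm_num)
  obtain ⟨K, K0, hK⟩ := test_plus p0 p1 hν h h1
  have c0 := H.C0
  refine ⟨C + K, ⟨meas_aa, fun z ζ => (abs_of_pos (aa_pos z ζ)).le, fun z z' ζ r a b => ?_, H.int⟩,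
    by positivity, fun a ℓ _ _ => ?_, fun a ℓ a0 a1 z hz => (H.hole a ℓ a0 a1 z hz).trans (by linarith),
    H.top, fun s a ℓ a0 a1 b l e1 e2 e3 Ω e4 e5 e6 => (H.piv s a ℓ a0 a1 b l e1 e2 e3 Ω e4 e5 e6).trans
      (mul_le_mul_of_nonneg_right (by linarith) measureReal_nonneg), hp⟩
  · rw [aa, aa, ← norm_ker, ← norm_ker]
    exact (abs_norm_sub_norm_le _ _).trans (norm_ker_sub a b)
  · simp only [op_one (measurableSet_Sec _ _ _)]
    exact (hK _ (measurableSet_Sec _ _ _)).imp_right fun b => b.trans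
      (mul_le_mul_of_nonneg_right (by linarith) measureReal_nonneg)

lemma plus_bound (p0 : 0 < p) (p1 : p < 1) (hμ : PairX p μ) (hν : PairX p ν) (h : BX μ ν)
    (hp : PosM μ) (hp' : PosM ν) : ∃ K : ℝ, 0 ≤ K ∧ ∀ u : X → ℝ, Measurable u → MemLp u 2 μ →
      ∫⁻ z, ENNReal.ofReal (op aa μ u z ^ 2) ∂ν ≤ ENNReal.ofReal (K * nn μ u) := by
  obtain ⟨T, h⟩ := h
  have t : TestA μ ν T := fun S hS => bx_test h hS (measure_lt_top _ _)
  have t' : TestA ν μ (T + 1) := fun S _ => bx_dual h S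
  obtain ⟨C, H⟩ := hyp_plus p0 p1 hν t t' hp
  obtain ⟨C', H'⟩ := hyp_plus p0 p1 hμ t' t hp'
  have e : aa = fun ζ z => aa z ζ := by
    funext ζ z
    rw [aa, aa, dl_comm]
  rw [e] at H'
  obtain ⟨K, hK, h⟩ := H.bound H'
  exact ⟨4 * (K + 1) ^ 2, by positivity, fun u hu hu2 => H.toKer.real_bound hK h hu hu2⟩

end

end Pool.Agent.P.MP_c45a97_an.Pl
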