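import Pool.Agent.P.MP_c45a97_an.PlB

/-! Transfer to weights on the disc, and radial measures. -/

namespace Pool.Agent.P.MP_c45a97_an.Pl

section

open MeasureTheory Metric Real Filter
open scoped ComplexConjugate Topology ENNReal NNReal

variable {p : ℝ} {w σ : ℂ → ℝ}

lemma Subharmonic.congr {u v : ℂ → ℝ} (h : Subharmonic u) (e : Set.EqOn u v (ball 0 1)) :
    Subharmonic v := by
  refine ⟨fun z hz => UpperSemicontinuousWithinAt.congr_of_eventuallyEq (h.1 z hz) hz
    (eventually_nhdsWithin_of_forall e), fun a r r0 s => ?_⟩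
  have e' : Set.EqOn u v (sphere a |r|) :=
    e.mono (by rw [abs_of_pos r0]; exact sphere_subset_closedBall.trans s)
  rw [← circleIntegrable_congr e', ← circleAverage_congr_sphere e',
    ← e (s (mem_closedBall_self r0.le))]
  exact h.2 a r r0 s

lemma int_wt (h : IsWeight w) (F : ℂ → ℝ) :
    ∫ z, F z.1 ∂mX w = 1 / π * ∫ z in ball 0 1, w z * F z := by
  rw [← emb.integral_map, map_mX, wt, integral_withDensity_eq_integral_toReal_smul₀ h.aem
    (Eventually.of_forall fun _ => ENNReal.ofReal_lt_top), integral_congr_ae (g := fun z => w z * F z)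
    (h.1.mono fun z hz => by simp only [ENNReal.toReal_ofReal hz.le, smul_eq_mul]), area,
    integral_smul_measure, ENNReal.toReal_ofReal (by positivity), smul_eq_mul]

lemma phi_eq (p : ℝ) (z ζ η : X) : Phi p 1 (fun z => ka z ζ.1 * ka z η.1)
    (fun z => ka z ζ.1 * ka z η.1 * (conj ζ.1 * ka z ζ.1 + conj η.1 * ka z η.1)) z.1 =
    QQ p z ζ η := by
  have e : ∀ ζ : X, dd z ζ = (yy z.1 * aa z ζ : ℝ) * (conj ζ.1 * ka z.1 ζ.1) := fun ζ => by
    rw [dd, aa, ← nsq_ka, Complex.ofReal_mul, ← Complex.mul_conj]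
    ring
  have e2 : ∀ ζ : X, Complex.normSq ζ.1 / dl z ζ ^ 4 =
      aa z ζ * Complex.normSq (conj ζ.1 * ka z.1 ζ.1) := fun ζ => by
    rw [map_mul, Complex.normSq_conj, nsq_ka, aa]
    ring
  have e3 : Complex.normSq (ka z.1 ζ.1 * ka z.1 η.1) = aa z ζ * aa z η := by
    rw [map_mul, nsq_ka, nsq_ka, aa, aa]
  have e4 : ∀ G A : ℂ, z.1 * (G * A) * conj G = Complex.normSq G * (z.1 * A) := fun G A => by
    rw [← Complex.mul_conj]
    ring
  simp only [Phi, QQ, UU, e, e2, e4]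
  rw [map_mul _ (_ * _), e3]
  generalize conj ζ.1 * ka z.1 ζ.1 = A
  generalize conj η.1 * ka z.1 η.1 = B
  simp only [Complex.normSq_apply A, Complex.normSq_apply B, Complex.normSq_apply (A + B),
    Complex.mul_re, Complex.mul_im, Complex.add_re, Complex.add_im, Complex.ofReal_re,
    Complex.ofReal_im]
  ring

lemma ka_ne {z ζ : ℂ} (hz : ‖z‖ ≤ 1) (h : ‖ζ‖ < 1) : 1 - z * conj ζ ≠ 0 := fun e => by
  have := congrArg norm (sub_eq_zero.1 e)
  rw [norm_one, norm_mul, Complex.norm_conj] at this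
  nlinarith [norm_nonneg z, norm_nonneg ζ]

lemma ka_der {z ζ : ℂ} (hz : ‖z‖ ≤ 1) (h : ‖ζ‖ < 1) :
    HasDerivAt (fun z => ka z ζ) (conj ζ * ka z ζ ^ 2) z :=
  ((((hasDerivAt_id z).mul_const (conj ζ)).const_sub 1).inv (ka_ne hz h)).congr_deriv (by
    simp [ka, div_eq_mul_inv])

lemma PWeight.pairX (p0 : 0 < p) (p1 : p < 1) (h : PWeight p w) [IsFiniteMeasure (mX w)] :
    PairX p (mX w) := by
  intro ζ η
  obtain ⟨v, hv⟩ : ∃ v, v = (ball (0 : ℂ) 1).indicator w := ⟨_, rfl⟩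
  have e : Set.EqOn w v (ball 0 1) := fun z hz => by rw [hv, Set.indicator_of_mem hz]
  have r : ∀ z ∈ ball (0 : ℂ) 1, w z = (w z ^ p) ^ p⁻¹ := fun z hz =>
    (rpow_rpow_inv (h.2.1 z hz) p0.ne').symm
  have c : ∀ ζ : X, ContinuousOn (fun z => ka z ζ.1) (closedBall 0 1) := fun ζ z hz =>
    (ka_der (mem_closedBall_zero_iff.1 hz) ζ.2.2).continuousAt.continuousWithinAt
  have m : ∀ ζ : X, Measurable fun z => ka z ζ.1 := fun ζ =>
    (Continuous.measurable (by fun_prop)).inv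
  simp only [← phi_eq]
  rw [int_wt h.1, setIntegral_congr_fun measurableSet_ball (g := fun z => v z * _)
    fun z hz => by rw [e hz]]
  refine mul_nonneg (by positivity) (pair p0 p1 ?_ (fun z => ?_) (fun ρ ρ1 => ?_)
    (Subharmonic.congr h.2.2 fun z hz => by simp only [e hz]) ?_ ((m ζ).mul (m η)) (fun z hz => ?_)
    ((c ζ).mul (c η)) (((c ζ).mul (c η)).mul (((c ζ).const_mul _).add ((c η).const_mul _))))
  · refine measurable_of_restrict_of_restrict_compl (s := ball 0 1) measurableSet_ball ?_ ?_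
    · convert (upperSemicontinuousOn_iff_restrict.2 h.2.2.1).measurable.pow_const p⁻¹ using 1
      exact funext fun z => (e z.2).symm.trans (r z z.2)
    · convert measurable_const (a := (0 : ℝ)) using 1
      exact funext fun z => hv ▸ Set.indicator_of_notMem z.2 _
  · exact hv ▸ Set.indicator_nonneg h.2.1 z
  · have s := closedBall_subset_ball (x := (0 : ℂ)) ρ1
    obtain ⟨M, hM⟩ := (h.2.2.1.mono s).bddAbove_of_isCompact (isCompact_closedBall _ _)
    refine ⟨M ^ p⁻¹, fun z hz => ?_⟩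
    rw [← e (s hz), r z (s hz)]
    exact rpow_le_rpow (rpow_nonneg (h.2.1 z (s hz)) _) (hM ⟨z, hz, rfl⟩) (inv_pos.2 p0).le
  · have := (h.1.integrable_iff fun _ => 1).2 (integrable_const (1 : ℂ))
    rw [area, integrable_smul_measure (ENNReal.ofReal_pos.2 (by positivity)).ne'
      ENNReal.ofReal_ne_top] at this
    exact IntegrableOn.congr_fun this.re (fun z hz => by simp [e hz]) measurableSet_ball
  · have n := (mem_ball_zero_iff.1 hz).le
    exact ((ka_der n ζ.2.2).mul (ka_der n η.2.2)).congr_deriv (by ring)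

lemma plus_eq (h : IsWeight σ) (f : ℂ → ℂ) (z : X) :
    bergmanPlus (fun ζ => (σ ζ : ℂ) * f ζ) z.1 = ∫ ζ, (aa z ζ : ℂ) * f ζ.1 ∂mX σ := by
  have e := integral_withDensity_eq_integral_toReal_smul₀ h.aem
    (Eventually.of_forall fun _ => ENNReal.ofReal_lt_top)
    (fun ζ => f ζ / ((‖1 - z.1 * conj ζ‖ ^ 2 : ℝ) : ℂ))
  rw [integral_congr_ae (h.smul_ae _), ← wt, ← map_mX, emb.integral_map] at e
  simp only [bergmanPlus, mul_div_assoc, ← e, aa, dl]
  congr 1
  funext ζ
  push_cast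
  ring

lemma norm_plus (z : X) {μ : Measure X} {f g : X → ℂ} {k : X → ℂ} (hk : ∀ ζ, ‖k ζ‖ = aa z ζ)
    (e : ∀ᵐ ζ ∂μ, ‖f ζ‖ = ‖g ζ‖) : ‖∫ ζ, k ζ * f ζ ∂μ‖ ≤ op aa μ (fun ζ => ‖g ζ‖) z :=
  (norm_integral_le_integral_norm _).trans_eq
    (integral_congr_ae (e.mono fun ζ h => by simp only [norm_mul, hk, h]))

theorem plus_condB (h : IsWeight σ) (H : CondBPlus w σ) : CondB w σ := by
  obtain ⟨C, H⟩ := H
  refine ⟨C, fun f hf => ⟨(H f hf).1, ?_⟩⟩
  have := (H (fun ζ => (‖f ζ‖ : ℂ)) hf.norm.ofReal).2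
  rw [eLpNorm_congr_norm_ae (f := fun ζ => (‖f ζ‖ : ℂ)) (g := f) (by simp)] at this
  refine le_trans ?_ this
  rw [eLpNorm_wt, eLpNorm_wt w, h.bergman_eq]
  refine eLpNorm_mono fun z => (norm_plus z (norm_ker z) (.of_forall fun _ => rfl)).trans ?_
  rw [Function.comp, plus_eq h]
  simp only [← Complex.ofReal_mul, integral_complex_ofReal, Complex.norm_real]
  exact le_abs_self _

theorem condB_plus (p0 : 0 < p) (p1 : p < 1) (hw : PWeight p w) (h : PWeight p σ)
    (H : CondB w σ) : CondBPlus w σ := by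
  obtain ⟨C, t⟩ := (H.bx h.1).tx h.1.fin h.1.pos_core hw.1.pos_core
  have h0 := t 0 1 one_pos le_rfl
  rw [Sec_univ] at h0
  have : IsFiniteMeasure (mX σ) := ⟨h0.1⟩
  have : IsFiniteMeasure (mX w) := ⟨h0.2.1⟩
  obtain ⟨K, hK, hb⟩ := plus_bound p0 p1 (PWeight.pairX p0 p1 h) (PWeight.pairX p0 p1 hw) (H.bx h.1)
    (fun a ℓ a0 a1 => ENNReal.toReal_pos (h.1.pos_Sec a ℓ a0 a1).ne' (measure_ne_top _ _))
    (fun a ℓ a0 a1 => ENNReal.toReal_pos (hw.1.pos_Sec a ℓ a0 a1).ne' (measure_ne_top _ _))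
  refine ⟨NNReal.mk (√K) (Real.sqrt_nonneg K), fun f hf => ⟨(H.choose_spec f hf).1, ?_⟩⟩
  rw [memLp_wt] at hf
  have ae := hf.1.ae_eq_mk
  have l2 := (hf.ae_eq ae).norm
  rw [eLpNorm_wt, eLpNorm_wt σ, eLpNorm_congr_ae ae, ← ENNReal.pow_le_pow_left_iff (n := 2)
    (by norm_num), mul_pow, eLp_sq, eLp_sq]
  refine (lintegral_mono fun z => ENNReal.ofReal_le_ofReal ?_).trans
    ((hb _ hf.1.measurable_mk.norm l2).trans_eq ?_)
  · rw [Function.comp, plus_eq h.1]
    exact pow_le_pow_left₀ (norm_nonneg _) (norm_plus z (fun ζ => by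
      rw [Complex.norm_real, Real.norm_of_nonneg (aa_pos z ζ).le]) (ae.mono fun ζ => congrArg _)) 2
  · rw [ENNReal.ofReal_mul hK, nn, ofReal_integral_eq_lintegral_ofReal l2.integrable_sq
      (Eventually.of_forall fun z => sq_nonneg _), ← ENNReal.ofReal_coe_nnreal,
      ← ENNReal.ofReal_pow (NNReal.coe_nonneg _), NNReal.coe_mk, Real.sq_sqrt hK]

end

section

open MeasureTheory Metric Real Filter Finset
open scoped ComplexConjugate Topology ENNReal NNReal

/-- Finite measures on the disc for which the monomials are orthogonal. -/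
structure Rad (m : Measure ℂ) : Prop where
  fin : IsFiniteMeasure m
  ae : ∀ᵐ z ∂m, ‖z‖ < 1
  orth : ∀ i j : ℕ, i ≠ j → ∫ z, z ^ i * conj z ^ j ∂m = 0

variable {m : Measure ℂ} {φ ψ : ℂ → ℝ}

lemma area_ae : ∀ᵐ z ∂area, ‖z‖ < 1 :=
  area_ac.ae_le ((ae_restrict_mem measurableSet_ball).mono fun _ => mem_ball_zero_iff.1)

lemma rot (u : Circle) (F : ℂ → ℂ) : ∫ z, F (u * z) ∂area = ∫ z, F z ∂area := by
  have h := (rotation u).measurePreserving.restrict_preimage (s := ball 0 1) measurableSet_ball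
  rw [show rotation u ⁻¹' ball 0 1 = ball 0 1 by
    ext
    simp only [Set.mem_preimage, mem_ball_zero_iff, LinearIsometryEquiv.norm_map]] at h
  exact (h.smul_measure _).integral_comp (rotation u).toHomeomorph.measurableEmbedding F

lemma int_c (h : IsWeight φ) (F : ℂ → ℂ) : ∫ z, F z ∂wt φ = ∫ z, φ z * F z ∂area := by
  rw [wt, integral_withDensity_eq_integral_toReal_smul₀ h.aem
    (Eventually.of_forall fun _ => ENNReal.ofReal_lt_top), integral_congr_ae (h.smul_ae _)]

lemma int_r (h : IsWeight φ) (F : ℂ → ℝ) : ∫ z, F z ∂wt φ = ∫ z, φ z * F z ∂area := by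
  have := int_c h fun z => F z
  simp only [← Complex.ofReal_mul, integral_complex_ofReal] at this
  exact Complex.ofReal_injective this

lemma rad (R : ℝ → ℝ) (h : IsWeight fun z => R (Complex.normSq z))
    (i : Integrable (fun z => R (Complex.normSq z)) area) :
    Rad (wt fun z => R (Complex.normSq z)) := by
  refine ⟨isFiniteMeasure_withDensity_ofReal i.2,
    (withDensity_absolutelyContinuous _ _).ae_le area_ae, fun i j ij => ?_⟩
  have d : (i : ℂ) - j ≠ 0 := sub_ne_zero.2 (Nat.cast_injective.ne ij)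
  have e := rot (Circle.exp (π / (i - j))) fun z => R (Complex.normSq z) * (z ^ i * conj z ^ j)
  have u : ((Circle.exp (π / (i - j)) : ℂ)) ^ i * conj (Circle.exp (π / (i - j)) : ℂ) ^ j = -1 := by
    rw [Circle.coe_exp, ← Complex.exp_conj, ← Complex.exp_nat_mul, ← Complex.exp_nat_mul,
      ← Complex.exp_add, ← Complex.exp_pi_mul_I, map_mul, Complex.conj_ofReal, Complex.conj_I]
    push_cast
    congr 1
    field_simp
    ring
  simp only [map_mul, Circle.normSq_coe, one_mul, mul_pow, mul_mul_mul_comm _ (_ ^ i), u,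
    neg_one_mul, mul_neg, integral_neg] at e
  rw [int_c h]
  linear_combination -e / 2

lemma rad_area : Rad area := by
  have f : IsFiniteMeasure area := ⟨by
    rw [area, Measure.smul_apply, Measure.restrict_apply_univ]
    exact ENNReal.mul_lt_top ENNReal.ofReal_lt_top measure_ball_lt_top⟩
  simpa [wt] using rad (fun _ => 1)
    ⟨.of_forall fun _ => one_pos, continuousOn_const.locallyIntegrableOn measurableSet_ball⟩
    (integrable_const _)

lemma Rad.memLp {E : Type} [NormedAddCommGroup E] (h : Rad m) {F : ℂ → E}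
    (hF : ContinuousOn F (closedBall 0 1)) (q : ℝ≥0∞) : MemLp F q m := by
  have := h.fin
  have a : ∀ᵐ z ∂m, z ∈ closedBall (0 : ℂ) 1 := h.ae.mono fun z hz => mem_closedBall_zero_iff.2 hz.le
  obtain ⟨C, hC⟩ := (isCompact_closedBall (0 : ℂ) 1).exists_bound_of_continuousOn hF
  exact MemLp.of_bound (Measure.restrict_eq_self_of_ae_mem a ▸
    hF.aestronglyMeasurable measurableSet_closedBall) C (a.mono hC)

lemma Rad.int {E : Type} [NormedAddCommGroup E] (h : Rad m) {F : ℂ → E}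
    (hF : ContinuousOn F (closedBall 0 1)) : Integrable F m :=
  memLp_one_iff_integrable.1 (h.memLp hF 1)

lemma Rad.mul {E : Type} [NormedRing E] (h : Rad m) {f F : ℂ → E} (hf : Integrable f m)
    (hF : ContinuousOn F (closedBall 0 1)) : Integrable (fun z => f z * F z) m :=
  memLp_one_iff_integrable.1 ((h.memLp hF ∞).mul' (memLp_one_iff_integrable.2 hf))

lemma mom (n : ℕ) : ∫ z, Complex.normSq z ^ n ∂area = 1 / (n + 1) := by
  have e := integral_fun_norm_addHaar (volume : Measure ℂ)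
    ((Set.Iio (1 : ℝ)).indicator fun y => y ^ (2 * n))
  simp only [Complex.finrank_real_complex, smul_eq_mul,
    ← Set.indicator_mul_right _ fun y : ℝ => y ^ (2 - 1)] at e
  simp only [setIntegral_indicator measurableSet_Iio, Set.Ioi_inter_Iio, ← pow_add, integral_pow,
    ← integral_Ioc_eq_integral_Ioo, ← intervalIntegral.integral_of_le zero_le_one] at e
  rw [area, integral_smul_measure, ← integral_indicator measurableSet_ball,
    integral_congr_ae (g := fun z => (Set.Iio (1 : ℝ)).indicator (fun y => y ^ (2 * n)) ‖z‖)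
    (.of_forall fun z => by simp [Set.indicator, Complex.normSq_eq_norm_sq, pow_mul]), e,
    ENNReal.toReal_ofReal (by positivity)]
  simp [Measure.real]
  field_simp
  ring

lemma Rad.pyth (h : Rad m) (a : ℕ → ℂ) (s : Finset ℕ) : ∫ z, ‖∑ j ∈ s, a j * z ^ j‖ ^ 2 ∂m =
    ∑ j ∈ s, ‖a j‖ ^ 2 * ∫ z, Complex.normSq z ^ j ∂m := by
  apply Complex.ofReal_injective
  simp only [← integral_complex_ofReal, Complex.ofReal_sum, Complex.ofReal_mul,
    ← Complex.normSq_eq_norm_sq, Complex.ofReal_pow, ← Complex.mul_conj, map_sum, sum_mul_sum,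
    map_mul, map_pow, mul_mul_mul_comm (a _) (_ ^ _), mul_pow]
  rw [integral_finsetSum _ fun i _ => h.int (by fun_prop)]
  refine sum_congr rfl fun i hi => ?_
  rw [integral_finsetSum _ fun j _ => h.int (by fun_prop), sum_eq_single_of_mem i hi
    fun j _ ij => by rw [integral_const_mul, h.orth i j ij.symm, mul_zero], integral_const_mul]

lemma Rad.bessel (h : Rad m) {M : ℕ → ℝ} (M0 : ∀ j, 0 < M j)
    (hM : ∀ j, ∫ z, Complex.normSq z ^ j ∂m ≤ M j) {g : ℂ → ℂ} (hg : MemLp g 2 m) (s : Finset ℕ) :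
    ∑ j ∈ s, ‖∫ z, g z * conj z ^ j ∂m‖ ^ 2 / M j ≤ ∫ z, ‖g z‖ ^ 2 ∂m := by
  have := h.fin
  obtain ⟨b, hb⟩ : ∃ b : ℕ → ℂ, b = fun j => ∫ z, g z * conj z ^ j ∂m := ⟨_, rfl⟩
  have i := hg.integrable one_le_two
  have i2 : Integrable (fun z => ‖∑ j ∈ s, b j / M j * z ^ j‖ ^ 2) m := h.int (by fun_prop)
  have e : ((∑ j ∈ s, ‖b j‖ ^ 2 / M j : ℝ) : ℂ) =
      ∫ z, g z * conj (∑ j ∈ s, b j / M j * z ^ j) ∂m := by
    simp only [map_sum, mul_sum, map_mul, map_pow, mul_left_comm (g _)]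
    rw [integral_finsetSum _ fun j _ => (h.mul i (by fun_prop)).const_mul _, Complex.ofReal_sum]
    refine sum_congr rfl fun j _ => ?_
    rw [integral_const_mul, ← congrFun hb j, ← Complex.normSq_eq_norm_sq, Complex.ofReal_div,
      ← Complex.mul_conj, map_div₀, Complex.conj_ofReal]
    ring
  have l := (le_abs_self _).trans (((Complex.norm_real _).symm.trans (congrArg norm e)).trans_le
    (norm_integral_le_of_norm_le ((iadd hg.norm.integrable_sq i2).div_const 2) (.of_forall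
      fun z => by
        rw [norm_mul, Complex.norm_conj]
        linarith [two_mul_le_add_sq ‖g z‖ ‖∑ j ∈ s, b j / M j * z ^ j‖])))
  have l2 : ∑ j ∈ s, ‖b j / M j‖ ^ 2 * ∫ z, Complex.normSq z ^ j ∂m ≤ ∑ j ∈ s, ‖b j‖ ^ 2 / M j :=
    sum_le_sum fun j _ => (mul_le_mul_of_nonneg_left (hM j) (sq_nonneg _)).trans_eq (by
      rw [norm_div, Complex.norm_real, Real.norm_of_nonneg (M0 j).le]
      field_simp [(M0 j).ne'])
  rw [integral_div, integral_add hg.norm.integrable_sq i2, h.pyth] at l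
  simp only [← congrFun hb]
  linarith

lemma Rad.expand (h : Rad m) {a : ℕ → ℂ} {k : ℂ → ℂ}
    (hk : ∀ x, ‖x‖ < 1 → HasSum (fun n => a n * x ^ n) (k x)) {F : ℂ → ℂ} (hF : Integrable F m)
    {z : ℂ} (hz : ‖z‖ < 1) : HasSum (fun n => a n * z ^ n * ∫ ζ, F ζ * conj ζ ^ n ∂m)
      (∫ ζ, F ζ * k (z * conj ζ) ∂m) := by
  have i : ∀ n, Integrable (fun ζ => a n * z ^ n * (F ζ * conj ζ ^ n)) m := fun n =>
    (h.mul hF (by fun_prop)).const_mul _
  have := hasSum_integral_of_summable_integral_norm i (.of_nonneg_of_le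
    (fun n => integral_nonneg fun _ => norm_nonneg _) (fun n => ?_)
    ((summable_norm_iff.2 (hk z hz).summable).mul_right (∫ ζ, ‖F ζ‖ ∂m)))
  · simp only [integral_const_mul] at this
    rw [integral_congr_ae (g := fun ζ => F ζ * k (z * conj ζ)) (h.ae.mono fun ζ hζ => ?_)] at this
    · exact this
    have := (hk (z * conj ζ) (by
      rw [norm_mul, Complex.norm_conj]
      nlinarith [norm_nonneg z, norm_nonneg ζ])).mul_left (F ζ)
    exact (tsum_congr fun n => by ring).trans this.tsum_eq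
  · rw [← integral_const_mul]
    refine integral_mono_ae (i n).norm (hF.norm.const_mul _) (h.ae.mono fun ζ hζ => ?_)
    simp only [norm_mul _ (F ζ * _), norm_mul (F ζ), norm_pow, Complex.norm_conj]
    exact mul_le_mul_of_nonneg_left (mul_le_of_le_one_right (norm_nonneg _)
      (pow_le_one₀ (norm_nonneg _) hζ.le)) (norm_nonneg _)

lemma eLp2 (f : ℂ → ℂ) : eLpNorm f 2 m ^ 2 = ∫⁻ x, ENNReal.ofReal (‖f x‖ ^ 2) ∂m := by
  have := eLpNorm_nnreal_pow_eq_lintegral (f := f) (μ := m) (p := 2) (by norm_num)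
  simp only [ENNReal.coe_ofNat, NNReal.coe_ofNat, ENNReal.rpow_ofNat] at this
  simp only [this, ENNReal.ofReal_pow (norm_nonneg _), ofReal_norm]

lemma eLp2' {f : ℂ → ℂ} (hf : MemLp f 2 m) :
    eLpNorm f 2 m ^ 2 = ENNReal.ofReal (∫ x, ‖f x‖ ^ 2 ∂m) := by
  rw [eLp2, ofReal_integral_eq_lintegral_ofReal hf.norm.integrable_sq
    (.of_forall fun _ => sq_nonneg _)]

lemma transfer (h : IsWeight φ) (h' : IsWeight ψ) {f g : ℂ → ℂ}
    (e : ∀ z, ‖z‖ < 1 → φ z * ‖f z‖ ^ 2 ≤ ψ z * ‖g z‖ ^ 2) :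
    eLpNorm f 2 (wt φ) ≤ eLpNorm g 2 (wt ψ) := by
  rw [← ENNReal.pow_le_pow_left_iff (n := 2) (by norm_num), eLp2, eLp2, wt, wt,
    lintegral_withDensity_eq_lintegral_mul_non_measurable₀ _ h.aem (by simp),
    lintegral_withDensity_eq_lintegral_mul_non_measurable₀ _ h'.aem (by simp)]
  refine lintegral_mono_ae ?_
  filter_upwards [area_ae, h.1, h'.1] with z a b c
  simp only [Pi.mul_apply, ← ENNReal.ofReal_mul b.le, ← ENNReal.ofReal_mul c.le]
  exact ENNReal.ofReal_le_ofReal (e z a)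

/-- The discrete Hardy inequality. -/
lemma hardy (β : ℕ → ℝ) (N : ℕ) : ∑ n ∈ range N, ((∑ j ∈ range (n + 1), β j) / (n + 1)) ^ 2 +
    2 * N * ((∑ j ∈ range N, β j) / N) ^ 2 ≤ 4 * ∑ n ∈ range N, β n ^ 2 := by
  induction N with
  | zero => simp
  | succ N ih =>
    have e : N * ((∑ j ∈ range N, β j) / N) = ∑ j ∈ range N, β j := by
      rcases N.eq_zero_or_pos with rfl | h
      · simp
      · field_simp
    have e2 : β N = (N + 1) * ((∑ j ∈ range (N + 1), β j) / (N + 1)) - ∑ j ∈ range N, β j := by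
      rw [sum_range_succ]
      field_simp
      ring
    rw [sum_range_succ, sum_range_succ (fun n => β n ^ 2), e2, ← e]
    push_cast
    generalize (∑ j ∈ range (N + 1), β j) / (N + 1) = A at *
    generalize (∑ j ∈ range N, β j) / N = B at *
    nlinarith [sq_nonneg (A + 2 * N * (A - B)), mul_nonneg N.cast_nonneg (sq_nonneg (A - B))]

end

end Pool.Agent.P.MP_c45a97_an.Pl
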