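import Pool.Agent.P.MP_c45a97_an.PlC

/-! The counterexample for subharmonic weights. -/

namespace Pool.Agent.P.MP_c45a97_an.Pl

section

open MeasureTheory Metric Real Filter Finset
open scoped ComplexConjugate Topology ENNReal NNReal

variable {u φ : ℂ → ℝ} {p t r : ℝ} {a z : ℂ} (n : ℕ → ℕ) (k : ℕ)

lemma weight_of (c : ContinuousOn φ (ball 0 1)) (h : ∀ z, ‖z‖ < 1 → z ≠ 0 → 0 < φ z) :
    IsWeight φ := by
  refine ⟨?_, c.locallyIntegrableOn measurableSet_ball⟩
  filter_upwards [area_ae, (area_ac.trans Measure.absolutelyContinuous_restrict).ae_le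
    (Measure.ae_ne volume 0)] using h

lemma circ {E : Type} [NormedAddCommGroup E] {u : ℂ → E} (c : ContinuousOn u (ball 0 1))
    (r0 : 0 < r) (s : closedBall a r ⊆ ball 0 1) : CircleIntegrable u a r :=
  (c.mono (sphere_subset_closedBall.trans s)).circleIntegrable r0.le

lemma pweight (p1 : 1 ≤ p) (c : ContinuousOn u (ball 0 1)) (h0 : ∀ z ∈ ball (0 : ℂ) 1, 0 ≤ u z)
    (h : ∀ z, ‖z‖ < 1 → z ≠ 0 → 0 < u z) (m : ∀ a r, 0 < r → closedBall a r ⊆ ball 0 1 →
      u a ≤ circleAverage u a r) : PWeight p u := by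
  have c' : ContinuousOn (fun z => u z ^ p) (ball 0 1) :=
    c.rpow_const fun _ _ => .inr (by linarith)
  refine ⟨weight_of c h, h0, c'.upperSemicontinuousOn, fun a r r0 s => ⟨circ c' r0 s, ?_⟩⟩
  have s' : ∀ z ∈ sphere a |r|, 0 ≤ u z := fun z hz =>
    h0 z (s (sphere_subset_closedBall (abs_of_pos r0 ▸ hz)))
  rcases (h0 a (s (mem_closedBall_self r0.le))).eq_or_lt with e | e
  · beta_reduce
    rw [← e, zero_rpow (by linarith)]
    exact circleAverage_nonneg_of_nonneg fun z hz => rpow_nonneg (s' z hz) _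
  have i : CircleIntegrable (fun z => (u a ^ p * p / u a) • u z) a r :=
    circ (continuousOn_const.mul c) r0 s
  refine le_trans ?_ (circleAverage_mono (f₁ := fun z => u a ^ p * (1 - p) +
    (u a ^ p * p / u a) • u z) ((circleIntegrable_const _ _ _).add i) (circ c' r0 s) fun z hz => ?_)
  · rw [circleAverage_fun_add (circleIntegrable_const _ _ _) i, circleAverage_const,
      circleAverage_fun_smul, smul_eq_mul]
    have := mul_le_mul_of_nonneg_left (m a r r0 s) (show 0 ≤ u a ^ p * p / u a by positivity)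
    rw [div_mul_cancel₀ _ e.ne'] at this
    linarith
  · have := mul_le_mul_of_nonneg_left (one_add_mul_self_le_rpow_one_add (s := u z / u a - 1)
      (by linarith [div_nonneg (s' z hz) e.le]) p1) (rpow_nonneg e.le p)
    rw [add_sub_cancel, div_rpow (s' z hz) e.le, mul_div_cancel₀ _ (rpow_pos_of_pos e p).ne'] at this
    refine le_of_eq_of_le ?_ this
    rw [smul_eq_mul]
    ring

lemma mean {H : ℂ → ℂ} (h : DifferentiableOn ℂ H (ball 0 1)) (r0 : 0 < r)
    (s : closedBall a r ⊆ ball 0 1) : circleAverage H a r = H a :=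
  DiffContOnCl.circleAverage (h.diffContOnCl_ball ((abs_of_pos r0).symm ▸ s))

lemma mean_norm {H : ℂ → ℂ} (h : Differentiable ℂ H) (r0 : 0 < r)
    (s : closedBall a r ⊆ ball 0 1) : ‖H a‖ ≤ circleAverage (fun z => ‖H z‖) a r := by
  rw [← mean h.differentiableOn r0 s, circleAverage_def, circleAverage_def, norm_smul, smul_eq_mul,
    Real.norm_of_nonneg (by positivity)]
  exact mul_le_mul_of_nonneg_left (intervalIntegral.norm_integral_le_integral_norm two_pi_pos.le)
    (by positivity)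

lemma one_sub_ne (h : ‖z‖ < 1) : 1 - z ≠ 0 := fun e => by
  rw [← sub_eq_zero.1 e, norm_one] at h
  exact h.false

/-- The Poisson kernel with pole at the point `1`. -/
noncomputable def wP (z : ℂ) : ℝ := yy z / ‖1 - z‖ ^ 2

lemma wP_pw (p1 : 1 ≤ p) : PWeight p wP := by
  have n : ∀ z ∈ ball (0 : ℂ) 1, 1 - z ≠ 0 := fun z hz => one_sub_ne (mem_ball_zero_iff.1 hz)
  have h : ∀ z ∈ ball (0 : ℂ) 1, 0 < wP z := fun z hz =>
    div_pos (yy_pos hz) (pow_pos (norm_pos_iff.2 (n z hz)) 2)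
  have d : DifferentiableOn ℂ (fun z : ℂ => (1 + z) / (1 - z)) (ball 0 1) :=
    DifferentiableOn.fun_div (by fun_prop) (by fun_prop) n
  have e : ∀ z, wP z = (Complex.reCLM ∘ fun z => (1 + z) / (1 - z)) z := fun z => by
    simp only [wP, yy, Function.comp, Complex.reCLM_apply, Complex.div_re,
      ← Complex.normSq_eq_norm_sq, ← add_div]
    simp [Complex.normSq_apply]
    ring
  refine pweight p1 (yy_cont.continuousOn.div (by fun_prop) fun z hz =>
    pow_ne_zero 2 (norm_ne_zero_iff.2 (n z hz))) (fun z hz => (h z hz).le)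
    (fun z hz _ => h z (mem_ball_zero_iff.2 hz)) fun a r r0 s => ?_
  rw [funext e, Complex.reCLM.circleAverage_comp_comm (circ d.continuousOn r0 s), mean d r0 s]
  exact le_rfl

/-- The pieces of the radial factor. -/
noncomputable def TT (t : ℝ) : ℝ := (1 / 2) ^ k * ((n k + 1) * t ^ n k)

/-- The radial factor. -/
noncomputable def RR (t : ℝ) : ℝ := (∑' k, TT n k t * (1 - t)) / (1 - t)

/-- The second weight of the counterexample. -/
noncomputable def sP (z : ℂ) : ℝ := ‖1 - z‖ ^ 2 * RR n (Complex.normSq z)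

lemma TT_nonneg (t0 : 0 ≤ t) : 0 ≤ TT n k t := by unfold TT; positivity

lemma TT_bd (t0 : 0 ≤ t) (t1 : t < 1) : ‖TT n k t * (1 - t)‖ ≤ (1 / 2) ^ k := by
  have := card_nsmul_le_sum (range (n k + 1)) (fun j => t ^ j) (t ^ n k) fun j hj =>
    pow_le_pow_of_le_one t0 t1.le (Nat.lt_succ_iff.1 (mem_range.1 hj))
  rw [card_range, nsmul_eq_mul, Nat.cast_succ] at this
  have h := mul_le_mul_of_nonneg_right this (sub_pos.2 t1).le
  rw [geom_sum_mul_neg] at h
  rw [Real.norm_of_nonneg (mul_nonneg (TT_nonneg n k t0) (sub_pos.2 t1).le), TT, mul_assoc]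
  exact mul_le_of_le_one_right (by positivity) (h.trans (sub_le_self _ (by positivity)))

lemma RR_sum (t0 : 0 ≤ t) (t1 : t < 1) : HasSum (fun k => TT n k t) (RR n t) := by
  have := (Summable.of_norm_bounded summable_geometric_two
    fun k => TT_bd n k t0 t1).hasSum.div_const (1 - t)
  simp only [mul_div_cancel_right₀ _ (sub_pos.2 t1).ne'] at this
  exact this

lemma TT_le (t0 : 0 ≤ t) (t1 : t < 1) : TT n k t ≤ RR n t :=
  le_hasSum (RR_sum n t0 t1) k fun j _ => TT_nonneg n j t0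

lemma nsq (h : ‖z‖ < 1) : Complex.normSq z < 1 := nsq_lt (mem_ball_zero_iff.2 h)

lemma TT_cont : Continuous fun z => TT n k (Complex.normSq z) :=
  (((Complex.continuous_normSq.pow _).const_mul _).const_mul _)

lemma RR_cont : ContinuousOn (fun z => RR n (Complex.normSq z)) (ball 0 1) :=
  (continuousOn_tsum (fun k => ((TT_cont n k).mul yy_cont).continuousOn) summable_geometric_two
    fun k z hz => TT_bd n k (Complex.normSq_nonneg z) (nsq_lt hz)).div yy_cont.continuousOn
    fun _ hz => (yy_pos hz).ne'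

lemma RR_pos (h : ‖z‖ < 1) (h0 : z ≠ 0) : 0 < RR n (Complex.normSq z) := by
  have := Complex.normSq_pos.2 h0
  exact lt_of_lt_of_le (by unfold TT; positivity) (TT_le n 0 this.le (nsq h))

lemma RR_int : Integrable (fun z => RR n (Complex.normSq z)) area := by
  have w := weight_of (RR_cont n) fun _ => RR_pos n
  refine ⟨w.2.aestronglyMeasurable.mono_ac area_ac, ?_⟩
  rw [hasFiniteIntegral_iff_ofReal (w.1.mono fun _ h => h.le), lintegral_congr_ae (g := fun z =>
    ∑' k, ENNReal.ofReal (TT n k (Complex.normSq z))) (area_ae.mono fun z hz => ?_),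
    lintegral_tsum fun k => (TT_cont n k).measurable.ennreal_ofReal.aemeasurable,
    tsum_congr (g := fun k => ENNReal.ofReal ((1 / 2) ^ k)) fun k => ?_,
    ← ENNReal.ofReal_tsum_of_nonneg (fun _ => by positivity) summable_geometric_two]
  · exact ENNReal.ofReal_lt_top
  · rw [← ofReal_integral_eq_lintegral_ofReal (rad_area.int (TT_cont n k).continuousOn)
      (.of_forall fun z => TT_nonneg n k (Complex.normSq_nonneg z))]
    simp only [TT, integral_const_mul, mom]
    rw [mul_one_div_cancel (by positivity), mul_one]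
  · have := RR_sum n (Complex.normSq_nonneg z) (nsq hz)
    beta_reduce
    rw [← this.tsum_eq, ENNReal.ofReal_tsum_of_nonneg
      (fun k => TT_nonneg n k (Complex.normSq_nonneg z)) this.summable]

lemma sP_pw (p1 : 1 ≤ p) : PWeight p (sP n) := by
  have c : ContinuousOn (sP n) (ball 0 1) := ContinuousOn.mul (by fun_prop) (RR_cont n)
  have S : ∀ z ∈ ball (0 : ℂ) 1, HasSum
      (fun k => ‖(1 / 2) ^ k * ((n k + 1) * (z ^ 2) ^ n k) * (1 - z) ^ 2‖) (sP n z) := fun z hz => by
    refine ((RR_sum n (Complex.normSq_nonneg z) (nsq_lt hz)).mul_left (‖1 - z‖ ^ 2)).congr_fun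
      fun k => ?_
    rw [← Nat.cast_succ, TT, Complex.normSq_eq_norm_sq, ← Nat.cast_succ]
    simp [mul_comm, -Nat.cast_add]
  refine pweight p1 c (fun z hz => (S z hz).nonneg fun _ => norm_nonneg _) (fun z hz h0 => mul_pos
    (pow_pos (norm_pos_iff.2 (one_sub_ne hz)) 2) (RR_pos n hz h0)) fun a r r0 s => ?_
  refine hasSum_le_of_sum_le (S a (s (mem_closedBall_self r0.le))) fun F => ?_
  refine (sum_le_sum fun k _ => mean_norm (H := fun z : ℂ =>
    (1 / 2) ^ k * ((n k + 1) * (z ^ 2) ^ n k) * (1 - z) ^ 2) (by fun_prop) r0 s).trans ?_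
  rw [← circleAverage_fun_sum fun k _ => circ (by fun_prop) r0 s]
  exact circleAverage_mono (circ (by fun_prop) r0 s) (circ c r0 s) fun z hz => sum_le_hasSum F
    (fun _ _ => norm_nonneg _) (S z (s (sphere_subset_closedBall (abs_of_pos r0 ▸ hz))))

end

section

open MeasureTheory Metric Real Filter Finset
open scoped ComplexConjugate Topology ENNReal NNReal

variable {m : Measure ℂ} {z : ℂ} (n : ℕ → ℕ)

lemma Rad.fatou (h : Rad m) {c : ℕ → ℂ} {H : ℂ → ℂ}
    (hs : ∀ z, ‖z‖ < 1 → HasSum (fun j => c j * z ^ j) (H z)) {B : ℝ}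
    (hB : ∀ N, ∑ j ∈ range N, ‖c j‖ ^ 2 * ∫ z, Complex.normSq z ^ j ∂m ≤ B) :
    eLpNorm H 2 m ^ 2 ≤ ENNReal.ofReal B := by
  rw [eLp2]
  calc _ = ∫⁻ z, liminf (fun N => ENNReal.ofReal (‖∑ j ∈ range N, c j * z ^ j‖ ^ 2)) atTop ∂m :=
        lintegral_congr_ae (h.ae.mono fun z hz =>
          (ENNReal.tendsto_ofReal ((hs z hz).tendsto_sum_nat.norm.pow 2)).liminf_eq.symm)
    _ ≤ _ := lintegral_liminf_le fun N => (Continuous.measurable (by fun_prop)).ennreal_ofReal
    _ ≤ _ := liminf_le_of_frequently_le' (Frequently.of_forall fun N => ?_)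
  rw [← ofReal_integral_eq_lintegral_ofReal (h.int (by fun_prop)) (.of_forall fun _ => sq_nonneg _),
    h.pyth]
  exact ENNReal.ofReal_le_ofReal (hB N)

lemma tele (b : ℕ → ℂ) (N : ℕ) : ∑ j ∈ range (N + 1), ((j : ℂ) + 1) * (b j - b (j + 1)) =
    ∑ j ∈ range (N + 1), b j - (N + 1) * b (N + 1) := by
  induction N with
  | zero => simp
  | succ N ih =>
    rw [sum_range_succ, ih, sum_range_succ _ (N + 1)]
    push_cast
    ring

lemma cauchy {d : ℕ → ℂ} {F : ℂ} (hz : ‖z‖ < 1) (h : HasSum (fun j => d j * z ^ j) F) :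
    HasSum (fun N => (∑ j ∈ range (N + 1), d j) * z ^ N) (F / (1 - z)) := by
  have g := hasSum_geometric_of_norm_lt_one hz
  have a := summable_norm_iff.2 h.summable
  have b := summable_norm_iff.2 g.summable
  have s := (summable_norm_sum_mul_range_of_summable_norm a b).of_norm.hasSum
  rw [← tsum_mul_tsum_eq_tsum_sum_range_of_summable_norm a b, h.tsum_eq, g.tsum_eq] at s
  refine s.congr_fun fun N => (sum_mul _ _ _).trans (sum_congr rfl fun j hj => ?_)
  rw [mul_assoc, ← pow_add, Nat.add_sub_cancel' (Nat.lt_succ_iff.1 (mem_range.1 hj))]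

theorem cex_B : CondB wP (sP n) := by
  have hρ := weight_of (RR_cont n) fun _ => RR_pos n
  have hσ := (sP_pw n le_rfl).1
  have hy : IsWeight yy :=
    weight_of yy_cont.continuousOn fun z hz _ => yy_pos (mem_ball_zero_iff.2 hz)
  have R := rad (RR n) hρ (RR_int n)
  have Y : Rad (wt yy) := rad (fun t => 1 - t) hy (rad_area.int yy_cont.continuousOn)
  have := R.fin
  have c : ∀ j : ℕ, ContinuousOn (fun z => Complex.normSq z ^ j) (closedBall 0 1) := fun j =>
    (Complex.continuous_normSq.pow j).continuousOn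
  obtain ⟨M, M0, hM⟩ : ∃ M : ℝ, 0 < M ∧ ∀ j : ℕ, ∫ z, Complex.normSq z ^ j
      ∂wt (fun z => RR n (Complex.normSq z)) ≤ M := ⟨_, add_pos_of_nonneg_of_pos
    (integral_nonneg fun _ => zero_le_one) one_pos, fun j => (integral_mono_ae (R.int (c j))
      (integrable_const 1) (R.ae.mono fun z hz => pow_le_one₀ (Complex.normSq_nonneg z)
      (nsq hz).le)).trans (le_add_of_nonneg_right zero_le_one)⟩
  refine ⟨NNReal.mk (√(10 * M)) (Real.sqrt_nonneg _), fun f hf => ?_⟩
  have t := transfer hρ hσ (f := fun ζ => (1 - ζ) * f ζ) (g := f) fun z _ => by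
    rw [sP, norm_mul]
    exact le_of_eq (by ring)
  have hg : MemLp (fun ζ => (1 - ζ) * f ζ) 2 (wt fun z => RR n (Complex.normSq z)) :=
    ⟨(Continuous.aestronglyMeasurable (by fun_prop)).mul (hf.1.mono_ac
      ((withDensity_absolutelyContinuous _ _).trans (withDensity_absolutelyContinuous' hσ.aem
      (hσ.1.mono fun z hz => (ENNReal.ofReal_pos.2 hz).ne')))), t.trans_lt hf.2⟩
  have i := hg.integrable one_le_two
  have i1 := R.mul i (F := fun ζ => 1 - conj ζ) (by fun_prop)
  have e : ∀ ζ, (sP n ζ : ℂ) * f ζ = RR n (Complex.normSq ζ) * ((1 - ζ) * f ζ * (1 - conj ζ)) :=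
    fun ζ => by
      rw [sP, Complex.ofReal_mul, Complex.ofReal_pow, ← Complex.mul_conj', map_sub, map_one]
      ring
  refine ⟨?_, ?_⟩
  · rw [wt, integrable_withDensity_iff_integrable_smul₀' hρ.aem (by simp),
      integrable_congr (hρ.smul_ae _)] at i1
    simpa only [e] using i1
  obtain ⟨b, hb⟩ : ∃ b : ℕ → ℂ, b = fun j => ∫ ζ, (1 - ζ) * f ζ * conj ζ ^ j
    ∂wt fun z => RR n (Complex.normSq z) := ⟨_, rfl⟩
  have B := R.bessel (fun _ => M0) hM hg
  simp only [← congrFun hb, ← sum_div, div_le_iff₀ M0] at B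
  have S : ∀ z, ‖z‖ < 1 → HasSum (fun j : ℕ => ((j : ℂ) + 1) * (b j - b (j + 1)) * z ^ j)
      (bergman (fun ζ => sP n ζ * f ζ) z) := fun z hz => by
    have := R.expand (a := fun j => (j : ℂ) + 1) (k := fun x => 1 / (1 - x) ^ 2) (fun x hx => by
      simpa using hasSum_choose_mul_geometric_of_norm_lt_one 1 hx) i1 hz
    rw [int_c hρ] at this
    simp only [bergman, e, div_eq_mul_one_div (_ * _), mul_assoc (_ : ℂ) (_ * _ * _)]
    refine this.congr_fun fun j => ?_
    rw [hb, ← integral_sub (R.mul i (by fun_prop)) (R.mul i (by fun_prop)), mul_right_comm]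
    congr 2
    funext ζ
    ring
  refine (transfer (wP_pw le_rfl).1 hy (g := fun z => bergman (fun ζ => sP n ζ * f ζ) z / (1 - z))
    fun z _ => le_of_eq (by rw [wP, norm_div]; ring)).trans (le_trans ?_ (mul_le_mul_right t _))
  rw [← ENNReal.pow_le_pow_left_iff (n := 2) (by norm_num), mul_pow, eLp2' hg,
    ← ENNReal.ofReal_coe_nnreal, ← ENNReal.ofReal_pow (NNReal.coe_nonneg _), NNReal.coe_mk,
    Real.sq_sqrt (by positivity), ← ENNReal.ofReal_mul (by positivity)]
  refine Y.fatou (fun z hz => cauchy hz (S z hz)) fun N => (sum_le_sum (g := fun j : ℕ =>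
    2 * ((∑ i ∈ range (j + 1), ‖b i‖) / (j + 1)) ^ 2 + 2 * ‖b (j + 1)‖ ^ 2) fun j _ => ?_).trans ?_
  · have j0 : (0 : ℝ) < j + 1 := by positivity
    have e1 : ∫ z, Complex.normSq z ^ j ∂wt yy ≤ 1 / (j + 1) ^ 2 := by
      rw [int_r hy]
      simp only [yy, sub_mul, one_mul, ← pow_succ']
      rw [integral_sub (rad_area.int (c _)) (rad_area.int (c _)), mom, mom, Nat.cast_succ,
        div_sub_div _ _ j0.ne' (by positivity), div_le_div_iff₀ (by positivity) (by positivity)]
      nlinarith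
    have e2 : ‖∑ i ∈ range (j + 1), b i - (j + 1) * b (j + 1)‖ / (j + 1) ≤
        (∑ i ∈ range (j + 1), ‖b i‖) / (j + 1) + ‖b (j + 1)‖ := by
      rw [div_add' _ _ _ j0.ne']
      refine div_le_div_of_nonneg_right ((norm_sub_le _ _).trans (add_le_add (norm_sum_le _ _)
        (le_of_eq ?_))) j0.le
      rw [norm_mul, ← Nat.cast_succ, Complex.norm_natCast, Nat.cast_succ, mul_comm]
    refine (mul_le_mul_of_nonneg_left e1 (sq_nonneg _)).trans ?_
    rw [tele, mul_one_div, ← div_pow]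
    nlinarith [pow_le_pow_left₀ (by positivity) e2 2,
      sq_nonneg ((∑ i ∈ range (j + 1), ‖b i‖) / (j + 1) - ‖b (j + 1)‖)]
  · have h1 := hardy (fun j => ‖b j‖) N
    have h2 := B (range (N + 1))
    have h3 := B (range N)
    have h4 : 0 ≤ 2 * N * ((∑ j ∈ range N, ‖b j‖) / N) ^ 2 := by positivity
    rw [sum_range_succ'] at h2
    rw [sum_add_distrib, ← mul_sum, ← mul_sum]
    nlinarith [sq_nonneg ‖b 0‖]

lemma ka_cont (hz : ‖z‖ < 1) : ContinuousOn (ka z) (closedBall 0 1) :=
  ContinuousOn.inv₀ (by fun_prop) fun ζ hζ => by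
    simpa [mul_comm] using ka_ne (z := conj ζ) (ζ := conj z) (by simpa using hζ) (by simpa using hz)

lemma coef (hz : ‖z‖ < 1) (N i : ℕ) :
    ∫ ζ, ζ ^ (N + i) * conj ζ ^ N * ka z ζ ∂area = z ^ i * (1 / (N + i + 1) : ℝ) := by
  refine (rad_area.expand (a := fun _ => 1) (k := fun x => (1 - x)⁻¹) (fun x hx => by
    simpa using hasSum_geometric_of_norm_lt_one hx) (rad_area.int (by fun_prop)) hz).unique ?_
  simp only [mul_assoc, ← pow_add, one_mul]
  have e : ((1 / (N + i + 1) : ℝ) : ℂ) = ∫ ζ, ζ ^ (N + i) * conj ζ ^ (N + i) ∂area := by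
    rw [← Nat.cast_add, ← mom, ← integral_complex_ofReal]
    simp only [← mul_pow, Complex.mul_conj, Complex.ofReal_pow]
  rw [e]
  exact hasSum_single (f := fun j => z ^ j * ∫ ζ, ζ ^ (N + i) * conj ζ ^ (N + j) ∂area) i
    fun j hj => by rw [rad_area.orth _ _ (by omega), mul_zero]

lemma low (hz : ‖z‖ < 1) (N : ℕ) : ‖1 - z‖ ^ 2 * ∑ j ∈ range (N + 1), Complex.normSq z ^ j ≤
    2 * (N + 1) * ∫ ζ, Complex.normSq ζ ^ N * (‖1 - ζ‖ ^ 2 * ‖ka z ζ‖ ^ 2) ∂area := by
  have k := ka_cont hz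
  have B := rad_area.bessel (M := fun j => 1 / (j + 1)) (fun _ => by positivity)
    (fun j => (mom j).le) (rad_area.memLp (F := fun ζ => ζ ^ N * (1 - ζ) * conj (ka z ζ))
    (by fun_prop) 2) ((range (N + 1)).map (addLeftEmbedding (N + 1)))
  rw [sum_map, integral_congr_ae (g := fun ζ => Complex.normSq ζ ^ N *
    (‖1 - ζ‖ ^ 2 * ‖ka z ζ‖ ^ 2)) (.of_forall fun ζ => by
      simp only [norm_mul, norm_pow, Complex.norm_conj, Complex.normSq_eq_norm_sq]
      ring)] at B
  rw [← div_le_iff₀' (by positivity), mul_sum, sum_div]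
  refine (sum_le_sum fun j hj => ?_).trans B
  have e : conj (∫ ζ, ζ ^ N * (1 - ζ) * conj (ka z ζ) * conj ζ ^ (N + 1 + j) ∂area) =
      (z - 1) * z ^ j * (1 / ((N + 1 + j : ℕ) + 1) : ℝ) := by
    have e1 := coef hz N (j + 1)
    have e2 := coef hz (N + 1) j
    rw [← integral_conj, integral_congr_ae (g := fun ζ => ζ ^ (N + (j + 1)) * conj ζ ^ N * ka z ζ -
      ζ ^ (N + 1 + j) * conj ζ ^ (N + 1) * ka z ζ) (.of_forall fun ζ => by
        simp only [map_mul, map_pow, map_sub, map_one, Complex.conj_conj]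
        ring), integral_sub (rad_area.int (by fun_prop)) (rad_area.int (by fun_prop)), e1, e2]
    push_cast
    ring
  have j1 : ((N + 1 + j : ℕ) + 1 : ℝ) ≤ 2 * (N + 1) := by
    have := mem_range.1 hj
    norm_cast
    omega
  rw [addLeftEmbedding_apply, ← Complex.norm_conj (∫ _, _ ∂_), e, norm_mul, norm_mul, norm_pow, norm_sub_rev z,
    Complex.norm_real, Real.norm_of_nonneg (by positivity), Complex.normSq_eq_norm_sq]
  refine (div_le_div_of_nonneg_left (by positivity) (by positivity) j1).trans_eq ?_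
  field_simp
  ring

lemma sP_int : Integrable (sP n) area :=
  (rad_area.mul (RR_int n) (F := fun z => ‖1 - z‖ ^ 2) (by fun_prop)).congr
    (.of_forall fun _ => mul_comm _ _)

lemma plus_low (hz : ‖z‖ < 1) (k : ℕ) : (1 / 2) ^ k / 2 * (‖1 - z‖ ^ 2 *
    ∑ j ∈ range (n k + 1), Complex.normSq z ^ j) ≤ ‖bergmanPlus (fun ζ => sP n ζ * 1) z‖ := by
  have c := ka_cont hz
  have e : bergmanPlus (fun ζ => sP n ζ * 1) z = (∫ ζ, sP n ζ * ‖ka z ζ‖ ^ 2 ∂area : ℝ) := by
    simp only [bergmanPlus, ← integral_complex_ofReal, mul_one, ka, norm_inv, inv_pow,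
      ← div_eq_mul_inv, Complex.ofReal_div]
  rw [e, Complex.norm_real]
  refine (mul_le_mul_of_nonneg_left (low hz _) (by positivity)).trans (le_trans ?_ ((integral_mono_ae
    (rad_area.int (F := fun ζ => TT n k (Complex.normSq ζ) * (‖1 - ζ‖ ^ 2 * ‖ka z ζ‖ ^ 2))
    ((TT_cont n k).continuousOn.mul (by fun_prop))) (rad_area.mul (sP_int n) (by fun_prop)) (area_ae.mono fun ζ hζ => ?_)).trans
    (le_abs_self _)))
  · simp only [TT, mul_assoc, integral_const_mul]
    exact le_of_eq (by ring)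
  · simp only [sP, mul_comm (‖1 - ζ‖ ^ 2) (RR _ _), mul_assoc]
    exact mul_le_mul_of_nonneg_right (TT_le n k (Complex.normSq_nonneg _) (nsq hζ)) (by positivity)

lemma mass (N : ℕ) : ∑ j ∈ range (N + 1), (1 / (j + 1) : ℝ) - 1 ≤ ∫ z, (1 - Complex.normSq z) *
    (∑ j ∈ range (N + 1), Complex.normSq z ^ j) ^ 2 ∂area := by
  have c : ∀ j : ℕ, Integrable (fun z => Complex.normSq z ^ j) area := fun j =>
    rad_area.int (Complex.continuous_normSq.pow j).continuousOn
  have e : ∀ t : ℝ, (1 - t) * (∑ j ∈ range (N + 1), t ^ j) ^ 2 =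
      ∑ j ∈ range (N + 1), (t ^ j - t ^ (N + 1 + j)) := fun t => by
    rw [sq, ← mul_assoc, mul_neg_geom_sum, mul_sum]
    exact sum_congr rfl fun j _ => by ring
  simp only [e]
  rw [integral_finsetSum _ fun j _ => isub (c _) (c _)]
  simp only [integral_sub (c _) (c _), mom, sum_sub_distrib]
  refine sub_le_sub_left ((sum_le_card_nsmul _ _ (1 / (N + 1) : ℝ) fun j _ => ?_).trans_eq ?_) _
  · refine one_div_le_one_div_of_le (by positivity) ?_
    norm_cast
    omega
  · rw [card_range, nsmul_eq_mul, Nat.cast_succ, mul_one_div_cancel (by positivity)]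

theorem cex_plus : ∃ n, ¬ CondBPlus wP (sP n) := by
  choose n hn using fun k : ℕ => ((tendsto_add_atTop_iff_nat 1).2
    tendsto_sum_range_one_div_nat_succ_atTop).eventually_ge_atTop (k / ((1 / 2) ^ k / 2) ^ 2 + 1)
    |>.exists
  refine ⟨n, fun ⟨C, H⟩ => ?_⟩
  have : IsFiniteMeasure (wt (sP n)) := isFiniteMeasure_withDensity_ofReal (sP_int n).2
  have l : MemLp (fun _ => (1 : ℂ)) 2 (wt (sP n)) := memLp_const 1
  obtain ⟨k, hk⟩ := ENNReal.exists_nat_gt (ENNReal.pow_ne_top (n := 2)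
    ((H _ l).2.trans_lt (ENNReal.mul_lt_top ENNReal.coe_lt_top l.2)).ne)
  obtain ⟨c, hc⟩ : ∃ c : ℝ, c = (1 / 2) ^ k / 2 := ⟨_, rfl⟩
  have c0 : 0 < c := by rw [hc]; positivity
  have ct : Continuous fun z => c ^ 2 * ((1 - Complex.normSq z) *
      (∑ j ∈ range (n k + 1), Complex.normSq z ^ j) ^ 2) := by
    have := Complex.continuous_normSq
    fun_prop
  have w := weight_of ct.continuousOn fun z hz h0 => by
    have := Complex.normSq_pos.2 h0
    have := sub_pos.2 (nsq hz)
    have : 0 < ∑ j ∈ range (n k + 1), Complex.normSq z ^ j :=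
      sum_pos (fun _ _ => by positivity) nonempty_range_add_one
    positivity
  have R := rad (fun t => c ^ 2 * ((1 - t) * (∑ j ∈ range (n k + 1), t ^ j) ^ 2)) w
    (rad_area.int ct.continuousOn)
  have t := transfer w (wP_pw le_rfl).1 (f := fun z => ∑ j ∈ range 2, (-1) ^ j * z ^ j)
    (g := bergmanPlus fun ζ => sP n ζ * 1) fun z hz => by
      have := norm_pos_iff.2 (one_sub_ne hz)
      refine le_trans (le_of_eq ?_) (mul_le_mul_of_nonneg_left (pow_le_pow_left₀ (mul_nonneg
        (by positivity) (mul_nonneg (by positivity) (sum_nonneg fun _ _ => pow_nonneg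
        (Complex.normSq_nonneg _) _))) (plus_low n hz k) 2) ((wP_pw le_rfl).2.1 z (by simpa)))
      rw [← hc, wP, yy, show ∑ j ∈ range 2, (-1) ^ j * z ^ j = 1 - z by simp [sum_range_succ]; ring]
      field_simp
  refine hk.not_ge (le_trans ?_ (pow_le_pow_left' t 2))
  rw [eLp2' (R.memLp (by fun_prop) 2), R.pyth, ← ENNReal.ofReal_natCast, sum_range_succ,
    sum_range_one, int_r w]
  refine ENNReal.ofReal_le_ofReal (le_add_of_le_of_nonneg ?_ (mul_nonneg (sq_nonneg _)
    (integral_nonneg fun _ => pow_nonneg (Complex.normSq_nonneg _) _)))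
  simp only [pow_zero, norm_one, one_pow, one_mul, mul_one, integral_const_mul]
  have := hn k
  rw [← hc] at this
  rw [← div_le_iff₀' (by positivity)]
  linarith [mass (n k)]

end

end Pool.Agent.P.MP_c45a97_an.Pl
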