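import Pool.Agent.P.MP_c45a97_an.Defs

/-! The maximal Bergman projection and weights with a subharmonic power. -/

namespace Pool.Agent.P.MP_c45a97_an

open MeasureTheory
open scoped ComplexConjugate ENNReal NNReal

/-- The maximal Bergman projection. -/
noncomputable def bergmanPlus (f : ℂ → ℂ) (z : ℂ) : ℂ :=
  ∫ ζ, f ζ / ((‖1 - z * conj ζ‖ ^ 2 : ℝ) : ℂ) ∂area

/-- Condition (B) for the maximal Bergman projection. -/
def CondBPlus (w σ : ℂ → ℝ) : Prop :=
  ∃ C : ℝ≥0, ∀ f : ℂ → ℂ, MemLp f 2 (wt σ) → Integrable (fun ζ => (σ ζ : ℂ) * f ζ) area ∧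
    eLpNorm (bergmanPlus fun ζ => (σ ζ : ℂ) * f ζ) 2 (wt w) ≤ C * eLpNorm f 2 (wt σ)

/-- A real subharmonic function on the unit disc: upper semicontinuous, and at most its mean
over every circle that bounds a closed disc inside the unit disc. -/
def Subharmonic (u : ℂ → ℝ) : Prop :=
  UpperSemicontinuousOn u (Metric.ball 0 1) ∧ ∀ (a : ℂ) (r : ℝ), 0 < r →
    Metric.closedBall a r ⊆ Metric.ball 0 1 →
      CircleIntegrable u a r ∧ u a ≤ Real.circleAverage u a r

/-- A nonnegative weight whose `p`-th power is subharmonic. -/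
def PWeight (p : ℝ) (w : ℂ → ℝ) : Prop :=
  IsWeight w ∧ (∀ z ∈ Metric.ball (0 : ℂ) 1, 0 ≤ w z) ∧ Subharmonic fun z => w z ^ p

end Pool.Agent.P.MP_c45a97_an
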