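import Pool.Agent.P.MP_c45a97_an.Est

/-! The stopping boxes and the packing estimates. -/

set_option linter.unusedSectionVars false

namespace Pool.Agent.P.MP_c45a97_an

open MeasureTheory

section Abstract

variable (st : ℕ × ℕ → ℕ → ℕ → Prop)

open Classical in
/-- The smallest stopping node above a node. -/
noncomputable def pr : ℕ → ℕ → ℕ × ℕ
  | 0, j => (0, j)
  | k + 1, j => if st (pr k (j / MM)) (k + 1) j then (k + 1, j) else pr k (j / MM)

variable {st}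

lemma pr_succ_pos {k j : ℕ} (h : st (pr st k (j / MM)) (k + 1) j) :
    pr st (k + 1) j = (k + 1, j) := by
  rw [pr, if_pos h]

lemma pr_succ_neg {k j : ℕ} (h : ¬ st (pr st k (j / MM)) (k + 1) j) :
    pr st (k + 1) j = pr st k (j / MM) := by
  rw [pr, if_neg h]

lemma pr_le (k : ℕ) : ∀ j, (pr st k j).1 ≤ k := by
  induction k with
  | zero => intro j; simp [pr]
  | succ k ih =>
    intro j
    by_cases h : st (pr st k (j / MM)) (k + 1) j
    · rw [pr_succ_pos h]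
    · rw [pr_succ_neg h]
      exact (ih _).trans (Nat.le_succ k)

lemma pr_lt (k : ℕ) : ∀ j, j < MM ^ k → (pr st k j).2 < MM ^ (pr st k j).1 := by
  induction k with
  | zero => intro j hj; simpa [pr] using hj
  | succ k ih =>
    intro j hj
    by_cases h : st (pr st k (j / MM)) (k + 1) j
    · rw [pr_succ_pos h]
      exact hj
    · rw [pr_succ_neg h]
      refine ih _ ?_
      rw [Nat.div_lt_iff_lt_mul MM_pos, ← pow_succ]
      exact hj

lemma box_subset_pr (a : ℝ) (k : ℕ) : ∀ j, box a k j ⊆ box a (pr st k j).1 (pr st k j).2 := by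
  induction k with
  | zero => intro j; simp [pr]
  | succ k ih =>
    intro j
    by_cases h : st (pr st k (j / MM)) (k + 1) j
    · rw [pr_succ_pos h]
    · rw [pr_succ_neg h]
      exact (box_succ_subset k j).trans (ih _)

lemma pr_pr (k : ℕ) : ∀ j, pr st (pr st k j).1 (pr st k j).2 = pr st k j := by
  induction k with
  | zero => intro j; simp [pr]
  | succ k ih =>
    intro j
    by_cases h : st (pr st k (j / MM)) (k + 1) j
    · rw [pr_succ_pos h]
      exact pr_succ_pos h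
    · rw [pr_succ_neg h]
      exact ih _

lemma pr_mono (a : ℝ) (x : X) {i k : ℕ} (h : i ≤ k) :
    (pr st i (idx a i x)).1 ≤ (pr st k (idx a k x)).1 := by
  induction k, h using Nat.le_induction with
  | base => rfl
  | succ k h ih =>
    refine ih.trans ?_
    by_cases h' : st (pr st k (idx a (k + 1) x / MM)) (k + 1) (idx a (k + 1) x)
    · rw [pr_succ_pos h']
      exact (pr_le k _).trans (Nat.le_succ k)
    · rw [pr_succ_neg h', idx_succ_div]

lemma pr_self_or (k j : ℕ) : pr st k j = (k, j) ∨ ¬ st (pr st k j) k j := by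
  cases k with
  | zero => left; rfl
  | succ k =>
    by_cases h : st (pr st k (j / MM)) (k + 1) j
    · exact Or.inl (pr_succ_pos h)
    · right
      rwa [pr_succ_neg h]

lemma st_of_pr_self {k j : ℕ} (h : pr st (k + 1) j = (k + 1, j)) :
    st (pr st k (j / MM)) (k + 1) j := by
  by_contra h'
  rw [pr_succ_neg h'] at h
  have := pr_le (st := st) k (j / MM)
  rw [h] at this
  simp at this

def nodes (n : ℕ) : Finset (ℕ × ℕ) :=
  ((Finset.range n).sigma (fun k => Finset.range (MM ^ k))).map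
    (Equiv.sigmaEquivProd ℕ ℕ).toEmbedding

lemma mem_nodes {n : ℕ} {I : ℕ × ℕ} : I ∈ nodes n ↔ I.1 < n ∧ I.2 < MM ^ I.1 := by
  simp [nodes]

lemma sum_nodes (n : ℕ) (f : ℕ × ℕ → ℝ) :
    ∑ I ∈ nodes n, f I = ∑ k ∈ Finset.range n, ∑ j ∈ Finset.range (MM ^ k), f (k, j) := by
  rw [nodes, Finset.sum_map, Finset.sum_sigma]
  rfl

variable (st)

noncomputable def SF (n : ℕ) : Finset (ℕ × ℕ) := (nodes n).filter (fun I => pr st I.1 I.2 = I)

noncomputable def SFp (n : ℕ) : Finset (ℕ × ℕ) := (SF st n).filter (fun I => 1 ≤ I.1)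

noncomputable def par (I : ℕ × ℕ) : ℕ × ℕ := pr st (I.1 - 1) (I.2 / MM)

noncomputable def ch (n : ℕ) (F : ℕ × ℕ) : Finset (ℕ × ℕ) :=
  (SFp st n).filter (fun I => par st I = F)

variable {st}

lemma pr_mem_SF {n k j : ℕ} (hk : k < n) (hj : j < MM ^ k) : pr st k j ∈ SF st n :=
  Finset.mem_filter.2 ⟨mem_nodes.2 ⟨(pr_le k j).trans_lt hk, pr_lt k j hj⟩, pr_pr k j⟩

lemma mem_SFp {n : ℕ} {I : ℕ × ℕ} (h : I ∈ SFp st n) : ∃ k j, I = (k + 1, j) ∧ k + 1 < n ∧
    j < MM ^ (k + 1) ∧ pr st (k + 1) j = (k + 1, j) := by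
  obtain ⟨i, j⟩ := I
  simp only [SFp, SF, Finset.mem_filter, mem_nodes] at h
  obtain ⟨⟨⟨h1, h2⟩, h3⟩, h4⟩ := h
  obtain ⟨k, rfl⟩ : ∃ k, i = k + 1 := ⟨i - 1, by omega⟩
  exact ⟨k, j, rfl, h1, h2, h3⟩

lemma par_mem_SF {n : ℕ} {I : ℕ × ℕ} (h : I ∈ SFp st n) : par st I ∈ SF st n := by
  obtain ⟨k, j, rfl, h1, h2, -⟩ := mem_SFp h
  refine pr_mem_SF (by simp only; omega) ?_
  simp only [Nat.add_sub_cancel]
  rw [Nat.div_lt_iff_lt_mul MM_pos, ← pow_succ]
  exact h2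

lemma sum_ch (n : ℕ) (f : ℕ × ℕ → ℝ) :
    ∑ F ∈ SF st n, ∑ I ∈ ch st n F, f I = ∑ I ∈ SFp st n, f I :=
  Finset.sum_fiberwise_of_maps_to (fun _ hI => par_mem_SF hI) f

lemma ch_subset (a : ℝ) {n : ℕ} {F I : ℕ × ℕ} (h : I ∈ ch st n F) :
    box a I.1 I.2 ⊆ box a F.1 F.2 := by
  obtain ⟨h1, rfl⟩ := Finset.mem_filter.1 h
  obtain ⟨k, j, rfl, -, -, -⟩ := mem_SFp h1
  exact (box_succ_subset k j).trans (box_subset_pr a k _)

lemma ch_st {n : ℕ} {F I : ℕ × ℕ} (h : I ∈ ch st n F) : st F I.1 I.2 := by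
  obtain ⟨h1, rfl⟩ := Finset.mem_filter.1 h
  obtain ⟨k, j, rfl, -, -, h2⟩ := mem_SFp h1
  exact st_of_pr_self h2

lemma ch_valid {n : ℕ} {F I : ℕ × ℕ} (h : I ∈ ch st n F) : I.2 < MM ^ I.1 := by
  obtain ⟨k, j, rfl, -, h2, -⟩ := mem_SFp (Finset.mem_filter.1 h).1
  exact h2

lemma ch_disjoint (a : ℝ) (n : ℕ) (F : ℕ × ℕ) :
    ((ch st n F : Finset (ℕ × ℕ)) : Set (ℕ × ℕ)).PairwiseDisjoint fun I => box a I.1 I.2 := by
  have key : ∀ I ∈ ch st n F, ∀ I' ∈ ch st n F, ∀ x, x ∈ box a I.1 I.2 → x ∈ box a I'.1 I'.2 →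
      ¬ I.1 < I'.1 := by
    intro I hI I' hI' x hx hx' hlt
    obtain ⟨h1, e1⟩ := Finset.mem_filter.1 hI
    obtain ⟨h2, e2⟩ := Finset.mem_filter.1 hI'
    obtain ⟨k, j, rfl, -, -, h3⟩ := mem_SFp h1
    obtain ⟨k', j', rfl, -, -, -⟩ := mem_SFp h2
    simp only [par, Nat.add_sub_cancel] at e1 e2 hlt
    have a1 := pr_mono (st := st) a x (i := k + 1) (k := k') (by omega)
    have a2 : idx a (k + 1) x = j := hx.2
    have a3 : idx a (k' + 1) x = j' := hx'.2
    rw [a2, h3, ← idx_succ_div k' x, a3, e2, ← e1] at a1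
    have := pr_le (st := st) k (j / MM)
    simp only at a1
    omega
  intro I hI I' hI' hne
  rw [Function.onFun, Set.disjoint_left]
  intro x hx hx'
  have b1 := key I hI I' hI' x hx hx'
  have b2 := key I' hI' I hI x hx' hx
  have b3 : I.1 = I'.1 := by omega
  refine hne (Prod.ext b3 ?_)
  rw [← hx.2, ← hx'.2, b3]

lemma sum_one_ch_le (a : ℝ) (n : ℕ) (F : ℕ × ℕ) (x : X) :
    ∑ I ∈ ch st n F, one (box a I.1 I.2) x ≤ one (box a F.1 F.2) x := by
  by_cases h : ∃ I ∈ ch st n F, x ∈ box a I.1 I.2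
  · obtain ⟨I, hI, hx⟩ := h
    rw [Finset.sum_eq_single I, one_of_mem hx, one_of_mem (ch_subset a hI hx)]
    · intro I' hI' hne
      exact one_of_notMem fun hx' =>
        Set.disjoint_left.1 (ch_disjoint a n F hI' hI hne) hx' hx
    · intro h
      exact absurd hI h
  · push Not at h
    rw [Finset.sum_eq_zero fun I hI => one_of_notMem (h I hI)]
    exact one_nonneg _ _

lemma sum_SF_le (n : ℕ) (f : ℕ × ℕ → ℝ) (h0 : 0 ≤ f (0, 0)) :
    ∑ F ∈ SF st n, f F ≤ f (0, 0) + ∑ I ∈ SFp st n, f I := by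
  rw [← Finset.sum_filter_add_sum_filter_not (SF st n) (fun I => 1 ≤ I.1), add_comm]
  refine add_le_add ?_ le_rfl
  have : (SF st n).filter (fun I => ¬ 1 ≤ I.1) ⊆ {(0, 0)} := by
    rintro ⟨i, j⟩ hI
    simp only [SF, Finset.mem_filter, mem_nodes] at hI
    obtain ⟨⟨⟨-, h2⟩, -⟩, h4⟩ := hI
    have hi : i = 0 := by omega
    subst hi
    simpa using h2
  rcases Finset.subset_singleton_iff.1 this with h | h
  · rw [h, Finset.sum_empty]
    exact h0
  · rw [h, Finset.sum_singleton]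

end Abstract

variable {κ : X → X → ℝ} {μ ν : Measure X} [IsFiniteMeasure μ] [IsFiniteMeasure ν] {C a : ℝ}

noncomputable def al (μ : Measure X) (a : ℝ) (φ : X → ℝ) (I : ℕ × ℕ) : ℝ :=
  avg μ a (fun x => |φ x|) I.1 I.2

lemma al_nonneg (φ : X → ℝ) (I : ℕ × ℕ) : 0 ≤ al μ a φ I :=
  div_nonneg (integral_nonneg fun _ => abs_nonneg _) measureReal_nonneg

lemma abs_avg_le (φ : X → ℝ) (k j : ℕ) : |avg μ a φ k j| ≤ al μ a φ (k, j) := by
  unfold al avg
  rw [abs_div, abs_of_nonneg (measureReal_nonneg (μ := μ))]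
  gcongr
  exact abs_integral_le_integral_abs

/-- The stopping rule. -/
def stp (μ ν : Measure X) (C a : ℝ) (n : ℕ) (φ : X → ℝ) (F : ℕ × ℕ) (k j : ℕ) : Prop :=
  4 * C * μ.real (box a k j) < Phi μ ν a n (box a F.1 F.2) k j ∨ 4 * al μ a φ F < al μ a φ (k, j)

variable {n : ℕ} {φ : X → ℝ}

lemma abs_avg_le_pr (k j : ℕ) :
    |avg μ a φ k j| ≤ 4 * al μ a φ (pr (stp μ ν C a n φ) k j) := by
  refine (abs_avg_le φ k j).trans ?_
  rcases pr_self_or (st := stp μ ν C a n φ) k j with h | h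
  · rw [h]
    linarith [al_nonneg (μ := μ) (a := a) φ (k, j)]
  · exact not_lt.1 fun h' => h (Or.inr h')

lemma Hyp.sum_Phi (H : Hyp κ μ ν C) {st : ℕ × ℕ → ℕ → ℕ → Prop} {F : ℕ × ℕ}
    (hF : F.2 < MM ^ F.1) :
    ∑ I ∈ ch st n F, Phi μ ν a n (box a F.1 F.2) I.1 I.2 ≤ C * μ.real (box a F.1 F.2) := by
  have e : ∀ I ∈ ch st n F, Sec (-a + I.2 * hh I.1) (hh I.1) (hh I.1) = box a I.1 I.2 :=
    fun I hI => (box_eq_Sec (ch_valid hI)).symm
  have := H.piv (ch st n F) (-a + F.2 * hh F.1) (hh F.1) (hh_pos _) (hh_le_one _)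
    (fun I => -a + I.2 * hh I.1) (fun I => hh I.1) (fun I _ => ⟨hh_pos _, hh_le_one _⟩)
    (fun I hI => by rw [e I hI, ← box_eq_Sec hF]; exact ch_subset a hI)
    (fun I hI I' hI' hne => by
      rw [Function.onFun, e I hI, e I' hI']
      exact ch_disjoint a n F hI hI' hne)
    (fun I => Om a n I.1 I.2) (fun I => measurableSet_Om _ _ _)
    (fun I hI z hz => by rw [e I hI]; exact hz.1)
    (fun I hI z hz ζ hζ => by rw [e I hI] at hζ; exact (Om_sep hz hζ).1)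
  rw [← box_eq_Sec hF] at this
  refine le_trans (le_of_eq (Finset.sum_congr rfl fun I hI => ?_)) this
  rw [e I hI, Phi]

lemma Hyp.local_pack (H : Hyp κ μ ν C) (hφ : Bdd φ) {F : ℕ × ℕ} (hF : F.2 < MM ^ F.1) :
    al μ a φ F ^ 2 * μ.real (box a F.1 F.2) ≤
      3 / 2 * (∫ x in box a F.1 F.2, φ x ^ 2 ∂μ
        - ∑ I ∈ ch (stp μ ν C a n φ) n F, ∫ x in box a I.1 I.2, φ x ^ 2 ∂μ)
      + 3 / 4 * ∑ I ∈ ch (stp μ ν C a n φ) n F, al μ a φ I ^ 2 * μ.real (box a I.1 I.2) := by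
  set s := ch (stp μ ν C a n φ) n F with hs
  set α := al μ a φ F with hα
  have hα0 : 0 ≤ α := al_nonneg φ F
  have hC := H.C0
  set E : X → ℝ := fun x => one (box a F.1 F.2) x - ∑ I ∈ s, one (box a I.1 I.2) x with hE
  have hE0 : ∀ x, 0 ≤ E x := fun x => sub_nonneg.2 (sum_one_ch_le a n F x)
  have hEb : Bdd E := (Bdd.one (measurableSet_box _ _)).sub
    (Bdd.sum fun I _ => Bdd.one (measurableSet_box _ _))
  have intE : ∀ u : X → ℝ, Bdd u → ∫ x, E x * u x ∂μ =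
      ∫ x in box a F.1 F.2, u x ∂μ - ∑ I ∈ s, ∫ x in box a I.1 I.2, u x ∂μ := by
    intro u hu
    simp only [hE, sub_mul, Finset.sum_mul]
    rw [integral_sub ((Bdd.one (measurableSet_box _ _)).mul hu).integrable
      (Bdd.sum fun I _ => (Bdd.one (measurableSet_box _ _)).mul hu).integrable,
      integral_finsetSum _ fun I _ => ((Bdd.one (measurableSet_box _ _)).mul hu).integrable]
    simp only [integral_one_mul (measurableSet_box _ _)]
  have e1 := intE (fun x => |φ x|) hφ.abs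
  have e2 := intE (fun x => φ x ^ 2) hφ.sq
  have e3 := intE (fun _ => 1) (Bdd.const 1)
  simp only [← avg_mul (fun x => |φ x|)] at e1
  simp only [integral_const, smul_eq_mul, mul_one, measureReal_restrict_apply_univ] at e3
  have e1' : ∫ x, E x * |φ x| ∂μ = α * μ.real (box a F.1 F.2)
      - ∑ I ∈ s, al μ a φ I * μ.real (box a I.1 I.2) := e1
  have i0 : 0 ≤ ∫ x, E x * |φ x| ∂μ := integral_nonneg fun x => mul_nonneg (hE0 x) (abs_nonneg _)
  have i1 : α * ∫ x, E x * |φ x| ∂μ ≤ α ^ 2 / 3 * ∫ x, E x ∂μ + 3 / 4 * ∫ x, E x * φ x ^ 2 ∂μ := by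
    rw [← integral_const_mul, ← integral_const_mul, ← integral_const_mul,
      ← integral_add (hEb.const_mul _).integrable ((hEb.mul hφ.sq).const_mul _).integrable]
    refine integral_mono ((hEb.mul hφ.abs).const_mul _).integrable
      ((hEb.const_mul _).add ((hEb.mul hφ.sq).const_mul _)).integrable fun x => ?_
    simp only
    rw [← sq_abs (φ x)]
    nlinarith [mul_nonneg (hE0 x) (sq_nonneg (2 * α - 3 * |φ x|))]
  have i2 : ∑ I ∈ s, α ^ 2 * μ.real (box a I.1 I.2) ≤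
      ∑ I ∈ s, (α ^ 2 / (4 * C) * Phi μ ν a n (box a F.1 F.2) I.1 I.2
        + α / 4 * (al μ a φ I * μ.real (box a I.1 I.2))) := by
    refine Finset.sum_le_sum fun I hI => ?_
    have p0 := Phi_nonneg (μ := μ) (ν := ν) (a := a) n (box a F.1 F.2) I.1 I.2
    have m0 : 0 ≤ μ.real (box a I.1 I.2) := measureReal_nonneg
    have a0 := al_nonneg (μ := μ) (a := a) φ I
    rcases ch_st hI with h | h
    · have : α ^ 2 * μ.real (box a I.1 I.2) ≤
          α ^ 2 / (4 * C) * Phi μ ν a n (box a F.1 F.2) I.1 I.2 := by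
        rw [div_mul_eq_mul_div, le_div_iff₀ (by positivity)]
        nlinarith [mul_le_mul_of_nonneg_left h.le (sq_nonneg α)]
      have : 0 ≤ α / 4 * (al μ a φ I * μ.real (box a I.1 I.2)) := by positivity
      linarith
    · have h' : 4 * α ≤ al μ a φ I := h.le
      have : α ^ 2 * μ.real (box a I.1 I.2) ≤ α / 4 * (al μ a φ I * μ.real (box a I.1 I.2)) := by
        nlinarith [mul_le_mul_of_nonneg_left h' (mul_nonneg hα0 m0)]
      have : 0 ≤ α ^ 2 / (4 * C) * Phi μ ν a n (box a F.1 F.2) I.1 I.2 := by positivity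
      linarith
  rw [Finset.sum_add_distrib, ← Finset.mul_sum, ← Finset.mul_sum, ← Finset.mul_sum] at i2
  have i3 : α ^ 2 / (4 * C) * ∑ I ∈ s, Phi μ ν a n (box a F.1 F.2) I.1 I.2 ≤
      α ^ 2 * μ.real (box a F.1 F.2) / 4 := by
    calc _ ≤ α ^ 2 / (4 * C) * (C * μ.real (box a F.1 F.2)) := by
          gcongr
          exact H.sum_Phi hF
      _ = _ := by field_simp
  have i4 : α * ∑ I ∈ s, al μ a φ I * μ.real (box a I.1 I.2) ≤
      2 / 3 * α ^ 2 * ∑ I ∈ s, μ.real (box a I.1 I.2)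
        + 3 / 8 * ∑ I ∈ s, al μ a φ I ^ 2 * μ.real (box a I.1 I.2) := by
    rw [Finset.mul_sum, Finset.mul_sum, Finset.mul_sum, ← Finset.sum_add_distrib]
    refine Finset.sum_le_sum fun I _ => ?_
    have m0 : 0 ≤ μ.real (box a I.1 I.2) := measureReal_nonneg
    nlinarith [mul_nonneg m0 (sq_nonneg (4 * α - 3 * al μ a φ I))]
  rw [e1'] at i0 i1
  rw [e3, e2] at i1
  have i5 := mul_nonneg hα0 i0
  nlinarith

lemma Hyp.pack (H : Hyp κ μ ν C) (hφ : Bdd φ) :
    ∑ F ∈ SF (stp μ ν C a n φ) n, al μ a φ F ^ 2 * μ.real (box a F.1 F.2) ≤ 6 * nn μ φ := by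
  have h1 := Finset.sum_le_sum (s := SF (stp μ ν C a n φ) n) fun F hF =>
    H.local_pack (a := a) (n := n) hφ (mem_nodes.1 (Finset.mem_filter.1 hF).1).2
  rw [Finset.sum_add_distrib, ← Finset.mul_sum, ← Finset.mul_sum, Finset.sum_sub_distrib,
    sum_ch, sum_ch] at h1
  have h2 := sum_SF_le (st := stp μ ν C a n φ) n (fun I => ∫ x in box a I.1 I.2, φ x ^ 2 ∂μ)
    (integral_nonneg fun _ => sq_nonneg _)
  simp only [box_zero, Measure.restrict_univ] at h2
  have h3 : ∑ F ∈ SFp (stp μ ν C a n φ) n, al μ a φ F ^ 2 * μ.real (box a F.1 F.2) ≤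
      ∑ F ∈ SF (stp μ ν C a n φ) n, al μ a φ F ^ 2 * μ.real (box a F.1 F.2) :=
    Finset.sum_le_sum_of_subset_of_nonneg (Finset.filter_subset _ _)
      fun F _ _ => mul_nonneg (sq_nonneg _) measureReal_nonneg
  unfold nn
  linarith

end Pool.Agent.P.MP_c45a97_an
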