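import Pool.Agent.P.MP_c45a97_an.Geom

/-! Testing on boxes and the resulting Muckenhoupt-type bounds. -/

namespace Pool.Agent.P.MP_c45a97_an

open MeasureTheory
open scoped ComplexConjugate

/-- The Bergman kernel integrated over a set. -/
noncomputable def PS (μ : Measure X) (S : Set X) (z : X) : ℂ := ∫ ζ in S, ker z ζ ∂μ

/-- The testing condition on boxes. -/
def Test (μ ν : Measure X) (T : ℝ) : Prop :=
  0 ≤ T ∧ ∀ a ℓ : ℝ, 0 < ℓ → ℓ ≤ 1 →
    Integrable (fun z => ‖PS μ (Sec a ℓ ℓ) z‖ ^ 2) ν ∧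
      ∫ z, ‖PS μ (Sec a ℓ ℓ) z‖ ^ 2 ∂ν ≤ T * μ.real (Sec a ℓ ℓ)

variable {μ ν : Measure X} [IsFiniteMeasure μ] [IsFiniteMeasure ν] {T T' : ℝ}

lemma measurable_dl_left (ζ : X) : Measurable (fun z => dl z ζ) :=
  Measurable.comp (g := fun p : X × X => dl p.1 p.2) (f := fun z => (z, ζ)) measurable_dl
    measurable_prodMk_right

lemma measurable_dl_right (z : X) : Measurable (fun ζ => dl z ζ) :=
  Measurable.comp (g := fun p : X × X => dl p.1 p.2) (f := fun ζ => (z, ζ)) measurable_dl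
    measurable_prodMk_left

lemma measurable_ker_right (z : X) : Measurable (fun ζ => ker z ζ) :=
  (Measurable.of_uncurry_left (f := ker) measurable_ker)

lemma inv_pow_dl_le {z ζ : X} {c : ℝ} (hc : 0 < c) (h : c ≤ dl z ζ) (n : ℕ) :
    1 / dl z ζ ^ n ≤ 1 / c ^ n := by
  gcongr

lemma integrable_ker (z : X) : Integrable (fun ζ => ker z ζ) μ := by
  refine Integrable.of_bound (measurable_ker_right z).aestronglyMeasurable (1 / ht z ^ 2) ?_
  refine Filter.Eventually.of_forall fun ζ => ?_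
  rw [norm_ker]
  exact inv_pow_dl_le (ht_pos z) (ht_le_dl z ζ) 2

lemma integrable_inv_dl_left (ζ : X) (n : ℕ) : Integrable (fun z => 1 / dl z ζ ^ n) ν := by
  refine Integrable.of_bound ((measurable_dl_left ζ).pow_const n |>.const_div 1).aestronglyMeasurable
    (1 / ht ζ ^ n) ?_
  refine Filter.Eventually.of_forall fun z => ?_
  have := dl_pos z ζ
  rw [Real.norm_eq_abs, abs_of_pos (by positivity)]
  exact inv_pow_dl_le (ht_pos ζ) (ht_le_dl' z ζ) n

lemma integrable_inv_dl_right (z : X) (n : ℕ) : Integrable (fun ζ => 1 / dl z ζ ^ n) μ := by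
  simp_rw [dl_comm z]
  exact integrable_inv_dl_left z n

lemma measurable_PS (S : Set X) : Measurable (PS μ S) :=
  (MeasureTheory.StronglyMeasurable.integral_prod_right (ν := μ.restrict S)
    (f := fun z ζ => ker z ζ) measurable_ker.stronglyMeasurable).measurable

lemma norm_PS_le (S : Set X) {z : X} {c : ℝ} (hc : 0 < c) (h : c ≤ ht z) :
    ‖PS μ S z‖ ≤ μ.real S / c ^ 2 := by
  have := norm_setIntegral_le_of_norm_le_const (μ := μ) (s := S) (f := fun ζ => ker z ζ)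
    (C := 1 / c ^ 2) (measure_lt_top _ _) (fun ζ _ => by
      rw [norm_ker]
      exact inv_pow_dl_le hc (h.trans (ht_le_dl z ζ)) 2)
  unfold PS
  calc _ ≤ _ := this
    _ = _ := by ring

lemma integrableOn_norm_PS (S : Set X) {U : Set X} (hU : MeasurableSet U) {c : ℝ} (hc : 0 < c)
    (h : ∀ z ∈ U, c ≤ ht z) : IntegrableOn (fun z => ‖PS μ S z‖) U ν := by
  refine Integrable.of_bound (measurable_PS S).norm.aestronglyMeasurable (μ.real S / c ^ 2) ?_
  refine (ae_restrict_iff' hU).2 (Filter.Eventually.of_forall fun z hz => ?_)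
  rw [norm_norm]
  exact norm_PS_le S hc (h z hz)

lemma PS_union {S S' : Set X} (hd : Disjoint S S') (hS' : MeasurableSet S') (z : X) :
    PS μ (S ∪ S') z = PS μ S z + PS μ S' z :=
  setIntegral_union hd hS' (integrable_ker z).integrableOn (integrable_ker z).integrableOn

lemma Sec_union {u w w' h : ℝ} (hw : 0 ≤ w) (hw' : 0 ≤ w') (hs : w + w' ≤ 1) :
    Sec u (w + w') h = Sec u w h ∪ Sec (u + w) w' h := by
  ext z
  rw [Set.mem_union, mem_Sec_shift hw hs hw']
  simp only [Sec, Set.mem_ofPred_eq]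
  constructor
  · rintro ⟨h1, h2⟩
    rcases lt_or_ge (Int.fract (ang z - u)) w with h3 | h3
    · exact Or.inl ⟨h1, h3⟩
    · exact Or.inr ⟨h1, h3, h2⟩
  · rintro (⟨h1, h2⟩ | ⟨h1, -, h2⟩)
    · exact ⟨h1, by linarith⟩
    · exact ⟨h1, h2⟩

lemma Sec_disjoint {u w w' h : ℝ} (hw : 0 ≤ w) (hw' : 0 ≤ w') (hs : w + w' ≤ 1) :
    Disjoint (Sec u w h) (Sec (u + w) w' h) := by
  rw [Set.disjoint_left]
  intro z hz hz'
  rw [mem_Sec_shift hw hs hw'] at hz'
  linarith [hz.2, hz'.2.1]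

lemma Sec_shift_subset {u c w W h H : ℝ} (hc : 0 ≤ c) (hw : 0 ≤ w) (hs : c + w ≤ W) (hW : W ≤ 1)
    (hh : h ≤ H) : Sec (u + c) w h ⊆ Sec u W H := by
  intro z hz
  rw [mem_Sec_shift hc (hs.trans hW) hw] at hz
  exact ⟨hz.1.trans hh, hz.2.2.trans_le hs⟩

lemma Sec_zero_width (u h : ℝ) : Sec u 0 h = ∅ :=
  Set.eq_empty_of_forall_notMem fun _ hz => (Int.fract_nonneg _).not_gt hz.2

lemma Sec_zero_height (u w : ℝ) : Sec u w 0 = ∅ :=
  Set.eq_empty_of_forall_notMem fun z hz => (ht_pos z).not_ge hz.1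

lemma PS_Sec_add {u w w' h : ℝ} (hw : 0 ≤ w) (hw' : 0 ≤ w') (hs : w + w' ≤ 1) (z : X) :
    PS μ (Sec u (w + w') h) z = PS μ (Sec u w h) z + PS μ (Sec (u + w) w' h) z := by
  rw [Sec_union hw hw' hs, PS_union (Sec_disjoint hw hw' hs) (measurableSet_Sec _ _ _)]

lemma real_Sec_add {u w w' h : ℝ} (hw : 0 ≤ w) (hw' : 0 ≤ w') (hs : w + w' ≤ 1) :
    μ.real (Sec u (w + w') h) = μ.real (Sec u w h) + μ.real (Sec (u + w) w' h) := by
  rw [Sec_union hw hw' hs, measureReal_union (Sec_disjoint hw hw' hs) (measurableSet_Sec _ _ _)]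

lemma real_Sec_sum {u w h : ℝ} (hw : 0 ≤ w) (n : ℕ) (hn : n * w ≤ 1) :
    μ.real (Sec u (n * w) h) = ∑ j ∈ Finset.range n, μ.real (Sec (u + j * w) w h) := by
  induction n with
  | zero => simp [Sec_zero_width]
  | succ n ih =>
    push_cast at hn ⊢
    rw [add_mul, one_mul] at hn ⊢
    rw [real_Sec_add (by positivity) hw hn, ih (by linarith), Finset.sum_range_succ]

/-- Near constancy of the kernel on small sets. -/
lemma near_const {R : Set X} {ζ₀ z : X} {r : ℝ}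
    (h1 : ∀ ζ ∈ R, ‖ζ₀.1 - ζ.1‖ ≤ r) (h2 : 20 * r ≤ dl ζ₀ z) :
    μ.real R / (2 * dl ζ₀ z ^ 2) ≤ ‖PS μ R z‖ := by
  have hd := dl_pos ζ₀ z
  have e1 : PS μ R z - (μ.real R : ℂ) * ker z ζ₀ = ∫ ζ in R, (ker z ζ - ker z ζ₀) ∂μ := by
    rw [integral_sub (integrable_ker z).integrableOn (integrable_const _), setIntegral_const]
    simp [PS]
  have e2 : ‖∫ ζ in R, (ker z ζ - ker z ζ₀) ∂μ‖ ≤ 1 / (2 * dl ζ₀ z ^ 2) * μ.real R := by
    refine norm_setIntegral_le_of_norm_le_const (measure_lt_top _ _) fun ζ hζ => ?_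
    rw [← ker_conj ζ z, ← ker_conj ζ₀ z, ← map_sub, Complex.norm_conj, norm_sub_rev]
    refine (norm_ker_sub (h1 ζ hζ) (by linarith)).trans ?_
    rw [div_le_div_iff₀ (by positivity) (by positivity)]
    nlinarith [pow_pos hd 2]
  have e3 : ‖(μ.real R : ℂ) * ker z ζ₀‖ = μ.real R / dl ζ₀ z ^ 2 := by
    rw [norm_mul, norm_ker, Complex.norm_real, Real.norm_eq_abs,
      abs_of_nonneg measureReal_nonneg, dl_comm]
    ring
  have e4 := norm_sub_norm_le ((μ.real R : ℂ) * ker z ζ₀) (PS μ R z)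
  rw [norm_sub_rev, e1, e3] at e4
  have : μ.real R / dl ζ₀ z ^ 2 = 2 * (μ.real R / (2 * dl ζ₀ z ^ 2)) := by field_simp
  have e5 : 1 / (2 * dl ζ₀ z ^ 2) * μ.real R = μ.real R / (2 * dl ζ₀ z ^ 2) := by ring
  linarith

/-- The Muckenhoupt-type bound with a hole. -/
lemma hole (hT : Test μ ν T) {a ℓ : ℝ} (h0 : 0 < ℓ) (h1 : ℓ ≤ 1) {ζ₀ : X}
    (hζ : ζ₀ ∈ Sec a ℓ ℓ) :
    μ.real (Sec a ℓ ℓ) * ∫ z in {z | 160 * ℓ ≤ dl z ζ₀}, 1 / dl z ζ₀ ^ 4 ∂ν ≤ 4 * T := by
  obtain ⟨hi, hb⟩ := hT.2 a ℓ h0 h1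
  set m := μ.real (Sec a ℓ ℓ) with hm
  have hm0 : 0 ≤ m := measureReal_nonneg
  have hS : MeasurableSet {z | 160 * ℓ ≤ dl z ζ₀} :=
    measurableSet_le measurable_const (measurable_dl_left ζ₀)
  have key : m ^ 2 / 4 * ∫ z in {z | 160 * ℓ ≤ dl z ζ₀}, 1 / dl z ζ₀ ^ 4 ∂ν ≤ T * m := by
    rw [← integral_const_mul]
    refine le_trans ?_ hb
    refine le_trans (setIntegral_mono_on ?_ hi.integrableOn hS ?_)
      (setIntegral_le_integral hi (Filter.Eventually.of_forall fun z => by positivity))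
    · exact ((integrable_inv_dl_left ζ₀ 4).const_mul _).integrableOn
    · intro z hz
      have hz' : 160 * ℓ ≤ dl ζ₀ z := by rw [dl_comm]; exact hz
      have := near_const (μ := μ) (R := Sec a ℓ ℓ) (ζ₀ := ζ₀) (z := z) (r := 8 * ℓ)
        (fun ζ hζ' => by linarith [norm_sub_le_of_mem_Sec hζ hζ']) (by linarith)
      have hd := dl_pos ζ₀ z
      rw [dl_comm z]
      calc m ^ 2 / 4 * (1 / dl ζ₀ z ^ 4) = (m / (2 * dl ζ₀ z ^ 2)) ^ 2 := by field_simp; ring
        _ ≤ _ := by gcongr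
  rcases hm0.eq_or_lt with h | h
  · rw [← h, zero_mul]
    linarith [hT.1]
  · nlinarith

lemma box_L1 (hT : Test ν μ T) {a ℓ : ℝ} (h0 : 0 < ℓ) (h1 : ℓ ≤ 1) (U : Set X)
    {η : ℝ} (hη : 0 < η) :
    ∫ ζ in U, ‖PS ν (Sec a ℓ ℓ) ζ‖ ∂μ ≤ T / (2 * η) + η * ν.real (Sec a ℓ ℓ) * μ.real U / 2 := by
  obtain ⟨hi, hb⟩ := hT.2 a ℓ h0 h1
  have hT0 := hT.1
  set m := ν.real (Sec a ℓ ℓ) with hm
  have hm0 : 0 ≤ m := measureReal_nonneg
  rcases hm0.eq_or_lt with h | h
  · have : ν (Sec a ℓ ℓ) = 0 := (measureReal_eq_zero_iff (measure_ne_top _ _)).1 h.symm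
    have h2 : ∀ ζ, PS ν (Sec a ℓ ℓ) ζ = 0 := fun ζ => by
      unfold PS
      rw [Measure.restrict_eq_zero.2 this, integral_zero_measure]
    simp only [h2, norm_zero, integral_zero, ← h]
    positivity
  · calc ∫ ζ in U, ‖PS ν (Sec a ℓ ℓ) ζ‖ ∂μ
        ≤ ∫ ζ in U, (1 / (2 * η * m) * ‖PS ν (Sec a ℓ ℓ) ζ‖ ^ 2 + η * m / 2) ∂μ := by
          refine integral_mono_of_nonneg (Filter.Eventually.of_forall fun ζ => norm_nonneg _)
            ((hi.const_mul _).integrableOn.add (integrable_const _))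
            (Filter.Eventually.of_forall fun ζ => ?_)
          have e : 1 / (2 * η * m) * ‖PS ν (Sec a ℓ ℓ) ζ‖ ^ 2 + η * m / 2
              - ‖PS ν (Sec a ℓ ℓ) ζ‖ = (‖PS ν (Sec a ℓ ℓ) ζ‖ - η * m) ^ 2 / (2 * η * m) := by
            field_simp
            ring
          have : 0 ≤ (‖PS ν (Sec a ℓ ℓ) ζ‖ - η * m) ^ 2 / (2 * η * m) := by positivity
          simp only
          linarith
      _ = 1 / (2 * η * m) * ∫ ζ in U, ‖PS ν (Sec a ℓ ℓ) ζ‖ ^ 2 ∂μ + η * m * μ.real U / 2 := by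
          rw [integral_add (hi.const_mul _).integrableOn (integrable_const _), integral_const_mul,
            setIntegral_const]
          simp only [smul_eq_mul]
          ring
      _ ≤ 1 / (2 * η * m) * (T * m) + η * m * μ.real U / 2 := by
          gcongr
          exact (setIntegral_le_integral hi
            (Filter.Eventually.of_forall fun z => by positivity)).trans hb
      _ = _ := by field_simp

lemma wide_L1 (hT : Test ν μ T) {u h : ℝ} (h0 : 0 < h) {U Z : Set X}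
    (hU : MeasurableSet U) {c : ℝ} (hc : 0 < c) (hUc : ∀ z ∈ U, c ≤ ht z) {η : ℝ} (hη : 0 < η)
    (j : ℕ) (hj : j * h ≤ 1) (hZ : Sec u (j * h) h ⊆ Z) :
    ∫ ζ in U, ‖PS ν (Sec u (j * h) h) ζ‖ ∂μ ≤
      j * (T / (2 * η) + η * ν.real Z * μ.real U / 2) := by
  induction j with
  | zero => simp [Sec_zero_width, PS]
  | succ j ih =>
    push_cast at hj hZ ⊢
    rw [add_mul, one_mul] at hj hZ ⊢
    have hjh : 0 ≤ (j : ℝ) * h := by positivity
    have i1 := ih (by linarith) ((Sec_mono (by linarith) le_rfl).trans hZ)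
    have i2 := box_L1 hT (a := u + j * h) h0 (by linarith) U hη
    have i3 : ν.real (Sec (u + j * h) h h) ≤ ν.real Z :=
      measureReal_mono ((Sec_shift_subset hjh h0.le le_rfl hj le_rfl).trans hZ)
    calc ∫ ζ in U, ‖PS ν (Sec u (j * h + h) h) ζ‖ ∂μ
        ≤ ∫ ζ in U, (‖PS ν (Sec u (j * h) h) ζ‖ + ‖PS ν (Sec (u + j * h) h h) ζ‖) ∂μ := by
          refine setIntegral_mono_on (integrableOn_norm_PS _ hU hc hUc)
            ((integrableOn_norm_PS _ hU hc hUc).add (integrableOn_norm_PS _ hU hc hUc)) hU ?_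
          intro ζ _
          rw [PS_Sec_add hjh h0.le hj]
          exact norm_add_le _ _
      _ = _ := integral_add (integrableOn_norm_PS _ hU hc hUc) (integrableOn_norm_PS _ hU hc hUc)
      _ ≤ j * (T / (2 * η) + η * ν.real Z * μ.real U / 2)
            + (T / (2 * η) + η * ν.real Z * μ.real U / 2) := by
          refine add_le_add i1 (i2.trans ?_)
          have : 0 ≤ μ.real U := measureReal_nonneg
          gcongr
      _ = _ := by ring

lemma col_L1 (hT : Test ν μ T) {u w h : ℝ} (hw : 0 < w) (hwh : h = 0 ∨ w ≤ h) {U Z : Set X}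
    (hU : MeasurableSet U) {c : ℝ} (hc : 0 < c) (hUc : ∀ z ∈ U, c ≤ ht z) {η : ℝ} (hη : 0 < η)
    {N : ℕ} (hN : 1 ≤ N) (hj : (N + 1) * h ≤ 1) (hZ : Sec u ((N + 1) * h) h ⊆ Z) :
    ∫ ζ in U, ‖PS ν (Sec u w h) ζ‖ ∂μ ≤
      2 * N * (T / (2 * η) + η * ν.real Z * μ.real U / 2)
        + ν.real Z * μ.real U / (N * c ^ 2) := by
  have hT0 := hT.1
  have hμU : 0 ≤ μ.real U := measureReal_nonneg
  have hνZ : 0 ≤ ν.real Z := measureReal_nonneg
  have hN0 : (0 : ℝ) < N := by exact_mod_cast hN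
  rcases hwh with rfl | hwh
  · simp only [Sec_zero_height, PS, Measure.restrict_empty, integral_zero_measure, norm_zero,
      integral_zero]
    positivity
  have h0 : 0 < h := hw.trans_le hwh
  have hsum : ∑ j ∈ Finset.range N, ν.real (Sec (u + (j + 1) * h) w h)
      ≤ ∑ _j ∈ Finset.range N, ν.real Z / N := by
    have e1 := real_Sec_sum (μ := ν) (u := u) (h := h) h0.le (N + 1) (by push_cast; exact hj)
    rw [Finset.sum_range_succ'] at e1
    push_cast at e1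
    have e2 : ν.real (Sec u ((N + 1) * h) h) ≤ ν.real Z := measureReal_mono hZ
    have e3 : ∑ j ∈ Finset.range N, ν.real (Sec (u + (j + 1) * h) w h)
        ≤ ∑ j ∈ Finset.range N, ν.real (Sec (u + (j + 1) * h) h h) :=
      Finset.sum_le_sum fun j _ => measureReal_mono (Sec_mono hwh le_rfl)
    have e4 : 0 ≤ ν.real (Sec (u + 0 * h) h h) := measureReal_nonneg
    rw [Finset.sum_const, Finset.card_range, nsmul_eq_mul, mul_div_cancel₀ _ hN0.ne']
    linarith
  obtain ⟨j, hjN, hjb⟩ := Finset.exists_le_of_sum_le (Finset.nonempty_range_iff.2 (by omega)) hsum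
  have hjN' : ((j + 1 : ℕ) : ℝ) ≤ N := by exact_mod_cast Finset.mem_range.1 hjN
  set k : ℕ := j + 1 with hk
  have hk' : (j : ℝ) + 1 = k := by rw [hk]; push_cast; ring
  rw [hk'] at hjb
  have hkh : 0 ≤ (k : ℝ) * h := by positivity
  have hkh' : (k : ℝ) * h ≤ N * h := by gcongr
  have hs : (k : ℝ) * h + w ≤ (N + 1) * h := by linarith
  have i1 := wide_L1 hT (u := u) h0 hU hc hUc hη k (by linarith)
    ((Sec_mono (by linarith) le_rfl).trans hZ)
  have i2 := wide_L1 hT (u := u + w) h0 hU hc hUc hη k (by linarith)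
    ((Sec_shift_subset hw.le hkh (by linarith) hj le_rfl).trans hZ)
  have hA : 0 ≤ T / (2 * η) + η * ν.real Z * μ.real U / 2 := by positivity
  calc ∫ ζ in U, ‖PS ν (Sec u w h) ζ‖ ∂μ
      ≤ ∫ ζ in U, (‖PS ν (Sec u (k * h) h) ζ‖ + ‖PS ν (Sec (u + w) (k * h) h) ζ‖
          + ν.real Z / (N * c ^ 2)) ∂μ := by
        refine setIntegral_mono_on (integrableOn_norm_PS _ hU hc hUc)
          (((integrableOn_norm_PS _ hU hc hUc).add (integrableOn_norm_PS _ hU hc hUc)).add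
            (integrable_const _)) hU ?_
        intro ζ hζ
        have e1 := PS_Sec_add (μ := ν) (u := u) (h := h) hw.le hkh (by linarith) ζ
        have e2 := PS_Sec_add (μ := ν) (u := u) (h := h) hkh hw.le (by linarith) ζ
        rw [add_comm w] at e1
        have e3 : PS ν (Sec u w h) ζ = PS ν (Sec u (k * h) h) ζ - PS ν (Sec (u + w) (k * h) h) ζ
            + PS ν (Sec (u + k * h) w h) ζ := by
          linear_combination e2 - e1
        have e4 := norm_PS_le (μ := ν) (Sec (u + k * h) w h) hc (hUc ζ hζ)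
        have e5 : ν.real (Sec (u + k * h) w h) / c ^ 2 ≤ ν.real Z / (N * c ^ 2) := by
          rw [← div_div]
          gcongr
        rw [e3]
        refine (norm_add_le _ _).trans (add_le_add (norm_sub_le _ _) (e4.trans e5))
    _ = ∫ ζ in U, ‖PS ν (Sec u (k * h) h) ζ‖ ∂μ + ∫ ζ in U, ‖PS ν (Sec (u + w) (k * h) h) ζ‖ ∂μ
          + ν.real Z * μ.real U / (N * c ^ 2) := by
        rw [integral_add (f := fun ζ => ‖PS ν (Sec u (k * h) h) ζ‖ +
          ‖PS ν (Sec (u + w) (k * h) h) ζ‖) ((integrableOn_norm_PS _ hU hc hUc).add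
          (integrableOn_norm_PS _ hU hc hUc)) (integrable_const _),
          integral_add (integrableOn_norm_PS _ hU hc hUc) (integrableOn_norm_PS _ hU hc hUc),
          setIntegral_const]
        simp only [smul_eq_mul]
        ring
    _ ≤ _ := by nlinarith

end Pool.Agent.P.MP_c45a97_an
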