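import Pool.Agent.P.MP_c45a97_an.Test

/-! The Muckenhoupt-type bound for the top part of a box. -/

namespace Pool.Agent.P.MP_c45a97_an

open MeasureTheory

noncomputable def B4 (ν : Measure X) (ζ : X) : ℝ := ∫ z, 1 / dl z ζ ^ 4 ∂ν

variable {μ ν : Measure X} [IsFiniteMeasure μ] [IsFiniteMeasure ν] {T T' : ℝ}

omit [IsFiniteMeasure ν] in
lemma B4_nonneg (ζ : X) : 0 ≤ B4 ν ζ :=
  integral_nonneg fun z => by have := dl_pos z ζ; positivity

lemma B4_le {ζ : X} {c : ℝ} (hc : 0 < c) (h : c ≤ ht ζ) : B4 ν ζ ≤ ν.real Set.univ / c ^ 4 := by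
  calc B4 ν ζ ≤ ∫ _z, 1 / c ^ 4 ∂ν :=
        integral_mono (integrable_inv_dl_left ζ 4) (integrable_const _) fun z =>
          inv_pow_dl_le hc (h.trans (ht_le_dl' z ζ)) 4
    _ = _ := by
        rw [integral_const, smul_eq_mul]
        ring

@[fun_prop]
lemma measurable_B4 : Measurable (B4 ν) :=
  (MeasureTheory.StronglyMeasurable.integral_prod_left (μ := ν)
    (f := fun z ζ => 1 / dl z ζ ^ 4)
    ((measurable_dl.pow_const 4).const_div 1).stronglyMeasurable).measurable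

lemma cell_bound (hT' : Test ν μ T') {a ℓ c H η : ℝ} (hℓ : 0 < ℓ) (hc : 0 < c) (hH : 0 < H)
    (hη : 0 < η) (hHc : 160 * H ≤ c) {U : Set X} (hU : MeasurableSet U) (hUQ : U ⊆ Sec a ℓ ℓ)
    (hUc : ∀ z ∈ U, c ≤ ht z) {ζ₀ : X} (hζ₀ : ζ₀ ∈ Sec a ℓ ℓ) {N : ℕ} (hN : 1 ≤ N)
    (hΓ : (320 + (N + 1) * 160) * ℓ ≤ 1) (p q : ℕ) (hp : (p + 1) * H ≤ 320 * ℓ)
    (hq : (q + 1) * H ≤ 160 * ℓ) :
    (ν.real (Sec (ang ζ₀ - 160 * ℓ + p * H) H ((q + 1) * H))
        - ν.real (Sec (ang ζ₀ - 160 * ℓ + p * H) H (q * H))) * μ.real U ≤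
      4 * (2410 * ℓ) ^ 2 * (2 * N * (T' / (2 * η) + η *
        ν.real (Sec (ang ζ₀ - 160 * ℓ) ((320 + (N + 1) * 160) * ℓ) (160 * ℓ)) * μ.real U / 2)
        + ν.real (Sec (ang ζ₀ - 160 * ℓ) ((320 + (N + 1) * 160) * ℓ) (160 * ℓ)) * μ.real U
          / (N * c ^ 2)) := by
  set u₀ := ang ζ₀ - 160 * ℓ with hu₀
  set Z := Sec u₀ ((320 + (N + 1) * 160) * ℓ) (160 * ℓ) with hZ
  set C₂ := Sec (u₀ + p * H) H ((q + 1) * H) with hC₂
  set C₁ := Sec (u₀ + p * H) H (q * H) with hC₁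
  have hN0 : (1 : ℝ) ≤ N := by exact_mod_cast hN
  have hq0 : (0 : ℝ) ≤ q := Nat.cast_nonneg q
  have hp0 : (0 : ℝ) ≤ p * H := by positivity
  have hsub : C₁ ⊆ C₂ := Sec_mono le_rfl (by nlinarith)
  have hcol : ∀ h : ℝ, 0 ≤ h → h ≤ 160 * ℓ → (h = 0 ∨ H ≤ h) →
      ∫ ζ in U, ‖PS ν (Sec (u₀ + p * H) H h) ζ‖ ∂μ ≤
      2 * N * (T' / (2 * η) + η * ν.real Z * μ.real U / 2)
        + ν.real Z * μ.real U / (N * c ^ 2) := by
    intro h h0 h1 h2
    have h3 : (N + 1) * h ≤ (N + 1) * (160 * ℓ) := by gcongr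
    refine col_L1 hT' hH h2 hU hc hUc hη hN (by nlinarith) ?_
    exact Sec_shift_subset hp0 (by positivity) (by nlinarith) hΓ h1
  have i2 := hcol ((q + 1) * H) (by positivity) hq (Or.inr (by nlinarith))
  have i1 := hcol (q * H) (by positivity) (by nlinarith) (by
    rcases Nat.eq_zero_or_pos q with h | h
    · left; simp [h]
    · right
      have : (1 : ℝ) ≤ q := by exact_mod_cast h
      nlinarith)
  rw [← hC₂] at i2
  rw [← hC₁] at i1
  set A := 2 * N * (T' / (2 * η) + η * ν.real Z * μ.real U / 2)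
        + ν.real Z * μ.real U / (N * c ^ 2) with hA
  have hA0 : 0 ≤ A := le_trans (integral_nonneg fun _ => norm_nonneg _) i1
  have hdiff : ν.real C₂ - ν.real C₁ = ν.real (C₂ \ C₁) :=
    (measureReal_sdiff hsub (measurableSet_Sec _ _ _)).symm
  rw [hdiff]
  rcases (C₂ \ C₁).eq_empty_or_nonempty with he | ⟨z₀, hz₀⟩
  · rw [he]
    simp only [measureReal_empty, zero_mul]
    positivity
  have hPS : ∀ ζ, PS ν (C₂ \ C₁) ζ = PS ν C₂ ζ - PS ν C₁ ζ := by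
    intro ζ
    have := PS_union (μ := ν) (S := C₂ \ C₁) (S' := C₁) Set.disjoint_sdiff_left
      (measurableSet_Sec _ _ _) ζ
    rw [Set.sdiff_union_of_subset hsub] at this
    rw [this]
    ring
  have hdiam : ∀ z ∈ C₂ \ C₁, ‖z₀.1 - z.1‖ ≤ 8 * H := by
    intro z hz
    have h1 := norm_sub_le_of_fract hz₀.1.2 hz.1.2
    have h2 : q * H < ht z := by
      by_contra h
      exact hz.2 ⟨not_lt.1 h, hz.1.2⟩
    have h3 : q * H < ht z₀ := by
      by_contra h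
      exact hz₀.2 ⟨not_lt.1 h, hz₀.1.2⟩
    have h4 : |ht z₀ - ht z| ≤ H := by
      have := hz.1.1
      have := hz₀.1.1
      rw [abs_le]
      constructor <;> linarith
    linarith
  have hz₀V : z₀ ∈ Sec u₀ (320 * ℓ) (160 * ℓ) :=
    Sec_shift_subset hp0 hH.le (by linarith) (by nlinarith) hq hz₀.1
  have hζ₀V : ζ₀ ∈ Sec u₀ (320 * ℓ) (160 * ℓ) := by
    have := mem_Sec_of_dl_lt (z := ζ₀) (ζ := ζ₀) (R := 160 * ℓ)
      (by linarith [dl_self ζ₀, hζ₀.1])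
    rwa [show 2 * (160 * ℓ) = 320 * ℓ by ring] at this
  have hpt : ∀ ζ ∈ U, ν.real (C₂ \ C₁) / (2 * (2410 * ℓ) ^ 2) ≤ ‖PS ν C₂ ζ‖ + ‖PS ν C₁ ζ‖ := by
    intro ζ hζ
    have h1 := near_const (μ := ν) (R := C₂ \ C₁) (ζ₀ := z₀) (z := ζ) hdiam
      (by linarith [hUc ζ hζ, ht_le_dl' z₀ ζ])
    have h2 : dl z₀ ζ ≤ 2410 * ℓ := by
      have a1 := dl_le_add z₀ ζ₀ ζ
      have a2 := dl_le_add ζ₀ ζ ζ
      have a3 := norm_sub_le_of_mem_Sec hz₀V hζ₀V
      have a4 := norm_sub_le_of_mem_Sec hζ₀ (hUQ hζ)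
      have a5 := dl_self ζ
      have a6 := (hUQ hζ).1
      linarith
    rw [hPS] at h1
    refine le_trans ?_ (h1.trans (norm_sub_le _ _))
    have := dl_pos z₀ ζ
    have : 0 ≤ ν.real (C₂ \ C₁) := measureReal_nonneg
    gcongr
  have hint : ν.real (C₂ \ C₁) / (2 * (2410 * ℓ) ^ 2) * μ.real U ≤ 2 * A := by
    calc ν.real (C₂ \ C₁) / (2 * (2410 * ℓ) ^ 2) * μ.real U
        = ∫ _ζ in U, ν.real (C₂ \ C₁) / (2 * (2410 * ℓ) ^ 2) ∂μ := by
          rw [setIntegral_const, smul_eq_mul, mul_comm]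
      _ ≤ ∫ ζ in U, (‖PS ν C₂ ζ‖ + ‖PS ν C₁ ζ‖) ∂μ :=
          setIntegral_mono_on (integrable_const _)
            ((integrableOn_norm_PS _ hU hc hUc).add (integrableOn_norm_PS _ hU hc hUc)) hU hpt
      _ = _ := integral_add (integrableOn_norm_PS _ hU hc hUc) (integrableOn_norm_PS _ hU hc hUc)
      _ ≤ 2 * A := by linarith
  rw [div_mul_eq_mul_div, div_le_iff₀ (by positivity)] at hint
  linarith

omit [IsFiniteMeasure ν] in
lemma real_Sec_telescope (u w H : ℝ) (n : ℕ) :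
    ν.real (Sec u w (n * H)) =
      ∑ q ∈ Finset.range n, (ν.real (Sec u w ((q + 1) * H)) - ν.real (Sec u w (q * H))) := by
  have := Finset.sum_range_sub (fun q : ℕ => ν.real (Sec u w (q * H))) n
  simp only [Nat.cast_zero, zero_mul, Sec_zero_height, measureReal_empty, sub_zero] at this
  rw [← this]
  push_cast
  rfl

lemma top (hT : Test μ ν T) (hT' : Test ν μ T') {ε : ℝ} (hε : 0 < ε) :
    ∃ C : ℝ, 0 ≤ C ∧ ∀ a ℓ : ℝ, 0 < ℓ → ℓ ≤ 1 → ∀ ζ₀ ∈ Sec a ℓ ℓ, ε * ℓ < ht ζ₀ →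
      μ.real (Sec a ℓ ℓ ∩ {ζ | ε * ℓ < ht ζ}) * B4 ν ζ₀ ≤ C := by
  obtain ⟨m, hm⟩ := exists_nat_ge (160 / ε)
  have hm0 : (0 : ℝ) < m := lt_of_lt_of_le (by positivity) hm
  set K : ℝ := (320 * m) * (160 * m) * (4 * 2410 ^ 2) with hK
  have hK0 : 0 < K := by positivity
  obtain ⟨N, hN⟩ := exists_nat_ge (4 * K / ε ^ 2)
  have hN0 : (0 : ℝ) < N := lt_of_lt_of_le (by positivity) hN
  have hN1 : 1 ≤ N := by exact_mod_cast hN0
  set Γ : ℝ := 320 + (N + 1) * 160 with hΓ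
  have hΓ0 : 0 < Γ := by positivity
  set Γ' : ℝ := 162 + 7 * Γ with hΓ'
  have hT0 := hT.1
  have hT0' := hT'.1
  set C₁ : ℝ := μ.real Set.univ * (ν.real Set.univ / (ε / Γ) ^ 4) with hC₁
  set C₂ : ℝ := 4 * T + (8 * K ^ 2 * N ^ 2 * T' + 4 * Γ' ^ 4 * T) / ε ^ 4 with hC₂
  have hC₁0 : 0 ≤ C₁ := by positivity
  have hC₂0 : 0 ≤ C₂ := by positivity
  refine ⟨C₁ + C₂, by positivity, fun a ℓ hℓ hℓ1 ζ₀ hζ₀ hζt => ?_⟩
  set U := Sec a ℓ ℓ ∩ {ζ | ε * ℓ < ht ζ} with hUdef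
  have hU : MeasurableSet U :=
    (measurableSet_Sec _ _ _).inter (measurableSet_lt measurable_const measurable_ht)
  have hμU : 0 ≤ μ.real U := measureReal_nonneg
  rcases le_or_gt (Γ * ℓ) 1 with hsm | hbig
  swap
  · have h1 : ε / Γ ≤ ht ζ₀ := by
      rw [div_le_iff₀ hΓ0]
      nlinarith
    have h2 := B4_le (ν := ν) (by positivity) h1
    have h3 : μ.real U ≤ μ.real Set.univ := measureReal_mono (Set.subset_univ _)
    have h4 := B4_nonneg (ν := ν) ζ₀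
    calc μ.real U * B4 ν ζ₀ ≤ C₁ := by rw [hC₁]; gcongr
      _ ≤ _ := by linarith
  set V := {z | dl z ζ₀ < 160 * ℓ} with hV
  have hVm : MeasurableSet V := measurableSet_lt (measurable_dl_left ζ₀) measurable_const
  have hVc : Vᶜ = {z | 160 * ℓ ≤ dl z ζ₀} := by
    ext z
    simp [hV]
  set u₀ := ang ζ₀ - 160 * ℓ with hu₀
  set Z := Sec u₀ (Γ * ℓ) (160 * ℓ) with hZ
  set F := ∫ z in Vᶜ, 1 / dl z ζ₀ ^ 4 ∂ν with hF
  have hF0 : 0 ≤ F := integral_nonneg fun z => by have := dl_pos z ζ₀; positivity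
  have hhole : μ.real U * F ≤ 4 * T := by
    have := hole hT hℓ hℓ1 hζ₀
    rw [← hVc, ← hF] at this
    refine le_trans ?_ this
    have : μ.real U ≤ μ.real (Sec a ℓ ℓ) := measureReal_mono Set.inter_subset_left
    gcongr
  have hζ₀Z : ζ₀ ∈ Z := by
    have := mem_Sec_of_dl_lt (z := ζ₀) (ζ := ζ₀) (R := 160 * ℓ)
      (by linarith [dl_self ζ₀, hζ₀.1])
    exact Sec_mono (by rw [hΓ]; nlinarith) le_rfl this
  have hZV : ν.real Z ≤ ν.real V + (Γ' * ℓ) ^ 4 * F := by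
    have e1 : ν.real Z ≤ ν.real V + ν.real (Z ∩ Vᶜ) := by
      refine le_trans (measureReal_mono ?_) (measureReal_union_le V (Z ∩ Vᶜ))
      intro z hz
      by_cases h : z ∈ V
      · exact Or.inl h
      · exact Or.inr ⟨hz, h⟩
    have e2 : ν.real (Z ∩ Vᶜ) ≤ (Γ' * ℓ) ^ 4 * F := by
      calc ν.real (Z ∩ Vᶜ) = ∫ _z in Z ∩ Vᶜ, (1 : ℝ) ∂ν := by simp
        _ ≤ ∫ z in Z ∩ Vᶜ, (Γ' * ℓ) ^ 4 * (1 / dl z ζ₀ ^ 4) ∂ν := by
            refine setIntegral_mono_on (integrable_const _)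
              ((integrable_inv_dl_left ζ₀ 4).const_mul _).integrableOn
              ((measurableSet_Sec _ _ _).inter hVm.compl) fun z hz => ?_
            have a1 := dl_le_add z ζ₀ ζ₀
            have a2 := norm_sub_le_of_mem_Sec hz.1 hζ₀Z
            have a3 := dl_self ζ₀
            have a4 := hζ₀.1
            have a5 : dl z ζ₀ ≤ Γ' * ℓ := by rw [hΓ']; linarith
            have a6 := dl_pos z ζ₀
            rw [mul_one_div, one_le_div (by positivity)]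
            gcongr
        _ ≤ ∫ z in Vᶜ, (Γ' * ℓ) ^ 4 * (1 / dl z ζ₀ ^ 4) ∂ν := by
            refine setIntegral_mono_set ((integrable_inv_dl_left ζ₀ 4).const_mul _).integrableOn
              (Filter.Eventually.of_forall fun z => ?_) Set.inter_subset_right.eventuallyLE
            have := dl_pos z ζ₀
            positivity
        _ = _ := integral_const_mul _ _
    linarith
  have hVsum : ν.real V * μ.real U ≤ K * ℓ ^ 2 * (2 * N * (T' / (2 * (1 / (4 * K * N * ℓ ^ 2)))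
      + (1 / (4 * K * N * ℓ ^ 2)) * ν.real Z * μ.real U / 2)
      + ν.real Z * μ.real U / (N * (ε * ℓ) ^ 2)) := by
    set A := 2 * N * (T' / (2 * (1 / (4 * K * N * ℓ ^ 2)))
      + (1 / (4 * K * N * ℓ ^ 2)) * ν.real Z * μ.real U / 2)
      + ν.real Z * μ.real U / (N * (ε * ℓ) ^ 2) with hA
    have hH : 0 < ℓ / m := by positivity
    have e1 : ν.real V ≤ ν.real (Sec u₀ (((320 * m : ℕ) : ℝ) * (ℓ / m))
        (((160 * m : ℕ) : ℝ) * (ℓ / m))) := by
      refine measureReal_mono fun z hz => ?_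
      have := mem_Sec_of_dl_lt hz
      refine Sec_mono (le_of_eq ?_) (le_of_eq ?_) this
      · push_cast; field_simp; norm_num
      · push_cast; field_simp
    rw [real_Sec_sum hH.le _ (by
      push_cast
      have : 320 * (m : ℝ) * (ℓ / m) = 320 * ℓ := by field_simp
      rw [this]
      rw [hΓ] at hsm
      nlinarith)] at e1
    rw [Finset.sum_congr rfl fun (j : ℕ) _ => real_Sec_telescope (ν := ν) (u₀ + j * (ℓ / m)) (ℓ / m)
      (ℓ / m) (160 * m)] at e1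
    have e2 : ∀ p ∈ Finset.range (320 * m), ∀ q ∈ Finset.range (160 * m),
        (ν.real (Sec (u₀ + p * (ℓ / m)) (ℓ / m) ((q + 1) * (ℓ / m)))
          - ν.real (Sec (u₀ + p * (ℓ / m)) (ℓ / m) (q * (ℓ / m)))) * μ.real U ≤
          4 * (2410 * ℓ) ^ 2 * A := by
      intro p hp q hq
      have hp' : (p : ℝ) + 1 ≤ 320 * m := by exact_mod_cast Finset.mem_range.1 hp
      have hq' : (q : ℝ) + 1 ≤ 160 * m := by exact_mod_cast Finset.mem_range.1 hq
      refine cell_bound hT' (a := a) hℓ (c := ε * ℓ) (by positivity) hH (by positivity) ?_ hU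
        Set.inter_subset_left (fun z hz => le_of_lt hz.2) hζ₀ hN1 hsm p q ?_ ?_
      · rw [div_le_iff₀ hε] at hm
        rw [mul_div_assoc', div_le_iff₀ hm0]
        nlinarith
      · calc ((p : ℝ) + 1) * (ℓ / m) ≤ 320 * m * (ℓ / m) := by gcongr
          _ = _ := by field_simp
      · calc ((q : ℝ) + 1) * (ℓ / m) ≤ 160 * m * (ℓ / m) := by gcongr
          _ = _ := by field_simp
    calc ν.real V * μ.real U ≤ _ := mul_le_mul_of_nonneg_right e1 hμU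
      _ ≤ ∑ _p ∈ Finset.range (320 * m), ∑ _q ∈ Finset.range (160 * m),
            4 * (2410 * ℓ) ^ 2 * A := by
          rw [Finset.sum_mul]
          refine Finset.sum_le_sum fun p hp => ?_
          rw [Finset.sum_mul]
          exact Finset.sum_le_sum fun q hq => e2 p hp q hq
      _ = K * ℓ ^ 2 * A := by
          simp only [Finset.sum_const, Finset.card_range, nsmul_eq_mul, hK]
          push_cast
          ring
  have hνZ : 0 ≤ ν.real Z := measureReal_nonneg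
  have hY : ν.real V * μ.real U ≤ (8 * K ^ 2 * N ^ 2 * T' + 4 * Γ' ^ 4 * T) * ℓ ^ 4 := by
    set Z' := ν.real Z * μ.real U with hZ'
    have hZ'0 : 0 ≤ Z' := by positivity
    have e1 : K * ℓ ^ 2 * (2 * N * (T' / (2 * (1 / (4 * K * N * ℓ ^ 2)))
        + (1 / (4 * K * N * ℓ ^ 2)) * ν.real Z * μ.real U / 2)
        + Z' / (N * (ε * ℓ) ^ 2))
        = 4 * K ^ 2 * N ^ 2 * T' * ℓ ^ 4 + Z' / 4 + K / (N * ε ^ 2) * Z' := by
      rw [hZ']
      field_simp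
    have e2 : K / (N * ε ^ 2) ≤ 1 / 4 := by
      rw [div_le_iff₀ (by positivity)] at hN ⊢
      linarith
    have e3 : Z' ≤ ν.real V * μ.real U + (Γ' * ℓ) ^ 4 * (4 * T) := by
      calc Z' ≤ (ν.real V + (Γ' * ℓ) ^ 4 * F) * μ.real U := by rw [hZ']; gcongr
        _ = ν.real V * μ.real U + (Γ' * ℓ) ^ 4 * (μ.real U * F) := by ring
        _ ≤ _ := by gcongr
    rw [e1] at hVsum
    have e4 : K / (N * ε ^ 2) * Z' ≤ 1 / 4 * Z' := by gcongr
    nlinarith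
  have hB : B4 ν ζ₀ ≤ ν.real V / (ε * ℓ) ^ 4 + F := by
    unfold B4
    rw [← integral_add_compl hVm (integrable_inv_dl_left ζ₀ 4)]
    gcongr
    calc ∫ z in V, 1 / dl z ζ₀ ^ 4 ∂ν ≤ ∫ _z in V, 1 / (ε * ℓ) ^ 4 ∂ν :=
          setIntegral_mono_on (integrable_inv_dl_left ζ₀ 4).integrableOn (integrable_const _) hVm
            fun z _ => inv_pow_dl_le (by positivity) (hζt.le.trans (ht_le_dl' z ζ₀)) 4
      _ = _ := by
          rw [setIntegral_const, smul_eq_mul]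
          ring
  calc μ.real U * B4 ν ζ₀ ≤ μ.real U * (ν.real V / (ε * ℓ) ^ 4 + F) := by gcongr
    _ = ν.real V * μ.real U / (ε * ℓ) ^ 4 + μ.real U * F := by ring
    _ ≤ (8 * K ^ 2 * N ^ 2 * T' + 4 * Γ' ^ 4 * T) * ℓ ^ 4 / (ε * ℓ) ^ 4 + 4 * T := by gcongr
    _ = C₂ := by
        rw [hC₂]
        field_simp
        ring
    _ ≤ _ := by linarith

end Pool.Agent.P.MP_c45a97_an
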