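import Pool.Agent.P.MP_c45a97_an.Geom

/-! The rotated `M`-adic tree of boxes, good indices. -/

namespace Pool.Agent.P.MP_c45a97_an

def MM : ℕ := 16384

def LL : ℕ := 256

lemma MM_eq : MM = 16384 := rfl

lemma LL_eq : LL = 256 := rfl

lemma MM_real : (MM : ℝ) = 16384 := by rw [MM_eq]; norm_num

lemma LL_real : (LL : ℝ) = 256 := by rw [LL_eq]; norm_num

attribute [irreducible] MM LL

lemma MM_pos : 0 < MM := by rw [MM_eq]; norm_num

lemma MM_pow_pos (k : ℕ) : 0 < MM ^ k := pow_pos MM_pos k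

lemma MMr_pos : (0 : ℝ) < MM := by exact_mod_cast MM_pos

lemma LLr_pos : (0 : ℝ) < LL := by rw [LL_real]; norm_num

lemma LL_le_MM : (LL : ℝ) ≤ MM := by rw [LL_real, MM_real]; norm_num

noncomputable def hh (k : ℕ) : ℝ := 1 / (MM : ℝ) ^ k

lemma hh_pos (k : ℕ) : 0 < hh k := by
  have := MMr_pos
  unfold hh
  positivity

lemma hh_mul (k : ℕ) : (MM : ℝ) ^ k * hh k = 1 := by
  have := MMr_pos
  unfold hh
  field_simp

lemma hh_add (k s : ℕ) : hh k = (MM : ℝ) ^ s * hh (k + s) := by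
  have := MMr_pos
  unfold hh
  rw [pow_add]
  field_simp

lemma hh_add' (k s : ℕ) : hh (k + s) = hh s * hh k := by
  have := MMr_pos
  unfold hh
  rw [pow_add]
  field_simp

lemma hh_zero : hh 0 = 1 := by simp [hh]

lemma one_le_MM_pow (s : ℕ) : (1 : ℝ) ≤ (MM : ℝ) ^ s :=
  one_le_pow₀ (by rw [MM_real]; norm_num)

lemma hh_anti {i k : ℕ} (h : i ≤ k) : hh k ≤ hh i := by
  obtain ⟨s, rfl⟩ := Nat.exists_eq_add_of_le h
  rw [hh_add i s]
  exact le_mul_of_one_le_left (hh_pos _).le (one_le_MM_pow s)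

lemma hh_le_one (k : ℕ) : hh k ≤ 1 := hh_zero ▸ hh_anti (Nat.zero_le k)

noncomputable def idx (a : ℝ) (k : ℕ) (z : X) : ℕ := ⌊(MM : ℝ) ^ k * Int.fract (ang z + a)⌋₊

def box (a : ℝ) (k j : ℕ) : Set X := {z | ht z ≤ hh k ∧ idx a k z = j}

def good (k j : ℕ) : Prop :=
  ∀ s, 1 ≤ s → s ≤ k → LL ^ s ≤ j % MM ^ s ∧ j % MM ^ s + LL ^ s < MM ^ s

variable {a : ℝ}

lemma idx_spec (k : ℕ) (z : X) : (idx a k z : ℝ) * hh k ≤ Int.fract (ang z + a) ∧
    Int.fract (ang z + a) < (idx a k z + 1) * hh k := by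
  have h0 : 0 ≤ (MM : ℝ) ^ k * Int.fract (ang z + a) :=
    mul_nonneg (pow_pos MMr_pos k).le (Int.fract_nonneg _)
  have h1 : (idx a k z : ℝ) ≤ _ := Nat.floor_le h0
  have h2 : _ < (idx a k z : ℝ) + 1 := Nat.lt_floor_add_one _
  have e : Int.fract (ang z + a) = ((MM : ℝ) ^ k * Int.fract (ang z + a)) * hh k := by
    rw [mul_comm ((MM : ℝ) ^ k), mul_assoc, hh_mul, mul_one]
  have := hh_pos k
  constructor
  · rw [e]; gcongr
  · rw [e]; gcongr

lemma idx_eq_iff (k : ℕ) (z : X) (j : ℕ) : idx a k z = j ↔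
    (j : ℝ) * hh k ≤ Int.fract (ang z + a) ∧ Int.fract (ang z + a) < (j + 1) * hh k := by
  constructor
  · rintro rfl
    exact idx_spec k z
  · rintro ⟨h1, h2⟩
    obtain ⟨h3, h4⟩ := idx_spec (a := a) k z
    have := hh_pos k
    have e1 : (j : ℝ) < idx a k z + 1 := lt_of_mul_lt_mul_right (h1.trans_lt h4) this.le
    have e2 : (idx a k z : ℝ) < j + 1 := lt_of_mul_lt_mul_right (h3.trans_lt h2) this.le
    have e3 : j < idx a k z + 1 := by exact_mod_cast e1
    have e4 : idx a k z < j + 1 := by exact_mod_cast e2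
    omega

lemma idx_lt (k : ℕ) (z : X) : idx a k z < MM ^ k := by
  have h1 := (idx_spec (a := a) k z).1.trans_lt (Int.fract_lt_one _)
  rw [← hh_mul k] at h1
  have := lt_of_mul_lt_mul_right h1 (hh_pos k).le
  exact_mod_cast this

lemma idx_div (k s : ℕ) (z : X) : idx a (k + s) z / MM ^ s = idx a k z := by
  unfold idx
  rw [← Nat.floor_div_natCast]
  congr 1
  have := MMr_pos
  push_cast
  rw [pow_add]
  field_simp

lemma idx_div' {i k : ℕ} (h : i ≤ k) (z : X) : idx a k z / MM ^ (k - i) = idx a i z := by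
  obtain ⟨s, rfl⟩ := Nat.exists_eq_add_of_le h
  rw [Nat.add_sub_cancel_left, idx_div]

lemma idx_succ_div (k : ℕ) (z : X) : idx a (k + 1) z / MM = idx a k z := by
  have := idx_div (a := a) k 1 z
  rwa [pow_one] at this

lemma idx_zero (z : X) : idx a 0 z = 0 := by
  have := idx_lt (a := a) 0 z
  simpa using this

lemma idx_eq_of_le {i k : ℕ} (h : i ≤ k) {z z' : X} (e : idx a k z = idx a k z') :
    idx a i z = idx a i z' := by
  rw [← idx_div' h z, ← idx_div' h z', e]

@[fun_prop]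
lemma measurable_idx (k : ℕ) : Measurable (idx a k) :=
  Measurable.nat_floor ((measurable_ang.add_const a).fract.const_mul _)

lemma measurableSet_box (k j : ℕ) : MeasurableSet (box a k j) :=
  (measurableSet_le measurable_ht measurable_const).inter
    (measurable_idx k (measurableSet_singleton j))

lemma box_eq_Sec {k j : ℕ} (hj : j < MM ^ k) :
    box a k j = Sec (-a + j * hh k) (hh k) (hh k) := by
  ext z
  have h1 : ((j : ℝ) + 1) ≤ (MM : ℝ) ^ k := by exact_mod_cast hj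
  have h2 := hh_pos k
  have h3 : (j : ℝ) * hh k + hh k ≤ 1 := by
    rw [← hh_mul k]
    nlinarith
  rw [mem_Sec_shift (by positivity) h3 h2.le, sub_neg_eq_add]
  simp only [box, Set.mem_ofPred_eq, idx_eq_iff, add_mul, one_mul]

lemma box_zero : box a 0 0 = Set.univ :=
  Set.eq_univ_of_forall fun z => ⟨by rw [hh_zero]; exact (ht_lt_one z).le, idx_zero z⟩

lemma mem_box_of_le {i k : ℕ} (h : i ≤ k) {z : X} (hz : ht z ≤ hh k) : z ∈ box a i (idx a i z) :=
  ⟨hz.trans (hh_anti h), rfl⟩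

lemma box_subset {i k : ℕ} (h : i ≤ k) (j : ℕ) : box a k j ⊆ box a i (j / MM ^ (k - i)) := by
  rintro z ⟨h1, rfl⟩
  exact ⟨h1.trans (hh_anti h), (idx_div' h z).symm⟩

lemma box_succ_subset (k j : ℕ) : box a (k + 1) j ⊆ box a k (j / MM) := by
  rintro z ⟨h1, rfl⟩
  exact ⟨h1.trans (hh_anti (Nat.le_succ k)), (idx_succ_div k z).symm⟩

lemma norm_sub_le_of_mem_box {k j : ℕ} {z z' : X} (hz : z ∈ box a k j) (hz' : z' ∈ box a k j) :
    ‖z.1 - z'.1‖ ≤ 8 * hh k := by
  have hj : j < MM ^ k := hz.2 ▸ idx_lt k z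
  rw [box_eq_Sec hj] at hz hz'
  linarith [norm_sub_le_of_mem_Sec hz hz']

/-- Good boxes are far from the complement of their ancestors. -/
lemma sep {i k : ℕ} (hik : i < k) {z ζ : X} (hg : good k (idx a k z))
    (hζ : ζ ∉ box a i (idx a i z)) : (LL : ℝ) ^ (k - i) * hh k ≤ dl z ζ := by
  obtain ⟨s, rfl⟩ := Nat.exists_eq_add_of_le hik.le
  rw [Nat.add_sub_cancel_left]
  have hpos := hh_pos (i + s)
  by_cases h1 : ht ζ ≤ hh i
  swap
  · push Not at h1
    calc (LL : ℝ) ^ s * hh (i + s) ≤ (MM : ℝ) ^ s * hh (i + s) := by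
          exact mul_le_mul_of_nonneg_right (pow_le_pow_left₀ LLr_pos.le LL_le_MM s) hpos.le
      _ = hh i := (hh_add i s).symm
      _ ≤ _ := h1.le.trans (ht_le_dl' z ζ)
  have h2 : idx a i ζ ≠ idx a i z := fun h => hζ ⟨h1, h⟩
  obtain ⟨g1, g2⟩ := hg s (by omega) (by omega)
  set j := idx a (i + s) z with hj
  set p := idx a i z with hp
  have e : MM ^ s * p + j % MM ^ s = j := by
    rw [hp, ← idx_div i s z]
    exact Nat.div_add_mod _ _
  set r := j % MM ^ s with hr
  have e' : (MM : ℝ) ^ s * p + r = j := by exact_mod_cast e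
  have g1' : (LL : ℝ) ^ s ≤ r := by exact_mod_cast g1
  have g2' : (r : ℝ) + (LL : ℝ) ^ s + 1 ≤ (MM : ℝ) ^ s := by exact_mod_cast g2
  obtain ⟨z1, z2⟩ := idx_spec (a := a) (i + s) z
  obtain ⟨w1, w2⟩ := idx_spec (a := a) i ζ
  rw [← hj] at z1 z2
  have hi := hh_add i s
  have hp1 : (p : ℝ) + 1 ≤ (MM : ℝ) ^ i := by exact_mod_cast idx_lt (a := a) i z
  have hone := hh_mul i
  have hi0 := hh_pos i
  have f0 := Int.fract_nonneg (ang ζ + a)
  have f1 := Int.fract_lt_one (ang ζ + a)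
  set t := Int.fract (ang z + a) with ht'
  set t' := Int.fract (ang ζ + a) with ht''
  have lo : p * hh i + (LL : ℝ) ^ s * hh (i + s) ≤ t := by
    rw [hi]
    nlinarith
  have hi' : t + (LL : ℝ) ^ s * hh (i + s) ≤ (p + 1) * hh i := by
    rw [hi]
    nlinarith
  have hp0 : (0 : ℝ) ≤ p * hh i := by positivity
  have hp2 : ((p : ℝ) + 1) * hh i ≤ 1 := by nlinarith
  have key : ang z - ang ζ + ((⌊ang ζ + a⌋ - ⌊ang z + a⌋ : ℤ) : ℝ) = t - t' := by
    rw [ht', ht'', Int.fract, Int.fract]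
    push_cast
    ring
  rcases lt_or_gt_of_ne h2 with h | h
  · have h' : (idx a i ζ : ℝ) + 1 ≤ p := by exact_mod_cast h
    have : t' ≤ p * hh i := by nlinarith
    exact le_dl (⌊ang ζ + a⌋ - ⌊ang z + a⌋) (by rw [key]; linarith) (by rw [key]; linarith)
  · have h' : (p : ℝ) + 1 ≤ idx a i ζ := by exact_mod_cast h
    have : (p + 1) * hh i ≤ t' := by nlinarith
    refine le_dl (⌊ang ζ + a⌋ - ⌊ang z + a⌋ + 1) ?_ ?_
    · rw [Int.cast_add, ← add_assoc, key]
      push_cast
      linarith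
    · rw [Int.cast_add, ← add_assoc, key]
      push_cast
      linarith

lemma LL_le_pow {s : ℕ} (hs : 1 ≤ s) : (256 : ℝ) ≤ (LL : ℝ) ^ s := by
  rw [LL_real]
  exact le_self_pow₀ (by norm_num) (by omega)

lemma sep' {i k : ℕ} (hik : i < k) {z ζ : X} (hg : good k (idx a k z))
    (hζ : ζ ∉ box a i (idx a i z)) : 256 * hh k ≤ dl z ζ := by
  refine le_trans ?_ (sep hik hg hζ)
  have := hh_pos k
  gcongr
  exact LL_le_pow (by omega)

lemma idx_shift (k m : ℕ) (z : X) : idx (a + m * hh k) k z = (idx a k z + m) % MM ^ k := by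
  rw [idx_eq_iff]
  obtain ⟨z1, z2⟩ := idx_spec (a := a) k z
  have e := Nat.div_add_mod (idx a k z + m) (MM ^ k)
  have hr := Nat.mod_lt (idx a k z + m) (MM_pow_pos k)
  set q := (idx a k z + m) / MM ^ k
  set r := (idx a k z + m) % MM ^ k
  have e' : (MM : ℝ) ^ k * q + r = idx a k z + m := by exact_mod_cast e
  have hr' : (r : ℝ) + 1 ≤ (MM : ℝ) ^ k := by exact_mod_cast hr
  have h1 := hh_mul k
  have h0 := hh_pos k
  have e2 : (q : ℝ) + r * hh k = idx a k z * hh k + m * hh k := by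
    calc (q : ℝ) + r * hh k = ((MM : ℝ) ^ k * q + r) * hh k := by
          rw [add_mul, mul_comm ((MM : ℝ) ^ k), mul_assoc, h1, mul_one]
      _ = _ := by rw [e', add_mul]
  have hr0 : (0 : ℝ) ≤ r * hh k := by positivity
  have hr1 : ((r : ℝ) + 1) * hh k ≤ 1 := by nlinarith
  have e3 : Int.fract (ang z + (a + m * hh k)) = Int.fract (ang z + a) + m * hh k - q := by
    rw [Int.fract_eq_iff]
    refine ⟨by linarith, by linarith, ⌊ang z + a⌋ + q, ?_⟩
    rw [Int.fract]
    push_cast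
    ring
  rw [e3]
  constructor <;> linarith

lemma idx_shift_iff (k m : ℕ) (z z' : X) :
    idx (a + m * hh k) k z = idx (a + m * hh k) k z' ↔ idx a k z = idx a k z' := by
  rw [idx_shift, idx_shift]
  constructor
  · intro h
    exact Nat.ModEq.eq_of_lt_of_lt (Nat.ModEq.add_right_cancel' m h) (idx_lt k z) (idx_lt k z')
  · intro h
    rw [h]

lemma idx_add_one (k : ℕ) (z : X) : idx (a + 1) k z = idx a k z := by
  unfold idx
  rw [← add_assoc, Int.fract_add_one]

/-! Counting. -/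

lemma sum_range_shift {F : ℕ → ℝ} {N : ℕ} (h : ∀ j, F (j + N) = F j) (c : ℕ) :
    ∑ j ∈ Finset.range N, F (j + c) = ∑ j ∈ Finset.range N, F j := by
  induction c with
  | zero => rfl
  | succ c ih =>
    rw [← ih]
    have h1 := Finset.sum_range_succ (fun j => F (j + c)) N
    have h2 := Finset.sum_range_succ' (fun j => F (j + c)) N
    simp only [zero_add] at h2
    rw [add_comm N c, h c] at h1
    have h3 : ∀ j, j + 1 + c = j + (c + 1) := fun j => by ring
    simp only [h3] at h2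
    linarith

lemma sum_range_mul_periodic {F : ℕ → ℝ} {N : ℕ} (h : ∀ j, F (j + N) = F j) (q : ℕ) :
    ∑ j ∈ Finset.range (q * N), F j = q * ∑ j ∈ Finset.range N, F j := by
  induction q with
  | zero => simp
  | succ q ih =>
    rw [add_mul, one_mul, Finset.sum_range_add, ih]
    simp_rw [add_comm (q * N)]
    rw [sum_range_shift h]
    push_cast
    ring

open Classical in
lemma count_bad (k : ℕ) :
    ∑ j ∈ Finset.range (MM ^ k), (if good k j then (0 : ℝ) else 1) ≤ (MM : ℝ) ^ k / 16 := by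
  set F : ℕ → ℕ → ℝ := fun s j =>
    if LL ^ s ≤ j % MM ^ s ∧ j % MM ^ s + LL ^ s < MM ^ s then 0 else 1 with hF
  have F0 : ∀ s j, 0 ≤ F s j := fun s j => by
    simp only [hF]
    split_ifs <;> norm_num
  have h1 : ∀ j, (if good k j then (0 : ℝ) else 1) ≤ ∑ s ∈ Finset.range k, F (s + 1) j := by
    intro j
    split_ifs with h
    · exact Finset.sum_nonneg fun s _ => F0 _ _
    · unfold good at h
      push Not at h
      obtain ⟨s, hs1, hs2, hs⟩ := h
      obtain ⟨s, rfl⟩ : ∃ t, s = t + 1 := ⟨s - 1, by omega⟩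
      refine le_trans ?_ (Finset.single_le_sum (f := fun s => F (s + 1) j) (fun s _ => F0 _ _)
        (Finset.mem_range.2 hs2))
      simp only [hF]
      rw [if_neg]
      intro h
      exact (hs h.1).not_gt h.2
  have h2 : ∀ s, ∑ j ∈ Finset.range (MM ^ s), F s j ≤ 2 * (LL : ℝ) ^ s := by
    intro s
    have e1 : ∀ j ∈ Finset.range (MM ^ s), F s j ≤
        (if j ∈ Finset.range (LL ^ s) then (1 : ℝ) else 0)
          + (if j ∈ Finset.Ico (MM ^ s - LL ^ s) (MM ^ s) then 1 else 0) := by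
      intro j hj
      have hj' := Finset.mem_range.1 hj
      simp only [hF, Nat.mod_eq_of_lt hj', Finset.mem_range, Finset.mem_Ico]
      split_ifs <;> first | omega | norm_num
    refine (Finset.sum_le_sum e1).trans ?_
    rw [Finset.sum_add_distrib, Finset.sum_boole, Finset.sum_boole]
    have c1 : ((Finset.range (MM ^ s)).filter (fun j => j ∈ Finset.range (LL ^ s))).card
        ≤ LL ^ s := by
      refine (Finset.card_le_card (t := Finset.range (LL ^ s)) fun j hj => ?_).trans (by simp)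
      exact (Finset.mem_filter.1 hj).2
    have c2 : ((Finset.range (MM ^ s)).filter
        (fun j => j ∈ Finset.Ico (MM ^ s - LL ^ s) (MM ^ s))).card ≤ LL ^ s := by
      refine (Finset.card_le_card (t := Finset.Ico (MM ^ s - LL ^ s) (MM ^ s))
        fun j hj => ?_).trans (by rw [Nat.card_Ico]; omega)
      exact (Finset.mem_filter.1 hj).2
    have c1' : (((Finset.range (MM ^ s)).filter
      (fun j => j ∈ Finset.range (LL ^ s))).card : ℝ) ≤ (LL : ℝ) ^ s := by exact_mod_cast c1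
    have c2' : (((Finset.range (MM ^ s)).filter
      (fun j => j ∈ Finset.Ico (MM ^ s - LL ^ s) (MM ^ s))).card : ℝ) ≤ (LL : ℝ) ^ s := by
      exact_mod_cast c2
    linarith
  have h3 : ∀ s ∈ Finset.range k, ∑ j ∈ Finset.range (MM ^ k), F (s + 1) j ≤
      (MM : ℝ) ^ k / 32 * (1 / 2) ^ s := by
    intro s hs
    obtain ⟨q, rfl⟩ := Nat.exists_eq_add_of_le (Nat.succ_le_of_lt (Finset.mem_range.1 hs))
    rw [Nat.succ_eq_add_one, pow_add, mul_comm, sum_range_mul_periodic (by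
      intro j
      simp only [hF, Nat.add_mod_right])]
    have e := h2 (s + 1)
    have hM := MMr_pos
    have e2 : 2 * (LL : ℝ) ^ (s + 1) ≤ (MM : ℝ) ^ (s + 1) / 32 * (1 / 2) ^ s := by
      rw [MM_real, LL_real, pow_succ, pow_succ]
      have : (256 : ℝ) ^ s ≤ 16384 ^ s * (1 / 2) ^ s := by
        rw [← mul_pow]
        gcongr
        norm_num
      nlinarith
    push_cast
    calc (MM : ℝ) ^ q * ∑ j ∈ Finset.range (MM ^ (s + 1)), F (s + 1) j
        ≤ (MM : ℝ) ^ q * ((MM : ℝ) ^ (s + 1) / 32 * (1 / 2) ^ s) := by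
          gcongr
          exact e.trans e2
      _ = _ := by rw [pow_add]; ring
  calc _ ≤ ∑ j ∈ Finset.range (MM ^ k), ∑ s ∈ Finset.range k, F (s + 1) j :=
        Finset.sum_le_sum fun j _ => h1 j
    _ = ∑ s ∈ Finset.range k, ∑ j ∈ Finset.range (MM ^ k), F (s + 1) j := Finset.sum_comm
    _ ≤ ∑ s ∈ Finset.range k, (MM : ℝ) ^ k / 32 * (1 / 2) ^ s := Finset.sum_le_sum h3
    _ = (MM : ℝ) ^ k / 32 * ∑ s ∈ Finset.range k, (1 / 2) ^ s := by rw [Finset.mul_sum]
    _ ≤ (MM : ℝ) ^ k / 32 * 2 := by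
        have := MMr_pos
        gcongr
        exact sum_geometric_two_le k
    _ = _ := by ring

lemma card_div_eq (N d p : ℕ) (hd : 0 < d) :
    ((Finset.range N).filter (fun j => j / d = p)).card ≤ d := by
  refine (Finset.card_le_card (t := Finset.Ico (p * d) (p * d + d)) fun j hj => ?_).trans (by simp)
  have h := (Finset.mem_filter.1 hj).2
  rw [Finset.mem_Ico, ← h]
  constructor
  · exact Nat.div_mul_le_self j d
  · exact Nat.lt_div_mul_add hd

end Pool.Agent.P.MP_c45a97_an
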